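import Mathlib

/-!
# MP_44129c_co: definitions (FIXED, do not change)

Theorem to prove (full answer of Q1 for all large m): there is m₀ such that for all m ≥ m₀ and all
N the two properties of the frozen statement are equivalent.  Overview of the proof:
`/team-store/blueprint_44129.md`.
-/

set_option autoImplicit false

namespace ZS44129

open Finset

/-- `c` has no zero-sum double star with `m` edges (centre edge `uv`, leaves `X` at `u` and `Y` at
`v`; `X` or `Y` may be empty, so stars with `m` edges are included). -/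
def ZSF {V : Type} [DecidableEq V] (m : ℕ) (c : V → V → ZMod m) : Prop :=
  ∀ u v : V, u ≠ v → ∀ X Y : Finset V, Disjoint X Y → u ∉ X → v ∉ X → u ∉ Y → v ∉ Y →
    X.card + Y.card + 1 = m → c u v + ∑ x ∈ X, c u x + ∑ y ∈ Y, c v y ≠ 0

/-- the 2-colouring `b` has no monochromatic double star with `m` edges. -/
def MF {V : Type} [DecidableEq V] (m : ℕ) (b : V → V → Bool) : Prop :=
  ∀ u v : V, u ≠ v → ∀ X Y : Finset V, Disjoint X Y → u ∉ X → v ∉ X → u ∉ Y → v ∉ Y →
    X.card + Y.card + 1 = m → ¬ ((∀ x ∈ X, b u x = b u v) ∧ (∀ y ∈ Y, b v y = b u v))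

/-! ### Systems of slots

A system has slots `w : W`, every slot `w` has a finite set `O w` of options (colours); a
configuration `σ : W → Option (ZMod m)` picks exactly `M` slots and for each picked slot one of its
options (`σ w = some g` with `g ∈ O w`; `σ w = none`: not picked).  `F : Option (ZMod m)` is a
forced colour (`none`: no forced colour), which counts in all sums. -/

/-- value of a slot: `φ g` for `some g` and `0` for `none`. -/
def ov {G A : Type} [Zero A] (φ : G → A) (o : Option G) : A := o.elim 0 φ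

/-- number of slots picked with colour `g`. -/
def cnt {m : ℕ} {W : Type} [Fintype W] (σ : W → Option (ZMod m)) (g : ZMod m) : ℕ :=
  (univ.filter (fun w => σ w = some g)).card

/-- `σ` is a configuration with `M` picks. -/
structure Cfg {m : ℕ} {W : Type} [Fintype W] (O : W → Finset (ZMod m)) (M : ℕ)
    (σ : W → Option (ZMod m)) : Prop where
  mem : ∀ w g, σ w = some g → g ∈ O w
  card : (univ.filter (fun w => (σ w).isSome = true)).card = M

/-- total sum (forced colour included). -/
def tot {m : ℕ} {W : Type} [Fintype W] (F : Option (ZMod m)) (σ : W → Option (ZMod m)) :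
    ZMod m :=
  ov id F + ∑ w, ov id (σ w)

/-- total of the integer valued function `n` (forced colour included). -/
def xi {m : ℕ} {W : Type} [Fintype W] (n : ZMod m → ℤ) (F : Option (ZMod m))
    (σ : W → Option (ZMod m)) : ℤ :=
  ov n F + ∑ w, ov n (σ w)

/-- a system with palette `P`, parameter `q`, `M` picks, forced colour `F`. -/
structure Sys (m q : ℕ) {W : Type} [Fintype W] (O : W → Finset (ZMod m)) (F : Option (ZMod m))
    (M : ℕ) (P : Finset (ZMod m)) : Prop where
  /-- all options are palette colours -/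
  sub : ∀ w, O w ⊆ P
  forced : ∀ g, F = some g → g ∈ P
  Mm : M + (if F.isSome = true then 1 else 0) = m
  ne : P.Nonempty
  pal : P.card ≤ 4 * q
  /-- every palette colour is an option of at least `m / q` slots -/
  mult : ∀ g ∈ P, m ≤ q * (univ.filter (fun w => g ∈ O w)).card
  /-- at least `(11/10) m` slots have an option -/
  slots : 11 * m ≤ 10 * (univ.filter (fun w => (O w).Nonempty)).card
  /-- zero is never attained -/
  zf : ∀ σ, Cfg O M σ → tot F σ ≠ 0

/-- every vector can be shortened to one with entries at most `k` and the same image. -/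
def Full (m : ℕ) (P : Finset (ZMod m)) (k : ℕ) : Prop :=
  ∀ z : ZMod m → ℤ, ∑ g ∈ P, z g = 0 →
    ∃ z' : ZMod m → ℤ, ∑ g ∈ P, z' g = 0 ∧ ∑ g ∈ P, z' g • g = ∑ g ∈ P, z g • g ∧
      ∀ g ∈ P, |z' g| ≤ k

/-- the one-dimensional lattice structure of a palette: integer coordinates `n` with period `f`.
`A` bounds the coordinates, `C` bounds everything else. -/
structure Lat (m : ℕ) (P : Finset (ZMod m)) (A C : ℕ) (n : ZMod m → ℤ) (f : ℕ) : Prop where
  bound : ∀ g ∈ P, |n g| ≤ A
  zero : ∃ g ∈ P, n g = 0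
  nonc : ∃ g ∈ P, n g ≠ 0
  fpos : 0 < f
  flow : m ≤ C * f
  ker : ∀ z : ZMod m → ℤ, ∑ g ∈ P, z g = 0 → ∑ g ∈ P, z g • g = 0 →
    (f : ℤ) ∣ ∑ g ∈ P, z g * n g
  tor : ∃ t : ℕ, 0 < t ∧ t ≤ C ∧ ∀ z : ZMod m → ℤ, ∑ g ∈ P, z g = 0 →
    ∑ g ∈ P, z g * n g = 0 → t • ∑ g ∈ P, z g • g = 0
  fill : ∀ z : ZMod m → ℤ, ∑ g ∈ P, z g = 0 → ∀ i : ℤ,
    |∑ g ∈ P, z g * n g - i * f| ≤ 2 * A →
      ∃ z' : ZMod m → ℤ, ∑ g ∈ P, z' g = 0 ∧ ∑ g ∈ P, z' g • g = ∑ g ∈ P, z g • g ∧
        ∀ g ∈ P, |z' g| ≤ C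

/-- the structure of a system: `Lat`, and all totals `xi` lie in one gap `[j f, (j+1) f]` up to
`C`.  A colour `g` is high if `(j+1) f ≤ m n(g)` and low if `m n(g) ≤ j f`. -/
structure Core (m A C : ℕ) {W : Type} [Fintype W] (O : W → Finset (ZMod m))
    (F : Option (ZMod m)) (M : ℕ) (P : Finset (ZMod m)) (n : ZMod m → ℤ) (f : ℕ) (j : ℤ) :
    Prop where
  lat : Lat m P A C n f
  gap : ∀ σ, Cfg O M σ → j * f - C ≤ xi n F σ ∧ xi n F σ ≤ (j + 1) * f + C
  hi : ∀ g, F = some g → (j + 1) * f ≤ m * n g →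
    (univ.filter (fun w => ∃ x ∈ O w, (j + 1) * f ≤ m * n x)).card ≤ m + C
  lo : ∀ g, F = some g → m * n g ≤ j * f →
    (univ.filter (fun w => ∃ x ∈ O w, m * n x ≤ j * f)).card ≤ m + C
  deep : ∃ σ, Cfg O M σ ∧ m ≤ C * (xi n F σ - j * f) ∧ m ≤ C * ((j + 1) * f - xi n F σ)

/-- a standard configuration: all slots of `R g` are picked with colour `g` and no slot of `S g`
is picked, for `g ∈ P`. -/
structure Std {m : ℕ} {W : Type} [Fintype W] (O : W → Finset (ZMod m)) (M : ℕ)
    (P : Finset (ZMod m)) (R S : ZMod m → Finset W) (σ : W → Option (ZMod m)) : Prop where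
  cfg : Cfg O M σ
  onR : ∀ g ∈ P, ∀ w ∈ R g, σ w = some g
  onS : ∀ g ∈ P, ∀ w ∈ S g, σ w = none

/-- reserved families: for `g ∈ P` the sets `R g`, `S g` have exactly `K` slots, all with option
`g`, and all these sets are pairwise disjoint. -/
structure Res {m : ℕ} {W : Type} [Fintype W] (O : W → Finset (ZMod m)) (P : Finset (ZMod m))
    (K : ℕ) (R S : ZMod m → Finset W) : Prop where
  cardR : ∀ g ∈ P, (R g).card = K
  cardS : ∀ g ∈ P, (S g).card = K
  optR : ∀ g ∈ P, ∀ w ∈ R g, g ∈ O w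
  optS : ∀ g ∈ P, ∀ w ∈ S g, g ∈ O w
  disRS : ∀ g ∈ P, ∀ h ∈ P, Disjoint (R g) (S h)
  disRR : ∀ g ∈ P, ∀ h ∈ P, g ≠ h → Disjoint (R g) (R h)
  disSS : ∀ g ∈ P, ∀ h ∈ P, g ≠ h → Disjoint (S g) (S h)

/-! ### Colourings -/

/-- popular colours at `u`: colours of at least `m / q` edges at `u`. -/
def pal {V : Type} [Fintype V] [DecidableEq V] {m : ℕ} (q : ℕ) (c : V → V → ZMod m) (u : V) :
    Finset (ZMod m) :=
  ((univ.erase u).image (c u)).filter
    (fun g => m ≤ q * ((univ.erase u).filter (fun w => c u w = g)).card)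

/-- options of the star system at `u` (slots = vertices, `u` itself has no option). -/
def starO {V : Type} [Fintype V] [DecidableEq V] {m : ℕ} (q : ℕ) (c : V → V → ZMod m) (u : V)
    (w : V) : Finset (ZMod m) :=
  if w = u then ∅ else ({c u w} : Finset (ZMod m)) ∩ pal q c u

/-- options of the system of the pair `u, v`. -/
def pairO {V : Type} [Fintype V] [DecidableEq V] {m : ℕ} (q : ℕ) (c : V → V → ZMod m) (u v : V)
    (w : V) : Finset (ZMod m) :=
  if w = u ∨ w = v then ∅ else ({c u w, c v w} : Finset (ZMod m)) ∩ (pal q c u ∪ pal q c v)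

/-- good pairs: the colour of `uv` is popular at `u` or at `v`. -/
def Good {V : Type} [Fintype V] [DecidableEq V] {m : ℕ} (q : ℕ) (c : V → V → ZMod m)
    (u v : V) : Prop :=
  u ≠ v ∧ c u v ∈ pal q c u ∪ pal q c v

/-- number of vertices `w ≠ u, v` with `c u w ∈ X` and `c v w ∈ Y`. -/
def pat {V : Type} [Fintype V] [DecidableEq V] {m : ℕ} (c : V → V → ZMod m) (u v : V)
    (X Y : Finset (ZMod m)) : ℕ :=
  (univ.filter (fun w => w ≠ u ∧ w ≠ v ∧ c u w ∈ X ∧ c v w ∈ Y)).card

/-- two-colour pairs: at `u` and at `v` all but `N/400` edges have colour `a` or `b`, each of the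
four patterns occurs at least `N/4 - N/400` times, and `b - a` has order `m`. -/
structure TC {V : Type} [Fintype V] [DecidableEq V] {m : ℕ} (c : V → V → ZMod m) (u v : V)
    (a b : ZMod m) : Prop where
  ne : u ≠ v
  ord : ∀ t : ℤ, t • (b - a) = 0 → (m : ℤ) ∣ t
  rareu : 400 * ((univ.erase u).filter (fun w => c u w ∉ ({a, b} : Finset (ZMod m)))).card ≤
    Fintype.card V
  rarev : 400 * ((univ.erase v).filter (fun w => c v w ∉ ({a, b} : Finset (ZMod m)))).card ≤
    Fintype.card V
  patt : ∀ x ∈ ({a, b} : Finset (ZMod m)), ∀ y ∈ ({a, b} : Finset (ZMod m)),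
    99 * Fintype.card V ≤ 400 * pat c u v {x} {y}

end ZS44129
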