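import Mathlib

/-!
# MP_44129c_co, module DomEdge (a tree of diameter ≤ 3 has a dominating edge)

Proof.  Let `a, b` realise the diameter `D ∈ {1, 2, 3}`.  For `D = 1` the edge `a b`, for `D = 2`
(path `a, x, b`) the edge `a x` and for `D = 3` (path `a, x, y, b`) the edge `x y` dominates: a
vertex that is not dominated would be at distance greater than `D` from `a` or `b`, or one of the
vertices `x, y` would have two neighbours which are closer to it.
-/

set_option autoImplicit false

namespace ZS44129

private theorem dom_pred {V : Type} {T : SimpleGraph V} (hT : T.IsTree) (u x x' y : V)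
    (h : T.Adj x y) (h' : T.Adj x' y) (hd : T.dist u y = T.dist u x + 1)
    (hd' : T.dist u y = T.dist u x' + 1) : x = x' := by
  obtain ⟨p, hp⟩ := hT.connected.exists_walk_length_eq_dist u x
  obtain ⟨p', hp'⟩ := hT.connected.exists_walk_length_eq_dist u x'
  have h1 : (p.concat h).IsPath := by
    apply SimpleGraph.Walk.isPath_of_length_eq_dist
    rw [SimpleGraph.Walk.length_concat, hp, hd]
  have h2 : (p'.concat h').IsPath := by
    apply SimpleGraph.Walk.isPath_of_length_eq_dist
    rw [SimpleGraph.Walk.length_concat, hp', hd']
  have h3 : p.concat h = p'.concat h' := by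
    obtain ⟨q, _, hq⟩ := hT.existsUnique_path u y
    rw [hq _ h1, hq _ h2]
  have h4 := congrArg SimpleGraph.Walk.penultimate h3
  rwa [SimpleGraph.Walk.penultimate_concat, SimpleGraph.Walk.penultimate_concat] at h4

theorem dom_edge {m : ℕ} (hm : 1 ≤ m) (T : SimpleGraph (Fin (m + 1))) (hT : T.IsTree)
    (hd : T.diam ≤ 3) :
    ∃ x y : Fin (m + 1), T.Adj x y ∧ ∀ z, z ≠ x → z ≠ y → T.Adj x z ∨ T.Adj y z := by
  have hne : T.ediam ≠ ⊤ := SimpleGraph.connected_iff_ediam_ne_top.mp hT.connected
  have hle : ∀ x y, T.dist x y ≤ T.diam := fun x y => SimpleGraph.dist_le_diam hne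
  obtain ⟨a, b, hab⟩ := SimpleGraph.exists_dist_eq_diam (G := T)
  haveI : Nontrivial (Fin (m + 1)) := Fin.nontrivial_iff_two_le.mpr (by omega)
  have hpos : 0 < T.diam := Nat.pos_of_ne_zero (SimpleGraph.diam_ne_zero_of_ediam_ne_top hne)
  -- distance at least two
  have htwo : ∀ x z, z ≠ x → ¬ T.Adj x z → 2 ≤ T.dist z x := by
    intro x z h1 h2
    have := hT.connected.one_lt_dist_of_ne_of_not_adj h1 (fun h => h2 h.symm)
    omega
  have hstep := hT.dist_eq_dist_add_one_of_adj
  obtain ⟨p, hp⟩ := hT.connected.exists_walk_length_eq_dist a b
  rw [hab] at hp
  by_cases h1 : T.diam = 1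
  · refine ⟨a, b, ?_, ?_⟩
    · rw [← SimpleGraph.dist_eq_one_iff_adj, hab, h1]
    · intro z hza _
      left
      by_contra hcon
      have := htwo a z hza hcon
      have := hle z a
      omega
  by_cases h2 : T.diam = 2
  · -- path of length two
    rw [h2] at hp
    cases p with
    | nil => simp at hp
    | @cons _ x _ hax q =>
      rw [SimpleGraph.Walk.length_cons] at hp
      have hq : q.length = 1 := by omega
      have hxb : T.Adj x b := by
        cases q with
        | nil => simp at hq
        | @cons _ y _ hxy r =>
          rw [SimpleGraph.Walk.length_cons] at hq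
          have hr : r.length = 0 := by omega
          have := SimpleGraph.Walk.eq_of_length_eq_zero hr
          rw [← this]
          exact hxy
      refine ⟨a, x, hax, ?_⟩
      intro z _ hzx
      right
      by_contra hcon
      have hz2 := htwo x z hzx hcon
      have e1 := hle z a
      have e2 := hle z b
      have e3 := hstep z hax
      have e4 := hstep z hxb
      have : a = b := dom_pred hT z a b x hax hxb.symm (by omega) (by omega)
      rw [this, SimpleGraph.dist_self] at hab
      omega
  · have h3 : T.diam = 3 := by omega
    rw [h3] at hp
    cases p with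
    | nil => simp at hp
    | @cons _ x _ hax q =>
      rw [SimpleGraph.Walk.length_cons] at hp
      cases q with
      | nil => simp at hp
      | @cons _ y _ hxy r =>
        rw [SimpleGraph.Walk.length_cons] at hp
        have hr : r.length = 1 := by omega
        have hyb : T.Adj y b := by
          cases r with
          | nil => simp at hr
          | @cons _ y' _ hyy s =>
            rw [SimpleGraph.Walk.length_cons] at hr
            have hs : s.length = 0 := by omega
            have := SimpleGraph.Walk.eq_of_length_eq_zero hs
            rw [← this]
            exact hyy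
        refine ⟨x, y, hxy, ?_⟩
        intro z hzx hzy
        by_contra hcon
        push Not at hcon
        have hz1 := htwo x z hzx hcon.1
        have hz2 := htwo y z hzy hcon.2
        have e1 := hle z a
        have e2 := hle z b
        have e5 := hle z x
        have e6 := hle z y
        have e3 := hstep z hax
        have e4 := hstep z hyb
        rcases hstep z hxy with h | h
        · have : a = y := dom_pred hT z a y x hax hxy.symm (by omega) (by omega)
          have h4 : T.dist a b ≤ 1 := by
            rw [this]
            exact (SimpleGraph.dist_eq_one_iff_adj.mpr hyb).le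
          omega
        · have : x = b := dom_pred hT z x b y hxy hyb.symm (by omega) (by omega)
          have h4 : T.dist a b ≤ 1 := by
            rw [← this]
            exact (SimpleGraph.dist_eq_one_iff_adj.mpr hax).le
          omega

end ZS44129
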