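import Mathlib

/-!
# MP_44129c_co, module EasyDir (the easy direction)

`P2 m N`, `PZ m N`: the two properties of the frozen statement.
Proof of `PZ → P2`: given a symmetric 2-colouring `c`, apply `PZ` to
`c' x y = ((c x y : ℕ) : ZMod m)`.  The sum over the edges of the tree is the number `k` of edges
`p < q` with `c (f p) (f q) = 1`, cast to `ZMod m`.  The tree on `m + 1` vertices has exactly `m`
edges (`SimpleGraph.IsTree.card_edgeFinset`), so `0 ≤ k ≤ m` and `m ∣ k`, i.e. `k = 0` (all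
edges have colour `0`) or `k = m` (all edges have colour `1`).
-/

set_option autoImplicit false

namespace ZS44129

/-- the 2-colour property of the frozen statement. -/
def P2 (m N : ℕ) : Prop :=
  ∀ c : Fin N → Fin N → Fin 2, (∀ x y, c x y = c y x) →
    ∃ T : SimpleGraph (Fin (m + 1)), T.IsTree ∧ T.diam ≤ 3 ∧
      ∃ f : Fin (m + 1) → Fin N, Function.Injective f ∧ ∃ i : Fin 2,
        ∀ u v : Fin (m + 1), T.Adj u v → c (f u) (f v) = i

/-- the `ZMod m` property of the frozen statement. -/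
def PZ (m N : ℕ) : Prop :=
  ∀ c : Fin N → Fin N → ZMod m, (∀ x y, c x y = c y x) →
    ∃ T : SimpleGraph (Fin (m + 1)), T.IsTree ∧ T.diam ≤ 3 ∧
      ∃ f : Fin (m + 1) → Fin N, Function.Injective f ∧
        (∑ᶠ (p : Fin (m + 1) × Fin (m + 1)) (_ : T.Adj p.1 p.2 ∧ p.1 < p.2),
            c (f p.1) (f p.2)) = 0

open Finset in
/-- a tree on `m + 1` vertices has `m` ordered edges `p < q`. -/
private theorem easy_card {m : ℕ} (T : SimpleGraph (Fin (m + 1))) (hT : T.IsTree)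
    (E : Finset (Fin (m + 1) × Fin (m + 1))) (hE : ∀ p, p ∈ E ↔ T.Adj p.1 p.2 ∧ p.1 < p.2) :
    E.card = m := by
  classical
  have h1 : T.edgeFinset = E.image (fun p => s(p.1, p.2)) := by
    ext e
    induction e using Sym2.ind with
    | _ p q =>
      rw [SimpleGraph.mem_edgeFinset, SimpleGraph.mem_edgeSet, mem_image]
      constructor
      · intro h
        rcases lt_or_gt_of_ne h.ne with h' | h'
        · exact ⟨(p, q), (hE _).mpr ⟨h, h'⟩, rfl⟩
        · exact ⟨(q, p), (hE _).mpr ⟨h.symm, h'⟩, Sym2.eq_swap⟩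
      · rintro ⟨⟨a, b⟩, hab, h⟩
        have h2 := ((hE _).mp hab).1
        rcases Sym2.eq_iff.mp h with h3 | h3
        · rw [← h3.1, ← h3.2]; exact h2
        · rw [← h3.1, ← h3.2]; exact h2.symm
  have h2 : (E.image (fun p => s(p.1, p.2))).card = E.card := by
    apply card_image_of_injOn
    rintro ⟨a, b⟩ hab ⟨a', b'⟩ hab' h
    have e1 := ((hE _).mp hab).2
    have e2 := ((hE _).mp hab').2
    rcases Sym2.eq_iff.mp h with h3 | h3
    · exact Prod.ext h3.1 h3.2
    · exfalso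
      simp only at h3 e1 e2
      rw [h3.1, h3.2] at e1
      exact lt_asymm e1 e2
  have h3 := hT.card_edgeFinset
  rw [h1, h2, Fintype.card_fin] at h3
  omega

open Finset in
theorem easy_dir {m N : ℕ} (hm : 2 ≤ m) (h : PZ m N) : P2 m N := by
  classical
  intro c hc
  obtain ⟨T, hT, hd, f, hf, hsum⟩ := h (fun x y => (((c x y : Fin 2) : ℕ) : ZMod m))
    (fun x y => by rw [hc x y])
  refine ⟨T, hT, hd, f, hf, ?_⟩
  set E : Finset (Fin (m + 1) × Fin (m + 1)) :=
    univ.filter (fun p => T.Adj p.1 p.2 ∧ p.1 < p.2) with hEdef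
  have hE : ∀ p, p ∈ E ↔ T.Adj p.1 p.2 ∧ p.1 < p.2 := by
    intro p
    rw [hEdef, mem_filter]
    simp
  have hcard := easy_card T hT E hE
  rw [finsum_cond_eq_sum_of_cond_iff (t := E)
    (fun p => (((c (f p.1) (f p.2) : Fin 2) : ℕ) : ZMod m)) (fun {x} _ => (hE x).symm),
    ← Nat.cast_sum, ZMod.natCast_eq_zero_iff] at hsum
  have hle : ∀ p ∈ E, ((c (f p.1) (f p.2) : Fin 2) : ℕ) ≤ 1 := fun p _ => by omega
  have hk : ∑ p ∈ E, ((c (f p.1) (f p.2) : Fin 2) : ℕ) ≤ m := by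
    calc ∑ p ∈ E, ((c (f p.1) (f p.2) : Fin 2) : ℕ) ≤ ∑ p ∈ E, 1 := sum_le_sum hle
      _ = m := by rw [← card_eq_sum_ones, hcard]
  have key : ∀ i : Fin 2, (∀ p ∈ E, c (f p.1) (f p.2) = i) →
      ∀ u v : Fin (m + 1), T.Adj u v → c (f u) (f v) = i := by
    intro i hi u v huv
    rcases lt_or_gt_of_ne huv.ne with h' | h'
    · exact hi (u, v) ((hE _).mpr ⟨huv, h'⟩)
    · rw [hc]
      exact hi (v, u) ((hE _).mpr ⟨huv.symm, h'⟩)
  obtain ⟨t, ht⟩ := hsum
  have ht1 : t = 0 ∨ t = 1 := by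
    rcases Nat.lt_or_ge t 2 with h2 | h2
    · omega
    · exfalso
      have : m * 2 ≤ m * t := Nat.mul_le_mul_left m h2
      omega
  rcases ht1 with h0 | h1
  · refine ⟨0, key 0 fun p hp => ?_⟩
    rw [h0, mul_zero] at ht
    have := sum_eq_zero_iff.mp ht p hp
    exact Fin.ext this
  · refine ⟨1, key 1 fun p hp => ?_⟩
    rw [h1, mul_one] at ht
    have h2 : ∑ p ∈ E, ((c (f p.1) (f p.2) : Fin 2) : ℕ) = ∑ p ∈ E, 1 := by
      rw [ht, ← card_eq_sum_ones, hcard]
    have := (sum_eq_sum_iff_of_le hle).mp h2 p hp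
    exact Fin.ext this

end ZS44129
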