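import Mathlib

/-!
# MP_44129c_co, module TreeOf (a double star is a tree of diameter at most 3)

The vertices of the double star are numbered `u, v, X, Y` in this order; the graph on
`Fin (m + 1)` is given by a parent function `P` with `P q < q` for `q ≠ 0`.
-/

set_option autoImplicit false

namespace ZS44129

open Finset

/-- the graph of a parent function. -/
private def treeP {m : ℕ} (P : Fin (m + 1) → Fin (m + 1)) : SimpleGraph (Fin (m + 1)) :=
  SimpleGraph.fromRel (fun p q => q ≠ 0 ∧ P q = p)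

private theorem treeP_adj {m : ℕ} (P : Fin (m + 1) → Fin (m + 1)) (p q : Fin (m + 1)) :
    (treeP P).Adj p q ↔ p ≠ q ∧ ((q ≠ 0 ∧ P q = p) ∨ (p ≠ 0 ∧ P p = q)) := by
  rw [treeP, SimpleGraph.fromRel_adj]

private theorem treeP_adj_parent {m : ℕ} (P : Fin (m + 1) → Fin (m + 1))
    (hP : ∀ q, q ≠ 0 → P q < q) (q : Fin (m + 1)) (hq : q ≠ 0) : (treeP P).Adj (P q) q := by
  rw [treeP_adj]
  exact ⟨(hP q hq).ne, Or.inl ⟨hq, rfl⟩⟩

private theorem treeP_adj_lt {m : ℕ} (P : Fin (m + 1) → Fin (m + 1))
    (hP : ∀ q, q ≠ 0 → P q < q) (p q : Fin (m + 1)) (hpq : p < q) :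
    (treeP P).Adj p q ↔ P q = p := by
  rw [treeP_adj]
  constructor
  · rintro ⟨_, h | h⟩
    · exact h.2
    · have := hP p h.1
      rw [h.2] at this
      exact absurd this (lt_asymm hpq)
  · intro h
    exact ⟨hpq.ne, Or.inl ⟨(lt_of_le_of_lt (Fin.zero_le p) hpq).ne', h⟩⟩

private theorem treeP_isTree {m : ℕ} (P : Fin (m + 1) → Fin (m + 1))
    (hP : ∀ q, q ≠ 0 → P q < q) : (treeP P).IsTree := by
  rw [SimpleGraph.isTree_iff_connected_and_card]
  constructor
  · have h0 : ∀ q : Fin (m + 1), (treeP P).Reachable 0 q := by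
      intro q
      induction q using WellFoundedLT.induction with
      | _ q ih =>
        by_cases hq : q = 0
        · rw [hq]
        · exact (ih (P q) (hP q hq)).trans (treeP_adj_parent P hP q hq).reachable
    exact { preconnected := fun a b => (h0 a).symm.trans (h0 b) }
  · have hadj : ∀ q : Fin m, (treeP P).Adj (P q.succ) q.succ := fun q =>
      treeP_adj_parent P hP q.succ (Fin.succ_ne_zero q)
    let φ : Fin m → (treeP P).edgeSet := fun q => ⟨s(P q.succ, q.succ), hadj q⟩
    have hφ : Function.Bijective φ := by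
      constructor
      · intro q q' h
        have h1 : s(P q.succ, q.succ) = s(P q'.succ, q'.succ) := congrArg Subtype.val h
        rw [Sym2.eq_iff] at h1
        rcases h1 with h1 | h1
        · exact Fin.succ_injective _ h1.2
        · exfalso
          have h2 := hP q.succ (Fin.succ_ne_zero q)
          have h3 := hP q'.succ (Fin.succ_ne_zero q')
          rw [h1.1] at h2
          rw [← h1.2] at h3
          exact lt_asymm h2 h3
      · rintro ⟨e, he⟩
        induction e using Sym2.ind with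
        | _ p q =>
          have he' : (treeP P).Adj p q := he
          rw [treeP_adj] at he'
          rcases he'.2 with h | h
          · obtain ⟨q', hq'⟩ := Fin.exists_succ_eq_of_ne_zero h.1
            refine ⟨q', Subtype.ext ?_⟩
            show s(P q'.succ, q'.succ) = s(p, q)
            rw [hq', h.2]
          · obtain ⟨q', hq'⟩ := Fin.exists_succ_eq_of_ne_zero h.1
            refine ⟨q', Subtype.ext ?_⟩
            show s(P q'.succ, q'.succ) = s(p, q)
            rw [hq', h.2, Sym2.eq_swap]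
    rw [← Nat.card_eq_of_bijective φ hφ]
    simp

private theorem treeP_diam {m : ℕ} (P : Fin (m + 1) → Fin (m + 1))
    (hP : ∀ q, q ≠ 0 → P q < q) (o : Fin (m + 1)) (ho : o ≠ 0) (ho' : P o = 0)
    (h : ∀ q, q ≠ 0 → P q = 0 ∨ P q = o) : (treeP P).diam ≤ 3 := by
  have hnear : ∀ q, (treeP P).edist q 0 ≤ 1 ∨ (treeP P).edist q o ≤ 1 := by
    intro q
    by_cases hq : q = 0
    · left; rw [hq, SimpleGraph.edist_self]; simp
    · have hadj := treeP_adj_parent P hP q hq
      rcases h q hq with h1 | h1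
      · left
        rw [h1] at hadj
        exact (SimpleGraph.edist_eq_one_iff_adj.mpr hadj.symm).le
      · right
        rw [h1] at hadj
        exact (SimpleGraph.edist_eq_one_iff_adj.mpr hadj.symm).le
  have h0o : (treeP P).edist 0 o ≤ 1 := by
    have hadj := treeP_adj_parent P hP o ho
    rw [ho'] at hadj
    exact (SimpleGraph.edist_eq_one_iff_adj.mpr hadj).le
  have hcc : ∀ r s : Fin (m + 1), (r = 0 ∨ r = o) → (s = 0 ∨ s = o) →
      (treeP P).edist r s ≤ 1 := by
    rintro r s (rfl | rfl) (rfl | rfl)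
    · rw [SimpleGraph.edist_self]; simp
    · exact h0o
    · rw [SimpleGraph.edist_comm]; exact h0o
    · rw [SimpleGraph.edist_self]; simp
  have hnear' : ∀ q, ∃ r, (r = 0 ∨ r = o) ∧ (treeP P).edist q r ≤ 1 := by
    intro q
    rcases hnear q with h | h
    · exact ⟨0, Or.inl rfl, h⟩
    · exact ⟨o, Or.inr rfl, h⟩
  have he : (treeP P).ediam ≤ 3 := by
    rw [SimpleGraph.ediam_le_iff]
    intro p q
    obtain ⟨r, hr, hpr⟩ := hnear' p
    obtain ⟨s, hs, hqs⟩ := hnear' q
    calc (treeP P).edist p q ≤ (treeP P).edist p s + (treeP P).edist s q :=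
          SimpleGraph.edist_triangle
      _ ≤ ((treeP P).edist p r + (treeP P).edist r s) + (treeP P).edist s q :=
          add_le_add_left SimpleGraph.edist_triangle _
      _ ≤ (1 + 1) + 1 := by
          refine add_le_add (add_le_add hpr (hcc r s hr hs)) ?_
          rw [SimpleGraph.edist_comm]
          exact hqs
      _ = 3 := by norm_num
  rw [SimpleGraph.diam]
  have := ENat.toNat_le_toNat he (by norm_num)
  simpa using this

private theorem treeP_sum {m : ℕ} (P : Fin (m + 1) → Fin (m + 1))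
    (hP : ∀ q, q ≠ 0 → P q < q) {A : Type} [AddCommMonoid A]
    (F : Fin (m + 1) → Fin (m + 1) → A) :
    (∑ᶠ (p : Fin (m + 1) × Fin (m + 1)) (_ : (treeP P).Adj p.1 p.2 ∧ p.1 < p.2),
      F p.1 p.2) = ∑ q : Fin m, F (P q.succ) q.succ := by
  classical
  rw [finsum_cond_eq_sum_of_cond_iff (t := univ.image (fun q : Fin m => (P q.succ, q.succ)))
    (fun p => F p.1 p.2)]
  · rw [sum_image]
    intro q _ q' _ h
    exact Fin.succ_injective _ (Prod.mk.inj h).2
  · rintro ⟨p, q⟩ _
    rw [mem_image]
    constructor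
    · rintro ⟨h1, h2⟩
      have h3 := (treeP_adj_lt P hP p q h2).mp h1
      obtain ⟨q', hq'⟩ := Fin.exists_succ_eq_of_ne_zero
        (lt_of_le_of_lt (Fin.zero_le p) h2).ne'
      exact ⟨q', mem_univ _, by rw [hq', h3]⟩
    · rintro ⟨q', _, h⟩
      have h1 := (Prod.mk.inj h).1
      have h2 := (Prod.mk.inj h).2
      have h3 := hP q'.succ (Fin.succ_ne_zero _)
      rw [h1, h2] at h3
      refine ⟨?_, h3⟩
      rw [treeP_adj_lt P hP p q h3, ← h2]
      exact h1

theorem tree_of_double_star {m N : ℕ} (u v : Fin N) (huv : u ≠ v) (X Y : Finset (Fin N))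
    (hXY : Disjoint X Y) (huX : u ∉ X) (hvX : v ∉ X) (huY : u ∉ Y) (hvY : v ∉ Y)
    (hcard : X.card + Y.card + 1 = m) :
    ∃ T : SimpleGraph (Fin (m + 1)), T.IsTree ∧ T.diam ≤ 3 ∧
      ∃ f : Fin (m + 1) → Fin N, Function.Injective f ∧
        ∀ c : Fin N → Fin N → ZMod m, (∀ x y, c x y = c y x) →
          (∑ᶠ (p : Fin (m + 1) × Fin (m + 1)) (_ : T.Adj p.1 p.2 ∧ p.1 < p.2),
            c (f p.1) (f p.2)) = c u v + ∑ x ∈ X, c u x + ∑ y ∈ Y, c v y := by
  subst hcard
  set a := X.card with ha
  set b := Y.card with hb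
  let eX : Fin a ≃ X := X.equivFin.symm
  let eY : Fin b ≃ Y := Y.equivFin.symm
  let g : Fin (a + b) → Fin N := Fin.append (fun i => (eX i : Fin N)) (fun j => (eY j : Fin N))
  let f : Fin (a + b + 1 + 1) → Fin N := Fin.cons u (Fin.cons v g)
  let P : Fin (a + b + 1 + 1) → Fin (a + b + 1 + 1) :=
    Fin.cons 0 (Fin.cons 0 (Fin.append (fun _ => 0) (fun _ => 1)))
  have hP1 : P 1 = 0 := rfl
  have hPX : ∀ i : Fin a, P (Fin.castAdd b i).succ.succ = 0 := by
    intro i
    show Fin.append (fun _ : Fin a => (0 : Fin (a + b + 1 + 1)))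
      (fun _ : Fin b => (1 : Fin (a + b + 1 + 1))) (Fin.castAdd b i) = 0
    rw [Fin.append_left]
  have hPY : ∀ j : Fin b, P (Fin.natAdd a j).succ.succ = 1 := by
    intro j
    show Fin.append (fun _ : Fin a => (0 : Fin (a + b + 1 + 1)))
      (fun _ : Fin b => (1 : Fin (a + b + 1 + 1))) (Fin.natAdd a j) = 1
    rw [Fin.append_right]
  have hcases : ∀ q : Fin (a + b + 1 + 1), q = 0 ∨ q = 1 ∨
      (∃ i : Fin a, q = (Fin.castAdd b i).succ.succ) ∨
      (∃ j : Fin b, q = (Fin.natAdd a j).succ.succ) := by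
    intro q
    refine Fin.cases ?_ (fun q => ?_) q
    · exact Or.inl rfl
    · refine Fin.cases ?_ (fun q => ?_) q
      · exact Or.inr (Or.inl rfl)
      · refine Fin.addCases (fun i => ?_) (fun j => ?_) q
        · exact Or.inr (Or.inr (Or.inl ⟨i, rfl⟩))
        · exact Or.inr (Or.inr (Or.inr ⟨j, rfl⟩))
  have hP : ∀ q, q ≠ 0 → P q < q := by
    intro q hq
    rcases hcases q with h | h | ⟨i, h⟩ | ⟨j, h⟩
    · exact absurd h hq
    · rw [h, hP1]
      exact Fin.zero_lt_one
    · rw [h, hPX]
      exact Fin.succ_pos _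
    · rw [h, hPY]
      rw [Fin.lt_def]
      simp [Fin.val_succ]
  have hPcases : ∀ q, q ≠ 0 → P q = 0 ∨ P q = 1 := by
    intro q hq
    rcases hcases q with h | h | ⟨i, h⟩ | ⟨j, h⟩
    · exact absurd h hq
    · exact Or.inl (by rw [h, hP1])
    · exact Or.inl (by rw [h, hPX])
    · exact Or.inr (by rw [h, hPY])
  have hXmem : ∀ i, (eX i : Fin N) ∈ X := fun i => (eX i).2
  have hYmem : ∀ i, (eY i : Fin N) ∈ Y := fun i => (eY i).2
  have hginj : Function.Injective g := by
    rw [Fin.append_injective_iff]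
    refine ⟨fun i j h => eX.injective (Subtype.ext h), fun i j h => eY.injective (Subtype.ext h),
      fun i j h => ?_⟩
    exact disjoint_left.mp hXY (hXmem i) (h ▸ hYmem j)
  have hgmem : ∀ i, g i ∈ X ∨ g i ∈ Y := by
    intro i
    refine Fin.addCases (fun i => ?_) (fun j => ?_) i
    · left
      show Fin.append _ _ _ ∈ X
      rw [Fin.append_left]
      exact hXmem i
    · right
      show Fin.append _ _ _ ∈ Y
      rw [Fin.append_right]
      exact hYmem j
  have hfinj : Function.Injective f := by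
    rw [Fin.cons_injective_iff, Fin.cons_injective_iff]
    refine ⟨?_, ?_, hginj⟩
    · rintro ⟨i, hi⟩
      revert hi
      refine Fin.cases ?_ (fun i => ?_) i
      · intro h
        rw [Fin.cons_zero] at h
        exact huv h.symm
      · intro h
        rw [Fin.cons_succ] at h
        rcases hgmem i with h' | h'
        · exact huX (h ▸ h')
        · exact huY (h ▸ h')
    · rintro ⟨i, h⟩
      rcases hgmem i with h' | h'
      · exact hvX (h ▸ h')
      · exact hvY (h ▸ h')
  refine ⟨treeP P, treeP_isTree P hP,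
    treeP_diam P hP 1 (by simp) hP1 hPcases, f, hfinj, ?_⟩
  intro c _
  rw [treeP_sum P hP (fun p q => c (f p) (f q)), Fin.sum_univ_succ, Fin.sum_univ_add]
  have h0 : c (f (P (Fin.succ 0))) (f (Fin.succ 0)) = c u v := rfl
  have h1 : ∀ i : Fin a, c (f (P (Fin.castAdd b i).succ.succ)) (f (Fin.castAdd b i).succ.succ) =
      c u (eX i) := by
    intro i
    rw [hPX]
    show c u (g (Fin.castAdd b i)) = _
    rw [show g (Fin.castAdd b i) = (eX i : Fin N) from Fin.append_left _ _ _]
  have h2 : ∀ j : Fin b, c (f (P (Fin.natAdd a j).succ.succ)) (f (Fin.natAdd a j).succ.succ) =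
      c v (eY j) := by
    intro j
    rw [hPY]
    show c v (g (Fin.natAdd a j)) = _
    rw [show g (Fin.natAdd a j) = (eY j : Fin N) from Fin.append_right _ _ _]
  rw [h0, sum_congr rfl (fun i _ => h1 i), sum_congr rfl (fun i _ => h2 i)]
  rw [Equiv.sum_comp eX (fun x : X => c u x), Equiv.sum_comp eY (fun x : Y => c v x),
    sum_coe_sort X (fun x => c u x), sum_coe_sort Y (fun x => c v x)]
  exact (add_assoc _ _ _).symm

end ZS44129
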