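import Mathlib
import Pool.Agent.Work.MP_44129c_co.Defs
import Pool.Agent.Work.MP_44129c_co.TreeOf
import Pool.Agent.Work.MP_44129c_co.DomEdge
import Pool.Agent.Work.MP_44129c_co.EasyDir

/-!
# MP_44129c_co, module HardDir (translation of the main theorem)

Proof.  Suppose `P2 m N` and not `PZ m N`: there is a symmetric `c` such that no tree works.  Then
`ZSF m c`: a zero-sum double star would give a tree by `tree_of_double_star`.  By `h` there is a
symmetric `b : Fin N → Fin N → Bool` with `MF m b`.  Apply `P2` to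
`c₂ x y = if b x y then 1 else 0`: `T, f, i`.  `dom_edge` gives `x, y`.  Put `u = f x`, `v = f y`
(`u ≠ v`), `X = f '' {z : z ≠ x, z ≠ y, T.Adj x z}`, `Y = f '' {z : z ≠ x, z ≠ y, ¬ T.Adj x z}`;
for the latter `T.Adj y z`.  `X, Y` are disjoint, avoid `u, v`, `|X| + |Y| + 2 = m + 1`.
All of `c₂ u v`, `c₂ u x'` (`x' ∈ X`), `c₂ v y'` (`y' ∈ Y`) equal `i`, so `b` is constant on them,
contradicting `MF m b`.
-/

set_option autoImplicit false

namespace ZS44129

open Finset in
theorem hard_dir {m N : ℕ} (hm : 2 ≤ m)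
    (h : ∀ c : Fin N → Fin N → ZMod m, (∀ x y, c x y = c y x) → ZSF m c →
      ∃ b : Fin N → Fin N → Bool, (∀ x y, b x y = b y x) ∧ MF m b)
    (h2 : P2 m N) : PZ m N := by
  classical
  by_contra hcon
  unfold PZ at hcon
  push Not at hcon
  obtain ⟨c, hc, hno⟩ := hcon
  have hzsf : ZSF m c := by
    intro u v huv X Y hXY huX hvX huY hvY hcard hsum
    obtain ⟨T, hT, hd, f, hf, hall⟩ :=
      tree_of_double_star u v huv X Y hXY huX hvX huY hvY hcard
    refine hno T hT hd f hf ?_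
    rw [hall c hc, hsum]
  obtain ⟨b, hb, hmf⟩ := h c hc hzsf
  obtain ⟨T, hT, hd, f, hf, i, hi⟩ := h2 (fun x y => if b x y = true then 1 else 0)
    (fun x y => by rw [hb x y])
  obtain ⟨x, y, hxy, hdom⟩ := dom_edge (by omega) T hT hd
  have hiff : ∀ p q p' q' : Fin (m + 1), T.Adj p q → T.Adj p' q' →
      b (f p) (f q) = b (f p') (f q') := by
    intro p q p' q' h1 h2
    have e1 := hi p q h1
    have e2 := hi p' q' h2
    rw [← e2] at e1
    by_cases c1 : b (f p) (f q) = true <;> by_cases c2 : b (f p') (f q') = true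
    · rw [c1, c2]
    · rw [if_pos c1, if_neg c2] at e1
      exact absurd e1 (by decide)
    · rw [if_neg c1, if_pos c2] at e1
      exact absurd e1 (by decide)
    · rw [Bool.not_eq_true] at c1 c2
      rw [c1, c2]
  set X0 := univ.filter (fun z => z ≠ x ∧ z ≠ y ∧ T.Adj x z) with hX0
  set Y0 := univ.filter (fun z => z ≠ x ∧ z ≠ y ∧ ¬ T.Adj x z) with hY0
  have hX0m : ∀ z, z ∈ X0 ↔ z ≠ x ∧ z ≠ y ∧ T.Adj x z := by
    intro z; rw [hX0, mem_filter]; simp
  have hY0m : ∀ z, z ∈ Y0 ↔ z ≠ x ∧ z ≠ y ∧ ¬ T.Adj x z := by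
    intro z; rw [hY0, mem_filter]; simp
  have hdis0 : Disjoint X0 Y0 := by
    rw [disjoint_left]
    intro z h1 h2
    exact ((hY0m z).mp h2).2.2 ((hX0m z).mp h1).2.2
  have hun : X0 ∪ Y0 = (univ.erase x).erase y := by
    ext z
    rw [mem_union, hX0m, hY0m, mem_erase, mem_erase]
    constructor
    · rintro (h | h)
      · exact ⟨h.2.1, h.1, mem_univ _⟩
      · exact ⟨h.2.1, h.1, mem_univ _⟩
    · rintro ⟨h1, h2, _⟩
      by_cases h3 : T.Adj x z
      · exact Or.inl ⟨h2, h1, h3⟩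
      · exact Or.inr ⟨h2, h1, h3⟩
  have hcard : X0.card + Y0.card + 2 = m + 1 := by
    rw [← card_union_of_disjoint hdis0, hun, card_erase_of_mem, card_erase_of_mem (mem_univ _),
      card_univ, Fintype.card_fin]
    · omega
    · rw [mem_erase]
      exact ⟨hxy.ne', mem_univ _⟩
  refine hmf (f x) (f y) (fun h => hxy.ne (hf h)) (X0.image f) (Y0.image f) ?_ ?_ ?_ ?_ ?_ ?_
    ⟨?_, ?_⟩
  · rw [disjoint_image hf]
    exact hdis0
  · rw [mem_image]
    rintro ⟨z, hz, h⟩
    exact ((hX0m z).mp hz).1 (hf h)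
  · rw [mem_image]
    rintro ⟨z, hz, h⟩
    exact ((hX0m z).mp hz).2.1 (hf h)
  · rw [mem_image]
    rintro ⟨z, hz, h⟩
    exact ((hY0m z).mp hz).1 (hf h)
  · rw [mem_image]
    rintro ⟨z, hz, h⟩
    exact ((hY0m z).mp hz).2.1 (hf h)
  · rw [card_image_of_injective _ hf, card_image_of_injective _ hf]
    omega
  · intro w hw
    obtain ⟨z, hz, rfl⟩ := mem_image.mp hw
    exact hiff x z x y ((hX0m z).mp hz).2.2 hxy
  · intro w hw
    obtain ⟨z, hz, rfl⟩ := mem_image.mp hw
    have h1 := (hY0m z).mp hz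
    have h2 : T.Adj y z := (hdom z h1.1 h1.2.1).resolve_left h1.2.2
    exact hiff y z x y h2 hxy

end ZS44129
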