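import Mathlib

/-!
# MP_44129c_co: definitions for the Goodman part (FIXED)

`S` is a symmetric matrix with entries `0, 1, -1` (the sides of the edges), `N = card V`, `μ = m`.
-/

set_option autoImplicit false

namespace ZS44129

open Finset

/-- the data of the Goodman count. -/
structure GM {V : Type} [Fintype V] [DecidableEq V] (S : V → V → ℝ) (μ : ℝ) : Prop where
  val : ∀ u v, S u v = 0 ∨ S u v = 1 ∨ S u v = -1
  symm : ∀ u v, S u v = S v u
  diag : ∀ u, S u u = 0
  zer : ∀ u, ((univ.filter (fun w => S u w = 0)).card : ℝ) ≤ 2 / 10 ^ 40 * Fintype.card V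
  pos : ∀ u v, S u v = 1 → (Fintype.card V : ℝ) - μ - 1 / 10 ^ 39 * Fintype.card V ≤
    ((univ.filter (fun w => S u w = -1 ∧ S v w = -1)).card : ℝ)
  neg : ∀ u v, S u v = -1 → (Fintype.card V : ℝ) - μ - 1 / 10 ^ 39 * Fintype.card V ≤
    ((univ.filter (fun w => S u w = 1 ∧ S v w = 1)).card : ℝ)
  mu : 4 * μ ≤ (3 + 1 / 10 ^ 40) * Fintype.card V

end ZS44129
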