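import Mathlib
import Pool.Agent.Work.MP_44129c_co.GoodmanDefs

/-!
# MP_44129c_co, module GoodA (row sums are small on average)
-/

set_option autoImplicit false

namespace ZS44129

open Finset

theorem q_lower {V : Type} [Fintype V] [DecidableEq V] (S : V → V → ℝ) (μ : ℝ) (h : GM S μ)
    (u v : V) (huv : S u v ≠ 0) :
    - (5 / 10 ^ 39 * Fintype.card V) + S u v * ((∑ w, S u w) + ∑ w, S v w) ≤
      ∑ w, S u w * S v w := by
  classical
  have hN : (0 : ℝ) ≤ Fintype.card V := Nat.cast_nonneg _
  have hmu := h.mu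
  have hsum1 : ∑ w : V, (1 : ℝ) = Fintype.card V := by simp
  rcases h.val u v with h0 | h1 | h2
  · exact absurd h0 huv
  · have hp := h.pos u v h1
    have hpt : ∀ w : V, 4 * (if S u w = -1 ∧ S v w = -1 then (1 : ℝ) else 0) - 1 + S u w + S v w
        ≤ S u w * S v w := by
      intro w
      rcases h.val u w with a | a | a <;> rcases h.val v w with b | b | b <;>
        simp only [a, b] <;> norm_num
    have hs := Finset.sum_le_sum (fun w (_ : w ∈ (univ : Finset V)) => hpt w)
    rw [Finset.sum_add_distrib, Finset.sum_add_distrib, Finset.sum_sub_distrib,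
      ← Finset.mul_sum, hsum1, Finset.sum_boole] at hs
    rw [h1]
    nlinarith
  · have hp := h.neg u v h2
    have hpt : ∀ w : V, 4 * (if S u w = 1 ∧ S v w = 1 then (1 : ℝ) else 0) - 1 - S u w - S v w
        ≤ S u w * S v w := by
      intro w
      rcases h.val u w with a | a | a <;> rcases h.val v w with b | b | b <;>
        simp only [a, b] <;> norm_num
    have hs := Finset.sum_le_sum (fun w (_ : w ∈ (univ : Finset V)) => hpt w)
    rw [Finset.sum_sub_distrib, Finset.sum_sub_distrib, Finset.sum_sub_distrib,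
      ← Finset.mul_sum, hsum1, Finset.sum_boole] at hs
    rw [h2]
    nlinarith

theorem q_ge_neg {V : Type} [Fintype V] [DecidableEq V] (S : V → V → ℝ) (μ : ℝ) (h : GM S μ)
    (u v : V) : - (Fintype.card V : ℝ) ≤ ∑ w, S u w * S v w := by
  have hpt : ∀ w : V, (-1 : ℝ) ≤ S u w * S v w := by
    intro w
    rcases h.val u w with a | a | a <;> rcases h.val v w with b | b | b <;>
      simp only [a, b] <;> norm_num
  have hs := Finset.sum_le_sum (fun w (_ : w ∈ (univ : Finset V)) => hpt w)
  have hsum1 : ∑ w : V, (-1 : ℝ) = - (Fintype.card V : ℝ) := by simp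
  rw [hsum1] at hs
  exact hs

theorem goodA {V : Type} [Fintype V] [DecidableEq V] (S : V → V → ℝ) (μ : ℝ) (h : GM S μ) :
    ∑ u, (∑ w, S u w) ^ 2 ≤ 1 / 10 ^ 38 * (Fintype.card V : ℝ) ^ 3 := by
  classical
  set N : ℝ := (Fintype.card V : ℝ) with hNdef
  have hN : (0 : ℝ) ≤ N := Nat.cast_nonneg _
  -- the pair inequality
  have hpair : ∀ u v : V, - (5 / 10 ^ 39 * N) + S u v * ((∑ w, S u w) + ∑ w, S v w)
      - N * (if S u v = 0 then (1 : ℝ) else 0) ≤ ∑ w, S u w * S v w := by
    intro u v
    by_cases h0 : S u v = 0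
    · have := q_ge_neg S μ h u v
      rw [h0]
      simp only [if_true]
      have h5 : (0 : ℝ) ≤ 5 / 10 ^ 39 * N := by positivity
      rw [← hNdef] at this
      linarith
    · have := q_lower S μ h u v h0
      rw [if_neg h0, mul_zero, sub_zero]
      exact this
  have hsum := Finset.sum_le_sum (fun u (_ : u ∈ (univ : Finset V)) =>
    Finset.sum_le_sum (fun v (_ : v ∈ (univ : Finset V)) => hpair u v))
  set R : ℝ := ∑ u, (∑ w, S u w) ^ 2 with hR
  have hsymsum : ∀ v : V, ∑ u, S u v = ∑ w, S v w := by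
    intro v
    exact Finset.sum_congr rfl (fun u _ => h.symm u v)
  -- right-hand side
  have hrhs : ∑ u : V, ∑ v : V, ∑ w, S u w * S v w = R := by
    calc ∑ u : V, ∑ v : V, ∑ w, S u w * S v w = ∑ u : V, ∑ w, ∑ v : V, S u w * S v w := by
          refine Finset.sum_congr rfl (fun u _ => Finset.sum_comm)
      _ = ∑ w, ∑ u : V, ∑ v : V, S u w * S v w := Finset.sum_comm
      _ = R := by
          rw [hR]
          refine Finset.sum_congr rfl (fun w _ => ?_)
          calc ∑ u : V, ∑ v : V, S u w * S v w = ∑ u : V, S u w * ∑ v : V, S v w := by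
                refine Finset.sum_congr rfl (fun u _ => ?_)
                rw [Finset.mul_sum]
            _ = (∑ u : V, S u w) * ∑ v : V, S v w := by rw [Finset.sum_mul]
            _ = (∑ v, S w v) ^ 2 := by rw [hsymsum w]; ring
  -- middle term
  have hmid1 : ∑ u : V, ∑ v : V, S u v * ((∑ w, S u w) + ∑ w, S v w) = 2 * R := by
    have e1 : ∑ u : V, ∑ v : V, S u v * (∑ w, S u w) = R := by
      rw [hR]
      refine Finset.sum_congr rfl (fun u _ => ?_)
      rw [← Finset.sum_mul, sq]
    have e2 : ∑ u : V, ∑ v : V, S u v * (∑ w, S v w) = R := by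
      rw [Finset.sum_comm, hR]
      refine Finset.sum_congr rfl (fun v _ => ?_)
      rw [← Finset.sum_mul, hsymsum v, sq]
    calc ∑ u : V, ∑ v : V, S u v * ((∑ w, S u w) + ∑ w, S v w)
        = ∑ u : V, ∑ v : V, (S u v * (∑ w, S u w) + S u v * (∑ w, S v w)) := by
          refine Finset.sum_congr rfl (fun u _ => Finset.sum_congr rfl (fun v _ => by ring))
      _ = R + R := by
          simp only [Finset.sum_add_distrib]
          rw [e1, e2]
      _ = 2 * R := by ring
  have hconst : ∑ u : V, ∑ v : V, (- (5 / 10 ^ 39 * N)) = - (5 / 10 ^ 39 * N ^ 3) := by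
    simp only [Finset.sum_const, Finset.card_univ, nsmul_eq_mul, ← hNdef]
    ring
  have hz : ∑ u : V, ∑ v : V, N * (if S u v = 0 then (1 : ℝ) else 0) ≤ 2 / 10 ^ 40 * N ^ 3 := by
    have hone : ∀ u : V, ∑ v : V, N * (if S u v = 0 then (1 : ℝ) else 0) ≤
        2 / 10 ^ 40 * N ^ 2 := by
      intro u
      rw [← Finset.mul_sum, Finset.sum_boole]
      have := h.zer u
      rw [← hNdef] at this
      calc N * ((univ.filter (fun w => S u w = 0)).card : ℝ) ≤ N * (2 / 10 ^ 40 * N) :=
            mul_le_mul_of_nonneg_left this hN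
        _ = 2 / 10 ^ 40 * N ^ 2 := by ring
    calc ∑ u : V, ∑ v : V, N * (if S u v = 0 then (1 : ℝ) else 0)
        ≤ ∑ u : V, 2 / 10 ^ 40 * N ^ 2 := Finset.sum_le_sum (fun u _ => hone u)
      _ = 2 / 10 ^ 40 * N ^ 3 := by
          simp only [Finset.sum_const, Finset.card_univ, nsmul_eq_mul, ← hNdef]
          ring
  have hsplit : ∑ u : V, ∑ v : V, (- (5 / 10 ^ 39 * N) + S u v * ((∑ w, S u w) + ∑ w, S v w)
      - N * (if S u v = 0 then (1 : ℝ) else 0)) =
      - (5 / 10 ^ 39 * N ^ 3) + 2 * R -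
        ∑ u : V, ∑ v : V, N * (if S u v = 0 then (1 : ℝ) else 0) := by
    rw [← hconst, ← hmid1]
    simp only [Finset.sum_add_distrib, Finset.sum_sub_distrib]
  rw [hsplit, hrhs] at hsum
  have hN3 : 0 ≤ N ^ 3 := by positivity
  nlinarith

end ZS44129
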