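import Mathlib
import Pool.Agent.Work.MP_44129c_co.GoodA

/-!
# MP_44129c_co, module GoodB (all row sums are small)
-/

set_option autoImplicit false

namespace ZS44129

open Finset

theorem goodB_abs {V : Type} [Fintype V] [DecidableEq V] (S : V → V → ℝ) (μ : ℝ) (h : GM S μ) :
    ∑ u, |∑ w, S u w| ≤ 1 / 10 ^ 19 * (Fintype.card V : ℝ) ^ 2 := by
  have hN : (0 : ℝ) ≤ Fintype.card V := Nat.cast_nonneg _
  have hA := goodA S μ h
  have h1 : (∑ u, |∑ w, S u w|) ^ 2 ≤ (Fintype.card V : ℝ) * ∑ u, |∑ w, S u w| ^ 2 := by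
    have := sq_sum_le_card_mul_sum_sq (s := (univ : Finset V)) (f := fun u => |∑ w, S u w|)
    simpa using this
  have h2 : ∑ u, |∑ w, S u w| ^ 2 = ∑ u, (∑ w, S u w) ^ 2 :=
    Finset.sum_congr rfl (fun u _ => sq_abs _)
  rw [h2] at h1
  have h3 : (∑ u, |∑ w, S u w|) ^ 2 ≤ (1 / 10 ^ 19 * (Fintype.card V : ℝ) ^ 2) ^ 2 := by
    calc (∑ u, |∑ w, S u w|) ^ 2 ≤ (Fintype.card V : ℝ) * ∑ u, (∑ w, S u w) ^ 2 := h1
      _ ≤ (Fintype.card V : ℝ) * (1 / 10 ^ 38 * (Fintype.card V : ℝ) ^ 3) :=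
          mul_le_mul_of_nonneg_left hA hN
      _ = (1 / 10 ^ 19 * (Fintype.card V : ℝ) ^ 2) ^ 2 := by ring
  exact le_of_sq_le_sq h3 (by positivity)

theorem absS_le {V : Type} [Fintype V] [DecidableEq V] (S : V → V → ℝ) (μ : ℝ) (h : GM S μ)
    (u v : V) : |S u v| ≤ 1 := by
  rcases h.val u v with a | a | a <;> rw [a] <;> norm_num

theorem qsum_upper {V : Type} [Fintype V] [DecidableEq V] (S : V → V → ℝ) (μ : ℝ) (h : GM S μ)
    (u : V) : ∑ v, ∑ w, S u w * S v w ≤ 1 / 10 ^ 19 * (Fintype.card V : ℝ) ^ 2 := by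
  refine le_trans ?_ (goodB_abs S μ h)
  rw [Finset.sum_comm]
  refine Finset.sum_le_sum (fun w _ => ?_)
  rw [← Finset.mul_sum]
  have hs : ∑ v, S v w = ∑ v, S w v := Finset.sum_congr rfl (fun v _ => h.symm v w)
  rw [hs]
  calc S u w * ∑ v, S w v ≤ |S u w * ∑ v, S w v| := le_abs_self _
    _ = |S u w| * |∑ v, S w v| := abs_mul _ _
    _ ≤ 1 * |∑ v, S w v| := mul_le_mul_of_nonneg_right (absS_le S μ h u w) (abs_nonneg _)
    _ = |∑ v, S w v| := one_mul _

theorem goodB {V : Type} [Fintype V] [DecidableEq V] (S : V → V → ℝ) (μ : ℝ) (h : GM S μ)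
    (u : V) : |∑ w, S u w| ≤ 1 / 10 ^ 9 * (Fintype.card V : ℝ) := by
  classical
  set N : ℝ := (Fintype.card V : ℝ) with hNdef
  have hN : (0 : ℝ) ≤ N := Nat.cast_nonneg _
  have hpair : ∀ v : V, - (5 / 10 ^ 39 * N) + S u v * ((∑ w, S u w) + ∑ w, S v w)
      - N * (if S u v = 0 then (1 : ℝ) else 0) ≤ ∑ w, S u w * S v w := by
    intro v
    by_cases h0 : S u v = 0
    · have := q_ge_neg S μ h u v
      rw [h0]
      simp only [if_true]
      have h5 : (0 : ℝ) ≤ 5 / 10 ^ 39 * N := by positivity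
      rw [← hNdef] at this
      linarith
    · have := q_lower S μ h u v h0
      rw [if_neg h0, mul_zero, sub_zero]
      exact this
  have hsum := Finset.sum_le_sum (fun v (_ : v ∈ (univ : Finset V)) => hpair v)
  have hup := qsum_upper S μ h u
  rw [← hNdef] at hup
  have hz : ∑ v : V, N * (if S u v = 0 then (1 : ℝ) else 0) ≤ 2 / 10 ^ 40 * N ^ 2 := by
    rw [← Finset.mul_sum, Finset.sum_boole]
    have := h.zer u
    rw [← hNdef] at this
    calc N * ((univ.filter (fun w => S u w = 0)).card : ℝ) ≤ N * (2 / 10 ^ 40 * N) :=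
          mul_le_mul_of_nonneg_left this hN
      _ = 2 / 10 ^ 40 * N ^ 2 := by ring
  have hconst : ∑ v : V, (- (5 / 10 ^ 39 * N)) = - (5 / 10 ^ 39 * N ^ 2) := by
    simp only [Finset.sum_const, Finset.card_univ, nsmul_eq_mul, ← hNdef]
    ring
  have hmid : ∑ v : V, S u v * ((∑ w, S u w) + ∑ w, S v w) =
      (∑ w, S u w) ^ 2 + ∑ v : V, S u v * ∑ w, S v w := by
    simp only [mul_add, Finset.sum_add_distrib]
    rw [← Finset.sum_mul, sq]
  have hlow : - (1 / 10 ^ 19 * N ^ 2) ≤ ∑ v : V, S u v * ∑ w, S v w := by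
    have h1 : |∑ v : V, S u v * ∑ w, S v w| ≤ ∑ v : V, |∑ w, S v w| := by
      refine le_trans (Finset.abs_sum_le_sum_abs _ _) (Finset.sum_le_sum (fun v _ => ?_))
      rw [abs_mul]
      calc |S u v| * |∑ w, S v w| ≤ 1 * |∑ w, S v w| :=
            mul_le_mul_of_nonneg_right (absS_le S μ h u v) (abs_nonneg _)
        _ = |∑ w, S v w| := one_mul _
    have h2 := goodB_abs S μ h
    rw [← hNdef] at h2
    have h3 := (abs_le.mp (le_trans h1 h2)).1
    linarith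
  have hsplit : ∑ v : V, (- (5 / 10 ^ 39 * N) + S u v * ((∑ w, S u w) + ∑ w, S v w)
      - N * (if S u v = 0 then (1 : ℝ) else 0)) =
      - (5 / 10 ^ 39 * N ^ 2) + ((∑ w, S u w) ^ 2 + ∑ v : V, S u v * ∑ w, S v w) -
        ∑ v : V, N * (if S u v = 0 then (1 : ℝ) else 0) := by
    rw [← hconst, ← hmid]
    simp only [Finset.sum_add_distrib, Finset.sum_sub_distrib]
  rw [hsplit] at hsum
  have hN2 : 0 ≤ N ^ 2 := by positivity
  have hfin : (∑ w, S u w) ^ 2 ≤ (1 / 10 ^ 9 * N) ^ 2 := by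
    have e : (1 / 10 ^ 9 * N) ^ 2 = 1 / 10 ^ 18 * N ^ 2 := by ring
    rw [e]
    nlinarith
  exact abs_le_of_sq_le_sq hfin (by positivity)

end ZS44129
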