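import Mathlib
import Pool.Agent.Work.MP_44129c_co.GoodB

/-!
# MP_44129c_co, module GoodC (most pairs have all four patterns N/4 times)
-/

set_option autoImplicit false

namespace ZS44129

open Finset

theorem goodC_pat {V : Type} [Fintype V] [DecidableEq V] (S : V → V → ℝ) (μ : ℝ) (h : GM S μ)
    (u v : V) (hQ : |∑ w, S u w * S v w| ≤ 1 / 10 ^ 4 * (Fintype.card V : ℝ))
    (a b : ℝ) (ha : a = 1 ∨ a = -1) (hb : b = 1 ∨ b = -1) :
    (1 / 4 - 1 / 20000) * (Fintype.card V : ℝ) ≤
        ((univ.filter (fun w => S u w = a ∧ S v w = b)).card : ℝ) := by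
  classical
  set N : ℝ := (Fintype.card V : ℝ) with hNdef
  have hN : (0 : ℝ) ≤ N := Nat.cast_nonneg _
  have hru := goodB S μ h u
  have hrv := goodB S μ h v
  have hzu := h.zer u
  have hzv := h.zer v
  rw [← hNdef] at hru hrv hzu hzv
  have hpt : ∀ w : V, (1 + a * S u w + b * S v w + a * b * (S u w * S v w)) / 4
      - (if S u w = 0 then (1 : ℝ) else 0) - (if S v w = 0 then (1 : ℝ) else 0) ≤
      (if S u w = a ∧ S v w = b then (1 : ℝ) else 0) := by
    intro w
    rcases ha with ha | ha <;> rcases hb with hb | hb <;> subst ha <;> subst hb <;>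
      rcases h.val u w with x | x | x <;> rcases h.val v w with y | y | y <;>
        simp only [x, y] <;> norm_num
  have hs := Finset.sum_le_sum (fun w (_ : w ∈ (univ : Finset V)) => hpt w)
  have hsum1 : ∑ w : V, (1 : ℝ) = N := by simp [hNdef]
  rw [Finset.sum_sub_distrib, Finset.sum_sub_distrib, ← Finset.sum_div,
    Finset.sum_add_distrib, Finset.sum_add_distrib, Finset.sum_add_distrib,
    ← Finset.mul_sum, ← Finset.mul_sum, ← Finset.mul_sum, hsum1, Finset.sum_boole,
    Finset.sum_boole, Finset.sum_boole] at hs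
  have hru' := abs_le.mp hru
  have hrv' := abs_le.mp hrv
  have hQ' := abs_le.mp hQ
  refine le_trans ?_ hs
  rcases ha with ha | ha <;> rcases hb with hb | hb <;> subst ha <;> subst hb <;> nlinarith

open Classical in
theorem goodC {V : Type} [Fintype V] [DecidableEq V] (S : V → V → ℝ) (μ : ℝ) (h : GM S μ)
    (u : V) :
    ((univ.filter (fun v => ¬ (S u v ≠ 0 ∧ ∀ a b : ℝ, (a = 1 ∨ a = -1) → (b = 1 ∨ b = -1) →
      (1 / 4 - 1 / 20000) * (Fintype.card V : ℝ) ≤
        ((univ.filter (fun w => S u w = a ∧ S v w = b)).card : ℝ)))).card : ℝ) ≤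
      1 / 20000 * (Fintype.card V : ℝ) := by
  set N : ℝ := (Fintype.card V : ℝ) with hNdef
  have hN : (0 : ℝ) ≤ N := Nat.cast_nonneg _
  -- lower bound for Q
  have hQlow : ∀ v : V, S u v ≠ 0 → - (3 / 10 ^ 9 * N) ≤ ∑ w, S u w * S v w := by
    intro v hv
    have h1 := q_lower S μ h u v hv
    have h2 := abs_le.mp (goodB S μ h u)
    have h3 := abs_le.mp (goodB S μ h v)
    rw [← hNdef] at h1 h2 h3
    rcases h.val u v with a | a | a
    · exact absurd a hv
    · rw [a] at h1
      nlinarith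
    · rw [a] at h1
      nlinarith
  -- the exceptional set
  set B : Finset V := univ.filter (fun v => S u v ≠ 0 ∧ 1 / 10 ^ 4 * N < ∑ w, S u w * S v w)
    with hB
  set Z : Finset V := univ.filter (fun v => S u v = 0) with hZ
  have hpair : ∀ v : V, 1 / 10 ^ 4 * N * (if v ∈ B then (1 : ℝ) else 0) - 3 / 10 ^ 9 * N -
      N * (if v ∈ Z then (1 : ℝ) else 0) ≤ ∑ w, S u w * S v w := by
    intro v
    by_cases h0 : S u v = 0
    · have hz : v ∈ Z := by rw [hZ, mem_filter]; exact ⟨mem_univ _, h0⟩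
      have hb : v ∉ B := by rw [hB, mem_filter]; intro hh; exact hh.2.1 h0
      rw [if_pos hz, if_neg hb]
      have := q_ge_neg S μ h u v
      rw [← hNdef] at this
      nlinarith
    · have hz : v ∉ Z := by rw [hZ, mem_filter]; intro hh; exact h0 hh.2
      rw [if_neg hz]
      by_cases hb : v ∈ B
      · rw [if_pos hb]
        have := (mem_filter.mp hb).2.2
        nlinarith
      · rw [if_neg hb]
        have := hQlow v h0
        nlinarith
  have hsum := Finset.sum_le_sum (fun v (_ : v ∈ (univ : Finset V)) => hpair v)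
  have hup := qsum_upper S μ h u
  rw [← hNdef] at hup
  have hzc : (Z.card : ℝ) ≤ 2 / 10 ^ 40 * N := h.zer u
  have hBc : ∑ v : V, 1 / 10 ^ 4 * N * (if v ∈ B then (1 : ℝ) else 0) =
      1 / 10 ^ 4 * N * B.card := by
    rw [← Finset.mul_sum, Finset.sum_boole]; simp
  have hZc : ∑ v : V, N * (if v ∈ Z then (1 : ℝ) else 0) = N * Z.card := by
    rw [← Finset.mul_sum, Finset.sum_boole]; simp
  have hconst : ∑ v : V, (3 / 10 ^ 9 * N) = 3 / 10 ^ 9 * N ^ 2 := by
    simp only [Finset.sum_const, Finset.card_univ, nsmul_eq_mul, ← hNdef]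
    ring
  rw [Finset.sum_sub_distrib, Finset.sum_sub_distrib, hBc, hZc, hconst] at hsum
  have hBcard : (B.card : ℝ) ≤ 4 / 10 ^ 5 * N := by
    rcases hN.lt_or_eq with hpos | hzero
    · have hk : 1 / 10 ^ 4 * N * (B.card : ℝ) ≤ 1 / 10 ^ 4 * N * (4 / 10 ^ 5 * N) := by
        have : N * (Z.card : ℝ) ≤ N * (2 / 10 ^ 40 * N) := mul_le_mul_of_nonneg_left hzc hN
        nlinarith
      exact le_of_mul_le_mul_left hk (by positivity)
    · have hc : B.card ≤ Fintype.card V := Finset.card_le_univ B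
      have hc' : (B.card : ℝ) ≤ N := by rw [hNdef]; exact_mod_cast hc
      rw [← hzero] at hc' ⊢
      linarith
  -- the bad vertices lie in Z ∪ B
  have hsub : (univ.filter (fun v => ¬ (S u v ≠ 0 ∧ ∀ a b : ℝ, (a = 1 ∨ a = -1) →
      (b = 1 ∨ b = -1) → (1 / 4 - 1 / 20000) * N ≤
        ((univ.filter (fun w => S u w = a ∧ S v w = b)).card : ℝ)))) ⊆ Z ∪ B := by
    intro v hv
    rw [mem_union]
    by_contra hcon
    rw [not_or] at hcon
    obtain ⟨hvZ, hvB⟩ := hcon
    have h0 : S u v ≠ 0 := by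
      intro h0
      exact hvZ (by rw [hZ, mem_filter]; exact ⟨mem_univ _, h0⟩)
    have hle : ∑ w, S u w * S v w ≤ 1 / 10 ^ 4 * N := by
      by_contra hlt
      exact hvB (by rw [hB, mem_filter]; exact ⟨mem_univ _, h0, not_le.mp hlt⟩)
    have hge : - (1 / 10 ^ 4 * N) ≤ ∑ w, S u w * S v w := by
      have := hQlow v h0
      nlinarith
    refine (mem_filter.mp hv).2 ⟨h0, fun a b ha hb => ?_⟩
    have := goodC_pat S μ h u v (abs_le.mpr ⟨hge, hle⟩) a b ha hb
    rw [← hNdef] at this
    convert this using 3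
  have hcard := (Finset.card_le_card hsub).trans (Finset.card_union_le Z B)
  have hcard' : ((univ.filter (fun v => ¬ (S u v ≠ 0 ∧ ∀ a b : ℝ, (a = 1 ∨ a = -1) →
      (b = 1 ∨ b = -1) → (1 / 4 - 1 / 20000) * N ≤
        ((univ.filter (fun w => S u w = a ∧ S v w = b)).card : ℝ)))).card : ℝ) ≤
      (Z.card : ℝ) + (B.card : ℝ) := by
    exact_mod_cast hcard
  refine hcard'.trans ?_
  nlinarith

end ZS44129
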