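import Mathlib
import Pool.Agent.Work.MP_44129c_co.Defs
import Pool.Agent.Work.MP_44129c_co.GoodC

/-!
# MP_44129c_co, module Balanced (almost all pairs are good and balanced)

`N = card V`.  `SideData` collects what `thmA` provides (`hsides`).  Let `m₀ = (C + 10) 10^41`.
Note `N ≥ m` (from `hN`: `4·10^40 m ≤ (3·10^40+1) N`), so `N ≥ m₀` too.
1. Disjointness: if `Good q c u w`, `g ∈ H u ∪ H w` and `g ∈ L u ∪ L w` are impossible together
   (`(j+1) f ≤ m n g ≤ j f`, `f > 0` by `Core.lat.fpos`).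
2. `S u w = 0` if `w = u`; else `1` if `c u w ∈ H u ∪ H w`; else `-1` if `c u w ∈ L u ∪ L w`;
   else `0` (real valued).  `H u ∪ L u = pal q c u`.  Symmetric since `c` is.
   For `w ≠ u` with `c u w ∈ pal q c u`: the pair is good, and `S u w = 1` iff `c u w ∈ H u`,
   `S u w = -1` iff `c u w ∈ L u` (by 1.).
   Let `Z u = {w : w = u ∨ c u w ∉ pal q c u}`, `|Z u| ≤ 1 + N/10^40`.
3. `GM S m`: `val, symm, diag` clear; `zer`: `S u w = 0` implies `w ∈ Z u`,
   `1 + N/10^40 ≤ 2N/10^40`.  `mu`: `hN`.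
   `pos`: `S u v = 1`: then `u ≠ v`, `c u v ∈ H u ∪ H v ⊆ pal ∪ pal`, so `(u,v)` is good; with the
   `Core` structure of `(u,v)`: `(j+1) f ≤ m n (c u v)`, so `Core.hi` gives
   `#{w : ∃ x ∈ pairO q c u v w, (j+1) f ≤ m n x} ≤ m + C`.  If `w ∉ Z u ∪ Z v` and not
   (`S u w = S v w = -1`) then `S u w = 1` or `S v w = 1`, say `S u w = 1`, so `c u w ∈ H u`, and
   `x = c u w ∈ pairO q c u v w` (`w ≠ u, v`) is high: `w` is in this set.  Hence
   `#{S u w = S v w = -1} ≥ N - (m + C) - |Z u| - |Z v| ≥ N - m - N/10^39`.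
   `neg` is the same with `Core.lo`.
4. `goodC`: all but `N/20000` of the `v` satisfy `S u v ≠ 0` and the four pattern counts
   `≥ (1/4 - 1/20000) N`.  For such `v`: the pair is good (`S u v ≠ 0` gives `v ≠ u` and
   `c u v ∈ pal q c u ∪ pal q c v`), and e.g.
   `pat c u v (H u) (H v) ≥ #{w : S u w = 1 ∧ S v w = 1} - |Z u| - |Z v|` by 2., so
   `10^4 pat ≥ 10^4 (1/4 - 1/20000) N - 10^4 (2 + 2N/10^40) ≥ 2499 N`.
-/

set_option autoImplicit false

namespace ZS44129

open Finset

/-- the conclusion of `thmA`. -/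
def SideData {V : Type} [Fintype V] [DecidableEq V] (m q A C : ℕ) (c : V → V → ZMod m)
    (H L : V → Finset (ZMod m)) : Prop :=
  (∀ u, H u ∪ L u = pal q c u) ∧
    ∀ u v, Good q c u v → ∃ (n : ZMod m → ℤ) (f : ℕ) (j : ℤ),
      Core m A C (pairO q c u v) (some (c u v)) (m - 1) (pal q c u ∪ pal q c v) n f j ∧
      (∀ g ∈ H u ∪ H v, (j + 1) * f ≤ m * n g) ∧
      (∀ g ∈ L u ∪ L v, m * n g ≤ j * f)

/-- `(u, v)` is good and each of the four patterns occurs at least `(1/4 - 1/10^4) N` times. -/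
def Bal {V : Type} [Fintype V] [DecidableEq V] {m : ℕ} (q : ℕ) (c : V → V → ZMod m)
    (H L : V → Finset (ZMod m)) (u v : V) : Prop :=
  Good q c u v ∧ 2499 * Fintype.card V ≤ 10 ^ 4 * pat c u v (H u) (H v) ∧
    2499 * Fintype.card V ≤ 10 ^ 4 * pat c u v (H u) (L v) ∧
    2499 * Fintype.card V ≤ 10 ^ 4 * pat c u v (L u) (H v) ∧
    2499 * Fintype.card V ≤ 10 ^ 4 * pat c u v (L u) (L v)

open Classical in
theorem balanced (q A C : ℕ) : ∃ m₀ : ℕ, ∀ m : ℕ, m₀ ≤ m →
    ∀ {V : Type} [Fintype V] [DecidableEq V] (c : V → V → ZMod m) (H L : V → Finset (ZMod m)),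
      (∀ x y, c x y = c y x) → SideData m q A C c H L →
      4 * 10 ^ 40 * m ≤ (3 * 10 ^ 40 + 1) * Fintype.card V →
      (∀ u : V, 10 ^ 40 * ((univ.erase u).filter (fun w => c u w ∉ pal q c u)).card ≤
        Fintype.card V) →
      ∀ u : V, 10 ^ 4 * (univ.filter (fun v => ¬ Bal q c H L u v)).card ≤ Fintype.card V := by
  refine ⟨(C + 10) * 10 ^ 41, ?_⟩
  intro m hm V _ _ c H L hsym ⟨hHL, hCore⟩ hN hrare u₀
  obtain ⟨N, hNd⟩ : ∃ N : ℕ, N = Fintype.card V := ⟨_, rfl⟩
  rw [← hNd] at hN hrare ⊢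
  have hmN : m ≤ N := by omega
  have hNbig : (C + 10) * 10 ^ 41 ≤ N := hm.trans hmN
  have hNr : ((C : ℝ) + 10) * 10 ^ 41 ≤ N := by exact_mod_cast hNbig
  -- disjointness
  have hdisj : ∀ u w, Good q c u w → ∀ g, g ∈ H u ∪ H w → g ∈ L u ∪ L w → False := by
    intro u w hg g h1 h2
    obtain ⟨n, f, j, hC, hh, hl⟩ := hCore u w hg
    have hf : (0 : ℤ) < f := by exact_mod_cast hC.lat.fpos
    have := (hh g h1).trans (hl g h2)
    nlinarith
  obtain ⟨Z, hZ⟩ : ∃ Z : V → Finset V, Z = fun u => univ.filter (fun w => w = u ∨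
    c u w ∉ pal q c u) := ⟨_, rfl⟩
  have hZmem : ∀ u w, w ∉ Z u → w ≠ u ∧ c u w ∈ pal q c u := by
    intro u w h
    rw [hZ] at h
    simp only [Finset.mem_filter, Finset.mem_univ, true_and, not_or, not_not] at h
    exact h
  have hZcard : ∀ u, ((Z u).card : ℝ) ≤ 1 + N / 10 ^ 40 := by
    intro u
    have h1 : Z u ⊆ insert u ((univ.erase u).filter (fun w => c u w ∉ pal q c u)) := by
      intro w hw
      rw [hZ] at hw
      simp only [Finset.mem_filter, Finset.mem_univ, true_and] at hw
      rw [Finset.mem_insert]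
      by_cases h : w = u
      · exact Or.inl h
      · refine Or.inr (Finset.mem_filter.2 ⟨Finset.mem_erase.2 ⟨h, Finset.mem_univ _⟩, ?_⟩)
        exact hw.resolve_left h
    have h2 := (Finset.card_le_card h1).trans (Finset.card_insert_le _ _)
    have h3 := hrare u
    have h2r : ((Z u).card : ℝ) ≤
        ((univ.erase u).filter (fun w => c u w ∉ pal q c u)).card + 1 := by exact_mod_cast h2
    have h3r : (10 : ℝ) ^ 40 * ((univ.erase u).filter (fun w => c u w ∉ pal q c u)).card ≤ N := by
      exact_mod_cast h3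
    have h4 : (((univ.erase u).filter (fun w => c u w ∉ pal q c u)).card : ℝ) ≤ N / 10 ^ 40 := by
      rw [le_div_iff₀ (by positivity)]; linarith
    linarith
  have hgood : ∀ u w, w ∉ Z u → Good q c u w := by
    intro u w h
    obtain ⟨h1, h2⟩ := hZmem u w h
    exact ⟨Ne.symm h1, Finset.mem_union_left _ h2⟩
  obtain ⟨S, hS⟩ : ∃ S : V → V → ℝ, S = fun u w => if w = u then 0 else
    if c u w ∈ H u ∪ H w then 1 else if c u w ∈ L u ∪ L w then -1 else 0 := ⟨_, rfl⟩
  have hSval : ∀ u w, S u w = 0 ∨ S u w = 1 ∨ S u w = -1 := by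
    intro u w
    rw [hS]
    simp only
    split_ifs <;> simp
  have hS1 : ∀ u w, S u w = 1 → w ≠ u ∧ c u w ∈ H u ∪ H w := by
    intro u w h
    rw [hS] at h
    simp only at h
    split_ifs at h with h1 h2 h3
    · norm_num at h
    · exact ⟨h1, h2⟩
    · norm_num at h
    · norm_num at h
  have hSm1 : ∀ u w, S u w = -1 → w ≠ u ∧ c u w ∉ H u ∪ H w ∧ c u w ∈ L u ∪ L w := by
    intro u w h
    rw [hS] at h
    simp only at h
    split_ifs at h with h1 h2 h3
    · norm_num at h
    · norm_num at h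
    · exact ⟨h1, h2, h3⟩
    · norm_num at h
  have hH1 : ∀ u w, w ∉ Z u → S u w = 1 → c u w ∈ H u := by
    intro u w hw h
    obtain ⟨h1, h2⟩ := hS1 u w h
    have h3 := (hZmem u w hw).2
    rw [← hHL u, Finset.mem_union] at h3
    rcases h3 with h3 | h3
    · exact h3
    · exact (hdisj u w (hgood u w hw) _ h2 (Finset.mem_union_left _ h3)).elim
  have hL1 : ∀ u w, w ∉ Z u → S u w = -1 → c u w ∈ L u := by
    intro u w hw h
    obtain ⟨h1, h2, h4⟩ := hSm1 u w h
    have h3 := (hZmem u w hw).2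
    rw [← hHL u, Finset.mem_union] at h3
    rcases h3 with h3 | h3
    · exact (h2 (Finset.mem_union_left _ h3)).elim
    · exact h3
  have hS0 : ∀ u w, w ∉ Z u → S u w ≠ 0 := by
    intro u w hw h
    obtain ⟨h1, h3⟩ := hZmem u w hw
    rw [← hHL u, Finset.mem_union] at h3
    rw [hS] at h
    simp only [h1, if_false] at h
    split_ifs at h with h2 h4
    · norm_num at h
    · norm_num at h
    · rcases h3 with h3 | h3
      · exact h2 (Finset.mem_union_left _ h3)
      · exact h4 (Finset.mem_union_left _ h3)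
  have hHsub : ∀ u v, H u ∪ H v ⊆ pal q c u ∪ pal q c v := by
    intro u v
    rw [← hHL u, ← hHL v]
    exact Finset.union_subset_union Finset.subset_union_left Finset.subset_union_left
  have hLsub : ∀ u v, L u ∪ L v ⊆ pal q c u ∪ pal q c v := by
    intro u v
    rw [← hHL u, ← hHL v]
    exact Finset.union_subset_union Finset.subset_union_right Finset.subset_union_right
  have hpairO : ∀ u v w, w ∉ Z u → w ∉ Z v → c u w ∈ pairO q c u v w ∧
      c v w ∈ pairO q c u v w := by
    intro u v w h1 h2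
    obtain ⟨h3, h4⟩ := hZmem u w h1
    obtain ⟨h5, h6⟩ := hZmem v w h2
    unfold pairO
    rw [if_neg (by push Not; exact ⟨h3, h5⟩)]
    constructor
    · exact Finset.mem_inter.2 ⟨by simp, Finset.mem_union_left _ h4⟩
    · exact Finset.mem_inter.2 ⟨by simp, Finset.mem_union_right _ h6⟩
  have hGM : GM S (m : ℝ) := by
    refine ⟨hSval, ?_, ?_, ?_, ?_, ?_, ?_⟩
    · intro u v
      rw [hS]
      simp only
      by_cases huv : u = v
      · rw [huv]
      · rw [if_neg huv, if_neg (Ne.symm huv), hsym v u, Finset.union_comm (H v),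
          Finset.union_comm (L v)]
    · intro u
      rw [hS]; simp
    · intro u
      have h1 : univ.filter (fun w => S u w = 0) ⊆ Z u := by
        intro w hw
        by_contra h
        exact hS0 u w h (Finset.mem_filter.1 hw).2
      have h2 : ((univ.filter (fun w => S u w = 0)).card : ℝ) ≤ (Z u).card := by
        exact_mod_cast Finset.card_le_card h1
      refine h2.trans ((hZcard u).trans ?_)
      rw [← hNd]
      have : (1 : ℝ) ≤ N / 10 ^ 40 := by
        rw [le_div_iff₀ (by positivity)]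
        nlinarith [Nat.cast_nonneg (α := ℝ) C]
      linarith
    · intro u v huv
      obtain ⟨h1, h2⟩ := hS1 u v huv
      have hg : Good q c u v := ⟨Ne.symm h1, hHsub u v h2⟩
      obtain ⟨n, f, j, hC, hh, hl⟩ := hCore u v hg
      have h3 := hC.hi (c u v) rfl (hh _ h2)
      have h4 : (univ : Finset V) ⊆ (univ.filter (fun w => S u w = -1 ∧ S v w = -1)) ∪
          (Z u ∪ (Z v ∪ univ.filter (fun w => ∃ x ∈ pairO q c u v w,
            (j + 1) * f ≤ m * n x))) := by
        intro w _
        by_cases hu : w ∈ Z u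
        · exact Finset.mem_union_right _ (Finset.mem_union_left _ hu)
        by_cases hv : w ∈ Z v
        · exact Finset.mem_union_right _ (Finset.mem_union_right _ (Finset.mem_union_left _ hv))
        rcases hSval u w with h | h | h
        · exact absurd h (hS0 u w hu)
        · refine Finset.mem_union_right _ (Finset.mem_union_right _ (Finset.mem_union_right _
            (Finset.mem_filter.2 ⟨Finset.mem_univ _, c u w, (hpairO u v w hu hv).1, ?_⟩)))
          exact hh _ (Finset.mem_union_left _ (hH1 u w hu h))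
        · rcases hSval v w with h' | h' | h'
          · exact absurd h' (hS0 v w hv)
          · refine Finset.mem_union_right _ (Finset.mem_union_right _ (Finset.mem_union_right _
              (Finset.mem_filter.2 ⟨Finset.mem_univ _, c v w, (hpairO u v w hu hv).2, ?_⟩)))
            exact hh _ (Finset.mem_union_right _ (hH1 v w hv h'))
          · exact Finset.mem_union_left _ (Finset.mem_filter.2 ⟨Finset.mem_univ _, h, h'⟩)
      have h5 := Finset.card_le_card h4
      rw [Finset.card_univ, ← hNd] at h5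
      have h6 := h5.trans ((Finset.card_union_le _ _).trans (Nat.add_le_add_left
        ((Finset.card_union_le _ _).trans (Nat.add_le_add_left
          ((Finset.card_union_le _ _).trans (Nat.add_le_add_left h3 _)) _)) _))
      have h7 : (N : ℝ) ≤ ((univ.filter (fun w => S u w = -1 ∧ S v w = -1)).card : ℝ) +
          ((Z u).card + ((Z v).card + (m + C))) := by exact_mod_cast h6
      have h8 := hZcard u
      have h9 := hZcard v
      rw [← hNd]
      have h10 : (C : ℝ) + 2 + 2 * (N / 10 ^ 40) ≤ 1 / 10 ^ 39 * N := by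
        have e1 : (1 : ℝ) / 10 ^ 39 * N = 10 * (N / 10 ^ 40) := by ring
        have e2 : (C : ℝ) + 10 ≤ N / 10 ^ 41 := by
          rw [le_div_iff₀ (by positivity)]; linarith
        have e3 : (N : ℝ) / 10 ^ 40 = 10 * (N / 10 ^ 41) := by ring
        rw [e1, e3]
        have : (0 : ℝ) ≤ C := by positivity
        linarith
      linarith
    · intro u v huv
      obtain ⟨h1, _, h2⟩ := hSm1 u v huv
      have hg : Good q c u v := ⟨Ne.symm h1, hLsub u v h2⟩
      obtain ⟨n, f, j, hC, hh, hl⟩ := hCore u v hg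
      have h3 := hC.lo (c u v) rfl (hl _ h2)
      have h4 : (univ : Finset V) ⊆ (univ.filter (fun w => S u w = 1 ∧ S v w = 1)) ∪
          (Z u ∪ (Z v ∪ univ.filter (fun w => ∃ x ∈ pairO q c u v w,
            m * n x ≤ j * f))) := by
        intro w _
        by_cases hu : w ∈ Z u
        · exact Finset.mem_union_right _ (Finset.mem_union_left _ hu)
        by_cases hv : w ∈ Z v
        · exact Finset.mem_union_right _ (Finset.mem_union_right _ (Finset.mem_union_left _ hv))
        rcases hSval u w with h | h | h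
        · exact absurd h (hS0 u w hu)
        · rcases hSval v w with h' | h' | h'
          · exact absurd h' (hS0 v w hv)
          · exact Finset.mem_union_left _ (Finset.mem_filter.2 ⟨Finset.mem_univ _, h, h'⟩)
          · refine Finset.mem_union_right _ (Finset.mem_union_right _ (Finset.mem_union_right _
              (Finset.mem_filter.2 ⟨Finset.mem_univ _, c v w, (hpairO u v w hu hv).2, ?_⟩)))
            exact hl _ (Finset.mem_union_right _ (hL1 v w hv h'))
        · refine Finset.mem_union_right _ (Finset.mem_union_right _ (Finset.mem_union_right _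
            (Finset.mem_filter.2 ⟨Finset.mem_univ _, c u w, (hpairO u v w hu hv).1, ?_⟩)))
          exact hl _ (Finset.mem_union_left _ (hL1 u w hu h))
      have h5 := Finset.card_le_card h4
      rw [Finset.card_univ, ← hNd] at h5
      have h6 := h5.trans ((Finset.card_union_le _ _).trans (Nat.add_le_add_left
        ((Finset.card_union_le _ _).trans (Nat.add_le_add_left
          ((Finset.card_union_le _ _).trans (Nat.add_le_add_left h3 _)) _)) _))
      have h7 : (N : ℝ) ≤ ((univ.filter (fun w => S u w = 1 ∧ S v w = 1)).card : ℝ) +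
          ((Z u).card + ((Z v).card + (m + C))) := by exact_mod_cast h6
      have h8 := hZcard u
      have h9 := hZcard v
      rw [← hNd]
      have h10 : (C : ℝ) + 2 + 2 * (N / 10 ^ 40) ≤ 1 / 10 ^ 39 * N := by
        have e1 : (1 : ℝ) / 10 ^ 39 * N = 10 * (N / 10 ^ 40) := by ring
        have e2 : (C : ℝ) + 10 ≤ N / 10 ^ 41 := by
          rw [le_div_iff₀ (by positivity)]; linarith
        have e3 : (N : ℝ) / 10 ^ 40 = 10 * (N / 10 ^ 41) := by ring
        rw [e1, e3]
        have : (0 : ℝ) ≤ C := by positivity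
        linarith
      linarith
    · rw [← hNd]
      have : (4 : ℝ) * 10 ^ 40 * m ≤ (3 * 10 ^ 40 + 1) * N := by exact_mod_cast hN
      have e1 : (3 + 1 / 10 ^ 40 : ℝ) * N = (3 * 10 ^ 40 + 1) * N / 10 ^ 40 := by
        field_simp
      rw [e1, le_div_iff₀ (by positivity)]
      linarith
  have hgc := goodC S (m : ℝ) hGM u₀
  rw [← hNd] at hgc
  have hsubset : univ.filter (fun v => ¬ Bal q c H L u₀ v) ⊆
      univ.filter (fun v => ¬ (S u₀ v ≠ 0 ∧ ∀ a b : ℝ, (a = 1 ∨ a = -1) → (b = 1 ∨ b = -1) →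
      (1 / 4 - 1 / 20000) * (N : ℝ) ≤
        ((univ.filter (fun w => S u₀ w = a ∧ S v w = b)).card : ℝ))) := by
    intro v hv
    simp only [Finset.mem_filter, Finset.mem_univ, true_and] at hv ⊢
    intro hcon
    apply hv
    obtain ⟨hne, hpat⟩ := hcon
    have hpatL : ∀ (X Y : Finset (ZMod m)) (a b : ℝ), (a = 1 ∨ a = -1) → (b = 1 ∨ b = -1) →
        (∀ w, w ∉ Z u₀ → S u₀ w = a → c u₀ w ∈ X) → (∀ w, w ∉ Z v → S v w = b → c v w ∈ Y) →
        2499 * N ≤ 10 ^ 4 * pat c u₀ v X Y := by
      intro X Y a b ha hb hX hY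
      have h1 := hpat a b ha hb
      have h2 : univ.filter (fun w => S u₀ w = a ∧ S v w = b) ⊆
          (univ.filter (fun w => w ≠ u₀ ∧ w ≠ v ∧ c u₀ w ∈ X ∧ c v w ∈ Y)) ∪ (Z u₀ ∪ Z v) := by
        intro w hw
        obtain ⟨_, h3, h4⟩ := Finset.mem_filter.1 hw
        by_cases hu : w ∈ Z u₀
        · exact Finset.mem_union_right _ (Finset.mem_union_left _ hu)
        by_cases hv : w ∈ Z v
        · exact Finset.mem_union_right _ (Finset.mem_union_right _ hv)
        exact Finset.mem_union_left _ (Finset.mem_filter.2 ⟨Finset.mem_univ _,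
          (hZmem _ _ hu).1, (hZmem _ _ hv).1, hX w hu h3, hY w hv h4⟩)
      have h5 := (Finset.card_le_card h2).trans ((Finset.card_union_le _ _).trans
        (Nat.add_le_add_left (Finset.card_union_le _ _) _))
      have h6 : ((univ.filter (fun w => S u₀ w = a ∧ S v w = b)).card : ℝ) ≤
          (pat c u₀ v X Y : ℝ) + ((Z u₀).card + (Z v).card) := by
        unfold pat
        exact_mod_cast h5
      have h7 := hZcard u₀
      have h8 := hZcard v
      have h9 : (10 : ℝ) ^ 42 ≤ N := by
        have : (0 : ℝ) ≤ C := by positivity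
        nlinarith
      have h10 : (2499 : ℝ) * N ≤ 10 ^ 4 * (pat c u₀ v X Y : ℝ) := by
        have e1 : (2 : ℝ) + 2 * (N / 10 ^ 40) ≤ 1 / 20000 * N := by
          have e2 : (N : ℝ) / 10 ^ 40 ≤ N / 10 ^ 6 :=
            div_le_div_of_nonneg_left (by positivity) (by positivity) (by norm_num)
          have e3 : (10 : ℝ) ^ 6 ≤ 10 ^ 42 := by norm_num
          have e4 : (10 : ℝ) ^ 6 ≤ N := e3.trans h9
          norm_num at e4 e2 ⊢
          linarith
        linarith
      exact_mod_cast h10
    have hg : Good q c u₀ v := by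
      rcases hSval u₀ v with h | h | h
      · exact absurd h hne
      · obtain ⟨h1, h2⟩ := hS1 u₀ v h
        exact ⟨Ne.symm h1, hHsub u₀ v h2⟩
      · obtain ⟨h1, _, h2⟩ := hSm1 u₀ v h
        exact ⟨Ne.symm h1, hLsub u₀ v h2⟩
    unfold Bal
    rw [← hNd]
    exact ⟨hg, hpatL _ _ 1 1 (Or.inl rfl) (Or.inl rfl) (fun w h1 h2 => hH1 _ w h1 h2)
        (fun w h1 h2 => hH1 _ w h1 h2),
      hpatL _ _ 1 (-1) (Or.inl rfl) (Or.inr rfl) (fun w h1 h2 => hH1 _ w h1 h2)
        (fun w h1 h2 => hL1 _ w h1 h2),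
      hpatL _ _ (-1) 1 (Or.inr rfl) (Or.inl rfl) (fun w h1 h2 => hL1 _ w h1 h2)
        (fun w h1 h2 => hH1 _ w h1 h2),
      hpatL _ _ (-1) (-1) (Or.inr rfl) (Or.inr rfl) (fun w h1 h2 => hL1 _ w h1 h2)
        (fun w h1 h2 => hL1 _ w h1 h2)⟩
  have hfin : ((univ.filter (fun v => ¬ Bal q c H L u₀ v)).card : ℝ) ≤ 1 / 20000 * (N : ℝ) :=
    le_trans (by exact_mod_cast Finset.card_le_card hsubset) hgc
  have : (10 : ℝ) ^ 4 * ((univ.filter (fun v => ¬ Bal q c H L u₀ v)).card : ℝ) ≤ N := by
    have : (0 : ℝ) ≤ N := by positivity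
    linarith
  exact_mod_cast this

end ZS44129
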