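import Mathlib
import Pool.Agent.Work.MP_44129c_co.Defs

/-!
# MP_44129c_co, module StarSys (the star at a vertex is a system)

`N = card V`.  `m₀ = 100` (or larger).
* `zsf_star` : a zero-sum-free colouring has no zero-sum star with `m ≥ 1` edges: for `v ∈ D`
  use `ZSF` with the pair `u, v`, `X = D.erase v`, `Y = ∅`.
* `sub`: by definition.  `forced`: no forced colour.  `Mm`: `m + 0 = m`.
* `mult`: for `g ∈ pal q c u` the slots `w` with `g ∈ starO q c u w` are the `w ≠ u` with
  `c u w = g`.
* `pal`: `|pal| m ≤ q ∑_{g ∈ pal} #{w ≠ u : c u w = g} ≤ q (N - 1) ≤ 2 q m`, so `|pal| ≤ 2 q`.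
* `slots`: the slots with an option are the `w ≠ u` with `c u w ∈ pal q c u`; at least
  `N - 1 - N/100 ≥ (99/100)(13/10) m - 1 ≥ (11/10) m` (`0.187 m ≥ 1`).  `ne`: there is such a slot.
* `zf`: for a configuration `σ` let `D` be the set of picked slots; `u ∉ D`, `|D| = m`,
  `σ w = some (c u w)` on `D`, so `tot none σ = ∑_{w ∈ D} c u w ≠ 0` by `zsf_star`.
-/

set_option autoImplicit false

namespace ZS44129

open Finset

theorem zsf_star {V : Type} [DecidableEq V] {m : ℕ} (hm : 0 < m) (c : V → V → ZMod m)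
    (hz : ZSF m c) (u : V) (D : Finset V) (hu : u ∉ D) (hD : D.card = m) :
    ∑ w ∈ D, c u w ≠ 0 := by
  have hne : D.Nonempty := by rw [← Finset.card_pos]; omega
  obtain ⟨v, hv⟩ := hne
  have huv : u ≠ v := by rintro rfl; exact hu hv
  have h := hz u v huv (D.erase v) ∅ (Finset.disjoint_empty_right _)
    (fun h => hu (Finset.mem_of_mem_erase h)) (Finset.notMem_erase _ _) (Finset.notMem_empty _)
    (Finset.notMem_empty _) (by
      rw [Finset.card_erase_of_mem hv, Finset.card_empty, hD]; omega)
  rw [Finset.sum_empty, add_zero, Finset.add_sum_erase D (c u) hv] at h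
  exact h

/-- few popular colours. -/
theorem pal_card_le {V : Type} [Fintype V] [DecidableEq V] {m q : ℕ} (hm : 0 < m)
    (c : V → V → ZMod m) (hV : Fintype.card V ≤ 2 * m) (u : V) :
    (pal q c u).card ≤ 2 * q := by
  have h1 : (pal q c u).card * m ≤ q * (univ.erase u).card := by
    have h2 : ∑ g ∈ pal q c u, m ≤
        ∑ g ∈ pal q c u, q * ((univ.erase u).filter (fun w => c u w = g)).card :=
      Finset.sum_le_sum (fun g hg => (Finset.mem_filter.1 hg).2)
    rw [Finset.sum_const, smul_eq_mul, ← Finset.mul_sum,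
      Finset.sum_card_fiberwise_eq_card_filter] at h2
    exact h2.trans (Nat.mul_le_mul_left _ (Finset.card_filter_le _ _))
  have h3 : (univ.erase u).card ≤ 2 * m := (Finset.card_le_univ _).trans hV
  have h4 : (pal q c u).card * m ≤ (2 * q) * m := by
    calc _ ≤ q * (univ.erase u).card := h1
      _ ≤ q * (2 * m) := Nat.mul_le_mul_left _ h3
      _ = _ := by ring
  exact Nat.le_of_mul_le_mul_right h4 hm

/-- many edges at `u` have popular colours. -/
theorem pop_count {V : Type} [Fintype V] [DecidableEq V] {m q : ℕ}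
    (c : V → V → ZMod m) (u : V) :
    ((univ.erase u).filter (fun w => c u w ∈ pal q c u)).card +
      ((univ.erase u).filter (fun w => c u w ∉ pal q c u)).card + 1 = Fintype.card V := by
  rw [Finset.card_filter_add_card_filter_not, Finset.card_erase_of_mem (Finset.mem_univ u),
    Finset.card_univ]
  have : 0 < Fintype.card V := Fintype.card_pos_iff.2 ⟨u⟩
  omega

theorem star_sys (q : ℕ) (hq : 0 < q) : ∃ m₀ : ℕ, ∀ m : ℕ, m₀ ≤ m →
    ∀ {V : Type} [Fintype V] [DecidableEq V] (c : V → V → ZMod m), ZSF m c →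
      13 * m ≤ 10 * Fintype.card V → Fintype.card V ≤ 2 * m →
      ∀ u : V, 100 * ((univ.erase u).filter (fun w => c u w ∉ pal q c u)).card ≤
        Fintype.card V →
      Sys m q (starO q c u) none m (pal q c u) := by
  refine ⟨100, ?_⟩
  intro m hm V _ _ c hz hV1 hV2 u hbad
  have hcount := pop_count (q := q) c u
  have hgood : 11 * m ≤ 10 * ((univ.erase u).filter (fun w => c u w ∈ pal q c u)).card := by
    omega
  have hmem : ∀ w g, g ∈ starO q c u w → w ≠ u ∧ g = c u w ∧ g ∈ pal q c u := by
    intro w g hg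
    rw [starO] at hg
    split_ifs at hg with h
    · exact absurd hg (Finset.notMem_empty _)
    · rw [Finset.mem_inter, Finset.mem_singleton] at hg
      exact ⟨h, hg⟩
  have hmem' : ∀ w, w ≠ u → c u w ∈ pal q c u → c u w ∈ starO q c u w := by
    intro w hw hg
    rw [starO, if_neg hw, Finset.mem_inter, Finset.mem_singleton]
    exact ⟨rfl, hg⟩
  refine ⟨fun w g hg => (hmem w g hg).2.2, fun g hg => absurd hg (by simp), by simp, ?_,
    (pal_card_le (by omega) c hV2 u).trans (by omega), ?_, ?_, ?_⟩
  · have hpos : 0 < ((univ.erase u).filter (fun w => c u w ∈ pal q c u)).card := by omega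
    obtain ⟨w, hw⟩ := Finset.card_pos.1 hpos
    exact ⟨_, (Finset.mem_filter.1 hw).2⟩
  · intro g hg
    refine (Finset.mem_filter.1 hg).2.trans (Nat.mul_le_mul_left _ (Finset.card_le_card ?_))
    intro w hw
    obtain ⟨h1, h2⟩ := Finset.mem_filter.1 hw
    rw [Finset.mem_filter]
    refine ⟨Finset.mem_univ _, ?_⟩
    rw [← h2]
    exact hmem' w (Finset.ne_of_mem_erase h1) (by rw [h2]; exact hg)
  · refine hgood.trans (Nat.mul_le_mul_left _ (Finset.card_le_card ?_))
    intro w hw
    obtain ⟨h1, h2⟩ := Finset.mem_filter.1 hw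
    rw [Finset.mem_filter]
    exact ⟨Finset.mem_univ _, ⟨_, hmem' w (Finset.ne_of_mem_erase h1) h2⟩⟩
  · intro σ hσ
    have h1 : tot none σ = ∑ w ∈ univ.filter (fun w => (σ w).isSome = true), c u w := by
      rw [tot, Finset.sum_filter]
      have h0 : ov id (none : Option (ZMod m)) = 0 := rfl
      rw [h0, zero_add]
      apply Finset.sum_congr rfl
      intro w _
      cases hc : σ w with
      | none => simp [ov]
      | some g =>
        have := (hmem w g (hσ.mem w g hc)).2.1
        simp [ov, this]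
    rw [h1]
    apply zsf_star (by omega) c hz u _ _ hσ.card
    intro hu
    have h2 := (Finset.mem_filter.1 hu).2
    obtain ⟨g, hg⟩ := Option.isSome_iff_exists.1 h2
    exact (hmem u g (hσ.mem u g hg)).1 rfl

end ZS44129
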