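import Mathlib
import Pool.Agent.Work.MP_44129c_co.Defs
import Pool.Agent.Work.MP_44129c_co.StarSys

/-!
# MP_44129c_co, module CardLe (at most 2 m vertices)

If `card V ≥ 2m + 1`, take a vertex `u`; `univ.erase u` has at least `2 m - 1` elements, so
`ZMod.erdos_ginzburg_ziv` gives `D ⊆ univ.erase u`, `|D| = m`, `∑_{w∈D} c u w = 0`, contradicting
`zsf_star`.
-/

set_option autoImplicit false

namespace ZS44129

open Finset

theorem card_le_of_zsf {V : Type} [Fintype V] [DecidableEq V] {m : ℕ} (hm : 0 < m)
    (c : V → V → ZMod m) (hz : ZSF m c) : Fintype.card V ≤ 2 * m := by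
  by_contra hcon
  push Not at hcon
  have hne : Nonempty V := by
    rw [← Fintype.card_pos_iff]; omega
  obtain ⟨u⟩ := hne
  have h1 : (univ.erase u).card = Fintype.card V - 1 := by
    rw [Finset.card_erase_of_mem (Finset.mem_univ u), Finset.card_univ]
  obtain ⟨D, hD, hDc, hDs⟩ := ZMod.erdos_ginzburg_ziv (n := m) (s := univ.erase u)
    (fun w => c u w) (by rw [h1]; omega)
  exact zsf_star hm c hz u D (fun h => by simpa using hD h) hDc hDs

end ZS44129
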