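import Mathlib
import Pool.Agent.Work.MP_44129c_co.Defs

/-!
# MP_44129c_co, module Glob (the two colours are global)

`N = card V ≥ 1000`, `m ≥ 2`.
1. `TC c u v a b` implies `TC c u v b a` (`{a,b} = {b,a}`, `t • (a - b) = -(t • (b - a))`), and
   `a ≠ b` (otherwise `1 • (b - a) = 0`, `m ∣ 1`).
2. Uniqueness at the first vertex: if `TC c u v a b` and `TC c u v' a' b'` then
   `{a,b} = {a',b'}`: the number of `w ≠ u` with `c u w = a` is at least
   `pat c u v {a} {a} + pat c u v {a} {b} ≥ 198 N/400 > N/400` (the two pattern sets are disjoint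
   as `a ≠ b`), while at most `N/400` of the `w ≠ u` have `c u w ∉ {a', b'}`; so `a ∈ {a', b'}`;
   same for `b`; so `(a',b') = (a,b)` or `(b,a)`, and `TC c u v' a b` by 1.
   In the same way at the second vertex: `TC c u v a b`, `TC c u' v a' b'` imply
   `{a,b} = {a',b'}` (`rarev`).
3. Fix `u₀` (`V` nonempty), some `v₀` with `TC c u₀ v₀ a b` (`N/1000 < N`).  Let `u` be arbitrary.
   There is `v` with `TC c u₀ v a₁ b₁` and `TC c u v a₂ b₂` for some colours
   (`2 N/1000 < N`).  By 2. (first vertex `u₀`) `{a₁,b₁} = {a,b}`, (second vertex `v`)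
   `{a₂,b₂} = {a₁,b₁}`.  By 2. (first vertex `u`) every `v'` with `TC c u v' a' b'` has
   `{a',b'} = {a,b}`, so `TC c u v' a b` by 1.  Hence
   `{v' : ¬ TC c u v' a b} ⊆ {v' : ¬ ∃ a' b', TC c u v' a' b'}`.
   `ord` comes from `TC.ord`.
-/

set_option autoImplicit false

namespace ZS44129

open Finset

private theorem tc_symm {m : ℕ} {V : Type} [Fintype V] [DecidableEq V] {c : V → V → ZMod m}
    {u v : V} {a b : ZMod m} (h : TC c u v a b) : TC c u v b a := by
  have hab : ({b, a} : Finset (ZMod m)) = {a, b} := Finset.pair_comm b a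
  refine ⟨h.ne, fun t ht => h.ord t ?_, ?_, ?_, ?_⟩
  · have : t • (b - a) = -(t • (a - b)) := by rw [← smul_neg]; congr 1; ring
    rw [this, ht, neg_zero]
  · rw [hab]; exact h.rareu
  · rw [hab]; exact h.rarev
  · rw [hab]; exact h.patt

private theorem tc_ne {m : ℕ} (hm : 2 ≤ m) {V : Type} [Fintype V] [DecidableEq V]
    {c : V → V → ZMod m} {u v : V} {a b : ZMod m} (h : TC c u v a b) : a ≠ b := by
  intro hab
  have := h.ord 1 (by rw [hab]; simp)
  have h2 : (m : ℤ) ≤ 1 := Int.le_of_dvd (by norm_num) this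
  have h3 : m ≤ 1 := by exact_mod_cast h2
  omega

private theorem tc_count_u {m : ℕ} (hm : 2 ≤ m) {V : Type} [Fintype V] [DecidableEq V]
    {c : V → V → ZMod m} {u v : V} {a b : ZMod m} (h : TC c u v a b)
    (hN : 1000 ≤ Fintype.card V) (x : ZMod m) (hx : x ∈ ({a, b} : Finset (ZMod m)))
    (s : Finset (ZMod m))
    (hs : 400 * ((univ.erase u).filter (fun w => c u w ∉ s)).card ≤ Fintype.card V) : x ∈ s := by
  by_contra hxs
  have hab := tc_ne hm h
  have h1 := h.patt x hx a (by simp)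
  have h2 := h.patt x hx b (by simp)
  have hd : Disjoint (univ.filter (fun w => w ≠ u ∧ w ≠ v ∧ c u w ∈ ({x} : Finset (ZMod m)) ∧
      c v w ∈ ({a} : Finset (ZMod m)))) (univ.filter (fun w => w ≠ u ∧ w ≠ v ∧
      c u w ∈ ({x} : Finset (ZMod m)) ∧ c v w ∈ ({b} : Finset (ZMod m)))) := by
    rw [Finset.disjoint_left]
    intro w h3 h4
    have h5 := Finset.mem_singleton.1 (Finset.mem_filter.1 h3).2.2.2.2
    have h6 := Finset.mem_singleton.1 (Finset.mem_filter.1 h4).2.2.2.2
    exact hab (h5.symm.trans h6)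
  have hsub : (univ.filter (fun w => w ≠ u ∧ w ≠ v ∧ c u w ∈ ({x} : Finset (ZMod m)) ∧
      c v w ∈ ({a} : Finset (ZMod m)))) ∪ (univ.filter (fun w => w ≠ u ∧ w ≠ v ∧
      c u w ∈ ({x} : Finset (ZMod m)) ∧ c v w ∈ ({b} : Finset (ZMod m)))) ⊆
      (univ.erase u).filter (fun w => c u w ∉ s) := by
    intro w hw
    have hw' : w ≠ u ∧ c u w = x := by
      rcases Finset.mem_union.1 hw with h | h
      · have := (Finset.mem_filter.1 h).2
        exact ⟨this.1, Finset.mem_singleton.1 this.2.2.1⟩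
      · have := (Finset.mem_filter.1 h).2
        exact ⟨this.1, Finset.mem_singleton.1 this.2.2.1⟩
    exact Finset.mem_filter.2 ⟨Finset.mem_erase.2 ⟨hw'.1, Finset.mem_univ _⟩, by
      rw [hw'.2]; exact hxs⟩
  have h3 := Finset.card_le_card hsub
  rw [Finset.card_union_of_disjoint hd] at h3
  unfold pat at h1 h2
  omega

private theorem tc_count_v {m : ℕ} (hm : 2 ≤ m) {V : Type} [Fintype V] [DecidableEq V]
    {c : V → V → ZMod m} {u v : V} {a b : ZMod m} (h : TC c u v a b)
    (hN : 1000 ≤ Fintype.card V) (x : ZMod m) (hx : x ∈ ({a, b} : Finset (ZMod m)))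
    (s : Finset (ZMod m))
    (hs : 400 * ((univ.erase v).filter (fun w => c v w ∉ s)).card ≤ Fintype.card V) : x ∈ s := by
  by_contra hxs
  have hab := tc_ne hm h
  have h1 := h.patt a (by simp) x hx
  have h2 := h.patt b (by simp) x hx
  have hd : Disjoint (univ.filter (fun w => w ≠ u ∧ w ≠ v ∧ c u w ∈ ({a} : Finset (ZMod m)) ∧
      c v w ∈ ({x} : Finset (ZMod m)))) (univ.filter (fun w => w ≠ u ∧ w ≠ v ∧
      c u w ∈ ({b} : Finset (ZMod m)) ∧ c v w ∈ ({x} : Finset (ZMod m)))) := by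
    rw [Finset.disjoint_left]
    intro w h3 h4
    have h5 := Finset.mem_singleton.1 (Finset.mem_filter.1 h3).2.2.2.1
    have h6 := Finset.mem_singleton.1 (Finset.mem_filter.1 h4).2.2.2.1
    exact hab (h5.symm.trans h6)
  have hsub : (univ.filter (fun w => w ≠ u ∧ w ≠ v ∧ c u w ∈ ({a} : Finset (ZMod m)) ∧
      c v w ∈ ({x} : Finset (ZMod m)))) ∪ (univ.filter (fun w => w ≠ u ∧ w ≠ v ∧
      c u w ∈ ({b} : Finset (ZMod m)) ∧ c v w ∈ ({x} : Finset (ZMod m)))) ⊆
      (univ.erase v).filter (fun w => c v w ∉ s) := by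
    intro w hw
    have hw' : w ≠ v ∧ c v w = x := by
      rcases Finset.mem_union.1 hw with h | h
      · have := (Finset.mem_filter.1 h).2
        exact ⟨this.2.1, Finset.mem_singleton.1 this.2.2.2⟩
      · have := (Finset.mem_filter.1 h).2
        exact ⟨this.2.1, Finset.mem_singleton.1 this.2.2.2⟩
    exact Finset.mem_filter.2 ⟨Finset.mem_erase.2 ⟨hw'.1, Finset.mem_univ _⟩, by
      rw [hw'.2]; exact hxs⟩
  have h3 := Finset.card_le_card hsub
  rw [Finset.card_union_of_disjoint hd] at h3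
  unfold pat at h1 h2
  omega

private theorem pair_eq_of {G : Type} [DecidableEq G] {a b a' b' : G} (hab : a ≠ b)
    (ha : a ∈ ({a', b'} : Finset G)) (hb : b ∈ ({a', b'} : Finset G)) :
    (a' = a ∧ b' = b) ∨ (a' = b ∧ b' = a) := by
  simp only [Finset.mem_insert, Finset.mem_singleton] at ha hb
  rcases ha with ha | ha <;> rcases hb with hb | hb
  · exact absurd (ha.trans hb.symm) hab
  · exact Or.inl ⟨ha.symm, hb.symm⟩
  · exact Or.inr ⟨hb.symm, ha.symm⟩
  · exact absurd (ha.trans hb.symm) hab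

open Classical in
theorem glob {m : ℕ} (hm : 2 ≤ m) {V : Type} [Fintype V] [DecidableEq V] (c : V → V → ZMod m)
    (hN : 1000 ≤ Fintype.card V)
    (h : ∀ u : V, 1000 * (univ.filter (fun v => ¬ ∃ a b : ZMod m, TC c u v a b)).card ≤
      Fintype.card V) :
    ∃ a b : ZMod m, (∀ t : ℤ, t • (b - a) = 0 → (m : ℤ) ∣ t) ∧
      ∀ u : V, 1000 * (univ.filter (fun v => ¬ TC c u v a b)).card ≤ Fintype.card V := by
  have hV : Nonempty V := by
    rw [← Fintype.card_pos_iff]; omega
  obtain ⟨u₀⟩ := hV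
  -- two typical lists meet
  have hmeet : ∀ u u' : V, ∃ v, (∃ a b : ZMod m, TC c u v a b) ∧
      (∃ a b : ZMod m, TC c u' v a b) := by
    intro u u'
    by_contra hcon
    have hcov : (univ : Finset V) ⊆ univ.filter (fun v => ¬ ∃ a b : ZMod m, TC c u v a b) ∪
        univ.filter (fun v => ¬ ∃ a b : ZMod m, TC c u' v a b) := by
      intro v _
      by_cases h1 : ∃ a b : ZMod m, TC c u v a b
      · refine Finset.mem_union_right _ (Finset.mem_filter.2 ⟨Finset.mem_univ _, fun h2 => ?_⟩)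
        exact hcon ⟨v, h1, h2⟩
      · exact Finset.mem_union_left _ (Finset.mem_filter.2 ⟨Finset.mem_univ _, h1⟩)
    have h1 := (Finset.card_le_card hcov).trans (Finset.card_union_le _ _)
    have h2 := h u
    have h3 := h u'
    rw [Finset.card_univ] at h1
    omega
  obtain ⟨v₀, ⟨a, b, h0⟩, _⟩ := hmeet u₀ u₀
  have hab := tc_ne hm h0
  have hfirst : ∀ u v v' a b a' b', TC c u v a b → TC c u v' a' b' →
      (a' = a ∧ b' = b) ∨ (a' = b ∧ b' = a) := by
    intro u v v' a b a' b' h1 h2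
    exact pair_eq_of (tc_ne hm h1) (tc_count_u hm h1 hN a (by simp) _ h2.rareu)
      (tc_count_u hm h1 hN b (by simp) _ h2.rareu)
  have hsecond : ∀ u u' v a b a' b', TC c u v a b → TC c u' v a' b' →
      (a' = a ∧ b' = b) ∨ (a' = b ∧ b' = a) := by
    intro u u' v a b a' b' h1 h2
    exact pair_eq_of (tc_ne hm h1) (tc_count_v hm h1 hN a (by simp) _ h2.rarev)
      (tc_count_v hm h1 hN b (by simp) _ h2.rarev)
  have hglobal : ∀ u, ∀ v', ∀ a' b', TC c u v' a' b' → TC c u v' a b := by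
    intro u v' a' b' h'
    obtain ⟨v, ⟨a1, b1, h1⟩, ⟨a2, b2, h2⟩⟩ := hmeet u₀ u
    have e1 := hfirst u₀ v₀ v a b a1 b1 h0 h1
    have h1' : TC c u₀ v a b := by
      rcases e1 with ⟨r1, r2⟩ | ⟨r1, r2⟩
      · rw [r1, r2] at h1; exact h1
      · rw [r1, r2] at h1; exact tc_symm h1
    have e2 := hsecond u₀ u v a b a2 b2 h1' h2
    have h2' : TC c u v a b := by
      rcases e2 with ⟨r1, r2⟩ | ⟨r1, r2⟩
      · rw [r1, r2] at h2; exact h2
      · rw [r1, r2] at h2; exact tc_symm h2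
    have e3 := hfirst u v v' a b a' b' h2' h'
    rcases e3 with ⟨r1, r2⟩ | ⟨r1, r2⟩
    · rw [r1, r2] at h'; exact h'
    · rw [r1, r2] at h'; exact tc_symm h'
  refine ⟨a, b, h0.ord, fun u => ?_⟩
  refine le_trans (Nat.mul_le_mul_left _ (Finset.card_le_card ?_)) (h u)
  intro v hv
  simp only [Finset.mem_filter, Finset.mem_univ, true_and] at hv ⊢
  rintro ⟨a', b', h'⟩
  exact hv (hglobal u v a' b' h')

end ZS44129
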