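import Mathlib

/-!
# MP_44129c_co, module Choice2 (choosing two disjoint sets)

`P₁, P₀, Q` pairwise disjoint.  Choose `O₁ ⊆ P₁`, `|O₁| = min s |P₁|`, `Z₁ ⊆ P₀`,
`|Z₁| = min z |P₀|`.  The remaining demands `s - |O₁|`, `z - |Z₁|` have sum `≤ |Q|` (four cases:
both `0`; only one positive: `h1` resp. `h2`; both positive: `h3`), so choose disjoint subsets
`O₂, Z₂ ⊆ Q` of these sizes; `O = O₁ ∪ O₂`, `Z = Z₁ ∪ Z₂`.
-/

set_option autoImplicit false

namespace ZS44129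

open Finset

theorem choose_two {α : Type} [DecidableEq α] (P₁ P₀ Q : Finset α) (h10 : Disjoint P₁ P₀)
    (h1Q : Disjoint P₁ Q) (h0Q : Disjoint P₀ Q) (s z : ℕ) (h1 : s ≤ P₁.card + Q.card)
    (h2 : z ≤ P₀.card + Q.card) (h3 : s + z ≤ P₁.card + P₀.card + Q.card) :
    ∃ O Z : Finset α, O ⊆ P₁ ∪ Q ∧ Z ⊆ P₀ ∪ Q ∧ Disjoint O Z ∧ O.card = s ∧ Z.card = z := by
  obtain ⟨O1, hO1, hO1c⟩ := Finset.exists_subset_card_eq (s := P₁) (n := min s P₁.card)
    (min_le_right _ _)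
  obtain ⟨Z1, hZ1, hZ1c⟩ := Finset.exists_subset_card_eq (s := P₀) (n := min z P₀.card)
    (min_le_right _ _)
  obtain ⟨O2, hO2, hO2c⟩ := Finset.exists_subset_card_eq (s := Q) (n := s - min s P₁.card)
    (by omega)
  obtain ⟨Z2, hZ2, hZ2c⟩ := Finset.exists_subset_card_eq (s := Q \ O2)
    (n := z - min z P₀.card) (by
      rw [Finset.card_sdiff_of_subset hO2, hO2c]; omega)
  have hZ2Q : Z2 ⊆ Q := hZ2.trans Finset.sdiff_subset
  have d1 : Disjoint O1 O2 := Finset.disjoint_of_subset_left hO1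
    (Finset.disjoint_of_subset_right hO2 h1Q)
  have d2 : Disjoint Z1 Z2 := Finset.disjoint_of_subset_left hZ1
    (Finset.disjoint_of_subset_right hZ2Q h0Q)
  refine ⟨O1 ∪ O2, Z1 ∪ Z2, Finset.union_subset_union hO1 hO2,
    Finset.union_subset_union hZ1 hZ2Q, ?_, ?_, ?_⟩
  · rw [Finset.disjoint_union_left, Finset.disjoint_union_right, Finset.disjoint_union_right]
    refine ⟨⟨?_, ?_⟩, ?_, ?_⟩
    · exact Finset.disjoint_of_subset_left hO1 (Finset.disjoint_of_subset_right hZ1 h10)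
    · exact Finset.disjoint_of_subset_left hO1 (Finset.disjoint_of_subset_right hZ2Q h1Q)
    · exact (Finset.disjoint_of_subset_left hZ1 (Finset.disjoint_of_subset_right hO2 h0Q)).symm
    · rw [Finset.disjoint_left]
      intro w hw1 hw2
      exact (Finset.mem_sdiff.1 (hZ2 hw2)).2 hw1
  · rw [Finset.card_union_of_disjoint d1, hO1c, hO2c]; omega
  · rw [Finset.card_union_of_disjoint d2, hZ1c, hZ2c]; omega

end ZS44129
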