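import Mathlib
import Pool.Agent.Work.MP_44129c_co.Defs
import Pool.Agent.Work.MP_44129c_co.Choice2

/-!
# MP_44129c_co, module LiftA (every colour is close to the two main colours)

`N = card V`, `d = b - a` has order `m` in `ZMod m`, so it generates `ZMod m` (the map
`t ↦ t * d` is injective, hence surjective): there is `0 ≤ r < m` with `r • d = c u w₀ - a`.
If `20 r ≤ N` take `r`; if `20 (m - r) ≤ N` take `r - m`.  Suppose `20 r > N` and
`20 (m - r) > N`: then a zero-sum double star with a centre edge `u v` of main colours, the leaf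
`w₀` at `u` and leaves of main colours is constructed.
-/

set_option autoImplicit false

namespace ZS44129

open Finset

private theorem lift_surj {m : ℕ} [NeZero m] (d : ZMod m)
    (hord : ∀ t : ℤ, t • d = 0 → (m : ℤ) ∣ t) (x : ZMod m) :
    ∃ r : ℕ, r < m ∧ (r : ℤ) • d = x := by
  have hinj : Function.Injective (fun t : ZMod m => t * d) := by
    intro s t hst
    have h1 : (s - t) * d = 0 := by
      have : s * d = t * d := hst
      rw [sub_mul, this, sub_self]
    have h2 : (((s - t).val : ℕ) : ℤ) • d = 0 := by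
      rw [zsmul_eq_mul]
      rw [Int.cast_natCast, ZMod.natCast_zmod_val]
      exact h1
    have h3 := hord _ h2
    have h4 : m ∣ (s - t).val := by exact_mod_cast h3
    have h5 : (s - t).val = 0 := Nat.eq_zero_of_dvd_of_lt h4 (ZMod.val_lt _)
    have h6 : s - t = 0 := (ZMod.val_eq_zero _).mp h5
    exact sub_eq_zero.mp h6
  have hsurj := Finite.surjective_of_injective hinj
  obtain ⟨t, ht⟩ := hsurj x
  refine ⟨t.val, ZMod.val_lt _, ?_⟩
  rw [zsmul_eq_mul, Int.cast_natCast, ZMod.natCast_zmod_val]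
  exact ht

open Classical in
theorem lift_bound {m : ℕ} {V : Type} [Fintype V] [DecidableEq V] (c : V → V → ZMod m)
    (a b : ZMod m) (hsym : ∀ x y, c x y = c y x) (hz : ZSF m c)
    (hN : 10 ^ 4 ≤ Fintype.card V) (hm1 : Fintype.card V ≤ 2 * m)
    (hm2 : 4 * 10 ^ 4 * m ≤ (3 * 10 ^ 4 + 1) * Fintype.card V)
    (hord : ∀ t : ℤ, t • (b - a) = 0 → (m : ℤ) ∣ t)
    (hTC : ∀ u : V, 1000 * (univ.filter (fun v => ¬ TC c u v a b)).card ≤ Fintype.card V)
    (u w₀ : V) (huw : u ≠ w₀) :
    ∃ r : ℤ, r • (b - a) = c u w₀ - a ∧ 20 * |r| ≤ Fintype.card V := by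
  set N := Fintype.card V with hNdef
  have hmpos : 0 < m := by omega
  haveI : NeZero m := ⟨by omega⟩
  obtain ⟨r, hrm, hr⟩ := lift_surj (b - a) hord (c u w₀ - a)
  have hmd : ((m : ℕ) : ℤ) • (b - a) = 0 := by
    rw [zsmul_eq_mul, Int.cast_natCast, ZMod.natCast_self, zero_mul]
  by_cases hr1 : 20 * r ≤ N
  · refine ⟨r, hr, ?_⟩
    rw [abs_of_nonneg (by positivity)]
    exact_mod_cast hr1
  by_cases hr2 : 20 * (m - r) ≤ N
  · refine ⟨(r : ℤ) - m, ?_, ?_⟩
    · rw [sub_smul, hr, hmd, sub_zero]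
    · rw [abs_of_nonpos (by have : (r : ℤ) < m := by exact_mod_cast hrm
                            linarith)]
      have h1 : ((m - r : ℕ) : ℤ) = (m : ℤ) - r := by
        rw [Nat.cast_sub hrm.le]
      have h2 : 20 * ((m - r : ℕ) : ℤ) ≤ N := by exact_mod_cast hr2
      rw [h1] at h2
      linarith
  exfalso
  have hab : b ≠ a := by
    intro h
    have := hord 1 (by rw [h, sub_self, smul_zero])
    have h1 : (m : ℤ) ≤ 1 := Int.le_of_dvd one_pos this
    omega
  -- the other centre
  obtain ⟨v, hvu, hvw, hvTC, hvab⟩ : ∃ v, v ≠ u ∧ v ≠ w₀ ∧ TC c u v a b ∧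
      (c u v = a ∨ c u v = b) := by
    obtain ⟨v', hv'⟩ : ∃ v', TC c u v' a b := by
      by_contra hcon
      push Not at hcon
      have h1 := hTC u
      rw [filter_true_of_mem (fun x _ => hcon x), card_univ] at h1
      omega
    by_contra hcon
    push Not at hcon
    have hsub : (univ : Finset V) ⊆ (insert u {w₀}) ∪
        (univ.filter (fun v => ¬ TC c u v a b)) ∪
        ((univ.erase u).filter (fun w => c u w ∉ ({a, b} : Finset (ZMod m)))) := by
      intro w _
      simp only [mem_union, mem_insert, mem_singleton, mem_filter, mem_erase, mem_univ, true_and,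
        and_true]
      by_cases h1 : w = u
      · exact Or.inl (Or.inl (Or.inl h1))
      by_cases h2 : w = w₀
      · exact Or.inl (Or.inl (Or.inr h2))
      by_cases h3 : TC c u w a b
      · have := hcon w h1 h2 h3
        right
        refine ⟨h1, ?_⟩
        rintro (h | h)
        · exact this.1 h
        · exact this.2 h
      · exact Or.inl (Or.inr h3)
    have hc := card_le_card hsub
    have hc2 := card_union_le ((insert u {w₀}) ∪
        (univ.filter (fun v => ¬ TC c u v a b)))
        ((univ.erase u).filter (fun w => c u w ∉ ({a, b} : Finset (ZMod m))))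
    have hc3 := card_union_le (insert u ({w₀} : Finset V))
        (univ.filter (fun v => ¬ TC c u v a b))
    have hc4 := card_insert_le u ({w₀} : Finset V)
    have hc5 : ({w₀} : Finset V).card = 1 := card_singleton _
    have hr := hv'.rareu
    have ht := hTC u
    rw [card_univ] at hc
    omega
  obtain ⟨e, he1, he⟩ : ∃ e : ℕ, e ≤ 1 ∧ c u v = a + (e : ℤ) • (b - a) := by
    rcases hvab with h | h
    · exact ⟨0, by norm_num, by rw [h]; simp⟩
    · exact ⟨1, le_rfl, by rw [h]; simp⟩
  -- the patterns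
  set F : ZMod m → ZMod m → Finset V := fun x y =>
    univ.filter (fun w => w ≠ u ∧ w ≠ v ∧ c u w ∈ ({x} : Finset (ZMod m)) ∧
      c v w ∈ ({y} : Finset (ZMod m))) with hF
  have hFmem : ∀ x y w, w ∈ F x y ↔ w ≠ u ∧ w ≠ v ∧ c u w = x ∧ c v w = y := by
    intro x y w
    simp only [hF, mem_filter, mem_univ, true_and, mem_singleton]
  have hFcard : ∀ x ∈ ({a, b} : Finset (ZMod m)), ∀ y ∈ ({a, b} : Finset (ZMod m)),
      99 * N ≤ 400 * (F x y).card := fun x hx y hy => hvTC.patt x hx y hy
  have haa := hFcard a (by simp) a (by simp)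
  have hab' := hFcard a (by simp) b (by simp)
  have hba := hFcard b (by simp) a (by simp)
  have hbb := hFcard b (by simp) b (by simp)
  have hdis : ∀ x y x' y', (x ≠ x' ∨ y ≠ y') → Disjoint (F x y) (F x' y') := by
    intro x y x' y' hne
    rw [disjoint_left]
    intro w hw hw'
    rw [hFmem] at hw hw'
    rcases hne with h | h
    · exact h (hw.2.2.1.symm.trans hw'.2.2.1)
    · exact h (hw.2.2.2.symm.trans hw'.2.2.2)
  set Q0 := F a b ∪ F b a with hQ0
  have hQ0card : Q0.card = (F a b).card + (F b a).card :=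
    card_union_of_disjoint (hdis _ _ _ _ (Or.inl (Ne.symm hab)))
  have h1Q0 : Disjoint (F b b) Q0 := by
    rw [hQ0, disjoint_union_right]
    exact ⟨hdis _ _ _ _ (Or.inl hab), hdis _ _ _ _ (Or.inr hab)⟩
  have h0Q0 : Disjoint (F a a) Q0 := by
    rw [hQ0, disjoint_union_right]
    exact ⟨hdis _ _ _ _ (Or.inr (Ne.symm hab)), hdis _ _ _ _ (Or.inl (Ne.symm hab))⟩
  have h10 : Disjoint (F b b) (F a a) := hdis _ _ _ _ (Or.inl hab)
  set P₁ := (F b b).erase w₀ with hP₁
  set P₀ := (F a a).erase w₀ with hP₀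
  set Q := Q0.erase w₀ with hQ
  have d10 : Disjoint P₁ P₀ := (h10.mono_left (erase_subset _ _)).mono_right (erase_subset _ _)
  have d1Q : Disjoint P₁ Q := (h1Q0.mono_left (erase_subset _ _)).mono_right (erase_subset _ _)
  have d0Q : Disjoint P₀ Q := (h0Q0.mono_left (erase_subset _ _)).mono_right (erase_subset _ _)
  have c1Q : (F b b).card + Q0.card ≤ P₁.card + Q.card + 1 := by
    rw [← card_union_of_disjoint h1Q0, ← card_union_of_disjoint d1Q, hP₁, hQ, ← erase_union_distrib]
    have := pred_card_le_card_erase (s := F b b ∪ Q0) (a := w₀)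
    omega
  have c0Q : (F a a).card + Q0.card ≤ P₀.card + Q.card + 1 := by
    rw [← card_union_of_disjoint h0Q0, ← card_union_of_disjoint d0Q, hP₀, hQ, ← erase_union_distrib]
    have := pred_card_le_card_erase (s := F a a ∪ Q0) (a := w₀)
    omega
  have c10Q : (F b b).card + (F a a).card + Q0.card ≤ P₁.card + P₀.card + Q.card + 1 := by
    have e1 : Disjoint (F b b ∪ F a a) Q0 := by
      rw [disjoint_union_left]; exact ⟨h1Q0, h0Q0⟩
    have e2 : Disjoint (P₁ ∪ P₀) Q := by
      rw [disjoint_union_left]; exact ⟨d1Q, d0Q⟩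
    rw [← card_union_of_disjoint h10, ← card_union_of_disjoint e1, ← card_union_of_disjoint d10,
      ← card_union_of_disjoint e2, hP₁, hP₀, hQ, ← erase_union_distrib, ← erase_union_distrib]
    have := pred_card_le_card_erase (s := F b b ∪ F a a ∪ Q0) (a := w₀)
    omega
  obtain ⟨O, Z, hO, hZ, hOZ, hOc, hZc⟩ := choose_two P₁ P₀ Q d10 d1Q d0Q (m - r - e) (r + e - 2)
    (by omega) (by omega) (by omega)
  have hOmem : ∀ w ∈ O, w ≠ u ∧ w ≠ v ∧ w ≠ w₀ ∧ (c u w ≠ b → c v w = b) := by
    intro w hw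
    have h1 := hO hw
    rw [mem_union, hP₁, hQ, mem_erase, mem_erase, hQ0, mem_union, hFmem, hFmem, hFmem] at h1
    rcases h1 with h1 | ⟨h1, h2 | h2⟩
    · exact ⟨h1.2.1, h1.2.2.1, h1.1, fun _ => h1.2.2.2.2⟩
    · exact ⟨h2.1, h2.2.1, h1, fun _ => h2.2.2.2⟩
    · exact ⟨h2.1, h2.2.1, h1, fun h => absurd h2.2.2.1 h⟩
  have hZmem : ∀ w ∈ Z, w ≠ u ∧ w ≠ v ∧ w ≠ w₀ ∧ (c u w ≠ a → c v w = a) := by
    intro w hw
    have h1 := hZ hw
    rw [mem_union, hP₀, hQ, mem_erase, mem_erase, hQ0, mem_union, hFmem, hFmem, hFmem] at h1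
    rcases h1 with h1 | ⟨h1, h2 | h2⟩
    · exact ⟨h1.2.1, h1.2.2.1, h1.1, fun _ => h1.2.2.2.2⟩
    · exact ⟨h2.1, h2.2.1, h1, fun h => absurd h2.2.2.1 h⟩
    · exact ⟨h2.1, h2.2.1, h1, fun _ => h2.2.2.2⟩
  set X1 := (O.filter (fun w => c u w = b)) ∪ (Z.filter (fun w => c u w = a)) with hX1
  set Y := (O.filter (fun w => c u w ≠ b)) ∪ (Z.filter (fun w => c u w ≠ a)) with hY
  have hX1mem : ∀ w ∈ X1, w ∈ O ∨ w ∈ Z := by
    intro w hw
    rw [hX1, mem_union, mem_filter, mem_filter] at hw
    rcases hw with h | h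
    · exact Or.inl h.1
    · exact Or.inr h.1
  have hYmem : ∀ w ∈ Y, w ∈ O ∨ w ∈ Z := by
    intro w hw
    rw [hY, mem_union, mem_filter, mem_filter] at hw
    rcases hw with h | h
    · exact Or.inl h.1
    · exact Or.inr h.1
  have hOZne : ∀ w, w ∈ O ∨ w ∈ Z → w ≠ u ∧ w ≠ v ∧ w ≠ w₀ := by
    intro w hw
    rcases hw with h | h
    · exact ⟨(hOmem w h).1, (hOmem w h).2.1, (hOmem w h).2.2.1⟩
    · exact ⟨(hZmem w h).1, (hZmem w h).2.1, (hZmem w h).2.2.1⟩
  have hdX1 : Disjoint (O.filter (fun w => c u w = b)) (Z.filter (fun w => c u w = a)) :=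
    (hOZ.mono_left (filter_subset _ _)).mono_right (filter_subset _ _)
  have hdY : Disjoint (O.filter (fun w => c u w ≠ b)) (Z.filter (fun w => c u w ≠ a)) :=
    (hOZ.mono_left (filter_subset _ _)).mono_right (filter_subset _ _)
  have hw0X1 : w₀ ∉ X1 := fun h => (hOZne w₀ (hX1mem w₀ h)).2.2 rfl
  have hOsplit : (O.filter (fun w => c u w = b)).card + (O.filter (fun w => c u w ≠ b)).card =
      O.card := card_filter_add_card_filter_not _
  have hZsplit : (Z.filter (fun w => c u w = a)).card + (Z.filter (fun w => c u w ≠ a)).card =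
      Z.card := card_filter_add_card_filter_not _
  refine hz u v (Ne.symm hvu) (insert w₀ X1) Y ?_ ?_ ?_ ?_ ?_ ?_ ?_
  · rw [disjoint_insert_left]
    refine ⟨fun h => (hOZne w₀ (hYmem w₀ h)).2.2 rfl, ?_⟩
    rw [disjoint_left]
    intro w hw hw'
    rw [hX1, mem_union, mem_filter, mem_filter] at hw
    rw [hY, mem_union, mem_filter, mem_filter] at hw'
    rcases hw with h | h <;> rcases hw' with h' | h'
    · exact h'.2 h.2
    · exact (disjoint_left.mp hOZ h.1) h'.1
    · exact (disjoint_left.mp hOZ h'.1) h.1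
    · exact h'.2 h.2
  · rw [mem_insert]
    rintro (h | h)
    · exact huw h
    · exact (hOZne u (hX1mem u h)).1 rfl
  · rw [mem_insert]
    rintro (h | h)
    · exact hvw h
    · exact (hOZne v (hX1mem v h)).2.1 rfl
  · exact fun h => (hOZne u (hYmem u h)).1 rfl
  · exact fun h => (hOZne v (hYmem v h)).2.1 rfl
  · rw [card_insert_of_notMem hw0X1, hX1, hY, card_union_of_disjoint hdX1,
      card_union_of_disjoint hdY]
    omega
  · rw [sum_insert hw0X1, hX1, hY, sum_union hdX1, sum_union hdY]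
    have s1 : ∑ x ∈ O.filter (fun w => c u w = b), c u x =
        (O.filter (fun w => c u w = b)).card • b := by
      rw [← sum_const]
      exact sum_congr rfl fun x hx => (mem_filter.mp hx).2
    have s2 : ∑ x ∈ Z.filter (fun w => c u w = a), c u x =
        (Z.filter (fun w => c u w = a)).card • a := by
      rw [← sum_const]
      exact sum_congr rfl fun x hx => (mem_filter.mp hx).2
    have s3 : ∑ x ∈ O.filter (fun w => c u w ≠ b), c v x =
        (O.filter (fun w => c u w ≠ b)).card • b := by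
      rw [← sum_const]
      refine sum_congr rfl fun x hx => ?_
      rw [mem_filter] at hx
      exact (hOmem x hx.1).2.2.2 hx.2
    have s4 : ∑ x ∈ Z.filter (fun w => c u w ≠ a), c v x =
        (Z.filter (fun w => c u w ≠ a)).card • a := by
      rw [← sum_const]
      refine sum_congr rfl fun x hx => ?_
      rw [mem_filter] at hx
      exact (hZmem x hx.1).2.2.2 hx.2
    rw [s1, s2, s3, s4]
    have hcw : c u w₀ = a + (r : ℤ) • (b - a) := by rw [hr]; ring
    rw [he, hcw]
    have hs : ((O.filter (fun w => c u w = b)).card : ZMod m) +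
        ((O.filter (fun w => c u w ≠ b)).card : ZMod m) = ((m - r - e : ℕ) : ZMod m) := by
      rw [← hOc, ← hOsplit]; push_cast; ring
    have hs' : ((Z.filter (fun w => c u w = a)).card : ZMod m) +
        ((Z.filter (fun w => c u w ≠ a)).card : ZMod m) = ((r + e - 2 : ℕ) : ZMod m) := by
      rw [← hZc, ← hZsplit]; push_cast; ring
    have e1 : ((m - r - e : ℕ) : ZMod m) + (r : ZMod m) + (e : ZMod m) = 0 := by
      have : (m - r - e) + r + e = m := by omega
      have h2 : (((m - r - e) + r + e : ℕ) : ZMod m) = ((m : ℕ) : ZMod m) := by rw [this]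
      push_cast at h2
      rw [ZMod.natCast_self] at h2
      exact h2
    have e2 : ((m - r - e : ℕ) : ZMod m) + ((r + e - 2 : ℕ) : ZMod m) + 2 = 0 := by
      have : (m - r - e) + (r + e - 2) + 2 = m := by omega
      have h2 : (((m - r - e) + (r + e - 2) + 2 : ℕ) : ZMod m) = ((m : ℕ) : ZMod m) := by rw [this]
      push_cast at h2
      rw [ZMod.natCast_self] at h2
      exact h2
    simp only [nsmul_eq_mul, zsmul_eq_mul, Int.cast_natCast]
    rw [← hs] at e1
    rw [← hs, ← hs'] at e2
    linear_combination (b - a) * e1 + a * e2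

end ZS44129
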