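import Mathlib
import Pool.Agent.Work.MP_44129c_co.LiftA

/-!
# MP_44129c_co, module LiftB (the integer lift of the colouring)

`N = card V`, `D = b - a` of order `m`.  For `u ≠ v` let `d u v = d v u` be an integer `r` as in
`lift_bound` (for the colour `c u v`, e.g. define a function `ρ : ZMod m → ℤ` by choice:
`ρ x` = some `r` with `r • D = x - a` and `20 |r| ≤ N` if it exists, else `0`, and
`d u v = if u = v then 0 else ρ (c u v)`; symmetric because `c` is).
* If `c u w = a` then `d u w = 0`: `d u w • D = 0` so `m ∣ d u w`, and `20 |d u w| ≤ N ≤ 2 m`, so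
  `|d u w| < m` (`m > 0`), `d u w = 0`.  If `c u w = b` then `(d u w - 1) • D = 0`, `m ∣ d u w - 1`,
  `|d u w - 1| ≤ N/20 + 1 < m`, so `d u w = 1`.
* So `d u w ∉ {0, 1}` implies `c u w ∉ {a, b}`: at most `N/400` of the `w ≠ u` (`TC.rareu`).
* `#{w ≠ u : d u w = 0} ≥ #{w ≠ u : c u w = a} ≥ pat c u v {a} {a} + pat c u v {a} {b} ≥
  198 N/400` for any `v` with `TC c u v a b` (exists: `N/1000 < N`); same for `1` and `b`.
-/

set_option autoImplicit false

namespace ZS44129

open Finset

open Classical in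
theorem lift_exists {m : ℕ} {V : Type} [Fintype V] [DecidableEq V] (c : V → V → ZMod m)
    (a b : ZMod m) (hsym : ∀ x y, c x y = c y x) (hz : ZSF m c)
    (hN : 10 ^ 4 ≤ Fintype.card V) (hm1 : Fintype.card V ≤ 2 * m)
    (hm2 : 4 * 10 ^ 4 * m ≤ (3 * 10 ^ 4 + 1) * Fintype.card V)
    (hord : ∀ t : ℤ, t • (b - a) = 0 → (m : ℤ) ∣ t)
    (hTC : ∀ u : V, 1000 * (univ.filter (fun v => ¬ TC c u v a b)).card ≤ Fintype.card V) :
    ∃ d : V → V → ℤ, (∀ u v, d u v = d v u) ∧
      (∀ u v, u ≠ v → d u v • (b - a) = c u v - a) ∧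
      (∀ u v, u ≠ v → 20 * |d u v| ≤ Fintype.card V) ∧
      (∀ u, 400 * ((univ.erase u).filter (fun w => ¬ (d u w = 0 ∨ d u w = 1))).card ≤
        Fintype.card V) ∧
      (∀ u, 195 * Fintype.card V ≤ 400 * ((univ.erase u).filter (fun w => d u w = 0)).card) ∧
      (∀ u, 195 * Fintype.card V ≤ 400 * ((univ.erase u).filter (fun w => d u w = 1)).card) := by
  have hb := fun u w₀ huw => lift_bound c a b hsym hz hN hm1 hm2 hord hTC u w₀ huw
  let ρ : ZMod m → ℤ := fun x => if h : ∃ r : ℤ, r • (b - a) = x - a ∧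
    20 * |r| ≤ Fintype.card V then h.choose else 0
  have hρ : ∀ u v, u ≠ v → ρ (c u v) • (b - a) = c u v - a ∧
      20 * |ρ (c u v)| ≤ Fintype.card V := by
    intro u v huv
    have h := hb u v huv
    have : ρ (c u v) = h.choose := by
      simp only [ρ]
      rw [dif_pos h]
    rw [this]; exact h.choose_spec
  have hmN : (Fintype.card V : ℤ) ≤ 2 * m := by exact_mod_cast hm1
  have hNz : (10 ^ 4 : ℤ) ≤ Fintype.card V := by exact_mod_cast hN
  -- colours a and b
  have hva : ∀ u w, w ≠ u → c u w = a → ρ (c u w) = 0 := by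
    intro u w hwu hc
    obtain ⟨h1, h2⟩ := hρ u w (Ne.symm hwu)
    have h3 : (ρ (c u w)) • (b - a) = 0 := by rw [h1, hc, sub_self]
    have h4 := hord _ h3
    refine Int.eq_zero_of_abs_lt_dvd h4 ?_
    norm_num at hNz
    linarith
  have hvb : ∀ u w, w ≠ u → c u w = b → ρ (c u w) = 1 := by
    intro u w hwu hc
    obtain ⟨h1, h2⟩ := hρ u w (Ne.symm hwu)
    have h3 : (ρ (c u w) - 1) • (b - a) = 0 := by
      rw [sub_smul, h1, hc, one_smul, sub_self]
    have h4 := hord _ h3
    have h5 : ρ (c u w) - 1 = 0 := by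
      refine Int.eq_zero_of_abs_lt_dvd h4 ?_
      have h6 : |ρ (c u w) - 1| ≤ |ρ (c u w)| + 1 := by
        have := abs_sub (ρ (c u w)) 1
        simpa using this
      norm_num at hNz
      linarith
    linarith
  have hex : ∀ u, ∃ v, TC c u v a b := by
    intro u
    by_contra hcon
    push Not at hcon
    have h1 := hTC u
    rw [Finset.filter_true_of_mem (fun v _ => hcon v), Finset.card_univ] at h1
    omega
  refine ⟨fun u v => if u = v then 0 else ρ (c u v), ?_, ?_, ?_, ?_, ?_, ?_⟩
  · intro u v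
    by_cases huv : u = v
    · rw [huv]
    · show (if u = v then 0 else ρ (c u v)) = (if v = u then 0 else ρ (c v u))
      rw [if_neg huv, if_neg (Ne.symm huv), hsym u v]
  · intro u v huv
    simp only [huv, if_false]
    exact (hρ u v huv).1
  · intro u v huv
    simp only [huv, if_false]
    exact (hρ u v huv).2
  · intro u
    obtain ⟨v, hv⟩ := hex u
    refine le_trans (Nat.mul_le_mul_left _ (Finset.card_le_card ?_)) hv.rareu
    intro w hw
    obtain ⟨h1, h2⟩ := Finset.mem_filter.1 hw
    have hwu := Finset.ne_of_mem_erase h1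
    refine Finset.mem_filter.2 ⟨h1, ?_⟩
    intro h3
    apply h2
    show (if u = w then 0 else ρ (c u w)) = 0 ∨ (if u = w then 0 else ρ (c u w)) = 1
    rw [if_neg (Ne.symm hwu)]
    simp only [Finset.mem_insert, Finset.mem_singleton] at h3
    rcases h3 with h3 | h3
    · exact Or.inl (hva u w hwu h3)
    · exact Or.inr (hvb u w hwu h3)
  · intro u
    obtain ⟨v, hv⟩ := hex u
    have p1 := hv.patt a (by simp) a (by simp)
    have p2 := hv.patt a (by simp) b (by simp)
    have hab : a ≠ b := by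
      intro h
      have h1 := hv.ord 1 (by rw [h]; simp)
      have h2 : (m : ℤ) ≤ 1 := Int.le_of_dvd (by norm_num) h1
      norm_num at hNz
      linarith
    have hsub : (univ.filter (fun w => w ≠ u ∧ w ≠ v ∧ c u w ∈ ({a} : Finset (ZMod m)) ∧
        c v w ∈ ({a} : Finset (ZMod m)))) ∪ (univ.filter (fun w => w ≠ u ∧ w ≠ v ∧
        c u w ∈ ({a} : Finset (ZMod m)) ∧ c v w ∈ ({b} : Finset (ZMod m)))) ⊆
        (univ.erase u).filter (fun w => (if u = w then 0 else ρ (c u w)) = 0) := by
      intro w hw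
      have hw' : w ≠ u ∧ c u w = a := by
        rcases Finset.mem_union.1 hw with h | h
        · have := (Finset.mem_filter.1 h).2
          exact ⟨this.1, Finset.mem_singleton.1 this.2.2.1⟩
        · have := (Finset.mem_filter.1 h).2
          exact ⟨this.1, Finset.mem_singleton.1 this.2.2.1⟩
      refine Finset.mem_filter.2 ⟨Finset.mem_erase.2 ⟨hw'.1, Finset.mem_univ _⟩, ?_⟩
      rw [if_neg (Ne.symm hw'.1)]
      exact hva u w hw'.1 hw'.2
    have hd : Disjoint (univ.filter (fun w => w ≠ u ∧ w ≠ v ∧ c u w ∈ ({a} : Finset (ZMod m)) ∧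
        c v w ∈ ({a} : Finset (ZMod m)))) (univ.filter (fun w => w ≠ u ∧ w ≠ v ∧
        c u w ∈ ({a} : Finset (ZMod m)) ∧ c v w ∈ ({b} : Finset (ZMod m)))) := by
      rw [Finset.disjoint_left]
      intro w h3 h4
      have h5 := Finset.mem_singleton.1 (Finset.mem_filter.1 h3).2.2.2.2
      have h6 := Finset.mem_singleton.1 (Finset.mem_filter.1 h4).2.2.2.2
      exact hab (h5.symm.trans h6)
    have h3 := Finset.card_le_card hsub
    rw [Finset.card_union_of_disjoint hd] at h3
    unfold pat at p1 p2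
    show 195 * Fintype.card V ≤ 400 * ((univ.erase u).filter
      (fun w => (if u = w then 0 else ρ (c u w)) = 0)).card
    omega
  · intro u
    obtain ⟨v, hv⟩ := hex u
    have p1 := hv.patt b (by simp) a (by simp)
    have p2 := hv.patt b (by simp) b (by simp)
    have hab : a ≠ b := by
      intro h
      have h1 := hv.ord 1 (by rw [h]; simp)
      have h2 : (m : ℤ) ≤ 1 := Int.le_of_dvd (by norm_num) h1
      norm_num at hNz
      linarith
    have hsub : (univ.filter (fun w => w ≠ u ∧ w ≠ v ∧ c u w ∈ ({b} : Finset (ZMod m)) ∧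
        c v w ∈ ({a} : Finset (ZMod m)))) ∪ (univ.filter (fun w => w ≠ u ∧ w ≠ v ∧
        c u w ∈ ({b} : Finset (ZMod m)) ∧ c v w ∈ ({b} : Finset (ZMod m)))) ⊆
        (univ.erase u).filter (fun w => (if u = w then 0 else ρ (c u w)) = 1) := by
      intro w hw
      have hw' : w ≠ u ∧ c u w = b := by
        rcases Finset.mem_union.1 hw with h | h
        · have := (Finset.mem_filter.1 h).2
          exact ⟨this.1, Finset.mem_singleton.1 this.2.2.1⟩
        · have := (Finset.mem_filter.1 h).2
          exact ⟨this.1, Finset.mem_singleton.1 this.2.2.1⟩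
      refine Finset.mem_filter.2 ⟨Finset.mem_erase.2 ⟨hw'.1, Finset.mem_univ _⟩, ?_⟩
      rw [if_neg (Ne.symm hw'.1)]
      exact hvb u w hw'.1 hw'.2
    have hd : Disjoint (univ.filter (fun w => w ≠ u ∧ w ≠ v ∧ c u w ∈ ({b} : Finset (ZMod m)) ∧
        c v w ∈ ({a} : Finset (ZMod m)))) (univ.filter (fun w => w ≠ u ∧ w ≠ v ∧
        c u w ∈ ({b} : Finset (ZMod m)) ∧ c v w ∈ ({b} : Finset (ZMod m)))) := by
      rw [Finset.disjoint_left]
      intro w h3 h4
      have h5 := Finset.mem_singleton.1 (Finset.mem_filter.1 h3).2.2.2.2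
      have h6 := Finset.mem_singleton.1 (Finset.mem_filter.1 h4).2.2.2.2
      exact hab (h5.symm.trans h6)
    have h3 := Finset.card_le_card hsub
    rw [Finset.card_union_of_disjoint hd] at h3
    unfold pat at p1 p2
    show 195 * Fintype.card V ≤ 400 * ((univ.erase u).filter
      (fun w => (if u = w then 0 else ρ (c u w)) = 1)).card
    omega

end ZS44129
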