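import Mathlib

/-!
# MP_44129c_co, module RandCount (exponential moment of the number of doubly avoided vertices)
-/

set_option autoImplicit false

namespace ZS44129

open Finset

/-- the 2-colouring of pairs given by a function on ordered pairs. -/
def col {N : ℕ} (b : Fin N × Fin N → Bool) (x y : Fin N) : Bool := b (min x y, max x y)

/-- flipping one coordinate preserves sums. -/
theorem sum_flip {E : Type} [Fintype E] [DecidableEq E] (e : E) (F : (E → Bool) → ℝ) :
    ∑ b : E → Bool, F b = ∑ b : E → Bool, F (Function.update b e (!(b e))) := by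
  symm
  apply Finset.sum_nbij' (fun b => Function.update b e (!(b e)))
    (fun b => Function.update b e (!(b e)))
  · intro a _; exact mem_univ _
  · intro a _; exact mem_univ _
  · intro a _
    funext x
    by_cases hx : x = e
    · subst hx; simp
    · simp [Function.update_of_ne hx]
  · intro a _
    funext x
    by_cases hx : x = e
    · subst hx; simp
    · simp [Function.update_of_ne hx]
  · intro a _; rfl

/-- averaging over one coordinate. -/
theorem sum_avg {E : Type} [Fintype E] [DecidableEq E] (e : E) (F : (E → Bool) → ℝ) :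
    2 * ∑ b : E → Bool, F b = ∑ b : E → Bool, (F (Function.update b e true) +
      F (Function.update b e false)) := by
  rw [two_mul]
  nth_rw 2 [sum_flip e F]
  rw [← Finset.sum_add_distrib]
  refine Finset.sum_congr rfl (fun b _ => ?_)
  cases hb : b e
  · have h1 : Function.update b e false = b := by rw [← hb]; exact Function.update_eq_self e b
    rw [h1]
    simp only [Bool.not_false]
    ring
  · have h1 : Function.update b e true = b := by rw [← hb]; exact Function.update_eq_self e b
    rw [h1]
    simp only [Bool.not_true]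

theorem rand_gen {E I : Type} [Fintype E] [DecidableEq E] [DecidableEq I]
    (p q : I → E) (hpq : ∀ i j, p i ≠ q j) (hp : Function.Injective p)
    (hq : Function.Injective q) (g : Bool → Bool → ℝ) (s : Finset I) :
    (4 : ℝ) ^ s.card * ∑ b : E → Bool, ∏ i ∈ s, g (b (p i)) (b (q i)) =
      2 ^ (Fintype.card E) * (g true true + g true false + g false true + g false false) ^
        s.card := by
  induction s using Finset.induction_on with
  | empty =>
    simp
  | insert i s hi ih =>
    rw [Finset.card_insert_of_notMem hi]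
    set G : ℝ := g true true + g true false + g false true + g false false with hG
    have hprod : ∀ b : E → Bool, ∏ j ∈ insert i s, g (b (p j)) (b (q j)) =
        g (b (p i)) (b (q i)) * ∏ j ∈ s, g (b (p j)) (b (q j)) := by
      intro b
      rw [Finset.prod_insert hi]
    have hindp : ∀ (b : E → Bool) (x : Bool), ∏ j ∈ s, g (Function.update b (p i) x (p j))
        (Function.update b (p i) x (q j)) = ∏ j ∈ s, g (b (p j)) (b (q j)) := by
      intro b x
      refine Finset.prod_congr rfl (fun j hj => ?_)
      have hji : j ≠ i := fun hji => hi (hji ▸ hj)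
      rw [Function.update_of_ne (fun hh => hji (hp hh)),
        Function.update_of_ne (fun hh => hpq i j hh.symm)]
    have hindq : ∀ (b : E → Bool) (x : Bool), ∏ j ∈ s, g (Function.update b (q i) x (p j))
        (Function.update b (q i) x (q j)) = ∏ j ∈ s, g (b (p j)) (b (q j)) := by
      intro b x
      refine Finset.prod_congr rfl (fun j hj => ?_)
      have hji : j ≠ i := fun hji => hi (hji ▸ hj)
      rw [Function.update_of_ne (fun hh => hpq j i hh),
        Function.update_of_ne (fun hh => hji (hq hh))]
    have hstep : 4 * ∑ b : E → Bool, g (b (p i)) (b (q i)) * ∏ j ∈ s, g (b (p j)) (b (q j)) =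
        G * ∑ b : E → Bool, ∏ j ∈ s, g (b (p j)) (b (q j)) := by
      have e1 := sum_avg (p i) (fun b : E → Bool => g (b (p i)) (b (q i)) *
        ∏ j ∈ s, g (b (p j)) (b (q j)))
      have e2 := sum_avg (q i) (fun b : E → Bool => (g true (b (q i)) + g false (b (q i))) *
        ∏ j ∈ s, g (b (p j)) (b (q j)))
      have hqp : q i ≠ p i := (hpq i i).symm
      simp only [Function.update_self, hindp, Function.update_of_ne hqp] at e1
      simp only [Function.update_self, hindq] at e2
      have e3 : ∑ b : E → Bool, (g true (b (q i)) * ∏ j ∈ s, g (b (p j)) (b (q j)) +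
          g false (b (q i)) * ∏ j ∈ s, g (b (p j)) (b (q j))) =
          ∑ b : E → Bool, (g true (b (q i)) + g false (b (q i))) *
            ∏ j ∈ s, g (b (p j)) (b (q j)) := by
        refine Finset.sum_congr rfl (fun b _ => by ring)
      have e4 : ∑ b : E → Bool, ((g true true + g false true) *
          ∏ j ∈ s, g (b (p j)) (b (q j)) + (g true false + g false false) *
          ∏ j ∈ s, g (b (p j)) (b (q j))) = G * ∑ b : E → Bool,
            ∏ j ∈ s, g (b (p j)) (b (q j)) := by
        rw [Finset.mul_sum]
        refine Finset.sum_congr rfl (fun b _ => by rw [hG]; ring)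
      calc 4 * ∑ b : E → Bool, g (b (p i)) (b (q i)) * ∏ j ∈ s, g (b (p j)) (b (q j))
          = 2 * (2 * ∑ b : E → Bool, g (b (p i)) (b (q i)) *
              ∏ j ∈ s, g (b (p j)) (b (q j))) := by ring
        _ = 2 * ∑ b : E → Bool, (g true (b (q i)) + g false (b (q i))) *
            ∏ j ∈ s, g (b (p j)) (b (q j)) := by rw [e1, e3]
        _ = G * ∑ b : E → Bool, ∏ j ∈ s, g (b (p j)) (b (q j)) := by rw [e2, e4]
    calc (4 : ℝ) ^ (s.card + 1) * ∑ b : E → Bool, ∏ j ∈ insert i s, g (b (p j)) (b (q j))
        = (4 : ℝ) ^ s.card * (4 * ∑ b : E → Bool, g (b (p i)) (b (q i)) *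
            ∏ j ∈ s, g (b (p j)) (b (q j))) := by
          simp only [hprod]; ring
      _ = G * ((4 : ℝ) ^ s.card * ∑ b : E → Bool, ∏ j ∈ s, g (b (p j)) (b (q j))) := by
          rw [hstep]; ring
      _ = 2 ^ (Fintype.card E) * G ^ (s.card + 1) := by rw [ih]; ring

theorem minmax_inj {N : ℕ} {u w w' : Fin N} (h : (min u w, max u w) = (min u w', max u w')) :
    w = w' := by
  have h1 := (Prod.mk.injEq _ _ _ _).mp h
  obtain ⟨ha, hb⟩ := h1
  rcases le_total u w with c | c <;> rcases le_total u w' with d | d <;>
    simp only [min_eq_left c, min_eq_left d, min_eq_right c, min_eq_right d,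
      max_eq_left c, max_eq_left d, max_eq_right c, max_eq_right d] at ha hb <;> omega

theorem minmax_ne {N : ℕ} {u v w w' : Fin N} (huv : u ≠ v) (hw : w ≠ v)
    (h : (min u w, max u w) = (min v w', max v w')) : False := by
  have h1 := (Prod.mk.injEq _ _ _ _).mp h
  obtain ⟨ha, hb⟩ := h1
  rcases le_total u w with c | c <;> rcases le_total v w' with d | d <;>
    simp only [min_eq_left c, min_eq_left d, min_eq_right c, min_eq_right d,
      max_eq_left c, max_eq_left d, max_eq_right c, max_eq_right d] at ha hb <;>
    first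
      | exact huv ha
      | exact huv hb
      | exact hw ha
      | exact hw hb

theorem rand_count {N : ℕ} (u v : Fin N) (huv : u ≠ v) (r : Bool) (z : ℝ) :
    (4 : ℝ) ^ (N - 2) * ∑ b : Fin N × Fin N → Bool,
      z ^ (univ.filter (fun w => w ≠ u ∧ w ≠ v ∧ col b u w ≠ r ∧ col b v w ≠ r)).card =
      2 ^ (N * N) * (3 + z) ^ (N - 2) := by
  classical
  have hgen := rand_gen (E := Fin N × Fin N) (I := {w : Fin N // w ≠ u ∧ w ≠ v})
    (fun i => (min u i.1, max u i.1)) (fun i => (min v i.1, max v i.1))
    (fun i j hij => minmax_ne huv i.2.2 hij)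
    (fun i j hij => Subtype.ext (minmax_inj hij)) (fun i j hij => Subtype.ext (minmax_inj hij))
    (fun x y => if x ≠ r ∧ y ≠ r then z else 1) univ
  have hcardI : (univ : Finset {w : Fin N // w ≠ u ∧ w ≠ v}).card = N - 2 := by
    rw [Finset.card_univ, Fintype.card_subtype]
    have h1 : (univ.filter (fun w : Fin N => w ≠ u ∧ w ≠ v)) = (univ.erase u).erase v := by
      ext w
      simp only [mem_filter, mem_univ, true_and, mem_erase, ne_eq, and_true]
      tauto
    rw [h1, Finset.card_erase_of_mem, Finset.card_erase_of_mem (mem_univ _), Finset.card_univ,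
      Fintype.card_fin]
    · omega
    · exact mem_erase.mpr ⟨huv.symm, mem_univ _⟩
  rw [hcardI] at hgen
  have hcardE : Fintype.card (Fin N × Fin N) = N * N := by simp
  rw [hcardE] at hgen
  have hG : (fun x y => if x ≠ r ∧ y ≠ r then z else 1) true true +
      (fun x y => if x ≠ r ∧ y ≠ r then z else 1) true false +
      (fun x y => if x ≠ r ∧ y ≠ r then z else 1) false true +
      (fun x y => if x ≠ r ∧ y ≠ r then z else 1) false false = 3 + z := by
    cases r <;> simp <;> ring
  rw [hG] at hgen
  rw [← hgen]
  congr 1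
  refine Finset.sum_congr rfl (fun b _ => ?_)
  rw [Finset.prod_ite, Finset.prod_const, Finset.prod_const_one, mul_one]
  congr 1
  -- cardinalities
  rw [← Finset.card_map (Function.Embedding.subtype (fun w : Fin N => w ≠ u ∧ w ≠ v))]
  congr 1
  ext w
  rw [mem_filter, mem_map]
  constructor
  · rintro ⟨_, h1, h2, h3, h4⟩
    exact ⟨⟨w, h1, h2⟩, mem_filter.mpr ⟨mem_univ _, h3, h4⟩, rfl⟩
  · rintro ⟨⟨w', h1, h2⟩, h5, rfl⟩
    exact ⟨mem_univ _, h1, h2, (mem_filter.mp h5).2.1, (mem_filter.mp h5).2.2⟩

end ZS44129
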