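import Mathlib

/-!
# MP_44129c_co, module RandNum (numerical inequality for the union bound)
-/

set_option autoImplicit false

namespace ZS44129

theorem rand_num (h : ℕ) (hh : 0 < h) : ∃ w : ℝ, 0 < w ∧ w < 1 ∧ ∃ N₀ : ℕ, ∀ N : ℕ, N₀ ≤ N →
    2 * (N : ℝ) ^ 2 * ((3 + w ^ (4 * h)) / 4) ^ (N - 2) < w ^ ((h - 1) * N) := by
  have hh1 : (1 : ℝ) ≤ h := by exact_mod_cast hh
  set ε : ℝ := 1 / (8 * (h : ℝ) ^ 2) with hε
  have hεpos : 0 < ε := by positivity
  have hεeq : ε * (8 * (h : ℝ) ^ 2) = 1 := by rw [hε]; field_simp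
  have hεlt : ε ≤ 1 / 8 := by
    rw [hε]
    apply one_div_le_one_div_of_le (by norm_num)
    nlinarith
  set w : ℝ := 1 - ε with hw
  have hw0 : 0 < w := by rw [hw]; linarith
  have hw1 : w < 1 := by rw [hw]; linarith
  refine ⟨w, hw0, hw1, ?_⟩
  -- the key inequality
  have hB1 : 1 - ((h : ℝ) - 1) * ε ≤ w ^ (h - 1) := by
    have h1 := one_add_mul_le_pow (a := -ε) (by linarith) (h - 1)
    have h2 : ((h - 1 : ℕ) : ℝ) = (h : ℝ) - 1 := by
      rw [Nat.cast_sub hh, Nat.cast_one]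
    rw [h2] at h1
    calc 1 - ((h : ℝ) - 1) * ε = 1 + ((h : ℝ) - 1) * -ε := by ring
      _ ≤ (1 + -ε) ^ (h - 1) := h1
      _ = w ^ (h - 1) := by rw [hw]; ring
  have hP : w ^ (4 * h) * (1 + 4 * (h : ℝ) * ε) ≤ 1 := by
    have h1 := one_add_mul_le_pow (a := ε) (by linarith) (4 * h)
    have h2 : ((4 * h : ℕ) : ℝ) = 4 * (h : ℝ) := by push_cast; ring
    rw [h2] at h1
    calc w ^ (4 * h) * (1 + 4 * (h : ℝ) * ε) ≤ w ^ (4 * h) * (1 + ε) ^ (4 * h) :=
          mul_le_mul_of_nonneg_left h1 (by positivity)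
      _ = (w * (1 + ε)) ^ (4 * h) := by rw [mul_pow]
      _ ≤ 1 := by
          apply pow_le_one₀
          · apply mul_nonneg hw0.le; linarith
          · rw [hw]; nlinarith
  set A : ℝ := (3 + w ^ (4 * h)) / 4 with hA
  set B : ℝ := w ^ (h - 1) with hB
  have hApos : 0 < A := by rw [hA]; positivity
  have hBpos : 0 < B := by rw [hB]; positivity
  have hAB : A < B := by
    have hpow : 0 < w ^ (4 * h) := by positivity
    have h1 : w ^ (4 * h) < 1 - 4 * ((h : ℝ) - 1) * ε := by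
      have hden : 0 < 1 + 4 * (h : ℝ) * ε := by positivity
      have h3 : 1 < (1 - 4 * ((h : ℝ) - 1) * ε) * (1 + 4 * (h : ℝ) * ε) := by
        have h4 : (1 - 4 * ((h : ℝ) - 1) * ε) * (1 + 4 * (h : ℝ) * ε) =
            1 + ε * (4 - 16 * (h : ℝ) * ((h : ℝ) - 1) * ε) := by ring
        rw [h4]
        have h5 : 16 * (h : ℝ) * ((h : ℝ) - 1) * ε ≤ 2 := by nlinarith
        nlinarith
      by_contra hcon
      rw [not_lt] at hcon
      have := mul_le_mul_of_nonneg_right hcon hden.le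
      linarith
    rw [hA]
    linarith
  set ρ : ℝ := A / B with hρ
  have hρ0 : 0 < ρ := div_pos hApos hBpos
  have hρ1 : ρ < 1 := (div_lt_one hBpos).mpr hAB
  have ht := tendsto_pow_const_mul_const_pow_of_abs_lt_one 2 (r := ρ)
    (by rw [abs_of_pos hρ0]; exact hρ1)
  have hev := (ht.eventually (gt_mem_nhds (show (0 : ℝ) < A ^ 2 / 2 by positivity)))
  rw [Filter.eventually_atTop] at hev
  obtain ⟨N₁, hN₁⟩ := hev
  refine ⟨max N₁ 2, fun N hN => ?_⟩
  have hN1 : N₁ ≤ N := le_trans (le_max_left _ _) hN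
  have hN2 : 2 ≤ N := le_trans (le_max_right _ _) hN
  have hk := hN₁ N hN1
  have hBN : w ^ ((h - 1) * N) = B ^ N := by rw [hB, pow_mul]
  rw [hBN]
  have hAN : A ^ N = A ^ (N - 2) * A ^ 2 := by
    rw [← pow_add, Nat.sub_add_cancel hN2]
  have hρN : ρ ^ N = A ^ N / B ^ N := by rw [hρ, div_pow]
  rw [hρN, hAN] at hk
  have hBNpos : 0 < B ^ N := by positivity
  have hA2pos : 0 < A ^ 2 := by positivity
  have h1 : (N : ℝ) ^ 2 * (A ^ (N - 2) * A ^ 2) < A ^ 2 / 2 * B ^ N := by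
    have h2 : (N : ℝ) ^ 2 * (A ^ (N - 2) * A ^ 2 / B ^ N) =
        (N : ℝ) ^ 2 * (A ^ (N - 2) * A ^ 2) / B ^ N := by ring
    rw [h2, div_lt_iff₀ hBNpos] at hk
    exact hk
  have h3 : (2 * (N : ℝ) ^ 2 * A ^ (N - 2)) * A ^ 2 < B ^ N * A ^ 2 := by nlinarith
  exact lt_of_mul_lt_mul_right h3 hA2pos.le

end ZS44129
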