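import Mathlib
import Pool.Agent.Work.MP_44129c_co.RandCount
import Pool.Agent.Work.MP_44129c_co.RandNum

/-!
# MP_44129c_co, module RandMain (random 2-colourings exist; union bound)
-/

set_option autoImplicit false

namespace ZS44129

open Finset

theorem rand_main (h : ℕ) (hh : 0 < h) : ∃ N₀ : ℕ, ∀ N : ℕ, N₀ ≤ N →
    ∃ b : Fin N → Fin N → Bool, (∀ x y, b x y = b y x) ∧ ∀ u v : Fin N, u ≠ v → ∀ r : Bool,
      (h - 1) * N ≤ 4 * h *
        (univ.filter (fun w => w ≠ u ∧ w ≠ v ∧ b u w ≠ r ∧ b v w ≠ r)).card := by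
  classical
  obtain ⟨w, hw0, hw1, N₀, hN₀⟩ := rand_num h hh
  refine ⟨N₀, fun N hN => ?_⟩
  have hnum := hN₀ N hN
  by_contra hcon
  push Not at hcon
  have hbad : ∀ b : Fin N × Fin N → Bool, ∃ u v : Fin N, u ≠ v ∧ ∃ r : Bool,
      4 * h * (univ.filter (fun w => w ≠ u ∧ w ≠ v ∧ col b u w ≠ r ∧ col b v w ≠ r)).card <
        (h - 1) * N := by
    intro b
    obtain ⟨u, v, huv, r, hr⟩ := hcon (col b) (fun x y => by
      unfold col; rw [min_comm, max_comm])
    exact ⟨u, v, huv, r, hr⟩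
  set z : ℝ := w ^ (4 * h) with hz
  have hz0 : 0 < z := by rw [hz]; positivity
  set W : ℝ := w ^ ((h - 1) * N) with hW
  have hpt : ∀ b : Fin N × Fin N → Bool, W ≤ ∑ t : Fin N × Fin N × Bool,
      (if t.1 ≠ t.2.1 then z ^ (univ.filter (fun w => w ≠ t.1 ∧ w ≠ t.2.1 ∧
        col b t.1 w ≠ t.2.2 ∧ col b t.2.1 w ≠ t.2.2)).card else 0) := by
    intro b
    obtain ⟨u, v, huv, r, hr⟩ := hbad b
    have hterm : W ≤ (fun t : Fin N × Fin N × Bool => (if t.1 ≠ t.2.1 then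
        z ^ (univ.filter (fun w => w ≠ t.1 ∧ w ≠ t.2.1 ∧
        col b t.1 w ≠ t.2.2 ∧ col b t.2.1 w ≠ t.2.2)).card else 0)) (u, v, r) := by
      simp only [ne_eq, huv, not_false_eq_true, if_true]
      rw [hz, ← pow_mul, hW]
      exact pow_le_pow_of_le_one hw0.le hw1.le hr.le
    refine le_trans hterm ?_
    refine Finset.single_le_sum (f := fun t : Fin N × Fin N × Bool => (if t.1 ≠ t.2.1 then
        z ^ (univ.filter (fun w => w ≠ t.1 ∧ w ≠ t.2.1 ∧
        col b t.1 w ≠ t.2.2 ∧ col b t.2.1 w ≠ t.2.2)).card else 0)) (fun t _ => ?_)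
      (mem_univ (u, v, r))

    split_ifs
    · positivity
    · exact le_rfl
  have hsum := Finset.sum_le_sum (fun b (_ : b ∈ (univ : Finset (Fin N × Fin N → Bool))) => hpt b)
  rw [Finset.sum_comm] at hsum
  have hcardb : ((univ : Finset (Fin N × Fin N → Bool)).card : ℝ) = 2 ^ (N * N) := by
    rw [Finset.card_univ]
    simp
  rw [Finset.sum_const, nsmul_eq_mul, hcardb] at hsum
  set A : ℝ := (3 + z) / 4 with hA
  have hA0 : 0 < A := by rw [hA]; positivity
  have hone : ∀ t : Fin N × Fin N × Bool, ∑ b : Fin N × Fin N → Bool,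
      (if t.1 ≠ t.2.1 then z ^ (univ.filter (fun w => w ≠ t.1 ∧ w ≠ t.2.1 ∧
        col b t.1 w ≠ t.2.2 ∧ col b t.2.1 w ≠ t.2.2)).card else 0) ≤
      2 ^ (N * N) * A ^ (N - 2) := by
    intro t
    by_cases ht : t.1 ≠ t.2.1
    · simp only [if_pos ht]
      have hc := rand_count t.1 t.2.1 ht t.2.2 z
      have h4 : (0 : ℝ) < 4 ^ (N - 2) := by positivity
      have h5 : (4 : ℝ) ^ (N - 2) * (2 ^ (N * N) * A ^ (N - 2)) =
          2 ^ (N * N) * (3 + z) ^ (N - 2) := by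
        rw [hA, div_pow]
        field_simp
      rw [← h5] at hc
      exact le_of_eq (mul_left_cancel₀ h4.ne' hc)
    · simp only [if_neg ht, Finset.sum_const_zero]
      positivity
  have hsum2 := hsum.trans (Finset.sum_le_sum (fun t _ => hone t))
  rw [Finset.sum_const, nsmul_eq_mul] at hsum2
  have hcardt : ((univ : Finset (Fin N × Fin N × Bool)).card : ℝ) = 2 * (N : ℝ) ^ 2 := by
    rw [Finset.card_univ]
    simp only [Fintype.card_prod, Fintype.card_fin, Fintype.card_bool]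
    push_cast
    ring
  rw [hcardt] at hsum2
  have h2 : (0 : ℝ) < 2 ^ (N * N) := by positivity
  have h3 : (2 : ℝ) ^ (N * N) * W ≤ 2 ^ (N * N) * (2 * (N : ℝ) ^ 2 * A ^ (N - 2)) := by
    calc (2 : ℝ) ^ (N * N) * W ≤ 2 * (N : ℝ) ^ 2 * (2 ^ (N * N) * A ^ (N - 2)) := hsum2
      _ = _ := by ring
  have h6 := le_of_mul_le_mul_left h3 h2
  exact absurd hnum (not_lt.mpr h6)

end ZS44129
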