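import Mathlib
import Pool.Agent.Work.MP_44129c_co.Defs
import Pool.Agent.Work.MP_44129c_co.RandMain

/-!
# MP_44129c_co, module RandMF (2-colourings without monochromatic double star, N below (4/3) m)
-/

set_option autoImplicit false

namespace ZS44129

open Finset

theorem rand_mf_gen (h : ℕ) (hh : 0 < h) : ∃ m₀ : ℕ, ∀ m : ℕ, m₀ ≤ m → ∀ N : ℕ,
    (3 * h + 1) * N < 4 * h * m →
    ∃ b : Fin N → Fin N → Bool, (∀ x y, b x y = b y x) ∧ MF m b := by
  classical
  obtain ⟨N₀, hN₀⟩ := rand_main h hh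
  refine ⟨N₀, fun m hm N hlt => ?_⟩
  by_cases hNm : N ≤ m
  · refine ⟨fun _ _ => true, fun _ _ => rfl, ?_⟩
    intro u v huv X Y hXY huX hvX huY hvY hcard _
    have h1 : (insert u (insert v (X ∪ Y))).card = X.card + Y.card + 2 := by
      rw [Finset.card_insert_of_notMem, Finset.card_insert_of_notMem,
        Finset.card_union_of_disjoint hXY]
      · simp only [mem_union, not_or]; exact ⟨hvX, hvY⟩
      · simp only [mem_insert, mem_union, not_or]; exact ⟨huv, huX, huY⟩
    have h2 : (insert u (insert v (X ∪ Y))).card ≤ N := by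
      have := Finset.card_le_univ (insert u (insert v (X ∪ Y)))
      rwa [Fintype.card_fin] at this
    omega
  · obtain ⟨b, hsym, hb⟩ := hN₀ N (by omega)
    refine ⟨b, hsym, ?_⟩
    intro u v huv X Y hXY huX hvX huY hvY hcard hmono
    obtain ⟨hX, hY⟩ := hmono
    set Z := univ.filter (fun w => w ≠ u ∧ w ≠ v ∧ b u w ≠ b u v ∧ b v w ≠ b u v) with hZ
    have hbz := hb u v huv (b u v)
    rw [← hZ] at hbz
    have hdis : Disjoint (X ∪ Y) Z := by
      rw [Finset.disjoint_left]
      intro x hx hxZ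
      obtain ⟨_, _, _, h3, h4⟩ := mem_filter.mp hxZ
      rcases mem_union.mp hx with hx | hx
      · exact h3 (hX x hx)
      · exact h4 (hY x hx)
    have h1 : (insert u (insert v ((X ∪ Y) ∪ Z))).card = X.card + Y.card + Z.card + 2 := by
      rw [Finset.card_insert_of_notMem, Finset.card_insert_of_notMem,
        Finset.card_union_of_disjoint hdis, Finset.card_union_of_disjoint hXY]
      · simp only [mem_union, not_or]
        exact ⟨⟨hvX, hvY⟩, fun hz => (mem_filter.mp hz).2.2.1 rfl⟩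
      · simp only [mem_insert, mem_union, not_or]
        exact ⟨huv, ⟨huX, huY⟩, fun hz => (mem_filter.mp hz).2.1 rfl⟩
    have h2 : (insert u (insert v ((X ∪ Y) ∪ Z))).card ≤ N := by
      have := Finset.card_le_univ (insert u (insert v ((X ∪ Y) ∪ Z)))
      rwa [Fintype.card_fin] at this
    obtain ⟨k, rfl⟩ : ∃ k, h = k + 1 := ⟨h - 1, by omega⟩
    rw [Nat.add_sub_cancel] at hbz
    have h3 : Z.card + m + 1 ≤ N := by omega
    have h4 : 4 * (k + 1) * (Z.card + m + 1) ≤ 4 * (k + 1) * N := Nat.mul_le_mul_left _ h3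
    nlinarith

theorem rand_mf : ∃ m₀ : ℕ, ∀ m : ℕ, m₀ ≤ m → ∀ N : ℕ,
    (3 * 10 ^ 40 + 1) * N < 4 * 10 ^ 40 * m →
    ∃ b : Fin N → Fin N → Bool, (∀ x y, b x y = b y x) ∧ MF m b :=
  rand_mf_gen (10 ^ 40) (by positivity)

end ZS44129
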