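import Mathlib

/-!
# MP_44129c_co, module EgzFill (Erdős–Ginzburg–Ziv blocks)

Proof.  Let `q = K.index ≥ 1`.  Write `T = α q + b`, `b < q`.  Choose `B₁ ⊆ B`, `|B₁| = b`
(`b < q ≤ |B|`), `R' = R \ B₁`.  Induction on `i ≤ α`: there is `D ⊆ R'`, `|D| = i q`, with
`∑_{w ∈ D} (a w - x) ∈ K`.  Step: `|R' \ D| ≥ T + 2q - b - i q = (α - i) q + 2 q ≥ 2 q - 1`; apply
the integer version of EGZ, `Int.erdos_ginzburg_ziv`, to `w ↦ ((a w - x).val : ℤ)` on `R' \ D`:
there is `D' ⊆ R' \ D`, `|D'| = q`, `q ∣ ∑_{D'} (a w - x).val`.  Casting to `ZMod m`,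
`∑_{D'} (a w - x) = q • (some element)`, which lies in `K` because `K.index • y ∈ K` for all `y`
(e.g. `AddSubgroup.nsmul_index_mem` / `QuotientAddGroup` + `card_nsmul_eq_zero`).
Finally `D ∪ B₁` for `i = α` has `T` elements and `∑_{B₁} (a w - x) ∈ K`.
-/

set_option autoImplicit false

namespace ZS44129

open Finset

theorem egz_sub {W : Type} (m : ℕ) [NeZero m] (K : AddSubgroup (ZMod m))
    (b : W → ZMod m) (R : Finset W) (hR : 2 * K.index - 1 ≤ R.card) :
    ∃ D ⊆ R, D.card = K.index ∧ ∑ w ∈ D, b w ∈ K := by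
  obtain ⟨D, hD, hDc, k, hk⟩ := Int.erdos_ginzburg_ziv (n := K.index) (s := R)
    (fun w => ((b w).val : ℤ)) hR
  refine ⟨D, hD, hDc, ?_⟩
  have h1 : ∑ w ∈ D, b w = ((∑ w ∈ D, ((b w).val : ℤ) : ℤ) : ZMod m) := by
    push_cast
    apply Finset.sum_congr rfl
    intro w _
    rw [ZMod.natCast_val, ZMod.cast_id', id]
  rw [h1, hk]
  have h2 : (((K.index : ℤ) * k : ℤ) : ZMod m) = K.index • ((k : ℤ) : ZMod m) := by
    push_cast
    rw [nsmul_eq_mul]
  rw [h2]
  exact AddSubgroup.nsmul_index_mem K _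

theorem egz_fill {W : Type} [DecidableEq W] (m : ℕ) [NeZero m] (K : AddSubgroup (ZMod m))
    (a : W → ZMod m) (x : ZMod m) (R B : Finset W) (T : ℕ) (hB : B ⊆ R)
    (hBx : ∀ w ∈ B, a w - x ∈ K) (hBc : K.index ≤ B.card) (hR : T + 2 * K.index ≤ R.card) :
    ∃ D ⊆ R, D.card = T ∧ ∑ w ∈ D, (a w - x) ∈ K := by
  obtain ⟨q, hq⟩ : ∃ q, q = K.index := ⟨_, rfl⟩
  have hqpos : 0 < q := by
    rw [hq]
    exact Nat.pos_of_ne_zero AddSubgroup.FiniteIndex.index_ne_zero
  rw [← hq] at hBc hR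
  have hb : T % q < q := Nat.mod_lt _ hqpos
  have hT : q * (T / q) + T % q = T := Nat.div_add_mod T q
  generalize T / q = α at hT
  generalize T % q = b at hT hb
  obtain ⟨B₁, hB₁, hB₁c⟩ := Finset.exists_subset_card_eq (show b ≤ B.card by omega)
  have hB₁R : B₁ ⊆ R := hB₁.trans hB
  have key : ∀ i : ℕ, i ≤ α → ∃ D ⊆ R \ B₁, D.card = i * q ∧ ∑ w ∈ D, (a w - x) ∈ K := by
    intro i
    induction i with
    | zero => intro _; exact ⟨∅, Finset.empty_subset _, by simp, by simp [K.zero_mem]⟩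
    | succ i ih =>
      intro hi
      obtain ⟨D, hD, hDc, hDs⟩ := ih (by omega)
      have hc1 : ((R \ B₁) \ D).card = R.card - B₁.card - D.card := by
        rw [Finset.card_sdiff_of_subset hD, Finset.card_sdiff_of_subset hB₁R]
      have hc2 : (i + 1) * q ≤ q * α := by rw [mul_comm q α]; exact Nat.mul_le_mul_right _ hi
      have hc3 : (i + 1) * q = i * q + q := by ring
      obtain ⟨D', hD', hD'c, hD's⟩ := egz_sub m K (fun w => a w - x) ((R \ B₁) \ D)
        (by rw [← hq]; omega)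
      rw [← hq] at hD'c
      have hdis : Disjoint D D' := by
        rw [Finset.disjoint_left]
        intro w hw hw'
        exact (Finset.mem_sdiff.1 (hD' hw')).2 hw
      refine ⟨D ∪ D', Finset.union_subset hD (hD'.trans Finset.sdiff_subset), ?_, ?_⟩
      · rw [Finset.card_union_of_disjoint hdis, hDc, hD'c, hc3]
      · rw [Finset.sum_union hdis]
        exact K.add_mem hDs hD's
  obtain ⟨D, hD, hDc, hDs⟩ := key α le_rfl
  have hdis : Disjoint D B₁ := by
    rw [Finset.disjoint_left]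
    intro w hw hw'
    exact (Finset.mem_sdiff.1 (hD hw)).2 hw'
  refine ⟨D ∪ B₁, Finset.union_subset (hD.trans Finset.sdiff_subset) hB₁R, ?_, ?_⟩
  · rw [Finset.card_union_of_disjoint hdis, hDc, hB₁c, mul_comm]; exact hT
  · rw [Finset.sum_union hdis]
    exact K.add_mem hDs (AddSubgroup.sum_mem _ (fun w hw => hBx w (hB₁ hw)))

end ZS44129
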