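import Mathlib

/-!
# MP_44129c_co, module GrowBall (finite abelian groups, ball growth)

`ball X i` = sums of `i` elements of `X`.  `X` is symmetric, contains `0`, `K` = subgroup generated
by `X`.

Proof.
1. `ball X i ⊆ ball X (i+1)` (add `0 ∈ X`), hence monotone; `y ∈ ball X i, x ∈ X → y + x` and
   `y - x ∈ ball X (i+1)` (symmetry).
2. If `ball X (i+1) = ball X i` then `ball X i` contains `0` and is closed under adding and
   subtracting elements of `X`, so it contains `K` (`AddSubgroup.closure_induction`: show that for
   all `y ∈ K` and all `b ∈ ball X i`, `b + y ∈ ball X i`), hence also every larger ball does.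
3. Induction on `J`: claim `K ⊆ ball X (3J+1)` or `(J+1) |X| ≤ |ball X (3J+1)|`.
   `J = 0`: `ball X 1 = X` (as sets), so the second alternative holds.
   `J → J+1`: suppose `K ⊄ ball X (3J+4)`.  Then `K ⊄ ball X (3J+1)`, so by induction
   `(J+1)|X| ≤ |ball X (3J+1)|`, and by 2. `ball X (3J+2) ≠ ball X (3J+3)`, so there is
   `y ∈ ball X (3J+3)`, `y ∉ ball X (3J+2)`.  The set `y + X` has `|X|` elements, lies in
   `ball X (3J+4)`, and is disjoint from `ball X (3J+1)`: if `y + x ∈ ball X (3J+1)` then
   `y = (y + x) - x ∈ ball X (3J+2)`.  So `|ball X (3J+4)| ≥ |ball X (3J+1)| + |X| ≥ (J+2)|X|`.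
-/

set_option autoImplicit false

namespace ZS44129

open Finset

/-- sums of `i` elements of `X`. -/
def ball {G : Type} [AddCommGroup G] [DecidableEq G] (X : Finset G) : ℕ → Finset G
  | 0 => {0}
  | (i + 1) => Finset.image₂ (fun y x => y + x) (ball X i) X

theorem ball_succ_mem {G : Type} [AddCommGroup G] [DecidableEq G] {X : Finset G} {i : ℕ} {y x : G}
    (hy : y ∈ ball X i) (hx : x ∈ X) : y + x ∈ ball X (i + 1) :=
  Finset.mem_image₂.2 ⟨y, hy, x, hx, rfl⟩

theorem ball_mono_succ {G : Type} [AddCommGroup G] [DecidableEq G] {X : Finset G}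
    (h0 : (0 : G) ∈ X) (i : ℕ) : ball X i ⊆ ball X (i + 1) := by
  intro y hy
  have := ball_succ_mem hy h0
  rwa [add_zero] at this

theorem ball_mono {G : Type} [AddCommGroup G] [DecidableEq G] {X : Finset G}
    (h0 : (0 : G) ∈ X) {i j : ℕ} (h : i ≤ j) : ball X i ⊆ ball X j := by
  induction h with
  | refl => exact subset_rfl
  | step _ ih => exact ih.trans (ball_mono_succ h0 _)

theorem zero_mem_ball {G : Type} [AddCommGroup G] [DecidableEq G] {X : Finset G}
    (h0 : (0 : G) ∈ X) (i : ℕ) : (0 : G) ∈ ball X i :=
  ball_mono h0 (Nat.zero_le i) (by simp [ball])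

theorem ball_stable {G : Type} [AddCommGroup G] [DecidableEq G] {X : Finset G}
    (h0 : (0 : G) ∈ X) {i : ℕ} (h : ball X (i + 1) ⊆ ball X i) :
    ∀ y ∈ AddSubgroup.closure (X : Set G), y ∈ ball X i := by
  have key : ∀ y ∈ AddSubgroup.closure (X : Set G), ∀ b ∈ ball X i, b + y ∈ ball X i := by
    intro y hy
    induction hy using AddSubgroup.closure_induction with
    | mem x hx => exact fun b hb => h (ball_succ_mem hb hx)
    | zero => intro b hb; rwa [add_zero]
    | add x y _ _ hx hy => intro b hb; rw [← add_assoc]; exact hy _ (hx _ hb)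
    | neg x hx ih =>
      intro b hb
      -- `b + x * n` stays in the finite set, use injectivity of the translation
      have himg : (ball X i).image (fun b => b + x) = ball X i := by
        apply Finset.eq_of_subset_of_card_le
        · intro z hz
          obtain ⟨w, hw, rfl⟩ := Finset.mem_image.1 hz
          exact ih w hw
        · rw [Finset.card_image_of_injective _ (add_left_injective x)]
      rw [← himg] at hb
      obtain ⟨w, hw, hwb⟩ := Finset.mem_image.1 hb
      have : b + -x = w := by rw [← hwb]; abel
      rwa [this]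
  intro y hy
  have := key y hy 0 (zero_mem_ball h0 i)
  rwa [zero_add] at this

theorem grow_ball {G : Type} [AddCommGroup G] [DecidableEq G] (X : Finset G) (h0 : (0 : G) ∈ X)
    (hsym : ∀ x ∈ X, -x ∈ X) (J : ℕ) :
    (∀ y ∈ AddSubgroup.closure (X : Set G), y ∈ ball X (3 * J + 1)) ∨
      (J + 1) * X.card ≤ (ball X (3 * J + 1)).card := by
  induction J with
  | zero =>
    right
    have : ball X (3 * 0 + 1) = X := by
      ext y
      simp only [ball, Finset.mem_image₂, Finset.mem_singleton]
      constructor
      · rintro ⟨_, rfl, x, hx, rfl⟩; rwa [zero_add]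
      · intro hy; exact ⟨0, rfl, y, hy, zero_add y⟩
    rw [this]; simp
  | succ J ih =>
    rcases ih with ih | ih
    · left
      intro y hy
      exact ball_mono h0 (by omega) (ih y hy)
    · by_cases hb : ball X (3 * J + 3) ⊆ ball X (3 * J + 2)
      · left
        intro y hy
        exact ball_mono h0 (by omega) (ball_stable h0 (i := 3 * J + 2) hb y hy)
      · right
        obtain ⟨y, hy, hy2⟩ := Finset.not_subset.1 hb
        have hdis : Disjoint (ball X (3 * J + 1)) (X.image (fun x => y + x)) := by
          rw [Finset.disjoint_left]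
          intro z hz hz2
          obtain ⟨x, hx, rfl⟩ := Finset.mem_image.1 hz2
          apply hy2
          have := ball_succ_mem hz (hsym x hx)
          rwa [add_neg_cancel_right] at this
        have hsub : ball X (3 * J + 1) ∪ X.image (fun x => y + x) ⊆ ball X (3 * (J + 1) + 1) := by
          apply Finset.union_subset
          · exact ball_mono h0 (by omega)
          · intro z hz
            obtain ⟨x, hx, rfl⟩ := Finset.mem_image.1 hz
            exact ball_succ_mem (i := 3 * J + 3) hy hx
        have hc := Finset.card_le_card hsub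
        rw [Finset.card_union_of_disjoint hdis,
          Finset.card_image_of_injective _ (add_right_injective y)] at hc
        nlinarith

end ZS44129
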