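import Mathlib
import Pool.Agent.Work.MP_44129c_co.GrowBall

/-!
# MP_44129c_co, module GrowStuck (finite abelian groups)

`lam S x = |(x + S) \ S|`.  Two statements:

`stuck0`: if `S` is nonempty and smaller than the subgroup `K` generated by `X` then some `x ∈ X`
has `lam S x ≥ 1`.  Proof: otherwise `x + S ⊆ S` for all `x ∈ X`, hence (equal cardinality)
`x + S = S`, so `S` is stable under `X`, `-X`, hence under `K`
(`AddSubgroup.closure_induction`), so `s + K ⊆ S` for `s ∈ S` and `|S| ≥ |K|`.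

`stuck`: if `|X| ≥ t ≥ 200 L`, `100 L ≤ |S|`, `10 |S| ≤ 9 |K|` then some `x ∈ X` has
`lam S x ≥ L`.  Proof: suppose `lam S x ≤ L` for all `x ∈ X` (indeed `< L`).
1. Subadditivity: `lam S (x + y) ≤ lam S x + lam S y`
   (an element of `(x+y+S) \ S` is either in `(x+y+S) \ (x+S)`, which has `lam S y` elements by
   translation, or in `(x+S) \ S`).  Hence `lam S y ≤ i L` for `y ∈ ball X i` (`lam S 0 = 0`).
2. Averaging: for a finset `Y`, `∑_{y ∈ Y} lam S y ≥ |Y| |S| - |S|^2`, because
   `lam S y = |S| - |(y + S) ∩ S|` and `∑_{y ∈ Y} |(y+S) ∩ S| ≤ |S|^2`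
   (the pair `(s, y+s) ∈ S × S` determines `y`).
3. Let `J = 2|S|/t + 1` (natural division), `Y = ball X (3J+1)`.  By `grow_ball` either
   `K ⊆ Y`, so `|Y| ≥ |K| ≥ (10/9)|S|`, or `|Y| ≥ (J+1) |X| ≥ (J+1) t ≥ 2|S|`.  In both cases
   `|Y| - |S| ≥ |Y|/10`, so by 2. `∑_{y∈Y} lam S y ≥ |S| |Y| / 10`.
4. By 1. every `y ∈ Y` has `lam S y ≤ (3J+1) L ≤ (6|S|/t + 4) L ≤ (6/200)|S| + (4/100)|S|
   = (7/100)|S|`.  So `|S||Y|/10 ≤ (7/100)|S||Y|`, contradiction since `|S|,|Y| > 0`.
   (Use real or rational numbers: `(2|S|/t : ℕ) ≤ 2|S|/t`.)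
-/

set_option autoImplicit false

namespace ZS44129

open Finset

/-- growth of `S` in direction `x`. -/
def lam {G : Type} [AddCommGroup G] [DecidableEq G] (S : Finset G) (x : G) : ℕ :=
  ((S.image (fun s => x + s)) \ S).card

theorem lam_zero {G : Type} [AddCommGroup G] [DecidableEq G] (S : Finset G) : lam S 0 = 0 := by
  simp [lam]

theorem lam_add {G : Type} [AddCommGroup G] [DecidableEq G] (S : Finset G) (x y : G) :
    lam S (x + y) ≤ lam S x + lam S y := by
  have hsub : (S.image (fun s => (x + y) + s)) \ S ⊆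
      ((S.image (fun s => x + s)) \ S) ∪ (((S.image (fun s => y + s)) \ S).image (fun s => x + s)) := by
    intro z hz
    obtain ⟨hz1, hz2⟩ := Finset.mem_sdiff.1 hz
    obtain ⟨s, hs, rfl⟩ := Finset.mem_image.1 hz1
    by_cases h : y + s ∈ S
    · apply Finset.mem_union_left
      rw [Finset.mem_sdiff]
      refine ⟨Finset.mem_image.2 ⟨y + s, h, ?_⟩, hz2⟩
      abel
    · apply Finset.mem_union_right
      refine Finset.mem_image.2 ⟨y + s, Finset.mem_sdiff.2 ⟨Finset.mem_image.2 ⟨s, hs, rfl⟩, h⟩, ?_⟩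
      abel
  calc lam S (x + y) ≤ _ := Finset.card_le_card hsub
    _ ≤ _ := Finset.card_union_le _ _
    _ ≤ lam S x + lam S y := by
      apply Nat.add_le_add le_rfl
      exact Finset.card_image_le

theorem lam_ball {G : Type} [AddCommGroup G] [DecidableEq G] {X S : Finset G} {L : ℕ}
    (h : ∀ x ∈ X, lam S x ≤ L) (i : ℕ) : ∀ y ∈ ball X i, lam S y ≤ i * L := by
  induction i with
  | zero => intro y hy; simp only [ball, Finset.mem_singleton] at hy; subst hy; simp [lam_zero]
  | succ i ih =>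
    intro y hy
    obtain ⟨z, hz, x, hx, rfl⟩ := Finset.mem_image₂.1 hy
    have h1 := lam_add S z x
    have h2 := ih z hz
    have h3 := h x hx
    nlinarith

theorem lam_avg {G : Type} [AddCommGroup G] [DecidableEq G] (S Y : Finset G) :
    Y.card * S.card ≤ ∑ y ∈ Y, lam S y + S.card * S.card := by
  have h1 : ∀ y ∈ Y, S.card = lam S y + ((S.image (fun s => y + s)) ∩ S).card := by
    intro y _
    rw [lam, Finset.card_sdiff_add_card_inter, Finset.card_image_of_injective _ (add_right_injective y)]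
  have h2 : Y.card * S.card = ∑ y ∈ Y, lam S y + ∑ y ∈ Y, ((S.image (fun s => y + s)) ∩ S).card := by
    rw [← Finset.sum_add_distrib, ← smul_eq_mul, ← Finset.sum_const]
    exact Finset.sum_congr rfl h1
  rw [h2]
  apply Nat.add_le_add le_rfl
  have h3 : ∀ y ∈ Y, ((S.image (fun s => y + s)) ∩ S).card ≤
      (((S ×ˢ S).filter (fun p => p.2 - p.1 ∈ Y)).filter (fun p => p.2 - p.1 = y)).card := by
    intro y hy
    apply Finset.card_le_card_of_injOn (fun z => (z - y, z))
    · intro z hz
      have hz' := Finset.mem_coe.1 hz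
      obtain ⟨hz1, hz2⟩ := Finset.mem_inter.1 hz'
      obtain ⟨s, hs, rfl⟩ := Finset.mem_image.1 hz1
      simp only [Finset.coe_filter, Set.mem_setOf_eq, Finset.mem_filter, Finset.mem_product]
      refine ⟨⟨⟨?_, hz2⟩, ?_⟩, ?_⟩
      · simpa using hs
      · simpa using hy
      · abel
    · intro a _ b _ hab
      exact (Prod.mk.inj hab).2
  calc ∑ y ∈ Y, ((S.image (fun s => y + s)) ∩ S).card ≤ _ := Finset.sum_le_sum h3
    _ = ((S ×ˢ S).filter (fun p => p.2 - p.1 ∈ Y)).card := by
      rw [Finset.card_eq_sum_card_fiberwise (f := fun p : G × G => p.2 - p.1) (t := Y)]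
      intro p hp
      exact (Finset.mem_filter.1 (Finset.mem_coe.1 hp)).2
    _ ≤ (S ×ˢ S).card := Finset.card_filter_le _ _
    _ = S.card * S.card := Finset.card_product _ _

theorem card_sub_le {G : Type} [AddCommGroup G] [Finite G] [DecidableEq G] (K : AddSubgroup G)
    (Y : Finset G) (h : ∀ y ∈ K, y ∈ Y) : Nat.card K ≤ Y.card := by
  have h1 : (K : Set G) ⊆ (Y : Set G) := fun y hy => Finset.mem_coe.2 (h y hy)
  have h2 := Set.ncard_le_ncard h1 (Finset.finite_toSet Y)
  rw [Set.ncard_coe_finset] at h2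
  exact h2

theorem stuck0 {G : Type} [AddCommGroup G] [Finite G] [DecidableEq G] (X S : Finset G)
    (hS : S.Nonempty) (hK : S.card < Nat.card (AddSubgroup.closure (X : Set G))) :
    ∃ x ∈ X, 1 ≤ lam S x := by
  by_contra hcon
  push Not at hcon
  obtain ⟨s, hs⟩ := hS
  have hst : ∀ x ∈ X, ∀ b ∈ S, x + b ∈ S := by
    intro x hx b hb
    by_contra hxb
    have h0 : lam S x = 0 := by have := hcon x hx; omega
    rw [lam, Finset.card_eq_zero] at h0
    have : x + b ∈ (S.image (fun s => x + s)) \ S :=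
      Finset.mem_sdiff.2 ⟨Finset.mem_image.2 ⟨b, hb, rfl⟩, hxb⟩
    rw [h0] at this
    exact absurd this (Finset.notMem_empty _)
  have key : ∀ y ∈ AddSubgroup.closure (X : Set G), ∀ b ∈ S, y + b ∈ S := by
    intro y hy
    induction hy using AddSubgroup.closure_induction with
    | mem x hx => exact hst x hx
    | zero => intro b hb; rwa [zero_add]
    | add x y _ _ hx hy => intro b hb; rw [add_assoc]; exact hx _ (hy _ hb)
    | neg x hx ih =>
      intro b hb
      have himg : S.image (fun b => x + b) = S := by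
        apply Finset.eq_of_subset_of_card_le
        · intro z hz
          obtain ⟨w, hw, rfl⟩ := Finset.mem_image.1 hz
          exact ih w hw
        · rw [Finset.card_image_of_injective _ (add_right_injective x)]
      rw [← himg] at hb
      obtain ⟨w, hw, hwb⟩ := Finset.mem_image.1 hb
      have : -x + b = w := by rw [← hwb]; abel
      rwa [this]
  have h1 : ∀ y ∈ AddSubgroup.closure (X : Set G), y ∈ S.image (fun z => z - s) := by
    intro y hy
    exact Finset.mem_image.2 ⟨y + s, key y hy s hs, by abel⟩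
  have h2 := card_sub_le _ _ h1
  have h3 : (S.image (fun z => z - s)).card ≤ S.card := Finset.card_image_le
  omega

theorem stuck {G : Type} [AddCommGroup G] [Finite G] [DecidableEq G] (X S : Finset G)
    (L t : ℕ) (hL : 0 < L) (h0 : (0 : G) ∈ X) (hsym : ∀ x ∈ X, -x ∈ X) (ht : t ≤ X.card)
    (htL : 200 * L ≤ t) (hS : 100 * L ≤ S.card)
    (hK : 10 * S.card ≤ 9 * Nat.card (AddSubgroup.closure (X : Set G))) :
    ∃ x ∈ X, L ≤ lam S x := by
  by_contra hcon
  push Not at hcon
  have hcon' : ∀ x ∈ X, lam S x ≤ L := fun x hx => (hcon x hx).le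
  obtain ⟨J, hJ⟩ : ∃ J, J = 2 * S.card / t + 1 := ⟨_, rfl⟩
  obtain ⟨Y, hY⟩ : ∃ Y, Y = ball X (3 * J + 1) := ⟨_, rfl⟩
  have htpos : 0 < t := by omega
  have hYS : 10 * S.card ≤ 9 * Y.card := by
    rcases grow_ball X h0 hsym J with h | h
    · have := card_sub_le _ _ h
      rw [← hY] at this
      omega
    · rw [← hY] at h
      have h1 : 2 * S.card < (2 * S.card / t + 1) * t := by
        have := Nat.lt_div_mul_add (a := 2 * S.card) htpos
        nlinarith
      have h2 : (J + 1) * t ≤ (J + 1) * X.card := Nat.mul_le_mul_left _ ht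
      have h3 : (J + 1) * t = (2 * S.card / t + 1) * t + t := by rw [hJ]; ring
      omega
  have hav := lam_avg S Y
  have hle : ∑ y ∈ Y, lam S y ≤ Y.card * ((3 * J + 1) * L) := by
    rw [← smul_eq_mul, ← Finset.sum_const]
    apply Finset.sum_le_sum
    intro y hy
    rw [hY] at hy
    exact lam_ball hcon' _ y hy
  have h7 : 100 * ((3 * J + 1) * L) ≤ 7 * S.card := by
    have h1 : (2 * S.card / t) * t ≤ 2 * S.card := Nat.div_mul_le_self _ _
    have h2 : (2 * S.card / t) * (200 * L) ≤ (2 * S.card / t) * t := Nat.mul_le_mul_left _ htL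
    have h3 : (3 * J + 1) * L = 3 * ((2 * S.card / t) * L) + 4 * L := by rw [hJ]; ring
    have h4 : (2 * S.card / t) * (200 * L) = 200 * ((2 * S.card / t) * L) := by ring
    omega
  have hSpos : 0 < S.card := by omega
  have h8 : 100 * (Y.card * S.card) ≤ Y.card * (7 * S.card) + 100 * (S.card * S.card) := by
    have : Y.card * (100 * ((3 * J + 1) * L)) ≤ Y.card * (7 * S.card) := Nat.mul_le_mul_left _ h7
    nlinarith
  have h9 : 93 * Y.card ≤ 100 * S.card := by
    have : (93 * Y.card) * S.card ≤ (100 * S.card) * S.card := by nlinarith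
    exact Nat.le_of_mul_le_mul_right this hSpos
  omega

end ZS44129
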