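import Mathlib
import Pool.Agent.Work.MP_44129c_co.GrowStuck

/-!
# MP_44129c_co, module GrowBatch (greedy choice of pairs)

`sset a E s` = set of all sums `∑_{w ∈ D} a w`, `D ⊆ E`, `|D| = s`.
`U` is a set of indices with all differences `a w - a w'` in `K`, robustly rich (`hrob`): after
deleting at most `r` indices there are still at least `t` different values and the differences
still generate `K`.  Claim: there is `E ⊆ U`, `|E| = 2 s ≤ r`, with `|sset a E s| > (9/10) |K|`.

Proof.  Let `i₀ = 100 L + |K|/L + 1`, `g(i) = i + 1` for `i ≤ 100 L` and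
`g(i) = 100 L + (i - 100 L) L` for `i ≥ 100 L` (say `g` defined by these steps; any such
bookkeeping is fine).  Show by induction on `i ≤ i₀`: either some `E ⊆ U`, `|E| = 2 s ≤ 2 i₀`
satisfies the claim, or there is `E ⊆ U`, `|E| = 2 i`, `|sset a E i| ≥ g(i)`.
* `i = 0`: `E = ∅`, `sset = {0}`.
* step: `S = sset a E i`.  If `9|K| < 10|S|`, done.  Otherwise let
  `X = {a w' - a w : w, w' ∈ U \ E}` (image of a product finset): contains `0` (`U \ E` is
  nonempty since it has `≥ t ≥ 200 L ≥ 200` values by `hrob` with `R = E`, `|E| ≤ 2 i₀ ≤ r`),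
  is symmetric, has at least `t` elements (fix `w`: the values `a w' - a w`), and its closure is
  `K`: `≤` by `hK`, `≥` by `hrob` with `K' = closure X`.
  If `|S| ≥ 100 L` apply `stuck` (10|S| ≤ 9|K|), otherwise `stuck0` (`|S| < |K|` because
  `10 |S| ≤ 9 |K|`, `|K| > 0`); get `x = a w' - a w ∈ X` with `lam S x ≥ L`, resp. `≥ 1`.
  Then `w ≠ w'` (otherwise `x = 0`, `lam S 0 = 0`), put `E' = E ∪ {w, w'}`, `|E'| = 2(i+1)`, and
  `sset a E' (i+1) ⊇ (a w + S) ∪ (a w' + S)`, whose cardinality is
  `|S ∪ (x + S)| = |S| + lam S x` (translate by `-a w`).  So `|sset a E' (i+1)| ≥ |S| + lam S x`.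
* at `i = i₀`: `g(i₀) = 100 L + (|K|/L + 1) L ≥ 100 L + |K| > |K|`, but for `E ⊆ U`,
  `sset a E i` lies in one coset of `K` (`hK`; all sums of `i` elements of `U` are congruent), so
  has at most `|K|` elements.  Contradiction, so the first alternative holds.
-/

set_option autoImplicit false

namespace ZS44129

open Finset

/-- all sums of `s` elements with indices in `E`. -/
def sset {G W : Type} [AddCommGroup G] [DecidableEq G] (a : W → G) (E : Finset W) (s : ℕ) :
    Finset G :=
  (E.powersetCard s).image (fun D => ∑ w ∈ D, a w)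

theorem sset_mem {G W : Type} [AddCommGroup G] [DecidableEq G] {a : W → G} {E : Finset W} {s : ℕ}
    {y : G} : y ∈ sset a E s ↔ ∃ D ⊆ E, D.card = s ∧ ∑ w ∈ D, a w = y := by
  simp only [sset, Finset.mem_image, Finset.mem_powersetCard, and_assoc]

theorem sset_coset {G W : Type} [AddCommGroup G] [DecidableEq G] {K : AddSubgroup G} {a : W → G}
    {U E : Finset W} (hK : ∀ w ∈ U, ∀ w' ∈ U, a w - a w' ∈ K) (hE : E ⊆ U) {s : ℕ} {w₀ : W}
    (h0 : w₀ ∈ U) {y : G} (hy : y ∈ sset a E s) : y - s • a w₀ ∈ K := by
  obtain ⟨D, hD, hDs, rfl⟩ := sset_mem.1 hy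
  have : ∑ w ∈ D, a w - s • a w₀ = ∑ w ∈ D, (a w - a w₀) := by
    rw [Finset.sum_sub_distrib, Finset.sum_const, hDs]
  rw [this]
  exact AddSubgroup.sum_mem _ (fun w hw => hK w (hE (hD hw)) w₀ h0)

theorem sset_card_le {G W : Type} [AddCommGroup G] [Finite G] [DecidableEq G] {K : AddSubgroup G}
    {a : W → G} {U E : Finset W} (hK : ∀ w ∈ U, ∀ w' ∈ U, a w - a w' ∈ K) (hE : E ⊆ U) {s : ℕ}
    {w₀ : W} (h0 : w₀ ∈ U) : (sset a E s).card ≤ Nat.card K := by
  have h1 : ((sset a E s).image (fun y => y - s • a w₀)).card = (sset a E s).card :=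
    Finset.card_image_of_injective _ (sub_left_injective)
  rw [← h1]
  have h2 : (((sset a E s).image (fun y => y - s • a w₀) : Finset G) : Set G) ⊆ (K : Set G) := by
    intro z hz
    obtain ⟨y, hy, rfl⟩ := Finset.mem_image.1 (Finset.mem_coe.1 hz)
    exact sset_coset hK hE h0 hy
  have h3 := Set.ncard_le_ncard h2 (Set.toFinite _)
  rw [Set.ncard_coe_finset] at h3
  exact h3

theorem sset_step {G W : Type} [AddCommGroup G] [DecidableEq G] [DecidableEq W] {a : W → G}
    {E : Finset W} {i : ℕ} {w w' : W} (hw : w ∉ E) (hw' : w' ∉ E) :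
    (sset a E i).card + lam (sset a E i) (a w' - a w) ≤
      (sset a (insert w (insert w' E)) (i + 1)).card := by
  set S := sset a E i with hS
  have hsub : (S ∪ S.image (fun s => (a w' - a w) + s)).image (fun s => a w + s) ⊆
      sset a (insert w (insert w' E)) (i + 1) := by
    intro z hz
    obtain ⟨y, hy, rfl⟩ := Finset.mem_image.1 hz
    rw [sset_mem]
    rcases Finset.mem_union.1 hy with hy | hy
    · obtain ⟨D, hD, hDs, rfl⟩ := sset_mem.1 hy
      refine ⟨insert w D, ?_, ?_, ?_⟩
      · exact Finset.insert_subset_insert _ (hD.trans (Finset.subset_insert _ _))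
      · rw [Finset.card_insert_of_notMem (fun h => hw (hD h)), hDs]
      · rw [Finset.sum_insert (fun h => hw (hD h))]
    · obtain ⟨y', hy', rfl⟩ := Finset.mem_image.1 hy
      obtain ⟨D, hD, hDs, rfl⟩ := sset_mem.1 hy'
      refine ⟨insert w' D, ?_, ?_, ?_⟩
      · exact (Finset.insert_subset_insert _ hD).trans (Finset.subset_insert _ _)
      · rw [Finset.card_insert_of_notMem (fun h => hw' (hD h)), hDs]
      · rw [Finset.sum_insert (fun h => hw' (hD h))]; abel
  have hc := Finset.card_le_card hsub
  rw [Finset.card_image_of_injective _ (add_right_injective (a w))] at hc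
  have h2 := Finset.card_sdiff_add_card (S.image (fun s => (a w' - a w) + s)) S
  rw [Finset.union_comm] at h2
  rw [lam]
  omega

theorem batch {G W : Type} [AddCommGroup G] [Finite G] [DecidableEq G] [DecidableEq W]
    (K : AddSubgroup G) (a : W → G) (U : Finset W) (L t r : ℕ) (hL : 0 < L)
    (htL : 200 * L ≤ t) (hK : ∀ w ∈ U, ∀ w' ∈ U, a w - a w' ∈ K)
    (hrob : ∀ R ⊆ U, R.card ≤ r → t ≤ ((U \ R).image a).card ∧
      ∀ K' : AddSubgroup G, (∀ w ∈ U \ R, ∀ w' ∈ U \ R, a w - a w' ∈ K') → K ≤ K')
    (hr : 2 * (100 * L + Nat.card K / L + 2) ≤ r) :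
    ∃ E ⊆ U, ∃ s : ℕ, E.card = 2 * s ∧ E.card ≤ r ∧
      9 * Nat.card K < 10 * (sset a E s).card := by
  by_contra hcon
  have hcon' : ∀ E ⊆ U, ∀ s : ℕ, E.card = 2 * s → E.card ≤ r →
      10 * (sset a E s).card ≤ 9 * Nat.card K := by
    intro E hE s h1 h2
    by_contra h3
    exact hcon ⟨E, hE, s, h1, h2, by omega⟩
  have hKpos : 0 < Nat.card K := Nat.card_pos
  have key : ∀ i : ℕ, 2 * i ≤ r → ∃ E ⊆ U, E.card = 2 * i ∧ i + 1 ≤ (sset a E i).card ∧
      (100 * L ≤ i → 100 * L + (i - 100 * L) * L ≤ (sset a E i).card) := by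
    intro i
    induction i with
    | zero =>
      intro _
      refine ⟨∅, Finset.empty_subset _, by simp, ?_, ?_⟩
      · simp [sset]
      · intro h; omega
    | succ i ih =>
      intro hi
      obtain ⟨E, hE, hEc, h1, h2⟩ := ih (by omega)
      have hS9 := hcon' E hE i hEc (by omega)
      obtain ⟨hrt, hrK⟩ := hrob E hE (by omega)
      -- the set of differences
      obtain ⟨X, hX⟩ : ∃ X : Finset G, X = Finset.image₂ (fun w' w => a w' - a w) (U \ E) (U \ E) :=
        ⟨_, rfl⟩
      have hne : (U \ E).Nonempty := by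
        rw [Finset.nonempty_iff_ne_empty]
        intro h
        rw [h] at hrt
        simp at hrt
        omega
      obtain ⟨w₁, hw₁⟩ := hne
      have hX0 : (0 : G) ∈ X := by
        rw [hX]
        exact Finset.mem_image₂.2 ⟨w₁, hw₁, w₁, hw₁, sub_self _⟩
      have hXs : ∀ x ∈ X, -x ∈ X := by
        intro x hx
        rw [hX] at hx ⊢
        obtain ⟨w', hw', w, hw, rfl⟩ := Finset.mem_image₂.1 hx
        exact Finset.mem_image₂.2 ⟨w, hw, w', hw', by abel⟩
      have hXt : t ≤ X.card := by
        refine hrt.trans ?_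
        have hsub : ((U \ E).image a).image (fun g => g - a w₁) ⊆ X := by
          intro z hz
          obtain ⟨g, hg, rfl⟩ := Finset.mem_image.1 hz
          obtain ⟨w, hw, rfl⟩ := Finset.mem_image.1 hg
          rw [hX]
          exact Finset.mem_image₂.2 ⟨w, hw, w₁, hw₁, rfl⟩
        have := Finset.card_le_card hsub
        rwa [Finset.card_image_of_injective _ sub_left_injective] at this
      have hXK : AddSubgroup.closure (X : Set G) = K := by
        apply le_antisymm
        · rw [AddSubgroup.closure_le]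
          intro x hx
          rw [Finset.mem_coe, hX] at hx
          obtain ⟨w', hw', w, hw, rfl⟩ := Finset.mem_image₂.1 hx
          exact hK w' (Finset.mem_sdiff.1 hw').1 w (Finset.mem_sdiff.1 hw).1
        · apply hrK
          intro w hw w' hw'
          apply AddSubgroup.subset_closure
          rw [Finset.mem_coe, hX]
          exact Finset.mem_image₂.2 ⟨w, hw, w', hw', rfl⟩
      have hfin : ∀ (l : ℕ), 0 < l → (∃ x ∈ X, l ≤ lam (sset a E i) x) →
          ∃ E' ⊆ U, E'.card = 2 * (i + 1) ∧ (sset a E i).card + l ≤ (sset a E' (i + 1)).card := by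
        rintro l hl ⟨x, hx, hlx⟩
        rw [hX] at hx
        obtain ⟨w', hw', w, hw, rfl⟩ := Finset.mem_image₂.1 hx
        obtain ⟨hwU, hwE⟩ := Finset.mem_sdiff.1 hw
        obtain ⟨hwU', hwE'⟩ := Finset.mem_sdiff.1 hw'
        have hww : w ≠ w' := by
          rintro rfl
          rw [sub_self, lam_zero] at hlx
          omega
        refine ⟨insert w (insert w' E), ?_, ?_, ?_⟩
        · exact Finset.insert_subset hwU (Finset.insert_subset hwU' hE)
        · rw [Finset.card_insert_of_notMem, Finset.card_insert_of_notMem hwE', hEc]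
          · ring
          · rw [Finset.mem_insert]
            rintro (h | h)
            · exact hww h
            · exact hwE h
        · exact (Nat.add_le_add_left hlx _).trans (sset_step hwE hwE')
      by_cases hbig : 100 * L ≤ (sset a E i).card
      · obtain ⟨E', hE', hE'c, hE's⟩ := hfin L hL
          (stuck X (sset a E i) L t hL hX0 hXs hXt htL hbig (by rw [hXK]; exact hS9))
        refine ⟨E', hE', hE'c, by omega, ?_⟩
        intro hi100
        by_cases hi' : 100 * L ≤ i
        · have h3 := h2 hi'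
          have h4 : (i + 1 - 100 * L) * L = (i - 100 * L) * L + L := by
            have : i + 1 - 100 * L = (i - 100 * L) + 1 := by omega
            rw [this]; ring
          omega
        · have h5 : i + 1 = 100 * L := by omega
          rw [h5]
          simp only [Nat.sub_self, Nat.zero_mul]
          rw [h5] at hE's
          omega
      · have hSne : (sset a E i).Nonempty := by
          rw [← Finset.card_pos]; omega
        obtain ⟨E', hE', hE'c, hE's⟩ := hfin 1 Nat.one_pos
          (stuck0 X (sset a E i) hSne (by rw [hXK]; omega))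
        exact ⟨E', hE', hE'c, by omega, by intro h; omega⟩
  have h5 : Nat.card K < (Nat.card K / L + 1) * L := by
    have := Nat.lt_div_mul_add (a := Nat.card K) hL
    nlinarith
  generalize Nat.card K / L = Q at hr h5
  obtain ⟨E, hE, hEc, h1, h2⟩ := key (100 * L + Q + 1) (by omega)
  have hEne : E.Nonempty := by rw [← Finset.card_pos]; omega
  obtain ⟨w₀, hw₀⟩ := hEne
  have h3 := sset_card_le (s := 100 * L + Q + 1) hK hE (hE hw₀)
  have h4 := h2 (by omega)
  have h6 : 100 * L + Q + 1 - 100 * L = Q + 1 := by omega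
  rw [h6] at h4
  omega

end ZS44129
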