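import Mathlib
import Pool.Agent.Work.MP_44129c_co.GrowBatch

/-!
# MP_44129c_co, module GrowCover (two batches cover a coset)

Proof.  Put `r₁ = 2 (100 L + |K|/L + 2)`, so `2 r₁ ≤ r`.  Apply `batch` to `U` with `r₁`
(`hrob` holds for `r₁ ≤ r`): `E₁`, `s₁`.  Apply `batch` to `U \ E₁` with `r₁`: for
`R ⊆ U \ E₁`, `|R| ≤ r₁` one has `(U \ E₁) \ R = U \ (E₁ ∪ R)` and `|E₁ ∪ R| ≤ 2 r₁ ≤ r`, so the
robustness hypothesis holds.  Get `E₂ ⊆ U \ E₁`, `s₂`.  Put `E = E₁ ∪ E₂`, `s = s₁ + s₂`.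
`S₁ = sset a E₁ s₁ ⊆ s₁ a(w₀) + K` and `S₂ = sset a E₂ s₂ ⊆ s₂ a(w₀) + K`.  Given `y` with
`y - s a(w₀) ∈ K`, the sets `S₁` and `y - S₂` both lie in the coset `s₁ a(w₀) + K` and
`|S₁| + |S₂| > |K|`, so they meet: `y = σ₁ + σ₂` with `σᵢ = ∑_{Dᵢ} a`, `Dᵢ ⊆ Eᵢ`, `|Dᵢ| = sᵢ`;
take `D = D₁ ∪ D₂` (disjoint).
-/

set_option autoImplicit false

namespace ZS44129

open Finset

theorem cover {G W : Type} [AddCommGroup G] [Finite G] [DecidableEq G] [DecidableEq W]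
    (K : AddSubgroup G) (a : W → G) (U : Finset W) (L t r : ℕ) (hL : 0 < L)
    (htL : 200 * L ≤ t) (hK : ∀ w ∈ U, ∀ w' ∈ U, a w - a w' ∈ K)
    (hrob : ∀ R ⊆ U, R.card ≤ r → t ≤ ((U \ R).image a).card ∧
      ∀ K' : AddSubgroup G, (∀ w ∈ U \ R, ∀ w' ∈ U \ R, a w - a w' ∈ K') → K ≤ K')
    (hr : 4 * (100 * L + Nat.card K / L + 2) ≤ r) :
    ∃ E ⊆ U, ∃ s : ℕ, E.card = 2 * s ∧ E.card ≤ r ∧
      ∀ w₀ ∈ U, ∀ y : G, y - s • a w₀ ∈ K → ∃ D ⊆ E, D.card = s ∧ ∑ w ∈ D, a w = y := by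
  obtain ⟨r₁, hr₁⟩ : ∃ r₁, r₁ = 2 * (100 * L + Nat.card K / L + 2) := ⟨_, rfl⟩
  have hrr : 2 * r₁ ≤ r := by rw [hr₁]; linarith
  obtain ⟨E₁, hE₁, s₁, hc₁, hcr₁, hb₁⟩ := batch K a U L t r₁ hL htL hK
    (fun R hR hRc => hrob R hR (by omega)) (by rw [hr₁])
  obtain ⟨E₂, hE₂, s₂, hc₂, hcr₂, hb₂⟩ := batch K a (U \ E₁) L t r₁ hL htL
    (fun w hw w' hw' => hK w (Finset.mem_sdiff.1 hw).1 w' (Finset.mem_sdiff.1 hw').1)
    (fun R hR hRc => by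
      have h1 : (U \ E₁) \ R = U \ (E₁ ∪ R) := by rw [sdiff_sdiff_left]; rfl
      rw [h1]
      apply hrob
      · exact Finset.union_subset hE₁ (hR.trans Finset.sdiff_subset)
      · have := Finset.card_union_le E₁ R
        omega) (by rw [hr₁])
  have hE₂U : E₂ ⊆ U := hE₂.trans Finset.sdiff_subset
  have hdis : Disjoint E₁ E₂ := by
    rw [Finset.disjoint_left]
    intro w hw hw2
    exact (Finset.mem_sdiff.1 (hE₂ hw2)).2 hw
  refine ⟨E₁ ∪ E₂, Finset.union_subset hE₁ hE₂U, s₁ + s₂, ?_, ?_, ?_⟩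
  · rw [Finset.card_union_of_disjoint hdis]; omega
  · rw [Finset.card_union_of_disjoint hdis]; omega
  intro w₀ hw₀ y hy
  obtain ⟨A₁, hA₁⟩ : ∃ A₁ : Finset G, A₁ = (sset a E₁ s₁).image (fun z => z - s₁ • a w₀) := ⟨_, rfl⟩
  obtain ⟨A₂, hA₂⟩ : ∃ A₂ : Finset G, A₂ = (sset a E₂ s₂).image (fun z => (y - s₁ • a w₀) - z) :=
    ⟨_, rfl⟩
  have hA₁c : A₁.card = (sset a E₁ s₁).card := by
    rw [hA₁]; exact Finset.card_image_of_injective _ sub_left_injective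
  have hA₂c : A₂.card = (sset a E₂ s₂).card := by
    rw [hA₂]; exact Finset.card_image_of_injective _ sub_right_injective
  have hnd : ¬ Disjoint A₁ A₂ := by
    intro hd
    have h1 := Finset.card_union_of_disjoint hd
    have h2 : ((A₁ ∪ A₂ : Finset G) : Set G) ⊆ (K : Set G) := by
      intro z hz
      rcases Finset.mem_union.1 (Finset.mem_coe.1 hz) with hz | hz
      · rw [hA₁] at hz
        obtain ⟨x, hx, rfl⟩ := Finset.mem_image.1 hz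
        exact sset_coset hK hE₁ hw₀ hx
      · rw [hA₂] at hz
        obtain ⟨x, hx, rfl⟩ := Finset.mem_image.1 hz
        have h3 := sset_coset hK hE₂U hw₀ hx
        have h4 : y - s₁ • a w₀ - x = (y - (s₁ + s₂) • a w₀) - (x - s₂ • a w₀) := by
          rw [add_smul]; abel
        change y - s₁ • a w₀ - x ∈ K
        rw [h4]
        exact K.sub_mem hy h3
    have h3 := Set.ncard_le_ncard h2 (Set.toFinite _)
    rw [Set.ncard_coe_finset] at h3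
    have h4 : (A₁ ∪ A₂).card ≤ Nat.card K := h3
    omega
  rw [Finset.not_disjoint_iff] at hnd
  obtain ⟨z, hz1, hz2⟩ := hnd
  rw [hA₁] at hz1
  rw [hA₂] at hz2
  obtain ⟨x₁, hx₁, hx₁z⟩ := Finset.mem_image.1 hz1
  obtain ⟨x₂, hx₂, hx₂z⟩ := Finset.mem_image.1 hz2
  obtain ⟨D₁, hD₁, hD₁s, hD₁x⟩ := sset_mem.1 hx₁
  obtain ⟨D₂, hD₂, hD₂s, hD₂x⟩ := sset_mem.1 hx₂
  have hDd : Disjoint D₁ D₂ := Finset.disjoint_of_subset_left hD₁ (Finset.disjoint_of_subset_right hD₂ hdis)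
  refine ⟨D₁ ∪ D₂, Finset.union_subset_union hD₁ hD₂, ?_, ?_⟩
  · rw [Finset.card_union_of_disjoint hDd, hD₁s, hD₂s]
  · rw [Finset.sum_union hDd, hD₁x, hD₂x]
    have h1 : x₁ - s₁ • a w₀ = y - s₁ • a w₀ - x₂ := by rw [hx₁z, hx₂z]
    have h2 : x₁ = y - x₂ := by
      have := congrArg (fun z => z + s₁ • a w₀) h1
      simp only [sub_add_cancel] at this
      rw [this]; abel
    rw [h2]; abel

end ZS44129
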