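import Mathlib
import Pool.Agent.Work.MP_44129c_co.GrowCover
import Pool.Agent.Work.MP_44129c_co.EgzFill

/-!
# MP_44129c_co, module S1Main (few unpopular colours)

A sequence of length between `(6/5) m` and `2 m` in `ZMod m` without zero-sum subsequence of
length `m`: all but a `1/h` fraction of the terms have multiplicity at least `m / q`.

Proof.  `t = 200000 h^2`, `q = 2 h t`, `L = 32 h`, `m₀ = 1`.  Let
`U = {w ∈ s : q mult(w) < m}` and suppose `h |U| > |s| ≥ m` (so `|U| ≥ 1`).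
1. For a subgroup `K` and `x` let `u(K, x) = #{w ∈ U : a w - x ∈ K}`.  Condition
   (*) `2 h u(K,x) ≥ m + |K|` holds for `K = ⊤`.  Choose `(K, x)` with (*) and `|K|` minimal
   (`Nat.find` or well-founded minimum over `Nat.card K`), `U₁ = {w ∈ U : a w - x ∈ K}`.
   Put `r = |K| / (4 h)` (natural division).
2. Robustness: let `R ⊆ U₁`, `|R| ≤ r`.
   (i) `K'` a subgroup with all differences over `U₁ \ R` in `K'`; suppose `K ≰ K'`; then
   `K'' = K ⊓ K'` is a proper subgroup of `K`, `|K''| ≤ |K|/2`, and `U₁ \ R` (nonempty, see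
   (ii)) lies in one coset `y + K''`, so by minimality of `|K|`:
   `2 h (|U₁| - |R|) ≤ 2 h u(K'', y) < m + |K''| ≤ m + |K|/2`, while `2 h |U₁| ≥ m + |K|`; so
   `|K|/2 < 2 h |R| ≤ 2 h r ≤ |K|/2`, contradiction.
   (ii) `2 h |U₁ \ R| ≥ m + |K| - 2 h r ≥ m`; every value has multiplicity `< m/q` in `U`:
   `q |U₁ \ R| ≤ m #(values)`, so `#(values) ≥ q/(2h) = t`.
3. `|K| ≥ t` (all values of `a` on `U₁` lie in one coset of `K`, at least `t` of them).
   Hence `4 (100 L + |K|/L + 2) ≤ r`: indeed `4 |K|/L = |K|/(8h)` and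
   `400 L + 8 = 12800 h + 8`, `r ≥ |K|/(4h) - 1`, and `|K|/(8h) ≥ t/(8h) = 25000 h ≥
   12800 h + 9`.  And `200 L = 6400 h ≤ t`.
4. `cover` gives `E ⊆ U₁`, `|E| = 2 s₀ ≤ r`, covering the coset `s₀ x + K`
   (any `w₀ ∈ U₁`: `a w₀ - x ∈ K`).
5. `egz_fill` with `R := s \ E`, `B := U₁ \ E`, `T := m - s₀` (`2 s₀ ≤ r ≤ m/4`): the index
   `q' = m / |K| ≤ m / t`; `|B| ≥ |U₁| - r ≥ m/(2h) ≥ m/t ≥ q'`;
   `|s \ E| ≥ 6m/5 - 2 s₀ ≥ m - s₀ + 2 q'` because `s₀ + 2 q' ≤ m/8 + 2m/200000 ≤ m/5`.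
   Get `D₂ ⊆ s \ E`, `|D₂| = m - s₀`, `∑_{D₂} (a w - x) ∈ K`.
6. `y = - ∑_{D₂} a w`; `y - s₀ x = -∑_{D₂}(a w - x) - (m - s₀) x - s₀ x =
   -∑_{D₂} (a w - x) - m x ∈ K` (`m x = 0`), so also `y - s₀ • a w₀ ∈ K`; by 4. there is
   `D₁ ⊆ E`, `|D₁| = s₀`, `∑_{D₁} a = y`.  `D₁ ∪ D₂ ⊆ s` has `m` elements and sum `0`.
   Contradiction.
(`|K| · index = m` : `AddSubgroup.card_mul_index`, `Nat.card_zmod`.)
-/

set_option autoImplicit false

namespace ZS44129

open Finset

theorem few_unpopular (h : ℕ) (hh : 0 < h) :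
    ∃ q m₀ : ℕ, 0 < q ∧ ∀ m : ℕ, m₀ ≤ m → ∀ {W : Type} [DecidableEq W] (s : Finset W)
      (a : W → ZMod m), 6 * m ≤ 5 * s.card → s.card ≤ 2 * m →
      (∀ D ⊆ s, D.card = m → ∑ w ∈ D, a w ≠ 0) →
      h * (s.filter (fun w => q * (s.filter (fun w' => a w' = a w)).card < m)).card ≤
        s.card := by
  obtain ⟨t, ht⟩ : ∃ t, t = 200000 * h ^ 2 := ⟨_, rfl⟩
  have htpos : 0 < t := by rw [ht]; positivity
  refine ⟨2 * h * t, 1, by positivity, ?_⟩
  intro m hm W _ s a hs1 hs2 hz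
  have hmpos : 0 < m := hm
  have : NeZero m := ⟨hmpos.ne'⟩
  by_contra hcon
  push Not at hcon
  obtain ⟨q, hq⟩ : ∃ q, q = 2 * h * t := ⟨_, rfl⟩
  rw [← hq] at hcon
  obtain ⟨U, hU⟩ : ∃ U, U = s.filter (fun w => q * (s.filter (fun w' => a w' = a w)).card < m) :=
    ⟨_, rfl⟩
  rw [← hU] at hcon
  have hUs : U ⊆ s := by rw [hU]; exact Finset.filter_subset _ _
  have hUm : ∀ w ∈ U, q * (s.filter (fun w' => a w' = a w)).card < m := by
    intro w hw
    rw [hU] at hw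
    exact (Finset.mem_filter.1 hw).2
  classical
  -- minimal pair
  have hex : ∃ n : ℕ, ∃ (K : AddSubgroup (ZMod m)) (x : ZMod m), Nat.card K = n ∧
      m + Nat.card K ≤ 2 * h * (U.filter (fun w => a w - x ∈ K)).card := by
    refine ⟨_, ⊤, 0, rfl, ?_⟩
    have h1 : U.filter (fun w => a w - 0 ∈ (⊤ : AddSubgroup (ZMod m))) = U := by
      apply Finset.filter_true_of_mem
      intro w _
      exact AddSubgroup.mem_top _
    rw [h1]
    have h2 : Nat.card (⊤ : AddSubgroup (ZMod m)) = m := by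
      rw [AddSubgroup.card_top, Nat.card_zmod]
    rw [h2]
    nlinarith
  obtain ⟨K, x, hKn, hKx⟩ := Nat.find_spec hex
  have hmin : ∀ (K' : AddSubgroup (ZMod m)) (y : ZMod m), Nat.card K' < Nat.card K →
      2 * h * (U.filter (fun w => a w - y ∈ K')).card < m + Nat.card K' := by
    intro K' y hlt
    by_contra hc
    push Not at hc
    rw [hKn] at hlt
    exact Nat.find_min hex hlt ⟨K', y, rfl, hc⟩
  clear hKn
  obtain ⟨U₁, hU₁⟩ : ∃ U₁, U₁ = U.filter (fun w => a w - x ∈ K) := ⟨_, rfl⟩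
  rw [← hU₁] at hKx
  have hU₁U : U₁ ⊆ U := by rw [hU₁]; exact Finset.filter_subset _ _
  have hU₁x : ∀ w ∈ U₁, a w - x ∈ K := by
    intro w hw
    rw [hU₁] at hw
    exact (Finset.mem_filter.1 hw).2
  have hKpos : 0 < Nat.card K := Nat.card_pos
  obtain ⟨r, hr⟩ : ∃ r, r = Nat.card K / (4 * h) := ⟨_, rfl⟩
  have hr1 : r * (4 * h) ≤ Nat.card K := by rw [hr]; exact Nat.div_mul_le_self _ _
  have hdiff : ∀ w ∈ U₁, ∀ w' ∈ U₁, a w - a w' ∈ K := by
    intro w hw w' hw'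
    have := K.sub_mem (hU₁x w hw) (hU₁x w' hw')
    rwa [sub_sub_sub_cancel_right] at this
  have hbigR : ∀ R ⊆ U₁, R.card ≤ r → m ≤ 2 * h * (U₁ \ R).card := by
    intro R hR hRc
    have h1 := Finset.card_sdiff_add_card_eq_card hR
    have h2 : h * R.card ≤ h * r := Nat.mul_le_mul_left _ hRc
    nlinarith
  have hvals : ∀ R ⊆ U₁, R.card ≤ r → t ≤ ((U₁ \ R).image a).card := by
    intro R hR hRc
    have h1 : q * (U₁ \ R).card ≤ ((U₁ \ R).image a).card * m := by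
      rw [Finset.card_eq_sum_card_image a (U₁ \ R), Finset.mul_sum, ← smul_eq_mul _ m,
        ← Finset.sum_const]
      apply Finset.sum_le_sum
      intro g hg
      obtain ⟨w, hw, rfl⟩ := Finset.mem_image.1 hg
      have hwU : w ∈ U := hU₁U (Finset.mem_sdiff.1 hw).1
      refine le_trans ?_ (hUm w hwU).le
      apply Nat.mul_le_mul_left
      apply Finset.card_le_card
      intro w' hw'
      obtain ⟨h3, h4⟩ := Finset.mem_filter.1 hw'
      exact Finset.mem_filter.2 ⟨hUs (hU₁U (Finset.mem_sdiff.1 h3).1), h4⟩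
    have h2 := hbigR R hR hRc
    have h3 : q * m ≤ 2 * h * (((U₁ \ R).image a).card * m) := by
      calc q * m ≤ q * (2 * h * (U₁ \ R).card) := Nat.mul_le_mul_left _ h2
        _ = 2 * h * (q * (U₁ \ R).card) := by ring
        _ ≤ _ := Nat.mul_le_mul_left _ h1
    rw [hq] at h3
    have h4 : (2 * h * m) * t ≤ (2 * h * m) * ((U₁ \ R).image a).card := by nlinarith
    exact Nat.le_of_mul_le_mul_left h4 (by positivity)
  have hrob : ∀ R ⊆ U₁, R.card ≤ r → t ≤ ((U₁ \ R).image a).card ∧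
      ∀ K' : AddSubgroup (ZMod m), (∀ w ∈ U₁ \ R, ∀ w' ∈ U₁ \ R, a w - a w' ∈ K') → K ≤ K' := by
    intro R hR hRc
    refine ⟨hvals R hR hRc, ?_⟩
    intro K' hK'
    by_contra hnle
    have hbig := hbigR R hR hRc
    have hne : (U₁ \ R).Nonempty := by
      rw [← Finset.card_pos]
      rcases Nat.eq_zero_or_pos (U₁ \ R).card with h0 | h0
      · rw [h0] at hbig; omega
      · exact h0
    obtain ⟨w₁, hw₁⟩ := hne
    have hlt : K ⊓ K' < K := by
      refine lt_of_le_of_ne inf_le_left ?_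
      intro heq
      exact hnle (inf_eq_left.1 heq)
    have hcardlt : 2 * Nat.card (K ⊓ K' : AddSubgroup (ZMod m)) ≤ Nat.card K := by
      obtain ⟨c, hc⟩ := AddSubgroup.card_dvd_of_le hlt.le
      have hc0 : c ≠ 0 := by rintro rfl; omega
      have hc1 : c ≠ 1 := by
        rintro rfl
        rw [mul_one] at hc
        exact hlt.ne (AddSubgroup.eq_of_le_of_card_ge hlt.le hc.le)
      have hc2 : 2 ≤ c := by omega
      rw [hc, mul_comm 2]
      exact Nat.mul_le_mul_left _ hc2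
    have hpos'' : 0 < Nat.card (K ⊓ K' : AddSubgroup (ZMod m)) := Nat.card_pos
    have h1 := hmin (K ⊓ K') (a w₁) (by omega)
    have hsub : U₁ \ R ⊆ U.filter (fun w => a w - a w₁ ∈ K ⊓ K') := by
      intro w hw
      refine Finset.mem_filter.2 ⟨hU₁U (Finset.mem_sdiff.1 hw).1, ?_, ?_⟩
      · exact hdiff w (Finset.mem_sdiff.1 hw).1 w₁ (Finset.mem_sdiff.1 hw₁).1
      · exact hK' w hw w₁ hw₁
    have h2 := Finset.card_le_card hsub
    have h3 := Finset.card_sdiff_add_card_eq_card hR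
    have h4 : 2 * h * (U₁ \ R).card ≤ 2 * h * (U.filter (fun w => a w - a w₁ ∈ K ⊓ K')).card :=
      Nat.mul_le_mul_left _ h2
    have h5 : h * R.card ≤ h * r := Nat.mul_le_mul_left _ hRc
    nlinarith
  have htK : t ≤ Nat.card K := by
    refine (hvals ∅ (Finset.empty_subset _) (by simp)).trans ?_
    rw [Finset.sdiff_empty]
    have h1 : ((U₁.image a).image (fun y => y - x)).card = (U₁.image a).card :=
      Finset.card_image_of_injective _ sub_left_injective
    rw [← h1]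
    have h2 : (((U₁.image a).image (fun y => y - x) : Finset (ZMod m)) : Set (ZMod m)) ⊆
        (K : Set (ZMod m)) := by
      intro z hz
      obtain ⟨y, hy, rfl⟩ := Finset.mem_image.1 (Finset.mem_coe.1 hz)
      obtain ⟨w, hw, rfl⟩ := Finset.mem_image.1 hy
      exact hU₁x w hw
    have h3 := Set.ncard_le_ncard h2 (Set.toFinite _)
    rw [Set.ncard_coe_finset] at h3
    exact h3
  have hr4 : 4 * (100 * (32 * h) + Nat.card K / (32 * h) + 2) ≤ r := by
    rw [hr, Nat.le_div_iff_mul_le (by positivity)]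
    have h1 : Nat.card K / (32 * h) * (32 * h) ≤ Nat.card K := Nat.div_mul_le_self _ _
    generalize Nat.card K / (32 * h) = Q at h1
    have h2 : h ≤ h ^ 2 := by nlinarith
    nlinarith
  obtain ⟨E, hE, s₀, hEc, hEr, hcov⟩ := cover K a U₁ (32 * h) t r (by positivity)
    (by rw [ht]; nlinarith [Nat.pos_of_ne_zero hh.ne']) hdiff hrob hr4
  have hidx : Nat.card K * K.index = m := by rw [AddSubgroup.card_mul_index, Nat.card_zmod]
  have hKm : Nat.card K ≤ m := le_trans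
    (Nat.le_mul_of_pos_right _ (Nat.pos_of_ne_zero AddSubgroup.FiniteIndex.index_ne_zero)) hidx.le
  have hidxt : t * K.index ≤ m := by
    calc t * K.index ≤ Nat.card K * K.index := Nat.mul_le_mul_right _ htK
      _ = m := hidx
  have hEs : E ⊆ s := hE.trans (hU₁U.trans hUs)
  have hh2 : 1 ≤ h ^ 2 := Nat.one_le_pow _ _ hh
  have hi1 : 200000 * K.index ≤ m := by
    refine le_trans ?_ hidxt
    apply Nat.mul_le_mul_right
    rw [ht]; omega
  have hi2 : K.index ≤ (U₁ \ E).card := by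
    have h1 := hbigR E hE hEr
    have h2 : (2 * h) * K.index ≤ (2 * h) * (U₁ \ E).card := by
      refine le_trans ?_ h1
      refine le_trans ?_ hidxt
      apply Nat.mul_le_mul_right
      rw [ht]; nlinarith
    exact Nat.le_of_mul_le_mul_left h2 (by positivity)
  have hs₀ : 8 * s₀ ≤ m := by
    have h1 : 4 * r ≤ Nat.card K := by
      refine le_trans ?_ hr1
      nlinarith
    omega
  have hsE := Finset.card_sdiff_add_card_eq_card hEs
  obtain ⟨D₂, hD₂, hD₂c, hD₂s⟩ := egz_fill m K a x (s \ E) (U₁ \ E) (m - s₀)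
    (Finset.sdiff_subset_sdiff (hU₁U.trans hUs) le_rfl)
    (fun w hw => hU₁x w (Finset.mem_sdiff.1 hw).1) hi2 (by omega)
  -- an element of U₁
  have hU₁ne : U₁.Nonempty := by
    rw [← Finset.card_pos]
    rcases Nat.eq_zero_or_pos U₁.card with h0 | h0
    · rw [h0] at hKx; omega
    · exact h0
  obtain ⟨w₀, hw₀⟩ := hU₁ne
  obtain ⟨D₁, hD₁, hD₁c, hD₁s⟩ := hcov w₀ hw₀ (-∑ w ∈ D₂, a w) (by
    have h1 : ∑ w ∈ D₂, (a w - x) = ∑ w ∈ D₂, a w - (m - s₀) • x := by
      rw [Finset.sum_sub_distrib, Finset.sum_const, hD₂c]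
    have h2 : (m - s₀) • x + s₀ • x = 0 := by
      rw [← add_smul, Nat.sub_add_cancel (by omega)]
      simp [nsmul_eq_mul]
    have h3 : (-∑ w ∈ D₂, a w) - s₀ • a w₀ = -(∑ w ∈ D₂, (a w - x)) - s₀ • (a w₀ - x)
        - ((m - s₀) • x + s₀ • x) := by
      rw [h1, smul_sub]; abel
    rw [h3, h2, sub_zero]
    exact K.sub_mem (K.neg_mem hD₂s) (K.nsmul_mem (hU₁x w₀ hw₀) _))
  have hdis : Disjoint D₁ D₂ := by
    rw [Finset.disjoint_left]
    intro w hw hw'
    exact (Finset.mem_sdiff.1 (hD₂ hw')).2 (hD₁ hw)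
  apply hz (D₁ ∪ D₂) (Finset.union_subset (hD₁.trans hEs) (hD₂.trans Finset.sdiff_subset))
  · rw [Finset.card_union_of_disjoint hdis, hD₁c, hD₂c]; omega
  · rw [Finset.sum_union hdis, hD₁s]; abel

end ZS44129
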