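import Mathlib
import Pool.Agent.Work.MP_44129c_co.Defs

/-!
# MP_44129c_co, module LatBasic (easy consequences of `Lat` and `Core`)

`lat_dvd`: `f ∣ m n(g)` for `g ∈ P`.  Proof: `g₀ ∈ P` with `n g₀ = 0`; if `g = g₀` clear;
otherwise `ker` for `z = m δ_g - m δ_{g₀}` (`∑ = 0`, image `m • g - m • g₀ = 0` in `ZMod m`).
`lat_dich`: hence `m n(g) ≤ j f` or `(j+1) f ≤ m n(g)` (no multiple of `f` strictly between).
`core_sides`: there is a high and a low colour in `P`.  Proof: `deep` gives `σ` with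
`j f < xi n F σ < (j+1) f` (`m > 0`, so the two factors are positive).  If no `g ∈ P` is high then
`m n(g) ≤ j f` for all `g ∈ P`; `xi n F σ` is a sum of `m` values `n g`, `g ∈ P` (at most one
forced, `M` picked), so `m * xi n F σ ≤ m * (j f)` and `xi n F σ ≤ j f`, contradiction.  Same for
low.  (Bound the sum slot by slot, or use `yv_sum`, `yv_xi` of module Counts: then
`m xi = ∑_{g∈P} yv g (m n g)` with `yv ≥ 0`, `∑ yv = m`.)
-/

set_option autoImplicit false

namespace ZS44129

open Finset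

theorem sum_dl {m : ℕ} {P : Finset (ZMod m)} {g : ZMod m} (hg : g ∈ P) (a : ℤ) :
    ∑ x ∈ P, (if x = g then a else 0) = a := by
  rw [Finset.sum_ite_eq' P g (fun _ => a), if_pos hg]

theorem sum_dl_smul {m : ℕ} {P : Finset (ZMod m)} {g : ZMod m} (hg : g ∈ P) (a : ℤ) :
    ∑ x ∈ P, (if x = g then a else 0) • x = a • g := by
  have : ∀ x ∈ P, (if x = g then a else 0) • x = if x = g then a • x else 0 := by
    intro x _
    split_ifs <;> simp
  rw [Finset.sum_congr rfl this, Finset.sum_ite_eq' P g (fun x => a • x), if_pos hg]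

theorem sum_dl_mul {m : ℕ} {P : Finset (ZMod m)} {g : ZMod m} (hg : g ∈ P) (a : ℤ)
    (n : ZMod m → ℤ) :
    ∑ x ∈ P, (if x = g then a else 0) * n x = a * n g := by
  have : ∀ x ∈ P, (if x = g then a else 0) * n x = if x = g then a * n x else 0 := by
    intro x _
    split_ifs <;> simp
  rw [Finset.sum_congr rfl this, Finset.sum_ite_eq' P g (fun x => a * n x), if_pos hg]

theorem lat_dvd {m A C f : ℕ} {P : Finset (ZMod m)} {n : ZMod m → ℤ} (hL : Lat m P A C n f)
    (g : ZMod m) (hg : g ∈ P) : (f : ℤ) ∣ m * n g := by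
  obtain ⟨g₀, hg₀, hn₀⟩ := hL.zero
  have h := hL.ker (fun x => (if x = g then (m : ℤ) else 0) - (if x = g₀ then (m : ℤ) else 0))
    (by rw [Finset.sum_sub_distrib, sum_dl hg, sum_dl hg₀, sub_self])
    (by
      simp only [sub_smul]
      rw [Finset.sum_sub_distrib, sum_dl_smul hg, sum_dl_smul hg₀]
      simp [zsmul_eq_mul])
  simp only [sub_mul] at h
  rw [Finset.sum_sub_distrib, sum_dl_mul hg, sum_dl_mul hg₀, hn₀, mul_zero, sub_zero] at h
  exact h

theorem lat_dich {m A C f : ℕ} {P : Finset (ZMod m)} {n : ZMod m → ℤ} (hL : Lat m P A C n f)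
    (j : ℤ) (g : ZMod m) (hg : g ∈ P) : m * n g ≤ j * f ∨ (j + 1) * f ≤ m * n g := by
  obtain ⟨k, hk⟩ := lat_dvd hL g hg
  have hf : (0 : ℤ) < f := by exact_mod_cast hL.fpos
  rw [hk]
  rcases le_or_gt k j with h | h
  · left
    rw [mul_comm]
    exact mul_le_mul_of_nonneg_right h hf.le
  · right
    rw [mul_comm (f : ℤ) k]
    exact mul_le_mul_of_nonneg_right (by omega) hf.le

theorem xi_le_mul {m M : ℕ} {W : Type} [Fintype W] {O : W → Finset (ZMod m)}
    {F : Option (ZMod m)} {P : Finset (ZMod m)} {σ : W → Option (ZMod m)}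
    (hsub : ∀ w, O w ⊆ P) (hF : ∀ g, F = some g → g ∈ P)
    (hM : M + (if F.isSome = true then 1 else 0) = m) (hσ : Cfg O M σ)
    (n' : ZMod m → ℤ) (B : ℤ) (hB : ∀ g ∈ P, n' g ≤ B) : xi n' F σ ≤ m * B := by
  have h1 : ov n' F ≤ (if F.isSome = true then 1 else 0 : ℤ) * B := by
    cases hFc : F with
    | none => simp [ov]
    | some g => simpa [ov] using hB g (hF g hFc)
  have h2 : ∀ w ∈ (univ : Finset W), ov n' (σ w) ≤
      (if (σ w).isSome = true then 1 else 0 : ℤ) * B := by
    intro w _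
    cases hc : σ w with
    | none => simp [ov]
    | some g => simpa [ov] using hB g (hsub w (hσ.mem w g hc))
  have h3 : ∑ w, ov n' (σ w) ≤ M * B := by
    refine (Finset.sum_le_sum h2).trans (le_of_eq ?_)
    rw [← Finset.sum_mul, ← hσ.card, Finset.card_filter]
    push_cast
    rfl
  have h4 : (m : ℤ) = M + (if F.isSome = true then 1 else 0 : ℤ) := by
    have := congrArg (fun k : ℕ => (k : ℤ)) hM
    push_cast at this
    exact this.symm
  rw [xi, h4, add_mul]
  linarith

theorem core_sides {m A C f M : ℕ} {W : Type} [Fintype W] {O : W → Finset (ZMod m)}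
    {F : Option (ZMod m)} {P : Finset (ZMod m)} {n : ZMod m → ℤ} {j : ℤ}
    (hm : 0 < m) (hsub : ∀ w, O w ⊆ P) (hF : ∀ g, F = some g → g ∈ P)
    (hM : M + (if F.isSome = true then 1 else 0) = m)
    (hC : Core m A C O F M P n f j) :
    (∃ g ∈ P, (j + 1) * f ≤ m * n g) ∧ (∃ g ∈ P, m * n g ≤ j * f) := by
  obtain ⟨σ, hσ, hd1, hd2⟩ := hC.deep
  have hm' : (0 : ℤ) < m := by exact_mod_cast hm
  have hC0 : (0 : ℤ) ≤ C := by positivity
  have e1 : j * f < xi n F σ := by
    by_contra hcon
    push Not at hcon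
    nlinarith
  have e2 : xi n F σ < (j + 1) * f := by
    by_contra hcon
    push Not at hcon
    nlinarith
  have hxi : ∀ c : ℤ, xi (fun g => c * n g) F σ = c * xi n F σ := by
    intro c
    rw [xi, xi, mul_add, Finset.mul_sum]
    congr 1
    · cases F <;> simp [ov]
    · apply Finset.sum_congr rfl
      intro w _
      cases σ w <;> simp [ov]
  constructor
  · by_contra hcon
    push Not at hcon
    have h1 : ∀ g ∈ P, (m : ℤ) * n g ≤ j * f := by
      intro g hg
      rcases lat_dich hC.lat j g hg with h | h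
      · exact h
      · exact absurd h (not_le.2 (hcon g hg))
    have h2 := xi_le_mul hsub hF hM hσ (fun g => (m : ℤ) * n g) (j * f) h1
    rw [hxi] at h2
    have := le_of_mul_le_mul_left h2 hm'
    linarith
  · by_contra hcon
    push Not at hcon
    have h1 : ∀ g ∈ P, (-(m : ℤ)) * n g ≤ -((j + 1) * f) := by
      intro g hg
      rcases lat_dich hC.lat j g hg with h | h
      · exact absurd h (not_le.2 (hcon g hg))
      · linarith
    have h2 := xi_le_mul hsub hF hM hσ (fun g => (-(m : ℤ)) * n g) (-((j + 1) * f)) h1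
    rw [hxi] at h2
    have h3 : (m : ℤ) * ((j + 1) * f) ≤ m * xi n F σ := by linarith
    have := le_of_mul_le_mul_left h3 hm'
    linarith

end ZS44129
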