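import Mathlib
import Pool.Agent.Work.MP_44129c_co.Defs
import Pool.Agent.Work.MP_44129c_co.LatBasic

/-!
# MP_44129c_co, module LatRel2 (relations and non-relations between differences of colours)

`lat_rel2`: with `t` of `Lat.tor` and `z = (n x₂ - n y₂)(δ_{x₁} - δ_{y₁}) - (n x₁ - n y₁)(δ_{x₂} -
δ_{y₂})`: `∑ z = 0`, `∑ z n = 0`, so `t • image(z) = 0`, which is the claim (`a = t (n x₂ - n y₂)`,
`b = t (n x₁ - n y₁)`, `|n| ≤ A`).  Work with functions
`z g = (if g = x₁ then .. else 0) - ...`; coincidences among the colours are harmless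
(`Finset.sum_ite_eq`).

`lat_kill`: if `s • (x - y) = 0` then `z = s (δ_x - δ_y)` has image `0`, so
`f ∣ s (n x - n y)`, which is nonzero and `≤ T * 2 A < m / C ≤ f` in absolute value,
contradiction.  (`m ≤ C f`, `2 A T C < m`.)
-/

set_option autoImplicit false

namespace ZS44129

open Finset

theorem lat_rel2 {m A C f : ℕ} {P : Finset (ZMod m)} {n : ZMod m → ℤ} (hL : Lat m P A C n f)
    (x₁ y₁ x₂ y₂ : ZMod m) (hx₁ : x₁ ∈ P) (hy₁ : y₁ ∈ P) (hx₂ : x₂ ∈ P) (hy₂ : y₂ ∈ P) :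
    ∃ t : ℤ, 0 < t ∧ t ≤ C ∧
      (t * (n x₂ - n y₂)) • (x₁ - y₁) = (t * (n x₁ - n y₁)) • (x₂ - y₂) ∧
      |t * (n x₂ - n y₂)| ≤ 2 * A * C ∧ |t * (n x₁ - n y₁)| ≤ 2 * A * C := by
  obtain ⟨t, ht0, htC, ht⟩ := hL.tor
  have h := ht (fun x => ((if x = x₁ then n x₂ - n y₂ else 0) - (if x = y₁ then n x₂ - n y₂ else 0))
      - ((if x = x₂ then n x₁ - n y₁ else 0) - (if x = y₂ then n x₁ - n y₁ else 0)))
    (by
      simp only [Finset.sum_sub_distrib]
      rw [sum_dl hx₁, sum_dl hy₁, sum_dl hx₂, sum_dl hy₂]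
      ring)
    (by
      simp only [sub_mul]
      simp only [Finset.sum_sub_distrib]
      rw [sum_dl_mul hx₁, sum_dl_mul hy₁, sum_dl_mul hx₂, sum_dl_mul hy₂]
      ring)
  simp only [sub_smul (_ : ℤ) (_ : ℤ) (_ : ZMod m)] at h
  simp only [Finset.sum_sub_distrib] at h
  rw [sum_dl_smul hx₁, sum_dl_smul hy₁, sum_dl_smul hx₂, sum_dl_smul hy₂] at h
  have hb : ∀ x ∈ P, ∀ y ∈ P, |(t : ℤ) * (n x - n y)| ≤ 2 * A * C := by
    intro x hx y hy
    have h1 := abs_le.1 (hL.bound x hx)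
    have h2 := abs_le.1 (hL.bound y hy)
    rw [abs_mul]
    have h3 : |n x - n y| ≤ 2 * A := by
      rw [abs_le]; constructor <;> linarith [h1.1, h1.2, h2.1, h2.2]
    have h4 : |(t : ℤ)| ≤ C := by
      rw [abs_of_nonneg (by positivity)]; exact_mod_cast htC
    calc |(t : ℤ)| * |n x - n y| ≤ C * (2 * A) :=
          mul_le_mul h4 h3 (abs_nonneg _) (by positivity)
      _ = 2 * A * C := by ring
  refine ⟨t, by exact_mod_cast ht0, by exact_mod_cast htC, ?_, hb _ hx₂ _ hy₂, hb _ hx₁ _ hy₁⟩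
  rw [← sub_eq_zero, ← h, ← natCast_zsmul]
  simp only [zsmul_eq_mul]
  push_cast
  ring

theorem lat_kill {m A C f T : ℕ} {P : Finset (ZMod m)} {n : ZMod m → ℤ} (hL : Lat m P A C n f)
    (hm : 2 * A * T * C < m) (x y : ZMod m) (hx : x ∈ P) (hy : y ∈ P) (hxy : n x ≠ n y)
    (s : ℤ) (hs : s ≠ 0) (hsT : |s| ≤ T) : s • (x - y) ≠ 0 := by
  intro h0
  have h := hL.ker (fun z => (if z = x then s else 0) - (if z = y then s else 0))
    (by rw [Finset.sum_sub_distrib, sum_dl hx, sum_dl hy, sub_self])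
    (by
      simp only [sub_smul]
      rw [Finset.sum_sub_distrib, sum_dl_smul hx, sum_dl_smul hy, ← smul_sub, h0])
  simp only [sub_mul] at h
  rw [Finset.sum_sub_distrib, sum_dl_mul hx, sum_dl_mul hy, ← mul_sub] at h
  have hne : s * (n x - n y) ≠ 0 := mul_ne_zero hs (sub_ne_zero.2 hxy)
  have h1 := Int.le_of_dvd (abs_pos.2 hne) ((dvd_abs _ _).2 h)
  have h2 := abs_le.1 (hL.bound x hx)
  have h3 := abs_le.1 (hL.bound y hy)
  have h4 : |n x - n y| ≤ 2 * A := by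
    rw [abs_le]; constructor <;> linarith [h2.1, h2.2, h3.1, h3.2]
  have h5 : |s * (n x - n y)| ≤ T * (2 * A) := by
    rw [abs_mul]
    exact mul_le_mul hsT h4 (abs_nonneg _) (by positivity)
  have h6 : (m : ℤ) ≤ C * f := by exact_mod_cast hL.flow
  have h7 : (2 * A * T * C : ℤ) < m := by exact_mod_cast hm
  have h8 : (C : ℤ) * f ≤ C * (T * (2 * A)) :=
    mul_le_mul_of_nonneg_left (h1.trans h5) (by positivity)
  have h9 : (C : ℤ) * (T * (2 * A)) = 2 * A * T * C := by ring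
  linarith

end ZS44129
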