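import Mathlib

/-!
# MP_44129c_co, module Orient (global orientation)

Proof.  If `V` is empty everything is trivial.  Fix `v₀ : V`.  For `u : V` choose `w` with
`good u w`, `good w v₀` (`hcommon`), and `a₁ • D u = b₁ • D w`, `a₂ • D w = b₂ • D v₀` (`hrel`);
then `(a₁ a₂) • D u = (b₁ b₂) • D v₀`.  Put `A_u = a₁ a₂`, `B_u = b₁ b₂` (nonzero, at most `B^2`
in absolute value), `o u = sign (A_u B_u) ∈ {1, -1}` (`Int.sign`).
Let `good u v`, `a • D u = b • D v` with nonzero `a, b`, `|a|, |b| ≤ B`.  Then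
`(a A_v B_u) • D u = (A_v B_u b) • D v = (B_u b B_v) • D v₀ = (b B_v A_u) • D u`
(using `A_v • D v = B_v • D v₀`, `B_u • D v₀ = A_u • D u`).  So
`(a A_v B_u - b B_v A_u) • D u = 0` with coefficient at most `2 B^5` in absolute value; by `hkill`
it is `0`: `a A_v B_u = b B_v A_u`.  Multiplying by `b A_v... ` (nonzero): `a b A_v B_v A_u B_u =
(b B_v A_u)(b B_v A_u) · (A_v B_u a)/(A_v B_u a)...` more simply: `(a A_v B_u)(b B_v A_u) =
(b B_v A_u)^2 > 0`, i.e. `a b (A_u B_u)(A_v B_v) > 0`, hence `a b o(u) o(v) > 0`.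
-/

set_option autoImplicit false

namespace ZS44129

theorem orient {V G : Type} [AddCommGroup G] (B : ℕ) (D : V → G) (good : V → V → Prop)
    (hcommon : ∀ u v, ∃ w, good u w ∧ good w v)
    (hrel : ∀ u v, good u v → ∃ a b : ℤ, a ≠ 0 ∧ b ≠ 0 ∧ |a| ≤ B ∧ |b| ≤ B ∧
      a • D u = b • D v)
    (hkill : ∀ u, ∀ s : ℤ, s ≠ 0 → |s| ≤ 2 * (B : ℤ) ^ 5 → s • D u ≠ 0) :
    ∃ o : V → ℤ, (∀ u, o u = 1 ∨ o u = -1) ∧ ∀ u v, good u v → ∀ a b : ℤ, a ≠ 0 → b ≠ 0 →
      |a| ≤ B → |b| ≤ B → a • D u = b • D v → 0 < a * b * (o u * o v) := by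
  classical
  rcases isEmpty_or_nonempty V with hE | ⟨⟨v₀⟩⟩
  · exact ⟨fun _ => 1, fun _ => Or.inl rfl, fun u => (hE.false u).elim⟩
  have hB0 : (0 : ℤ) ≤ B := by positivity
  -- relation to the base vertex
  have hbase : ∀ u, ∃ a b : ℤ, a ≠ 0 ∧ b ≠ 0 ∧ |a| ≤ (B : ℤ) ^ 2 ∧ |b| ≤ (B : ℤ) ^ 2 ∧
      a • D u = b • D v₀ := by
    intro u
    obtain ⟨w, h1, h2⟩ := hcommon u v₀
    obtain ⟨a1, b1, ha1, hb1, ha1', hb1', e1⟩ := hrel u w h1
    obtain ⟨a2, b2, ha2, hb2, ha2', hb2', e2⟩ := hrel w v₀ h2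
    refine ⟨a2 * a1, b1 * b2, mul_ne_zero ha2 ha1, mul_ne_zero hb1 hb2, ?_, ?_, ?_⟩
    · rw [abs_mul, pow_two]; exact mul_le_mul ha2' ha1' (abs_nonneg _) hB0
    · rw [abs_mul, pow_two]; exact mul_le_mul hb1' hb2' (abs_nonneg _) hB0
    · rw [mul_smul, e1, smul_comm, e2, ← mul_smul]
  choose A Bu hA hB hAb hBb hrel0 using hbase
  refine ⟨fun u => if 0 < A u * Bu u then 1 else -1, fun u => ?_, ?_⟩
  · by_cases h : 0 < A u * Bu u
    · left; simp [h]
    · right; simp [h]
  · intro u v huv a b ha hb hab' hbb' e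
    -- the coefficient vanishes
    have h1 : (a * A v * Bu u) • D u = (b * Bu v * A u) • D u := by
      calc (a * A v * Bu u) • D u = (A v * Bu u) • (a • D u) := by
            rw [← mul_smul]; congr 1; ring
        _ = (A v * Bu u) • (b • D v) := by rw [e]
        _ = (b * Bu u) • (A v • D v) := by rw [← mul_smul, ← mul_smul]; congr 1; ring
        _ = (b * Bu u) • (Bu v • D v₀) := by rw [hrel0 v]
        _ = (b * Bu v) • (Bu u • D v₀) := by rw [← mul_smul, ← mul_smul]; congr 1; ring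
        _ = (b * Bu v) • (A u • D u) := by rw [hrel0 u]
        _ = (b * Bu v * A u) • D u := by rw [← mul_smul]
    have h2 : (a * A v * Bu u - b * Bu v * A u) • D u = 0 := by
      rw [sub_smul, h1, sub_self]
    have h3 : |a * A v * Bu u - b * Bu v * A u| ≤ 2 * (B : ℤ) ^ 5 := by
      refine (abs_sub _ _).trans ?_
      have b1 : |a * A v * Bu u| ≤ (B : ℤ) ^ 5 := by
        rw [abs_mul, abs_mul]
        calc |a| * |A v| * |Bu u| ≤ B * (B : ℤ) ^ 2 * (B : ℤ) ^ 2 :=
              mul_le_mul (mul_le_mul hab' (hAb v) (abs_nonneg _) hB0) (hBb u) (abs_nonneg _)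
                (by positivity)
          _ = (B : ℤ) ^ 5 := by ring
      have b2 : |b * Bu v * A u| ≤ (B : ℤ) ^ 5 := by
        rw [abs_mul, abs_mul]
        calc |b| * |Bu v| * |A u| ≤ B * (B : ℤ) ^ 2 * (B : ℤ) ^ 2 :=
              mul_le_mul (mul_le_mul hbb' (hBb v) (abs_nonneg _) hB0) (hAb u) (abs_nonneg _)
                (by positivity)
          _ = (B : ℤ) ^ 5 := by ring
      linarith
    have h4 : a * A v * Bu u = b * Bu v * A u := by
      by_contra hne
      exact hkill u _ (sub_ne_zero.2 hne) h3 h2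
    have h5 : 0 < (a * b) * ((A u * Bu u) * (A v * Bu v)) := by
      have e5 : (a * b) * ((A u * Bu u) * (A v * Bu v)) = (b * Bu v * A u) ^ 2 := by
        calc (a * b) * ((A u * Bu u) * (A v * Bu v)) =
            (a * A v * Bu u) * (b * Bu v * A u) := by ring
          _ = (b * Bu v * A u) ^ 2 := by rw [h4]; ring
      rw [e5]
      have : b * Bu v * A u ≠ 0 := mul_ne_zero (mul_ne_zero hb (hB v)) (hA u)
      positivity
    have hneu : A u * Bu u ≠ 0 := mul_ne_zero (hA u) (hB u)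
    have hnev : A v * Bu v ≠ 0 := mul_ne_zero (hA v) (hB v)
    simp only
    by_cases pu : 0 < A u * Bu u <;> by_cases pv : 0 < A v * Bu v
    · rw [if_pos pu, if_pos pv]
      have : 0 < a * b := by
        have h6 := mul_pos pu pv
        exact (mul_pos_iff_of_pos_right h6).1 h5
      linarith
    · rw [if_pos pu, if_neg pv]
      have pv' : A v * Bu v < 0 := lt_of_le_of_ne (not_lt.1 pv) hnev
      have h6 : 0 < (A u * Bu u) * (-(A v * Bu v)) := mul_pos pu (by linarith)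
      have h7 : 0 < (-(a * b)) * ((A u * Bu u) * (-(A v * Bu v))) := by linarith
      have := (mul_pos_iff_of_pos_right h6).1 h7
      linarith
    · rw [if_neg pu, if_pos pv]
      have pu' : A u * Bu u < 0 := lt_of_le_of_ne (not_lt.1 pu) hneu
      have h6 : 0 < (-(A u * Bu u)) * (A v * Bu v) := mul_pos (by linarith) pv
      have h7 : 0 < (-(a * b)) * ((-(A u * Bu u)) * (A v * Bu v)) := by linarith
      have := (mul_pos_iff_of_pos_right h6).1 h7
      linarith
    · rw [if_neg pu, if_neg pv]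
      have pu' : A u * Bu u < 0 := lt_of_le_of_ne (not_lt.1 pu) hneu
      have pv' : A v * Bu v < 0 := lt_of_le_of_ne (not_lt.1 pv) hnev
      have h6 : 0 < (-(A u * Bu u)) * (-(A v * Bu v)) := mul_pos (by linarith) (by linarith)
      have h7 : 0 < (a * b) * ((-(A u * Bu u)) * (-(A v * Bu v))) := by linarith
      have := (mul_pos_iff_of_pos_right h6).1 h7
      linarith

end ZS44129
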