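import Mathlib
import Pool.Agent.Work.MP_44129c_co.Defs
import Pool.Agent.Work.MP_44129c_co.StarSys

/-!
# MP_44129c_co, module PairSys (a good pair is a system)

`N = card V`, `P = pal q c u ∪ pal q c v`, parameter `2 q`.  `m₀ = 100 + 2 q`.
* `sub`: by definition; `forced`: `Good`; `Mm`: `(m - 1) + 1 = m`; `ne`: `c u v ∈ P`.
* `mult`: for `g ∈ pal q c u`: `m ≤ q #{w ≠ u : c u w = g}`; at most one of these `w` is `v`, the
  others are slots with option `g`: `#{w : g ∈ pairO w} ≥ #{w ≠ u : c u w = g} - 1`, and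
  `q (x - 1) ≥ m - q`, so `2 q (x - 1) ≥ 2 m - 2 q ≥ m`.  Same for `g ∈ pal q c v`.
* `pal`: as in StarSys `|pal q c u| m ≤ q (N - 1) ≤ 2 q m`, so `|pal q c u| ≤ 2 q`, `|P| ≤ 4 q`,
  and we need `≤ 4 (2 q)`.
* `slots`: all `w ≠ u, v` with `c u w ∈ pal q c u`: at least `N - 2 - N/100 ≥ 1.287 m - 2 ≥ 1.1 m`.
* `zf`: for a configuration `σ` let `X = {w : σ w = some (c u w)}`,
  `Y = {w : σ w ≠ none, σ w ≠ some (c u w)}`; on `Y` one has `σ w = some (c v w)`; `X`, `Y` are
  disjoint, do not contain `u, v`, `|X| + |Y| = m - 1`, and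
  `tot (some (c u v)) σ = c u v + ∑_X c u x + ∑_Y c v y ≠ 0`.
-/

set_option autoImplicit false

namespace ZS44129

open Finset

theorem pair_sys (q : ℕ) (hq : 0 < q) : ∃ m₀ : ℕ, ∀ m : ℕ, m₀ ≤ m →
    ∀ {V : Type} [Fintype V] [DecidableEq V] (c : V → V → ZMod m),
      (∀ x y, c x y = c y x) → ZSF m c →
      13 * m ≤ 10 * Fintype.card V → Fintype.card V ≤ 2 * m →
      ∀ u v : V, Good q c u v →
        100 * ((univ.erase u).filter (fun w => c u w ∉ pal q c u)).card ≤ Fintype.card V →
      Sys m (2 * q) (pairO q c u v) (some (c u v)) (m - 1) (pal q c u ∪ pal q c v) := by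
  refine ⟨100 + 2 * q, ?_⟩
  intro m hm V _ _ c hsym hz hV1 hV2 u v hgood hbad
  have hmpos : 0 < m := by omega
  have hcount := pop_count (q := q) c u
  have hmem : ∀ w g, g ∈ pairO q c u v w → w ≠ u ∧ w ≠ v ∧ (g = c u w ∨ g = c v w) ∧
      g ∈ pal q c u ∪ pal q c v := by
    intro w g hg
    rw [pairO] at hg
    split_ifs at hg with h
    · exact absurd hg (Finset.notMem_empty _)
    · rw [Finset.mem_inter, Finset.mem_insert, Finset.mem_singleton] at hg
      push Not at h
      exact ⟨h.1, h.2, hg⟩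
  have hmem' : ∀ w g, w ≠ u → w ≠ v → (g = c u w ∨ g = c v w) → g ∈ pal q c u ∪ pal q c v →
      g ∈ pairO q c u v w := by
    intro w g h1 h2 h3 h4
    rw [pairO, if_neg (by push Not; exact ⟨h1, h2⟩), Finset.mem_inter, Finset.mem_insert,
      Finset.mem_singleton]
    exact ⟨h3, h4⟩
  -- counting with one slot removed
  have herase : ∀ (X : Finset V) (y : V), X.card ≤ (X.erase y).card + 1 := by
    intro X y
    have := Finset.pred_card_le_card_erase (s := X) (a := y)
    omega
  refine ⟨fun w g hg => (hmem w g hg).2.2.2, ?_, ?_, ⟨_, hgood.2⟩, ?_, ?_, ?_, ?_⟩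
  · intro g hg
    have : c u v = g := Option.some.inj hg
    rw [← this]
    exact hgood.2
  · simp only [Option.isSome_some, if_true]
    omega
  · have h1 := pal_card_le (q := q) hmpos c hV2 u
    have h2 := pal_card_le (q := q) hmpos c hV2 v
    have h3 := Finset.card_union_le (pal q c u) (pal q c v)
    omega
  · have hmul : ∀ x y : ℕ, m ≤ q * x → x ≤ y + 1 → m ≤ 2 * q * y := by
      intro x y h1 h2
      have h3 : q * x ≤ q * (y + 1) := Nat.mul_le_mul_left _ h2
      nlinarith
    intro g hg
    rcases Finset.mem_union.1 hg with hg1 | hg1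
    · refine (hmul _ _ (Finset.mem_filter.1 hg1).2 (herase _ v)).trans
        (Nat.mul_le_mul_left _ (Finset.card_le_card ?_))
      intro w hw
      obtain ⟨h1, h2⟩ := Finset.mem_erase.1 hw
      obtain ⟨h3, h4⟩ := Finset.mem_filter.1 h2
      rw [Finset.mem_filter]
      exact ⟨Finset.mem_univ _, hmem' w g (Finset.ne_of_mem_erase h3) h1 (Or.inl h4.symm) hg⟩
    · refine (hmul _ _ (Finset.mem_filter.1 hg1).2 (herase _ u)).trans
        (Nat.mul_le_mul_left _ (Finset.card_le_card ?_))
      intro w hw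
      obtain ⟨h1, h2⟩ := Finset.mem_erase.1 hw
      obtain ⟨h3, h4⟩ := Finset.mem_filter.1 h2
      rw [Finset.mem_filter]
      exact ⟨Finset.mem_univ _, hmem' w g h1 (Finset.ne_of_mem_erase h3) (Or.inr h4.symm) hg⟩
  · have h1 : (((univ.erase u).filter (fun w => c u w ∈ pal q c u)).erase v).card ≤
        (univ.filter (fun w => (pairO q c u v w).Nonempty)).card := by
      apply Finset.card_le_card
      intro w hw
      obtain ⟨h1, h2⟩ := Finset.mem_erase.1 hw
      obtain ⟨h3, h4⟩ := Finset.mem_filter.1 h2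
      rw [Finset.mem_filter]
      exact ⟨Finset.mem_univ _, ⟨_, hmem' w _ (Finset.ne_of_mem_erase h3) h1 (Or.inl rfl)
        (Finset.mem_union_left _ h4)⟩⟩
    have h2 := herase ((univ.erase u).filter (fun w => c u w ∈ pal q c u)) v
    omega
  · intro σ hσ
    obtain ⟨X, hX⟩ : ∃ X : Finset V, X = univ.filter (fun w => σ w = some (c u w)) := ⟨_, rfl⟩
    obtain ⟨Y, hY⟩ : ∃ Y : Finset V, Y = univ.filter (fun w => (σ w).isSome = true ∧
        σ w ≠ some (c u w)) := ⟨_, rfl⟩
    have hmX : ∀ w, w ∈ X ↔ σ w = some (c u w) := by intro w; rw [hX]; simp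
    have hmY : ∀ w, w ∈ Y ↔ (σ w).isSome = true ∧ σ w ≠ some (c u w) := by
      intro w; rw [hY]; simp
    have hYv : ∀ w ∈ Y, σ w = some (c v w) := by
      intro w hw
      obtain ⟨h1, h2⟩ := (hmY w).1 hw
      obtain ⟨g, hg⟩ := Option.isSome_iff_exists.1 h1
      rcases (hmem w g (hσ.mem w g hg)).2.2.1 with h | h
      · rw [h] at hg; exact absurd hg h2
      · rw [h] at hg; exact hg
    have hdis : Disjoint X Y := by
      rw [Finset.disjoint_left]
      intro w h1 h2
      exact ((hmY w).1 h2).2 ((hmX w).1 h1)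
    have hnu : ∀ w g, σ w = some g → w ≠ u ∧ w ≠ v := by
      intro w g hg
      have := hmem w g (hσ.mem w g hg)
      exact ⟨this.1, this.2.1⟩
    have huX : u ∉ X := fun h => (hnu u _ ((hmX u).1 h)).1 rfl
    have hvX : v ∉ X := fun h => (hnu v _ ((hmX v).1 h)).2 rfl
    have huY : u ∉ Y := fun h => (hnu u _ (hYv u h)).1 rfl
    have hvY : v ∉ Y := fun h => (hnu v _ (hYv v h)).2 rfl
    have hcard : X.card + Y.card + 1 = m := by
      have h1 : univ.filter (fun w => (σ w).isSome = true) = X ∪ Y := by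
        ext w
        rw [Finset.mem_union, hmX, hmY, Finset.mem_filter]
        constructor
        · rintro ⟨_, h⟩
          by_cases h2 : σ w = some (c u w)
          · exact Or.inl h2
          · exact Or.inr ⟨h, h2⟩
        · rintro (h | h)
          · exact ⟨Finset.mem_univ _, by rw [h]; rfl⟩
          · exact ⟨Finset.mem_univ _, h.1⟩
      have h2 := hσ.card
      rw [h1, Finset.card_union_of_disjoint hdis] at h2
      omega
    have h := hz u v hgood.1 X Y hdis huX hvX huY hvY hcard
    have h1 : tot (some (c u v)) σ = c u v + ∑ x ∈ X, c u x + ∑ y ∈ Y, c v y := by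
      rw [tot]
      have h0 : ov id (some (c u v)) = c u v := rfl
      rw [h0, add_assoc]
      congr 1
      have h2 : ∀ w ∈ (univ : Finset V), ov id (σ w) =
          (if w ∈ X then c u w else 0) + (if w ∈ Y then c v w else 0) := by
        intro w _
        by_cases hwX : w ∈ X
        · have hwY : w ∉ Y := fun h => Finset.disjoint_left.1 hdis hwX h
          rw [if_pos hwX, if_neg hwY, (hmX w).1 hwX]
          simp [ov]
        · by_cases hwY : w ∈ Y
          · rw [if_neg hwX, if_pos hwY, hYv w hwY]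
            simp [ov]
          · rw [if_neg hwX, if_neg hwY]
            have : σ w = none := by
              by_contra hne
              have h3 : (σ w).isSome = true := by
                rw [Option.isSome_iff_ne_none]; exact hne
              exact hwY ((hmY w).2 ⟨h3, fun h4 => hwX ((hmX w).2 h4)⟩)
            rw [this]
            simp [ov]
      rw [Finset.sum_congr rfl h2, Finset.sum_add_distrib]
      congr 1
      · rw [Finset.sum_ite_mem, Finset.univ_inter]
      · rw [Finset.sum_ite_mem, Finset.univ_inter]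
    rw [h1]
    exact h

end ZS44129
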