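import Mathlib
import Pool.Agent.Work.MP_44129c_co.Defs
import Pool.Agent.Work.MP_44129c_co.LatBasic

/-!
# MP_44129c_co, module Cmp (two lattice structures on a palette have the same two sides)

`P ⊆ P'`, structure `(n, f)` on `P`, `(n', f')` on `P'`; `y` is a vector on `P` with total `m`
whose `n`-value is deep inside the gap `[j f, (j+1) f]` and whose `n'`-value is in the gap
`[j' f', (j'+1) f']` up to `C₂`.  Then on `P` the high/low partition of `(n, f, j)` is that of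
`(n', f', j')` or the reversed one.

Proof.  `m₀` is larger than `(4 A A' + 1)(C + 1)(C' + 1)(...)`, and than `2 κ A C₂`, see below.
Write `ξ, ξ'` for the values; vectors on `P` are extended by `0` to `P'`.
1. `g₀, g* ∈ P` with `n g₀ = 0`, `α = n g* ≠ 0`.  `β = n' g* - n' g₀`.
2. For `g ∈ P`: `α (n' g - n' g₀) = β n g`.  Proof: `z = α (δ_g - δ_{g₀}) - n g (δ_{g*} -
   δ_{g₀})` has `∑ z = 0`, `ξ(z) = α n g - n g α = 0`, so with `t` of `Lat.tor` (for `(n,f)`)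
   the vector `t z` has image `0`; by `Lat.ker` for `(n', f')` on `P'`:
   `f' ∣ ξ'(t z) = t (α (n' g - n' g₀) - n g β)`, whose absolute value is
   `≤ C (2 A A' + 2 A A') < m / C' ≤ f'` (for `m > 4 C C' A A'`), so it is `0`.
   (Work with functions `z : ZMod m → ℤ` that are combinations of indicator functions; coincidences
   like `g = g₀` are harmless.)
3. `β ≠ 0`: otherwise `n' g* = n' g₀`, so `z = δ_{g*} - δ_{g₀}` has `ξ'(z) = 0`, `t' z` has image
   `0` (`Lat.tor` for `(n', f')`), so `f ∣ ξ(t' z) = t' α`, but `0 < |t' α| ≤ C' A < f`.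
4. For `g ∈ P`, using `∑_P y = m` and 2.:
   `α (m n' g - ∑ y n') = α ∑_x y x (n' g - n' x) = β ∑_x y x (n g - n x)
    = β (m n g - ∑ y n)`.
5. Let `g` be high for `(n,f,j)`: `m n g - ∑ y n ≥ m/κ > 0`.  If `α β > 0`:
   `|α| (m n' g - ∑ y n') = |β| (m n g - ∑ y n) ≥ m/κ`, so `m n' g - ∑ y n' ≥ m/(κ A) > C₂`
   (`m > κ A C₂`), so `m n' g > ∑ y n' + C₂ ≥ j' f'`, and by `lat_dich` on `P'`
   `g` is high for `(n',f',j')`.  Similarly low goes to low: `∑ y n - m n g ≥ m/κ` gives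
   `m n' g < ∑ y n' - C₂ ≤ (j'+1) f'`, so low.  Since (`lat_dich`) every `g ∈ P` is high or low
   for both, and not both (`f, f' > 0`), we get the equivalences: first alternative.
   If `α β < 0`: high goes to low and low to high: second alternative.
(`κ > 0` follows from `m ≤ κ (...)`.)
-/

set_option autoImplicit false

namespace ZS44129

open Finset

private def cvec {m : ℕ} (a b : ℤ) (p₁ p₂ p₃ p₄ : ZMod m) (x : ZMod m) : ℤ :=
  a * ((if x = p₁ then 1 else 0) - (if x = p₂ then 1 else 0)) -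
    b * ((if x = p₃ then 1 else 0) - (if x = p₄ then 1 else 0))

private theorem cvec_mul {m : ℕ} (a b : ℤ) (p₁ p₂ p₃ p₄ : ZMod m) (s : Finset (ZMod m))
    (h₁ : p₁ ∈ s) (h₂ : p₂ ∈ s) (h₃ : p₃ ∈ s) (h₄ : p₄ ∈ s) (φ : ZMod m → ℤ) :
    ∑ x ∈ s, cvec a b p₁ p₂ p₃ p₄ x * φ x = a * (φ p₁ - φ p₂) - b * (φ p₃ - φ p₄) := by
  unfold cvec
  have : ∀ x ∈ s, (a * ((if x = p₁ then 1 else 0) - (if x = p₂ then 1 else 0)) -
    b * ((if x = p₃ then 1 else 0) - (if x = p₄ then 1 else 0))) * φ x =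
      (if x = p₁ then a * φ x else 0) - (if x = p₂ then a * φ x else 0) -
      ((if x = p₃ then b * φ x else 0) - (if x = p₄ then b * φ x else 0)) := by
    intro x _
    split_ifs <;> ring
  rw [Finset.sum_congr rfl this, Finset.sum_sub_distrib, Finset.sum_sub_distrib,
    Finset.sum_sub_distrib]
  simp only [Finset.sum_ite_eq', h₁, h₂, h₃, h₄, if_true]
  ring

private theorem cvec_sum {m : ℕ} (a b : ℤ) (p₁ p₂ p₃ p₄ : ZMod m) (s : Finset (ZMod m))
    (h₁ : p₁ ∈ s) (h₂ : p₂ ∈ s) (h₃ : p₃ ∈ s) (h₄ : p₄ ∈ s) :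
    ∑ x ∈ s, cvec a b p₁ p₂ p₃ p₄ x = 0 := by
  have := cvec_mul a b p₁ p₂ p₃ p₄ s h₁ h₂ h₃ h₄ (fun _ => 1)
  simpa using this

private theorem cvec_smul {m : ℕ} (a b : ℤ) (p₁ p₂ p₃ p₄ : ZMod m) (s : Finset (ZMod m))
    (h₁ : p₁ ∈ s) (h₂ : p₂ ∈ s) (h₃ : p₃ ∈ s) (h₄ : p₄ ∈ s) :
    ∑ x ∈ s, cvec a b p₁ p₂ p₃ p₄ x • x = a • (p₁ - p₂) - b • (p₃ - p₄) := by
  unfold cvec
  have : ∀ x ∈ s, (a * ((if x = p₁ then 1 else 0) - (if x = p₂ then 1 else 0)) -
    b * ((if x = p₃ then 1 else 0) - (if x = p₄ then 1 else 0))) • x =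
      (if x = p₁ then a • x else 0) - (if x = p₂ then a • x else 0) -
      ((if x = p₃ then b • x else 0) - (if x = p₄ then b • x else 0)) := by
    intro x _
    split_ifs <;> simp [sub_smul, add_smul]
  rw [Finset.sum_congr rfl this, Finset.sum_sub_distrib, Finset.sum_sub_distrib,
    Finset.sum_sub_distrib]
  simp only [Finset.sum_ite_eq', h₁, h₂, h₃, h₄, if_true]
  rw [smul_sub, smul_sub]

private theorem cmp_aux {α β Δ Δ' κ A m C₂ : ℤ} (hαβ : 0 < α * β) (h : α * Δ' = β * Δ)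
    (hΔ : m ≤ κ * Δ) (hα : |α| ≤ A) (hκ : 0 ≤ κ) (hC₂ : 0 ≤ C₂) (hm : κ * A ^ 2 * C₂ < m) :
    C₂ < Δ' := by
  have hm0 : 0 < m := lt_of_le_of_lt (by positivity) hm
  have hΔ0 : 0 < Δ := by
    by_contra hcon
    push Not at hcon
    have := mul_nonneg hκ (neg_nonneg.2 hcon)
    linarith
  have h1 : α ^ 2 * Δ' = α * β * Δ := by
    calc α ^ 2 * Δ' = α * (α * Δ') := by ring
      _ = α * (β * Δ) := by rw [h]
      _ = α * β * Δ := by ring
  have h2 : Δ ≤ α ^ 2 * Δ' := by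
    rw [h1]
    have : 1 ≤ α * β := hαβ
    nlinarith
  have hα2 : α ^ 2 ≤ A ^ 2 := by
    rw [← sq_abs α]
    exact pow_le_pow_left₀ (abs_nonneg _) hα 2
  have hα0 : 0 < α ^ 2 := by
    have : α ≠ 0 := by
      intro h0; rw [h0, zero_mul] at hαβ; exact lt_irrefl _ hαβ
    positivity
  have hΔ'0 : 0 < Δ' := by
    have : 0 < α ^ 2 * Δ' := lt_of_lt_of_le hΔ0 h2
    exact (mul_pos_iff_of_pos_left hα0).1 this
  have h3 : Δ ≤ A ^ 2 * Δ' := h2.trans (mul_le_mul_of_nonneg_right hα2 hΔ'0.le)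
  have h4 : m ≤ κ * (A ^ 2 * Δ') := hΔ.trans (mul_le_mul_of_nonneg_left h3 hκ)
  by_contra hcon
  push Not at hcon
  have h5 : κ * (A ^ 2 * Δ') ≤ κ * (A ^ 2 * C₂) :=
    mul_le_mul_of_nonneg_left (mul_le_mul_of_nonneg_left hcon (by positivity)) hκ
  have h6 : κ * (A ^ 2 * C₂) = κ * A ^ 2 * C₂ := by ring
  linarith

theorem cmp (A C A' C' C₂ κ : ℕ) : ∃ m₀ : ℕ, ∀ m : ℕ, m₀ ≤ m →
    ∀ (P P' : Finset (ZMod m)) (n n' : ZMod m → ℤ) (f f' : ℕ) (j j' : ℤ) (y : ZMod m → ℤ),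
      P ⊆ P' → Lat m P A C n f → Lat m P' A' C' n' f' → ∑ g ∈ P, y g = m →
      m ≤ κ * (∑ g ∈ P, y g * n g - j * f) →
      m ≤ κ * ((j + 1) * f - ∑ g ∈ P, y g * n g) →
      j' * f' - C₂ ≤ ∑ g ∈ P, y g * n' g → ∑ g ∈ P, y g * n' g ≤ (j' + 1) * f' + C₂ →
      (∀ g ∈ P, ((j + 1) * f ≤ m * n g ↔ (j' + 1) * f' ≤ m * n' g) ∧
        (m * n g ≤ j * f ↔ m * n' g ≤ j' * f')) ∨
      (∀ g ∈ P, ((j + 1) * f ≤ m * n g ↔ m * n' g ≤ j' * f') ∧
        (m * n g ≤ j * f ↔ (j' + 1) * f' ≤ m * n' g)) := by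
  refine ⟨4 * C * A * A' * C' + C' * A * C + κ * A ^ 2 * C₂ + 1, ?_⟩
  intro m hm P P' n n' f f' j j' y hPP hL hL' hy hd1 hd2 hg1 hg2
  have hf : (0 : ℤ) < f := by exact_mod_cast hL.fpos
  have hf' : (0 : ℤ) < f' := by exact_mod_cast hL'.fpos
  have hmf : (m : ℤ) ≤ C * f := by exact_mod_cast hL.flow
  have hmf' : (m : ℤ) ≤ C' * f' := by exact_mod_cast hL'.flow
  have hmz : (4 * C * A * A' * C' + C' * A * C + κ * A ^ 2 * C₂ + 1 : ℤ) ≤ m := by
    exact_mod_cast hm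
  have hp1 : (0 : ℤ) ≤ 4 * C * A * A' * C' := by positivity
  have hp2 : (0 : ℤ) ≤ C' * A * C := by positivity
  have hp3 : (0 : ℤ) ≤ κ * A ^ 2 * C₂ := by positivity
  obtain ⟨g₀, hg₀, hn₀⟩ := hL.zero
  obtain ⟨gs, hgs, hns⟩ := hL.nonc
  obtain ⟨t, ht0, htC, htor⟩ := hL.tor
  obtain ⟨t', ht0', htC', htor'⟩ := hL'.tor
  have htz : (0 : ℤ) < t := by exact_mod_cast ht0
  have htCz : (t : ℤ) ≤ C := by exact_mod_cast htC
  have htz' : (0 : ℤ) < t' := by exact_mod_cast ht0'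
  have htCz' : (t' : ℤ) ≤ C' := by exact_mod_cast htC'
  have hf'big : (4 * C * A * A' : ℤ) < f' := by
    by_contra hcon
    push Not at hcon
    have h1 : (C' : ℤ) * f' ≤ C' * (4 * C * A * A') :=
      mul_le_mul_of_nonneg_left hcon (by positivity)
    have h2 : (C' : ℤ) * (4 * C * A * A') = 4 * C * A * A' * C' := by ring
    linarith
  have hfbig : (C' * A : ℤ) < f := by
    by_contra hcon
    push Not at hcon
    have h1 : (C : ℤ) * f ≤ C * (C' * A) := mul_le_mul_of_nonneg_left hcon (by positivity)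
    have h2 : (C : ℤ) * (C' * A) = C' * A * C := by ring
    linarith
  obtain ⟨α, hα⟩ : ∃ α : ℤ, α = n gs := ⟨_, rfl⟩
  obtain ⟨β, hβ⟩ : ∃ β : ℤ, β = n' gs - n' g₀ := ⟨_, rfl⟩
  have hαA : |α| ≤ A := by rw [hα]; exact hL.bound gs hgs
  have hα0 : α ≠ 0 := by rw [hα]; exact hns
  have hdiff : ∀ g ∈ P, |n' g - n' g₀| ≤ 2 * A' := by
    intro g hg
    have h1 := hL'.bound g (hPP hg)
    have h2 := hL'.bound g₀ (hPP hg₀)
    refine (abs_sub _ _).trans ?_
    linarith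
  -- affine relation
  have haff : ∀ g ∈ P, α * (n' g - n' g₀) = β * n g := by
    intro g hg
    have h1 := htor (cvec α (n g) g g₀ gs g₀) (cvec_sum _ _ _ _ _ _ P hg hg₀ hgs hg₀)
      (by rw [cvec_mul _ _ _ _ _ _ P hg hg₀ hgs hg₀, hn₀, hα]; ring)
    rw [cvec_smul _ _ _ _ _ _ P hg hg₀ hgs hg₀] at h1
    have h2 := hL'.ker (cvec (t * α) (t * n g) g g₀ gs g₀)
      (cvec_sum _ _ _ _ _ _ P' (hPP hg) (hPP hg₀) (hPP hgs) (hPP hg₀))
      (by
        rw [cvec_smul _ _ _ _ _ _ P' (hPP hg) (hPP hg₀) (hPP hgs) (hPP hg₀), mul_smul, mul_smul,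
          ← smul_sub, natCast_zsmul]
        exact h1)
    rw [cvec_mul _ _ _ _ _ _ P' (hPP hg) (hPP hg₀) (hPP hgs) (hPP hg₀)] at h2
    have h3 : (t : ℤ) * α * (n' g - n' g₀) - t * n g * (n' gs - n' g₀) =
        t * (α * (n' g - n' g₀) - β * n g) := by rw [hβ]; ring
    rw [h3] at h2
    have h4 : |(t : ℤ) * (α * (n' g - n' g₀) - β * n g)| < f' := by
      refine lt_of_le_of_lt ?_ hf'big
      rw [abs_mul, abs_of_pos htz]
      have h5 : |α * (n' g - n' g₀) - β * n g| ≤ A * (2 * A') + 2 * A' * A := by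
        refine (abs_sub _ _).trans (add_le_add ?_ ?_)
        · rw [abs_mul]
          exact mul_le_mul hαA (hdiff g hg) (abs_nonneg _) (by positivity)
        · rw [abs_mul, hβ]
          exact mul_le_mul (hdiff gs hgs) (hL.bound g hg) (abs_nonneg _) (by positivity)
      calc (t : ℤ) * |α * (n' g - n' g₀) - β * n g| ≤ C * (A * (2 * A') + 2 * A' * A) :=
            mul_le_mul htCz h5 (abs_nonneg _) (by positivity)
        _ = 4 * C * A * A' := by ring
    have h6 := Int.eq_zero_of_abs_lt_dvd h2 h4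
    rcases mul_eq_zero.1 h6 with h7 | h7
    · exact absurd h7 htz.ne'
    · linarith
  have hβ0 : β ≠ 0 := by
    intro h0
    have h1 : n' gs = n' g₀ := by rw [hβ] at h0; linarith
    have h2 := htor' (cvec 1 0 gs g₀ gs g₀)
      (cvec_sum _ _ _ _ _ _ P' (hPP hgs) (hPP hg₀) (hPP hgs) (hPP hg₀))
      (by rw [cvec_mul _ _ _ _ _ _ P' (hPP hgs) (hPP hg₀) (hPP hgs) (hPP hg₀), h1]; ring)
    rw [cvec_smul _ _ _ _ _ _ P' (hPP hgs) (hPP hg₀) (hPP hgs) (hPP hg₀)] at h2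
    have h3 := hL.ker (cvec t' 0 gs g₀ gs g₀) (cvec_sum _ _ _ _ _ _ P hgs hg₀ hgs hg₀)
      (by
        rw [cvec_smul _ _ _ _ _ _ P hgs hg₀ hgs hg₀]
        simp only [one_smul, zero_smul, sub_zero] at h2 ⊢
        rw [natCast_zsmul]; exact h2)
    rw [cvec_mul _ _ _ _ _ _ P hgs hg₀ hgs hg₀, hn₀, ← hα] at h3
    have h4 : (t' : ℤ) * (α - 0) - 0 * (α - 0) = t' * α := by ring
    rw [h4] at h3
    have h5 : |(t' : ℤ) * α| < f := by
      refine lt_of_le_of_lt ?_ hfbig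
      rw [abs_mul, abs_of_pos htz']
      exact mul_le_mul htCz' hαA (abs_nonneg _) (by positivity)
    have h6 := Int.eq_zero_of_abs_lt_dvd h3 h5
    rcases mul_eq_zero.1 h6 with h7 | h7
    · exact absurd h7 htz'.ne'
    · exact hα0 h7
  obtain ⟨Y, hY⟩ : ∃ Y : ℤ, Y = ∑ g ∈ P, y g * n g := ⟨_, rfl⟩
  obtain ⟨Y', hY'⟩ : ∃ Y' : ℤ, Y' = ∑ g ∈ P, y g * n' g := ⟨_, rfl⟩
  rw [← hY] at hd1 hd2
  rw [← hY'] at hg1 hg2
  have hαY : α * Y' = m * (α * n' g₀) + β * Y := by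
    rw [hY', hY, Finset.mul_sum, Finset.mul_sum, ← hy, Finset.sum_mul, ← Finset.sum_add_distrib]
    refine Finset.sum_congr rfl fun g hg => ?_
    have := haff g hg
    linear_combination (y g) * this
  have hΔ : ∀ g ∈ P, α * (m * n' g - Y') = β * (m * n g - Y) := by
    intro g hg
    have := haff g hg
    linear_combination (m : ℤ) * this - hαY
  have hκ0 : (0 : ℤ) ≤ κ := by positivity
  have hC₂0 : (0 : ℤ) ≤ C₂ := by positivity
  have hmκ : (κ : ℤ) * A ^ 2 * C₂ < m := by linarith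
  have hhi : ∀ g, (j + 1) * f ≤ m * n g → (m : ℤ) ≤ κ * (m * n g - Y) := by
    intro g hg
    have := mul_le_mul_of_nonneg_left (by linarith : (j + 1) * f - Y ≤ m * n g - Y) hκ0
    linarith
  have hlo : ∀ g, m * n g ≤ j * f → (m : ℤ) ≤ κ * (-(m * n g - Y)) := by
    intro g hg
    have := mul_le_mul_of_nonneg_left (by linarith : Y - j * f ≤ -(m * n g - Y)) hκ0
    linarith
  have hdich := fun g (hg : g ∈ P) => lat_dich hL j g hg
  have hdich' := fun g (hg : g ∈ P) => lat_dich hL' j' g (hPP hg)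
  have hnb : ∀ g, ¬ ((j + 1) * (f : ℤ) ≤ m * n g ∧ m * n g ≤ j * f) := by
    rintro g ⟨h1, h2⟩; nlinarith
  have hnb' : ∀ g, ¬ ((j' + 1) * (f' : ℤ) ≤ m * n' g ∧ m * n' g ≤ j' * f') := by
    rintro g ⟨h1, h2⟩; nlinarith
  rcases lt_trichotomy 0 (α * β) with hs | hs | hs
  · left
    intro g hg
    have a1 : (j + 1) * f ≤ m * n g → (j' + 1) * f' ≤ m * n' g := by
      intro h
      have h1 := cmp_aux hs (hΔ g hg) (hhi g h) hαA hκ0 hC₂0 hmκ
      rcases hdich' g hg with h2 | h2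
      · exfalso; linarith
      · exact h2
    have a2 : m * n g ≤ j * f → m * n' g ≤ j' * f' := by
      intro h
      have h1 := cmp_aux hs (by linarith [hΔ g hg] : α * (-(m * n' g - Y')) =
        β * (-(m * n g - Y))) (hlo g h) hαA hκ0 hC₂0 hmκ
      rcases hdich' g hg with h2 | h2
      · exact h2
      · exfalso; linarith
    refine ⟨⟨a1, fun h => ?_⟩, ⟨a2, fun h => ?_⟩⟩
    · rcases hdich g hg with h2 | h2
      · exact absurd ⟨h, a2 h2⟩ (hnb' g)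
      · exact h2
    · rcases hdich g hg with h2 | h2
      · exact h2
      · exact absurd ⟨a1 h2, h⟩ (hnb' g)
  · exact absurd hs.symm (mul_ne_zero hα0 hβ0)
  · right
    have hs' : 0 < α * (-β) := by linarith
    intro g hg
    have a1 : (j + 1) * f ≤ m * n g → m * n' g ≤ j' * f' := by
      intro h
      have h1 := cmp_aux hs' (by linarith [hΔ g hg] : α * (-(m * n' g - Y')) =
        (-β) * (m * n g - Y)) (hhi g h) hαA hκ0 hC₂0 hmκ
      rcases hdich' g hg with h2 | h2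
      · exact h2
      · exfalso; linarith
    have a2 : m * n g ≤ j * f → (j' + 1) * f' ≤ m * n' g := by
      intro h
      have h1 := cmp_aux hs' (by linarith [hΔ g hg] : α * (m * n' g - Y') =
        (-β) * (-(m * n g - Y))) (hlo g h) hαA hκ0 hC₂0 hmκ
      rcases hdich' g hg with h2 | h2
      · exfalso; linarith
      · exact h2
    refine ⟨⟨a1, fun h => ?_⟩, ⟨a2, fun h => ?_⟩⟩
    · rcases hdich g hg with h2 | h2
      · exact absurd ⟨a2 h2, h⟩ (hnb' g)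
      · exact h2
    · rcases hdich g hg with h2 | h2
      · exact h2
      · exact absurd ⟨h, a1 h2⟩ (hnb' g)

end ZS44129
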