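import Mathlib
import Pool.Agent.Work.MP_44129c_co.Defs

/-!
# MP_44129c_co, module Counts (sums over slots from the counts of the colours)

`ov_sum`: `∑_w ov φ (σ w) = ∑_{g ∈ P} cnt σ g • φ g` if all picked colours are in `P`
(for each `w`: `ov φ (σ w) = ∑_{g ∈ P} if σ w = some g then φ g else 0`; exchange the sums,
`Finset.sum_comm`, `Finset.sum_ite`, `Finset.card_eq_sum_ones`).  `cnt_sum` is similar.
`yv F σ g` = number of picks with colour `g`, the forced colour included.  `yv_sum`, `yv_tot`,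
`yv_xi` follow (case distinction on `F`).
-/

set_option autoImplicit false

namespace ZS44129

open Finset

theorem ov_sum {m : ℕ} {W A : Type} [Fintype W] [AddCommMonoid A] (φ : ZMod m → A)
    (σ : W → Option (ZMod m)) (P : Finset (ZMod m)) (h : ∀ w g, σ w = some g → g ∈ P) :
    ∑ w, ov φ (σ w) = ∑ g ∈ P, cnt σ g • φ g := by
  have h1 : ∀ w ∈ (univ : Finset W), ov φ (σ w) = ∑ g ∈ P, if σ w = some g then φ g else 0 := by
    intro w _
    cases hc : σ w with
    | none => simp [ov]
    | some x =>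
      have hx := h w x hc
      simp only [ov, Option.elim, Option.some.injEq]
      rw [Finset.sum_ite_eq P x φ, if_pos hx]
  rw [Finset.sum_congr rfl h1, Finset.sum_comm]
  apply Finset.sum_congr rfl
  intro g _
  rw [← Finset.sum_filter, Finset.sum_const, cnt]

theorem cnt_sum {m : ℕ} {W : Type} [Fintype W]
    (σ : W → Option (ZMod m)) (P : Finset (ZMod m)) (h : ∀ w g, σ w = some g → g ∈ P) :
    ∑ g ∈ P, cnt σ g = (univ.filter (fun w => (σ w).isSome = true)).card := by
  have h1 := ov_sum (fun _ => (1 : ℕ)) σ P h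
  simp only [smul_eq_mul, mul_one] at h1
  rw [← h1, Finset.card_filter]
  apply Finset.sum_congr rfl
  intro w _
  cases σ w <;> simp [ov]

/-- number of picks with colour `g`, forced colour included. -/
def yv {m : ℕ} {W : Type} [Fintype W] (F : Option (ZMod m)) (σ : W → Option (ZMod m))
    (g : ZMod m) : ℤ :=
  (cnt σ g : ℤ) + (if F = some g then 1 else 0)

/-- the general formula. -/
theorem yv_gen {m : ℕ} {W A : Type} [Fintype W] [AddCommGroup A] (O : W → Finset (ZMod m))
    (F : Option (ZMod m)) (M : ℕ) (P : Finset (ZMod m)) (σ : W → Option (ZMod m))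
    (hsub : ∀ w, O w ⊆ P) (hF : ∀ g, F = some g → g ∈ P) (hσ : Cfg O M σ) (φ : ZMod m → A) :
    ov φ F + ∑ w, ov φ (σ w) = ∑ g ∈ P, yv F σ g • φ g := by
  rw [ov_sum φ σ P (fun w g hg => hsub w (hσ.mem w g hg))]
  simp only [yv, add_smul, Finset.sum_add_distrib, natCast_zsmul]
  rw [add_comm]
  congr 1
  cases hc : F with
  | none => simp [ov]
  | some x =>
    have hx := hF x hc
    simp only [ov, Option.elim, Option.some.injEq, ite_smul, one_smul, zero_smul]
    rw [Finset.sum_ite_eq P x φ, if_pos hx]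

theorem yv_sum {m : ℕ} {W : Type} [Fintype W] (O : W → Finset (ZMod m)) (F : Option (ZMod m))
    (M : ℕ) (P : Finset (ZMod m)) (σ : W → Option (ZMod m)) (hsub : ∀ w, O w ⊆ P)
    (hF : ∀ g, F = some g → g ∈ P) (hM : M + (if F.isSome = true then 1 else 0) = m)
    (hσ : Cfg O M σ) : ∑ g ∈ P, yv F σ g = m := by
  have h1 := cnt_sum σ P (fun w g hg => hsub w (hσ.mem w g hg))
  rw [hσ.card] at h1
  have h2 : ∑ g ∈ P, (if F = some g then (1 : ℤ) else 0) = (if F.isSome = true then 1 else 0) := by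
    cases hc : F with
    | none => simp
    | some x =>
      have hx := hF x hc
      simp only [Option.some.injEq]
      rw [Finset.sum_ite_eq P x (fun _ => (1 : ℤ)), if_pos hx]
      simp
  simp only [yv, Finset.sum_add_distrib]
  rw [h2, ← Nat.cast_sum, h1]
  have := congrArg (fun k : ℕ => (k : ℤ)) hM
  push_cast at this
  exact this

theorem yv_tot {m : ℕ} {W : Type} [Fintype W] (O : W → Finset (ZMod m)) (F : Option (ZMod m))
    (M : ℕ) (P : Finset (ZMod m)) (σ : W → Option (ZMod m)) (hsub : ∀ w, O w ⊆ P)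
    (hF : ∀ g, F = some g → g ∈ P) (hσ : Cfg O M σ) :
    tot F σ = ∑ g ∈ P, yv F σ g • g := by
  rw [tot, yv_gen O F M P σ hsub hF hσ]
  rfl

theorem yv_xi {m : ℕ} {W : Type} [Fintype W] (O : W → Finset (ZMod m)) (F : Option (ZMod m))
    (M : ℕ) (P : Finset (ZMod m)) (σ : W → Option (ZMod m)) (n : ZMod m → ℤ)
    (hsub : ∀ w, O w ⊆ P) (hF : ∀ g, F = some g → g ∈ P) (hσ : Cfg O M σ) :
    xi n F σ = ∑ g ∈ P, yv F σ g * n g := by
  rw [xi, yv_gen O F M P σ hsub hF hσ]
  rfl

end ZS44129
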