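import Mathlib
import Pool.Agent.Work.MP_44129c_co.Counts
import Pool.Agent.Work.MP_44129c_co.Cmp

/-!
# MP_44129c_co, module StarPair (sides of a star and of a good pair)

`x` is `u` or `v`, `x'` the other one.  Apply `cmp` with `P = pal q c x`, `P' = pal q c u ∪
pal q c v`, `κ = C`, `C₂ = C' + 2 A'` and `y g = cnt σ g` where `σ` is the deep configuration of
the star at `x` (`Core.deep`); `∑_P y = m` (`yv_sum` with `F = none`, `yv none σ g = cnt σ g`),
`∑ y n = xi n none σ` (`yv_xi`).
It remains to see `j' f' - C₂ ≤ ∑ y n' ≤ (j'+1) f' + C₂`.  Note `starO q c x w = {c x w} ∩ pal`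
for `w ≠ x`, so `σ w = some g` implies `g = c x w` and `w ≠ x`.
 * If `σ x' = some g`: `g = c x x' = c u v` (symmetry).  `σ' = update σ x' none` is a
   configuration of `pairO q c u v` with `m - 1` picks (`c x w ∈ {c u w, c v w}`,
   `pal q c x ⊆ P'`), and `xi n' (some (c u v)) σ' = xi n' none σ = ∑ y n'`.
 * If `σ x' = none`: pick `w` with `σ w = some g` (`m > 0`), `σ' = update σ w none`,
   `xi n' (some (c u v)) σ' = ∑ y n' - n' g + n' (c u v)`, and `|n' g|, |n' (c u v)| ≤ A'`
   (`g, c u v ∈ P'`).
 Use `Core.gap` of the pair for `σ'`.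
-/

set_option autoImplicit false

namespace ZS44129

open Finset

private theorem sp_sum {m : ℕ} {W : Type} [Fintype W] [DecidableEq W] (n : ZMod m → ℤ)
    (σ : W → Option (ZMod m)) (w : W) (g : ZMod m) (h : σ w = some g) :
    ∑ z, ov n (Function.update σ w none z) = ∑ z, ov n (σ z) - n g := by
  have h1 : ∑ z, ov n (σ z) = ov n (σ w) + ∑ z ∈ univ.erase w, ov n (σ z) :=
    (add_sum_erase univ (fun z => ov n (σ z)) (mem_univ w)).symm
  have h2 : ∑ z, ov n (Function.update σ w none z) = ov n (Function.update σ w none w) +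
      ∑ z ∈ univ.erase w, ov n (Function.update σ w none z) :=
    (add_sum_erase univ (fun z => ov n (Function.update σ w none z)) (mem_univ w)).symm
  have h3 : ∑ z ∈ univ.erase w, ov n (Function.update σ w none z) =
      ∑ z ∈ univ.erase w, ov n (σ z) := by
    refine sum_congr rfl fun z hz => ?_
    rw [Function.update_of_ne (mem_erase.mp hz).1]
  rw [h1, h2, h3, Function.update_self, h]
  simp only [ov, Option.elim]
  ring

private theorem sp_card {m : ℕ} {W : Type} [Fintype W] [DecidableEq W]
    (σ : W → Option (ZMod m)) (w : W) (g : ZMod m) (h : σ w = some g) :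
    (univ.filter (fun z => (Function.update σ w none z).isSome = true)).card =
      (univ.filter (fun z => (σ z).isSome = true)).card - 1 := by
  have hw : w ∈ univ.filter (fun z => (σ z).isSome = true) := by
    rw [mem_filter]
    exact ⟨mem_univ _, by rw [h]; rfl⟩
  rw [← card_erase_of_mem hw]
  congr 1
  ext z
  rw [mem_filter, mem_erase, mem_filter]
  by_cases hz : z = w
  · rw [hz, Function.update_self]
    simp
  · rw [Function.update_of_ne hz]
    simp [hz]

theorem star_pair (q A C A' C' : ℕ) : ∃ m₀ : ℕ, ∀ m : ℕ, m₀ ≤ m →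
    ∀ {V : Type} [Fintype V] [DecidableEq V] (c : V → V → ZMod m), (∀ x y, c x y = c y x) →
      ∀ (u v x : V) (n n' : ZMod m → ℤ) (f f' : ℕ) (j j' : ℤ), Good q c u v →
      x = u ∨ x = v →
      Core m A C (starO q c x) none m (pal q c x) n f j →
      Core m A' C' (pairO q c u v) (some (c u v)) (m - 1) (pal q c u ∪ pal q c v) n' f' j' →
      (∀ g ∈ pal q c x, ((j + 1) * f ≤ m * n g ↔ (j' + 1) * f' ≤ m * n' g) ∧
        (m * n g ≤ j * f ↔ m * n' g ≤ j' * f')) ∨
      (∀ g ∈ pal q c x, ((j + 1) * f ≤ m * n g ↔ m * n' g ≤ j' * f') ∧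
        (m * n g ≤ j * f ↔ (j' + 1) * f' ≤ m * n' g)) := by
  obtain ⟨m₀, hm₀⟩ := cmp A C A' C' (C' + 2 * A') C
  refine ⟨m₀ + 1, ?_⟩
  intro m hm V _ _ c hc u v x n n' f f' j j' hgood hx hcore hcore'
  obtain ⟨σ, hσ, hd1, hd2⟩ := hcore.deep
  have hP : pal q c x ⊆ pal q c u ∪ pal q c v := by
    rcases hx with h | h
    · rw [h]; exact subset_union_left
    · rw [h]; exact subset_union_right
  have hstar : ∀ w g, g ∈ starO q c x w → w ≠ x ∧ g = c x w ∧ g ∈ pal q c x := by
    intro w g hg
    unfold starO at hg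
    split_ifs at hg with h
    · simp at hg
    · rw [mem_inter, mem_singleton] at hg
      exact ⟨h, hg.1, hg.2⟩
  have hsub : ∀ w, starO q c x w ⊆ pal q c x := fun w g hg => (hstar w g hg).2.2
  -- the other vertex
  obtain ⟨x', hx'x, hx'c, hx'uv⟩ : ∃ x', x' ≠ x ∧ c x x' = c u v ∧
      (∀ w, w ≠ x → w ≠ x' → w ≠ u ∧ w ≠ v) := by
    rcases hx with h | h
    · exact ⟨v, by rw [h]; exact hgood.1.symm, by rw [h], fun w h1 h2 => ⟨by rwa [h] at h1, h2⟩⟩
    · exact ⟨u, by rw [h]; exact hgood.1, by rw [h, hc], fun w h1 h2 => ⟨h2, by rwa [h] at h1⟩⟩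
  have hpair : ∀ w g, σ w = some g → w ≠ x' → g ∈ pairO q c u v w := by
    intro w g hg hw
    obtain ⟨h1, h2, h3⟩ := hstar w g (hσ.mem w g hg)
    obtain ⟨h4, h5⟩ := hx'uv w h1 hw
    unfold pairO
    rw [if_neg (by rintro (h | h); exacts [h4 h, h5 h]), mem_inter, mem_insert, mem_singleton]
    refine ⟨?_, hP h3⟩
    rcases hx with h | h
    · left; rw [h2, h]
    · right; rw [h2, h]
  have hy0 := yv_xi (starO q c x) none m (pal q c x) σ n hsub (fun g hg => by simp at hg) hσ
  have hy1 := yv_xi (starO q c x) none m (pal q c x) σ n' hsub (fun g hg => by simp at hg) hσ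
  have hys := yv_sum (starO q c x) none m (pal q c x) σ hsub (fun g hg => by simp at hg)
    (by simp) hσ
  -- a configuration of the pair
  have hcfg : ∀ w g, σ w = some g → (σ x' = none ∨ w = x') →
      Cfg (pairO q c u v) (m - 1) (Function.update σ w none) := by
    intro w g hg hor
    constructor
    · intro z g' hz
      by_cases hzw : z = w
      · rw [hzw, Function.update_self] at hz
        simp at hz
      · rw [Function.update_of_ne hzw] at hz
        refine hpair z g' hz ?_
        intro hzx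
        rcases hor with h | h
        · rw [hzx, h] at hz
          simp at hz
        · exact hzw (hzx.trans h.symm)
    · rw [sp_card σ w g hg, hσ.card]
  have hxi : ∀ w g, σ w = some g →
      xi n' (some (c u v)) (Function.update σ w none) =
        n' (c u v) + (xi n' none σ - n' g) := by
    intro w g hg
    unfold xi
    rw [sp_sum n' σ w g hg]
    simp [ov]
  have hgap : j' * f' - ((C' + 2 * A' : ℕ) : ℤ) ≤ xi n' none σ ∧
      xi n' none σ ≤ (j' + 1) * f' + ((C' + 2 * A' : ℕ) : ℤ) := by
    push_cast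
    cases hx'σ : σ x' with
    | none =>
      have hne : (univ.filter (fun z => (σ z).isSome = true)).Nonempty := by
        rw [← card_pos, hσ.card]
        omega
      obtain ⟨w, hw⟩ := hne
      obtain ⟨g, hg⟩ := Option.isSome_iff_exists.mp (mem_filter.mp hw).2
      have h1 := hcore'.gap _ (hcfg w g hg (Or.inl hx'σ))
      rw [hxi w g hg] at h1
      have h2 := hcore'.lat.bound g (hP (hsub w (hσ.mem w g hg)))
      have h3 := hcore'.lat.bound (c u v) hgood.2
      rw [abs_le] at h2 h3
      constructor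
      · linarith [h1.1, h2.1, h3.2]
      · linarith [h1.2, h2.2, h3.1]
    | some g =>
      have h1 := hcore'.gap _ (hcfg x' g hx'σ (Or.inr rfl))
      rw [hxi x' g hx'σ] at h1
      have h2 : g = c u v := by
        have := (hstar x' g (hσ.mem x' g hx'σ)).2.1
        rw [this, hx'c]
      rw [h2] at h1
      have h3 : (0 : ℤ) ≤ A' := Int.natCast_nonneg _
      constructor
      · linarith [h1.1]
      · linarith [h1.2]
  rw [hy0] at hd1 hd2
  rw [hy1] at hgap
  exact hm₀ m (by omega) (pal q c x) (pal q c u ∪ pal q c v) n n' f f' j j' (yv none σ) hP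
    hcore.lat hcore'.lat hys hd1 hd2 hgap.1 hgap.2

end ZS44129
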