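import Mathlib
import Pool.Agent.Work.MP_44129c_co.Defs

/-!
# MP_44129c_co, module CoreNeg (the structures are symmetric under n ↦ -n)

All fields are symmetric: `∑ z g * (-n g) = -∑ z g * n g`; `Lat.fill` for `i` from `-i`;
`xi (-n) F σ = - xi n F σ` (`ov (-n) o = - ov n o`); with `j' = -j - 1`, `j' + 1 = -j`:
`j' f - C ≤ - xi` iff `xi ≤ (j+1) f + C`, high for `(-n, j')`: `-j f ≤ -m n x` iff `m n x ≤ j f`,
low for `(-n, j')`: `-(m n x) ≤ (-j-1) f` iff `(j+1) f ≤ m n x`.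
`core_mono`: enlarge the constant `C`.
-/

set_option autoImplicit false

namespace ZS44129

open Finset

theorem lat_neg {m A C f : ℕ} {P : Finset (ZMod m)} {n : ZMod m → ℤ} (hL : Lat m P A C n f) :
    Lat m P A C (fun g => - n g) f := by
  have hs : ∀ z : ZMod m → ℤ, ∑ g ∈ P, z g * (-n g) = -∑ g ∈ P, z g * n g := by
    intro z
    rw [← Finset.sum_neg_distrib]
    exact Finset.sum_congr rfl (fun g _ => by ring)
  refine ⟨fun g hg => by rw [abs_neg]; exact hL.bound g hg, ?_, ?_, hL.fpos, hL.flow, ?_, ?_, ?_⟩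
  · obtain ⟨g, hg, h0⟩ := hL.zero
    exact ⟨g, hg, by omega⟩
  · obtain ⟨g, hg, h0⟩ := hL.nonc
    exact ⟨g, hg, by omega⟩
  · intro z hz hz2
    rw [hs z]
    exact (dvd_neg).2 (hL.ker z hz hz2)
  · obtain ⟨t, ht0, htC, ht⟩ := hL.tor
    refine ⟨t, ht0, htC, fun z hz hz2 => ht z hz ?_⟩
    rw [hs z] at hz2
    omega
  · intro z hz i hi
    apply hL.fill z hz (-i)
    rw [hs z] at hi
    rw [← abs_neg]
    convert hi using 2
    ring

theorem xi_neg {m : ℕ} {W : Type} [Fintype W] (n : ZMod m → ℤ) (F : Option (ZMod m))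
    (σ : W → Option (ZMod m)) : xi (fun g => - n g) F σ = - xi n F σ := by
  have h : ∀ o : Option (ZMod m), ov (fun g => - n g) o = - ov n o := by
    intro o
    cases o <;> simp [ov]
  simp only [xi, h]
  rw [Finset.sum_neg_distrib]
  ring

theorem core_neg {m A C f M : ℕ} {W : Type} [Fintype W] {O : W → Finset (ZMod m)}
    {F : Option (ZMod m)} {P : Finset (ZMod m)} {n : ZMod m → ℤ} {j : ℤ}
    (hC : Core m A C O F M P n f j) : Core m A C O F M P (fun g => - n g) f (-j - 1) := by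
  have e1 : ∀ x : ZMod m, ((-j - 1 + 1) * (f : ℤ) ≤ m * (-n x) ↔ m * n x ≤ j * f) := by
    intro x
    have h1 : (-j - 1 + 1) * (f : ℤ) = -(j * f) := by ring
    have h2 : (m : ℤ) * (-n x) = -(m * n x) := by ring
    rw [h1, h2]
    exact neg_le_neg_iff
  have e2 : ∀ x : ZMod m, (m * (-n x) ≤ (-j - 1) * (f : ℤ) ↔ (j + 1) * f ≤ m * n x) := by
    intro x
    have h1 : (-j - 1) * (f : ℤ) = -((j + 1) * f) := by ring
    have h2 : (m : ℤ) * (-n x) = -(m * n x) := by ring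
    rw [h1, h2]
    exact neg_le_neg_iff
  refine ⟨lat_neg hC.lat, ?_, ?_, ?_, ?_⟩
  · intro σ hσ
    obtain ⟨h1, h2⟩ := hC.gap σ hσ
    rw [xi_neg]
    constructor
    · linarith
    · linarith
  · intro g hg hh
    have := hC.lo g hg ((e1 g).1 hh)
    simpa only [e1] using this
  · intro g hg hh
    have := hC.hi g hg ((e2 g).1 hh)
    simpa only [e2] using this
  · obtain ⟨σ, hσ, h1, h2⟩ := hC.deep
    refine ⟨σ, hσ, ?_, ?_⟩
    · rw [xi_neg]
      convert h2 using 2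
      ring
    · rw [xi_neg]
      convert h1 using 2
      ring

theorem lat_mono {m A C C' f : ℕ} {P : Finset (ZMod m)} {n : ZMod m → ℤ}
    (hL : Lat m P A C n f) (h : C ≤ C') : Lat m P A C' n f := by
  refine ⟨hL.bound, hL.zero, hL.nonc, hL.fpos, hL.flow.trans (Nat.mul_le_mul_right _ h), hL.ker,
    ?_, ?_⟩
  · obtain ⟨t, ht0, htC, ht⟩ := hL.tor
    exact ⟨t, ht0, htC.trans h, ht⟩
  · intro z hz i hi
    obtain ⟨z', h1, h2, h3⟩ := hL.fill z hz i hi
    exact ⟨z', h1, h2, fun g hg => (h3 g hg).trans (by exact_mod_cast h)⟩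

end ZS44129
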