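import Mathlib
import Pool.Agent.Work.MP_44129c_co.Defs

/-!
# MP_44129c_co, module Modify (changing the counts of a standard configuration)

Proof.  First show, by induction over finsets `Q ⊆ P`, the statement without `∑ z = 0`:
for `Q ⊆ P` there is `σ'` with `σ' w = some g → g ∈ O w`, `σ' = σ` outside
`⋃_{g ∈ Q} (R g ∪ S g)`, `cnt σ' g = cnt σ g + z g` for `g ∈ Q` and `cnt σ' g = cnt σ g` for
`g ∈ P \ Q`, and (number of picks of `σ'`) = `M + ∑_{g∈Q} z g` (as integers).
Step for `g ∉ Q`: on `R g ∪ S g` the configuration is still `σ` (disjointness), i.e. `some g` on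
`R g` and `none` on `S g`.  If `z g ≥ 0` choose `z g` elements of `S g` and pick them with colour
`g` (allowed: `optS`); if `z g < 0` choose `-z g` elements of `R g` and unpick them
(`|z g| ≤ K = |R g| = |S g|`).  Alternatively one can define `σ'` at once: choose for all `g ∈ P`
subsets `A g ⊆ S g`, `B g ⊆ R g` with `|A g| = (z g)⁺`, `|B g| = (z g)⁻`, and
`σ' w = some g` on `A g`, `none` on `B g`, `σ w` elsewhere.
For `Q = P`: the number of picks is `M + ∑_P z = M`.
-/

set_option autoImplicit false

namespace ZS44129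

open Finset

theorem modify {m : ℕ} {W : Type} [Fintype W] [DecidableEq W] (O : W → Finset (ZMod m))
    (P : Finset (ZMod m)) (K M : ℕ) (R S : ZMod m → Finset W) (hRes : Res O P K R S)
    (σ : W → Option (ZMod m)) (hσ : Std O M P R S σ) (z : ZMod m → ℤ)
    (hz : ∑ g ∈ P, z g = 0) (hzK : ∀ g ∈ P, |z g| ≤ K) :
    ∃ σ' : W → Option (ZMod m), Cfg O M σ' ∧ ∀ g ∈ P, (cnt σ' g : ℤ) = cnt σ g + z g := by
  classical
  have hA : ∀ g : ZMod m, ∃ X : Finset W, X ⊆ S g ∧ (g ∈ P → X.card = (z g).toNat) := by
    intro g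
    by_cases hg : g ∈ P
    · obtain ⟨X, hX, hXc⟩ := Finset.exists_subset_card_eq (show (z g).toNat ≤ (S g).card by
        rw [hRes.cardS g hg]
        have := abs_le.1 (hzK g hg)
        omega)
      exact ⟨X, hX, fun _ => hXc⟩
    · exact ⟨∅, Finset.empty_subset _, fun h => absurd h hg⟩
  have hB : ∀ g : ZMod m, ∃ X : Finset W, X ⊆ R g ∧ (g ∈ P → X.card = (-z g).toNat) := by
    intro g
    by_cases hg : g ∈ P
    · obtain ⟨X, hX, hXc⟩ := Finset.exists_subset_card_eq (show (-z g).toNat ≤ (R g).card by
        rw [hRes.cardR g hg]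
        have := abs_le.1 (hzK g hg)
        omega)
      exact ⟨X, hX, fun _ => hXc⟩
    · exact ⟨∅, Finset.empty_subset _, fun h => absurd h hg⟩
  choose A hAS hAc using hA
  choose B hBR hBc using hB
  obtain ⟨σ', hσ'⟩ : ∃ σ' : W → Option (ZMod m), σ' = fun w =>
      if h : ∃ g ∈ P, w ∈ A g then some h.choose
      else if ∃ g ∈ P, w ∈ B g then none else σ w := ⟨_, rfl⟩
  have hAA : ∀ g ∈ P, ∀ x ∈ P, g ≠ x → Disjoint (A g) (A x) := fun g hg x hx hgx =>
    Finset.disjoint_of_subset_left (hAS g)
      (Finset.disjoint_of_subset_right (hAS x) (hRes.disSS g hg x hx hgx))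
  have hBB : ∀ g ∈ P, ∀ x ∈ P, g ≠ x → Disjoint (B g) (B x) := fun g hg x hx hgx =>
    Finset.disjoint_of_subset_left (hBR g)
      (Finset.disjoint_of_subset_right (hBR x) (hRes.disRR g hg x hx hgx))
  have hsA : ∀ g ∈ P, ∀ w ∈ A g, σ' w = some g := by
    intro g hg w hw
    have h : ∃ g ∈ P, w ∈ A g := ⟨g, hg, hw⟩
    rw [hσ']
    simp only [dif_pos h]
    congr 1
    by_contra hne
    exact Finset.disjoint_left.1 (hAA _ h.choose_spec.1 g hg hne) h.choose_spec.2 hw
  have hsB : ∀ g ∈ P, ∀ w ∈ B g, σ' w = none := by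
    intro g hg w hw
    have h : ¬ ∃ g ∈ P, w ∈ A g := by
      rintro ⟨x, hx, hwx⟩
      exact Finset.disjoint_left.1 (hRes.disRS g hg x hx) (hBR g hw) (hAS x hwx)
    have h' : ∃ g ∈ P, w ∈ B g := ⟨g, hg, hw⟩
    rw [hσ']
    simp only [dif_neg h, if_pos h']
  have hsO : ∀ w, w ∉ P.biUnion A → w ∉ P.biUnion B → σ' w = σ w := by
    intro w h1 h2
    have h : ¬ ∃ g ∈ P, w ∈ A g := by
      rintro ⟨x, hx, hwx⟩
      exact h1 (Finset.mem_biUnion.2 ⟨x, hx, hwx⟩)
    have h' : ¬ ∃ g ∈ P, w ∈ B g := by
      rintro ⟨x, hx, hwx⟩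
      exact h2 (Finset.mem_biUnion.2 ⟨x, hx, hwx⟩)
    rw [hσ']
    simp only [dif_neg h, if_neg h']
  have hmem : ∀ w g, σ' w = some g → g ∈ O w := by
    intro w g hwg
    by_cases h1 : w ∈ P.biUnion A
    · obtain ⟨x, hx, hwx⟩ := Finset.mem_biUnion.1 h1
      rw [hsA x hx w hwx] at hwg
      have : x = g := Option.some.inj hwg
      rw [← this]
      exact hRes.optS x hx w (hAS x hwx)
    · by_cases h2 : w ∈ P.biUnion B
      · obtain ⟨x, hx, hwx⟩ := Finset.mem_biUnion.1 h2
        rw [hsB x hx w hwx] at hwg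
        exact absurd hwg (by simp)
      · rw [hsO w h1 h2] at hwg
        exact hσ.cfg.mem w g hwg
  have hpos : ∀ a : ℤ, ((a.toNat : ℤ)) - ((-a).toNat : ℤ) = a := by intro a; omega
  refine ⟨σ', ⟨hmem, ?_⟩, ?_⟩
  · -- number of picks
    have hset : (univ.filter (fun w => (σ' w).isSome = true)) =
        ((univ.filter (fun w => (σ w).isSome = true)) \ P.biUnion B) ∪ P.biUnion A := by
      ext w
      simp only [Finset.mem_filter, Finset.mem_univ, true_and, Finset.mem_union, Finset.mem_sdiff]
      by_cases h1 : w ∈ P.biUnion A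
      · obtain ⟨x, hx, hwx⟩ := Finset.mem_biUnion.1 h1
        rw [hsA x hx w hwx]
        simp [h1]
      · by_cases h2 : w ∈ P.biUnion B
        · obtain ⟨x, hx, hwx⟩ := Finset.mem_biUnion.1 h2
          rw [hsB x hx w hwx]
          simp [h1, h2]
        · rw [hsO w h1 h2]
          simp only [h1, h2, or_false, not_false_eq_true, and_true]
    have hd : Disjoint ((univ.filter (fun w => (σ w).isSome = true)) \ P.biUnion B)
        (P.biUnion A) := by
      rw [Finset.disjoint_left]
      intro w hw hw'
      obtain ⟨x, hx, hwx⟩ := Finset.mem_biUnion.1 hw'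
      have h1 := hσ.onS x hx w (hAS x hwx)
      have h2 := (Finset.mem_filter.1 (Finset.mem_sdiff.1 hw).1).2
      rw [h1] at h2
      simp at h2
    have hsub : P.biUnion B ⊆ (univ.filter (fun w => (σ w).isSome = true)) := by
      intro w hw
      obtain ⟨x, hx, hwx⟩ := Finset.mem_biUnion.1 hw
      rw [Finset.mem_filter, hσ.onR x hx w (hBR x hwx)]
      exact ⟨Finset.mem_univ _, rfl⟩
    have hcA : ((P.biUnion A).card : ℤ) = ∑ g ∈ P, ((z g).toNat : ℤ) := by
      rw [Finset.card_biUnion (fun x hx y hy hxy => hAA x hx y hy hxy)]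
      push_cast
      apply Finset.sum_congr rfl
      intro g hg
      rw [hAc g hg]
    have hcB : ((P.biUnion B).card : ℤ) = ∑ g ∈ P, ((-z g).toNat : ℤ) := by
      rw [Finset.card_biUnion (fun x hx y hy hxy => hBB x hx y hy hxy)]
      push_cast
      apply Finset.sum_congr rfl
      intro g hg
      rw [hBc g hg]
    have hdiff : ((P.biUnion A).card : ℤ) - ((P.biUnion B).card : ℤ) = 0 := by
      rw [hcA, hcB, ← Finset.sum_sub_distrib, ← hz]
      exact Finset.sum_congr rfl (fun g _ => hpos (z g))
    rw [hset, Finset.card_union_of_disjoint hd, Finset.card_sdiff_of_subset hsub, hσ.cfg.card]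
    have hle := Finset.card_le_card hsub
    rw [hσ.cfg.card] at hle
    omega
  · intro g hg
    have hset : (univ.filter (fun w => σ' w = some g)) =
        ((univ.filter (fun w => σ w = some g)) \ B g) ∪ A g := by
      ext w
      simp only [Finset.mem_filter, Finset.mem_univ, true_and, Finset.mem_union, Finset.mem_sdiff]
      by_cases h1 : w ∈ P.biUnion A
      · obtain ⟨x, hx, hwx⟩ := Finset.mem_biUnion.1 h1
        rw [hsA x hx w hwx, hσ.onS x hx w (hAS x hwx)]
        constructor
        · intro h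
          right
          have : x = g := Option.some.inj h
          rw [← this]
          exact hwx
        · rintro (⟨h, _⟩ | h)
          · exact absurd h (by simp)
          · by_contra hne
            have hne' : x ≠ g := fun h' => hne (by rw [h'])
            exact Finset.disjoint_left.1 (hAA x hx g hg hne') hwx h
      · have h1g : w ∉ A g := fun h => h1 (Finset.mem_biUnion.2 ⟨g, hg, h⟩)
        by_cases h2 : w ∈ P.biUnion B
        · obtain ⟨x, hx, hwx⟩ := Finset.mem_biUnion.1 h2
          rw [hsB x hx w hwx, hσ.onR x hx w (hBR x hwx)]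
          constructor
          · intro h
            exact absurd h (by simp)
          · rintro (⟨h, h'⟩ | h)
            · have : x = g := Option.some.inj h
              rw [this] at hwx
              exact absurd hwx h'
            · exact absurd h h1g
        · have h2g : w ∉ B g := fun h => h2 (Finset.mem_biUnion.2 ⟨g, hg, h⟩)
          rw [hsO w h1 h2]
          simp only [h1g, h2g, or_false, not_false_eq_true, and_true]
    have hd : Disjoint ((univ.filter (fun w => σ w = some g)) \ B g) (A g) := by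
      rw [Finset.disjoint_left]
      intro w hw hw'
      have h1 := hσ.onS g hg w (hAS g hw')
      have h2 := (Finset.mem_filter.1 (Finset.mem_sdiff.1 hw).1).2
      rw [h1] at h2
      simp at h2
    have hsub : B g ⊆ (univ.filter (fun w => σ w = some g)) := by
      intro w hw
      rw [Finset.mem_filter]
      exact ⟨Finset.mem_univ _, hσ.onR g hg w (hBR g hw)⟩
    have hle := Finset.card_le_card hsub
    rw [cnt, hset, Finset.card_union_of_disjoint hd, Finset.card_sdiff_of_subset hsub, hAc g hg,
      hBc g hg]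
    rw [hBc g hg] at hle
    rw [cnt]
    have := hpos (z g)
    omega

end ZS44129
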