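import Mathlib
import Pool.Agent.Work.MP_44129c_co.Defs

/-!
# MP_44129c_co, module Reserve (disjoint reserved families)

`reserve`: induction over finsets `Q ⊆ P` (`Finset.induction_on`): if `R` is chosen on `Q`, then
for `g ∉ Q` the set `A g \ ⋃_{g' ∈ Q} R g'` has at least `P.card K - Q.card K ≥ K` elements
(`Q ∪ {g} ⊆ P`), choose a subset of size `K` (`Finset.exists_subset_card_eq`).

`res_exists`: apply `reserve` with `2 K` and `A g = {w : g ∈ O w}`, then split each chosen set
into two parts of size `K` (`R g` a subset of size `K`, `S g` its complement in the chosen set).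
-/

set_option autoImplicit false

namespace ZS44129

open Finset

theorem reserve {G W : Type} [DecidableEq G] [DecidableEq W] (P : Finset G) (A : G → Finset W)
    (K : ℕ) (h : ∀ g ∈ P, P.card * K ≤ (A g).card) :
    ∃ R : G → Finset W, (∀ g ∈ P, R g ⊆ A g) ∧ (∀ g ∈ P, (R g).card = K) ∧
      ∀ g ∈ P, ∀ g' ∈ P, g ≠ g' → Disjoint (R g) (R g') := by
  suffices H : ∀ Q : Finset G, Q ⊆ P → ∃ R : G → Finset W, (∀ g ∈ Q, R g ⊆ A g) ∧
      (∀ g ∈ Q, (R g).card = K) ∧ ∀ g ∈ Q, ∀ g' ∈ Q, g ≠ g' → Disjoint (R g) (R g') from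
    H P subset_rfl
  intro Q
  induction Q using Finset.induction_on with
  | empty => intro _; exact ⟨fun _ => ∅, by simp, by simp, by simp⟩
  | insert g Q hg ih =>
    intro hQ
    obtain ⟨R, h1, h2, h3⟩ := ih ((Finset.subset_insert g Q).trans hQ)
    have hgP : g ∈ P := hQ (Finset.mem_insert_self g Q)
    have hc : (Q.biUnion R).card ≤ Q.card * K := Finset.card_biUnion_le_card_mul _ _ _
      (fun x hx => (h2 x hx).le)
    have hQP : Q.card + 1 ≤ P.card := by
      rw [← Finset.card_insert_of_notMem hg]; exact Finset.card_le_card hQ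
    have hK : K ≤ (A g \ Q.biUnion R).card := by
      have h4 := Finset.le_card_sdiff (Q.biUnion R) (A g)
      have h5 := h g hgP
      have h6 : (Q.card + 1) * K ≤ P.card * K := Nat.mul_le_mul_right _ hQP
      have h7 : (Q.card + 1) * K = Q.card * K + K := by ring
      omega
    obtain ⟨T, hT, hTc⟩ := Finset.exists_subset_card_eq hK
    have hTd : ∀ x ∈ Q, Disjoint T (R x) := by
      intro x hx
      rw [Finset.disjoint_left]
      intro w hw hw'
      exact (Finset.mem_sdiff.1 (hT hw)).2 (Finset.mem_biUnion.2 ⟨x, hx, hw'⟩)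
    refine ⟨fun x => if x = g then T else R x, ?_, ?_, ?_⟩
    · intro x hx
      by_cases hxg : x = g
      · subst hxg
        simp only [if_true]
        exact hT.trans Finset.sdiff_subset
      · simp only [hxg, if_false]
        exact h1 x (Finset.mem_of_mem_insert_of_ne hx hxg)
    · intro x hx
      by_cases hxg : x = g
      · simp only [hxg, if_true]; exact hTc
      · simp only [hxg, if_false]
        exact h2 x (Finset.mem_of_mem_insert_of_ne hx hxg)
    · intro x hx y hy hxy
      by_cases hxg : x = g
      · have hyg : y ≠ g := fun h => hxy (hxg.trans h.symm)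
        simp only [hxg, if_true, hyg, if_false]
        exact hTd y (Finset.mem_of_mem_insert_of_ne hy hyg)
      · by_cases hyg : y = g
        · simp only [hyg, if_true, hxg, if_false]
          exact (hTd x (Finset.mem_of_mem_insert_of_ne hx hxg)).symm
        · simp only [hyg, hxg, if_false]
          exact h3 x (Finset.mem_of_mem_insert_of_ne hx hxg) y
            (Finset.mem_of_mem_insert_of_ne hy hyg) hxy

theorem res_exists {m : ℕ} {W : Type} [Fintype W] [DecidableEq W] (O : W → Finset (ZMod m))
    (P : Finset (ZMod m)) (K : ℕ)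
    (h : ∀ g ∈ P, P.card * (2 * K) ≤ (univ.filter (fun w => g ∈ O w)).card) :
    ∃ R S : ZMod m → Finset W, Res O P K R S := by
  obtain ⟨T, h1, h2, h3⟩ := reserve P (fun g => univ.filter (fun w => g ∈ O w)) (2 * K) h
  have h4 : ∀ g : ZMod m, ∃ X : Finset W, X ⊆ T g ∧ (g ∈ P → X.card = K) := by
    intro g
    by_cases hg : g ∈ P
    · obtain ⟨X, hX, hXc⟩ := Finset.exists_subset_card_eq (show K ≤ (T g).card by
        rw [h2 g hg]; omega)
      exact ⟨X, hX, fun _ => hXc⟩
    · exact ⟨∅, Finset.empty_subset _, fun h => absurd h hg⟩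
  choose R hR hRc using h4
  have hsub : ∀ g ∈ P, ∀ w ∈ T g, g ∈ O w := by
    intro g hg w hw
    exact (Finset.mem_filter.1 (h1 g hg hw)).2
  refine ⟨R, fun g => T g \ R g, fun g hg => hRc g hg, ?_, ?_, ?_, ?_, ?_, ?_⟩
  · intro g hg
    rw [Finset.card_sdiff_of_subset (hR g), h2 g hg, hRc g hg]
    omega
  · intro g hg w hw
    exact hsub g hg w (hR g hw)
  · intro g hg w hw
    exact hsub g hg w (Finset.mem_sdiff.1 hw).1
  · intro g hg x hx
    by_cases hgx : g = x
    · subst hgx
      exact Finset.disjoint_sdiff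
    · exact Finset.disjoint_of_subset_left (hR g)
        (Finset.disjoint_of_subset_right Finset.sdiff_subset (h3 g hg x hx hgx))
  · intro g hg x hx hgx
    exact Finset.disjoint_of_subset_left (hR g)
      (Finset.disjoint_of_subset_right (hR x) (h3 g hg x hx hgx))
  · intro g hg x hx hgx
    exact Finset.disjoint_of_subset_left Finset.sdiff_subset
      (Finset.disjoint_of_subset_right Finset.sdiff_subset (h3 g hg x hx hgx))

end ZS44129
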