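import Mathlib
import Pool.Agent.Work.MP_44129c_co.Defs

/-!
# MP_44129c_co, module StdEx (existence of a standard configuration)

Proof.  `Z = ⋃_{g ∈ P} (R g ∪ S g)` has at most (exactly) `2 |P| K` elements and
`Z_R = ⋃_{g∈P} R g` has exactly `|P| K` (`Finset.card_biUnion`, disjointness).  The set of slots
with nonempty `O w` outside `Z` has at least `M` elements, choose a subset `T` of size
`M - |P| K`.  Define `σ w = some g` for `w ∈ R g`, `g ∈ P`; `σ w = some (an element of O w)` for
`w ∈ T`; `σ w = none` otherwise.  The picked slots are `Z_R ∪ T` (disjoint), `M` of them.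
(For the definition of `σ` on `Z_R`: `if h : ∃ g ∈ P, w ∈ R g then some h.choose ...`; `g` is
unique by disjointness.)
-/

set_option autoImplicit false

namespace ZS44129

open Finset

theorem std_exists {m : ℕ} {W : Type} [Fintype W] [DecidableEq W] (O : W → Finset (ZMod m))
    (P : Finset (ZMod m)) (K M : ℕ) (R S : ZMod m → Finset W) (hRes : Res O P K R S)
    (hM : P.card * K ≤ M)
    (hslots : M + 2 * (P.card * K) ≤ (univ.filter (fun w => (O w).Nonempty)).card) :
    ∃ σ : W → Option (ZMod m), Std O M P R S σ := by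
  classical
  have hZR : (P.biUnion R).card = P.card * K := by
    rw [Finset.card_biUnion (fun x hx y hy hxy => hRes.disRR x hx y hy hxy)]
    rw [Finset.sum_congr rfl (fun g hg => hRes.cardR g hg), Finset.sum_const, smul_eq_mul]
  have hZS : (P.biUnion S).card ≤ P.card * K := Finset.card_biUnion_le_card_mul _ _ _
    (fun x hx => (hRes.cardS x hx).le)
  obtain ⟨Z, hZ⟩ : ∃ Z, Z = P.biUnion R ∪ P.biUnion S := ⟨_, rfl⟩
  have hZc : Z.card ≤ 2 * (P.card * K) := by
    rw [hZ]
    have := Finset.card_union_le (P.biUnion R) (P.biUnion S)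
    omega
  have hT0 : M - P.card * K ≤ ((univ.filter (fun w => (O w).Nonempty)) \ Z).card := by
    have := Finset.le_card_sdiff Z (univ.filter (fun w => (O w).Nonempty))
    omega
  obtain ⟨T, hT, hTc⟩ := Finset.exists_subset_card_eq hT0
  have hTne : ∀ w ∈ T, (O w).Nonempty := fun w hw =>
    (Finset.mem_filter.1 (Finset.mem_sdiff.1 (hT hw)).1).2
  have hTZ : ∀ w ∈ T, w ∉ Z := fun w hw => (Finset.mem_sdiff.1 (hT hw)).2
  obtain ⟨σ, hσ⟩ : ∃ σ : W → Option (ZMod m), σ = fun w =>
      if h : ∃ g ∈ P, w ∈ R g then some h.choose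
      else if h : w ∈ T then some (hTne w h).choose else none := ⟨_, rfl⟩
  have hσR : ∀ g ∈ P, ∀ w ∈ R g, σ w = some g := by
    intro g hg w hw
    have h : ∃ g ∈ P, w ∈ R g := ⟨g, hg, hw⟩
    rw [hσ]
    simp only [dif_pos h]
    congr 1
    by_contra hne
    have hd := hRes.disRR _ h.choose_spec.1 g hg hne
    exact Finset.disjoint_left.1 hd h.choose_spec.2 hw
  have hσT : ∀ w ∈ T, ∃ g ∈ O w, σ w = some g := by
    intro w hw
    have h : ¬ ∃ g ∈ P, w ∈ R g := by
      rintro ⟨g, hg, hwg⟩
      apply hTZ w hw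
      rw [hZ]
      exact Finset.mem_union_left _ (Finset.mem_biUnion.2 ⟨g, hg, hwg⟩)
    refine ⟨(hTne w hw).choose, (hTne w hw).choose_spec, ?_⟩
    rw [hσ]
    simp only [dif_neg h, dif_pos hw]
  have hσN : ∀ w, w ∉ P.biUnion R → w ∉ T → σ w = none := by
    intro w hw1 hw2
    have h : ¬ ∃ g ∈ P, w ∈ R g := by
      rintro ⟨g, hg, hwg⟩
      exact hw1 (Finset.mem_biUnion.2 ⟨g, hg, hwg⟩)
    rw [hσ]
    simp only [dif_neg h, dif_neg hw2]
  refine ⟨σ, ⟨?_, ?_⟩, hσR, ?_⟩
  · intro w g hwg
    by_cases h1 : w ∈ P.biUnion R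
    · obtain ⟨x, hx, hwx⟩ := Finset.mem_biUnion.1 h1
      rw [hσR x hx w hwx] at hwg
      have : x = g := Option.some.inj hwg
      rw [← this]
      exact hRes.optR x hx w hwx
    · by_cases h2 : w ∈ T
      · obtain ⟨x, hx, hwx⟩ := hσT w h2
        rw [hwx] at hwg
        have : x = g := Option.some.inj hwg
        rw [← this]
        exact hx
      · rw [hσN w h1 h2] at hwg
        exact absurd hwg (by simp)
  · have hset : (univ.filter (fun w => (σ w).isSome = true)) = P.biUnion R ∪ T := by
      ext w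
      simp only [Finset.mem_filter, Finset.mem_univ, true_and, Finset.mem_union]
      constructor
      · intro h
        by_contra hcon
        push Not at hcon
        rw [hσN w hcon.1 hcon.2] at h
        simp at h
      · rintro (h | h)
        · obtain ⟨x, hx, hwx⟩ := Finset.mem_biUnion.1 h
          rw [hσR x hx w hwx]; rfl
        · obtain ⟨x, hx, hwx⟩ := hσT w h
          rw [hwx]; rfl
    have hd : Disjoint (P.biUnion R) T := by
      rw [Finset.disjoint_left]
      intro w hw hw'
      apply hTZ w hw'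
      rw [hZ]
      exact Finset.mem_union_left _ hw
    rw [hset, Finset.card_union_of_disjoint hd, hZR, hTc]
    omega
  · intro g hg w hw
    apply hσN w
    · intro h
      obtain ⟨x, hx, hwx⟩ := Finset.mem_biUnion.1 h
      exact Finset.disjoint_left.1 (hRes.disRS x hx g hg) hwx hw
    · intro h
      apply hTZ w h
      rw [hZ]
      exact Finset.mem_union_right _ (Finset.mem_biUnion.2 ⟨g, hg, hw⟩)

end ZS44129
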