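import Mathlib
import Pool.Agent.Work.MP_44129c_co.Reserve
import Pool.Agent.Work.MP_44129c_co.Counts
import Pool.Agent.Work.MP_44129c_co.Modify
import Pool.Agent.Work.MP_44129c_co.StdEx

/-!
# MP_44129c_co, module Deep (a configuration deep inside the gap)
-/

set_option autoImplicit false

namespace ZS44129

open Finset

theorem deep_cfg (q A C C' : ℕ) (hq : 0 < q) : ∃ C'' : ℕ, ∀ m : ℕ, C'' ≤ m →
    ∀ {W : Type} [Fintype W] [DecidableEq W] (O : W → Finset (ZMod m)) (F : Option (ZMod m))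
      (M : ℕ) (P : Finset (ZMod m)) (n : ZMod m → ℤ) (f : ℕ) (j : ℤ),
      Sys m q O F M P → Lat m P A C n f →
      (∀ σ, Cfg O M σ → j * f - C' ≤ xi n F σ ∧ xi n F σ ≤ (j + 1) * f + C') →
      ∃ σ, Cfg O M σ ∧ m ≤ C'' * (xi n F σ - j * f) ∧ m ≤ C'' * ((j + 1) * f - xi n F σ) := by
  refine ⟨160 * q ^ 2 * (C' + 2), fun m hm => ?_⟩
  intro W _ _ O F M P n f j hSys hLat hgap
  set K : ℕ := m / (80 * q ^ 2) with hK
  have hq1 : 1 ≤ q ^ 2 := Nat.one_le_pow _ _ hq
  have hKm : 80 * q ^ 2 * K ≤ m := Nat.mul_div_le m (80 * q ^ 2)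
  have hmK : m < 80 * q ^ 2 * (K + 1) := Nat.lt_mul_div_succ m (by positivity)
  have hKbig : 2 * (C' + 2) ≤ K := by
    rw [hK, Nat.le_div_iff_mul_le (by positivity)]
    calc 2 * (C' + 2) * (80 * q ^ 2) = 160 * q ^ 2 * (C' + 2) := by ring
      _ ≤ m := hm
  have hPc := hSys.pal
  have hqK : 80 * (q * K) ≤ m := by
    refine le_trans ?_ hKm
    have : q * K ≤ q ^ 2 * K := by
      apply Nat.mul_le_mul_right
      nlinarith
    nlinarith
  have hPK : P.card * K ≤ 4 * (q * K) := by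
    calc P.card * K ≤ 4 * q * K := Nat.mul_le_mul_right _ hPc
      _ = 4 * (q * K) := by ring
  have hm2 : 2 ≤ m := by nlinarith
  have hMm := hSys.Mm
  have hMle : M ≤ m := by omega
  have hMge : m ≤ M + 1 := by
    split_ifs at hMm <;> omega
  obtain ⟨R, S, hRes⟩ := res_exists O P K (by
    intro g hg
    have h1 := hSys.mult g hg
    have h2 : q * (P.card * (2 * K)) ≤ q * (univ.filter (fun w => g ∈ O w)).card := by
      refine le_trans ?_ h1
      refine le_trans ?_ hKm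
      calc q * (P.card * (2 * K)) ≤ q * (4 * q * (2 * K)) := by
            apply Nat.mul_le_mul_left; exact Nat.mul_le_mul_right _ hPc
        _ = 8 * q ^ 2 * K := by ring
        _ ≤ 80 * q ^ 2 * K := by nlinarith
    exact Nat.le_of_mul_le_mul_left h2 hq)
  have hslots := hSys.slots
  obtain ⟨σ₀, hσ₀⟩ := std_exists O P K M R S hRes (by omega) (by omega)
  have hF := hSys.forced
  have hsub := hSys.sub
  -- the change of xi
  have hchange : ∀ z : ZMod m → ℤ, ∑ g ∈ P, z g = 0 → (∀ g ∈ P, |z g| ≤ K) →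
      j * f - C' ≤ xi n F σ₀ + ∑ g ∈ P, z g * n g ∧
      xi n F σ₀ + ∑ g ∈ P, z g * n g ≤ (j + 1) * f + C' := by
    intro z hz hzK
    obtain ⟨σ', hσ', hcnt⟩ := modify O P K M R S hRes σ₀ hσ₀ z hz hzK
    have h1 := yv_xi O F M P σ' n hsub hF hσ'
    have h2 := yv_xi O F M P σ₀ n hsub hF hσ₀.cfg
    have h3 : ∑ g ∈ P, yv F σ' g * n g = ∑ g ∈ P, yv F σ₀ g * n g + ∑ g ∈ P, z g * n g := by
      rw [← Finset.sum_add_distrib]
      refine Finset.sum_congr rfl (fun g hg => ?_)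
      unfold yv
      rw [hcnt g hg]
      ring
    rw [h3, ← h2] at h1
    rw [← h1]
    exact hgap σ' hσ'
  obtain ⟨g₀, hg₀, hn₀⟩ := hLat.zero
  obtain ⟨g, hg, hn⟩ := hLat.nonc
  have hne : g₀ ≠ g := fun h => hn (by rw [← h]; exact hn₀)
  -- z = a * (δ_g - δ_{g₀})
  have hz : ∀ a : ℤ, |a| ≤ K → j * f - C' ≤ xi n F σ₀ + a * n g ∧
      xi n F σ₀ + a * n g ≤ (j + 1) * f + C' := by
    intro a ha
    have hsum : ∀ φ : ZMod m → ℤ, ∑ x ∈ P, ((if x = g then a else 0) -
        (if x = g₀ then a else 0)) * φ x = a * φ g - a * φ g₀ := by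
      intro φ
      simp only [sub_mul, ite_mul, zero_mul, Finset.sum_sub_distrib, Finset.sum_ite_eq', hg, hg₀,
        if_true]
    have hh := hchange (fun x => (if x = g then a else 0) - (if x = g₀ then a else 0)) (by
      have := hsum (fun _ => 1)
      simp only [mul_one, sub_self] at this
      exact this) (by
      intro x _
      by_cases h1 : x = g
      · have h2 : x ≠ g₀ := fun h => hne (h ▸ h1)
        rw [if_pos h1, if_neg h2, sub_zero]
        exact ha
      · rw [if_neg h1]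
        by_cases h2 : x = g₀
        · rw [if_pos h2, zero_sub, abs_neg]; exact ha
        · rw [if_neg h2, sub_zero, abs_zero]; positivity)
    rw [hsum n, hn₀, mul_zero, sub_zero] at hh
    exact hh
  have hKabs : |((K : ℕ) : ℤ)| ≤ K := by rw [abs_of_nonneg (Int.natCast_nonneg _)]
  have hKabs' : |(-((K : ℕ) : ℤ))| ≤ K := by rw [abs_neg]; exact hKabs
  have hp := hz K hKabs
  have hm' := hz (-K) hKabs'
  have hK0 : (0 : ℤ) ≤ K := Int.natCast_nonneg _
  have hboth : j * f - C' ≤ xi n F σ₀ - K ∧ xi n F σ₀ + K ≤ (j + 1) * f + C' := by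
    rcases lt_or_gt_of_ne hn with hneg | hpos
    · have h1 : (K : ℤ) ≤ - (K * n g) := by nlinarith
      constructor
      · linarith [hp.1]
      · linarith [hm'.2]
    · have h1 : (K : ℤ) ≤ K * n g := by nlinarith
      constructor
      · linarith [hm'.1]
      · linarith [hp.2]
  have hfin : (m : ℤ) ≤ ((160 * q ^ 2 * (C' + 2) : ℕ) : ℤ) * (K - C') := by
    have hmK' : (m : ℤ) ≤ 80 * (q : ℤ) ^ 2 * (K + 1) := by exact_mod_cast hmK.le
    have hKbig' : 2 * ((C' : ℤ) + 2) ≤ K := by exact_mod_cast hKbig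
    have hC0 : (0 : ℤ) ≤ C' := Int.natCast_nonneg _
    have hq0 : (0 : ℤ) < (q : ℤ) ^ 2 := by
      have : (0 : ℤ) < q := by exact_mod_cast hq
      positivity
    push_cast
    refine le_trans hmK' ?_
    have h1 : (K : ℤ) + 1 ≤ 2 * ((C' : ℤ) + 2) * (K - C') := by nlinarith
    calc 80 * (q : ℤ) ^ 2 * (K + 1) ≤ 80 * (q : ℤ) ^ 2 * (2 * ((C' : ℤ) + 2) * (K - C')) := by
          apply mul_le_mul_of_nonneg_left h1 (by positivity)
      _ = 160 * (q : ℤ) ^ 2 * ((C' : ℤ) + 2) * (K - C') := by ring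
  have hcoef : (0 : ℤ) ≤ ((160 * q ^ 2 * (C' + 2) : ℕ) : ℤ) := Int.natCast_nonneg _
  refine ⟨σ₀, hσ₀.cfg, ?_, ?_⟩
  · refine le_trans hfin (mul_le_mul_of_nonneg_left ?_ hcoef)
    linarith [hboth.1]
  · refine le_trans hfin (mul_le_mul_of_nonneg_left ?_ hcoef)
    linarith [hboth.2]

end ZS44129
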