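import Mathlib
import Pool.Agent.Work.MP_44129c_co.Counts
import Pool.Agent.Work.MP_44129c_co.Modify
import Pool.Agent.Work.MP_44129c_co.LatBasic

/-!
# MP_44129c_co, module Near (standard configurations stay away from multiples of f)

Proof.  Suppose `|xi n F σ - i f| ≤ 2 A`.  Let `g₀ ∈ P` with `n g₀ = 0` (`Lat.zero`),
`z g = yv F σ g - (if g = g₀ then m else 0)`.  Then `∑_P z = 0` (`yv_sum`),
`∑_P z g * n g = xi n F σ - m n g₀ = xi n F σ` (`yv_xi`), `∑_P z g • g = tot F σ` (`yv_tot`,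
`m • g₀ = 0`).  `Lat.fill` gives `z'` with `∑ z' = 0`, `∑ z' g • g = tot F σ`, `|z'| ≤ C ≤ K`.
`modify` with `-z'` gives a configuration with total `tot F σ - ∑ z' g • g = 0`, contradicting
`Sys.zf`.
-/

set_option autoImplicit false

namespace ZS44129

open Finset

/-- a standard configuration whose total has a short representation gives a zero sum. -/
theorem no_kill {m q K M : ℕ} {W : Type} [Fintype W] [DecidableEq W]
    (O : W → Finset (ZMod m)) (F : Option (ZMod m)) (P : Finset (ZMod m))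
    (hS : Sys m q O F M P) (R S : ZMod m → Finset W)
    (hRes : Res O P K R S) (σ : W → Option (ZMod m)) (hσ : Std O M P R S σ)
    (z' : ZMod m → ℤ) (h1 : ∑ g ∈ P, z' g = 0) (h2 : ∑ g ∈ P, z' g • g = tot F σ)
    (h3 : ∀ g ∈ P, |z' g| ≤ K) : False := by
  obtain ⟨σ', hσ', hc⟩ := modify O P K M R S hRes σ hσ (fun g => - z' g)
    (by rw [Finset.sum_neg_distrib, h1, neg_zero]) (fun g hg => by rw [abs_neg]; exact h3 g hg)
  apply hS.zf σ' hσ'
  rw [yv_tot O F M P σ' hS.sub hS.forced hσ']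
  have h4 : ∀ g ∈ P, yv F σ' g • g = yv F σ g • g - z' g • g := by
    intro g hg
    have h5 : yv F σ' g = yv F σ g - z' g := by
      rw [yv, yv, hc g hg]; ring
    rw [h5, sub_smul]
  rw [Finset.sum_congr rfl h4, Finset.sum_sub_distrib, h2,
    ← yv_tot O F M P σ hS.sub hS.forced hσ.cfg, sub_self]

/-- the vector of a configuration. -/
theorem conf_vec {m q M : ℕ} {W : Type} [Fintype W] [DecidableEq W]
    (O : W → Finset (ZMod m)) (F : Option (ZMod m)) (P : Finset (ZMod m))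
    (hS : Sys m q O F M P) (σ : W → Option (ZMod m)) (hσ : Cfg O M σ) (g₀ : ZMod m)
    (hg₀ : g₀ ∈ P) :
    ∑ g ∈ P, (yv F σ g - (if g = g₀ then (m : ℤ) else 0)) = 0 ∧
    ∑ g ∈ P, (yv F σ g - (if g = g₀ then (m : ℤ) else 0)) • g = tot F σ ∧
    ∀ n : ZMod m → ℤ, ∑ g ∈ P, (yv F σ g - (if g = g₀ then (m : ℤ) else 0)) * n g =
      xi n F σ - m * n g₀ := by
  refine ⟨?_, ?_, ?_⟩
  · rw [Finset.sum_sub_distrib, yv_sum O F M P σ hS.sub hS.forced hS.Mm hσ, sum_dl hg₀, sub_self]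
  · simp only [sub_smul]
    rw [Finset.sum_sub_distrib, ← yv_tot O F M P σ hS.sub hS.forced hσ, sum_dl_smul hg₀]
    simp [zsmul_eq_mul]
  · intro n
    simp only [sub_mul]
    rw [Finset.sum_sub_distrib, ← yv_xi O F M P σ n hS.sub hS.forced hσ, sum_dl_mul hg₀]

theorem near {m q A C K M : ℕ} {W : Type} [Fintype W] [DecidableEq W]
    (O : W → Finset (ZMod m)) (F : Option (ZMod m)) (P : Finset (ZMod m)) (n : ZMod m → ℤ)
    (f : ℕ) (hS : Sys m q O F M P) (hL : Lat m P A C n f) (R S : ZMod m → Finset W)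
    (hRes : Res O P K R S) (hCK : C ≤ K) (σ : W → Option (ZMod m)) (hσ : Std O M P R S σ)
    (i : ℤ) : 2 * (A : ℤ) < |xi n F σ - i * f| := by
  by_contra hcon
  push Not at hcon
  obtain ⟨g₀, hg₀, hn₀⟩ := hL.zero
  obtain ⟨h1, h2, h3⟩ := conf_vec O F P hS σ hσ.cfg g₀ hg₀
  obtain ⟨z', h4, h5, h6⟩ := hL.fill _ h1 i (by rw [h3 n, hn₀, mul_zero, sub_zero]; exact hcon)
  exact no_kill O F P hS R S hRes σ hσ z' h4 (h5.trans h2)
    (fun g hg => (h6 g hg).trans (by exact_mod_cast hCK))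

end ZS44129
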