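import Mathlib
import Pool.Agent.Work.MP_44129c_co.Reserve
import Pool.Agent.Work.MP_44129c_co.Counts
import Pool.Agent.Work.MP_44129c_co.Modify
import Pool.Agent.Work.MP_44129c_co.StdEx
import Pool.Agent.Work.MP_44129c_co.Near

/-!
# MP_44129c_co, module FullFalse (a full palette produces a zero sum)

Proof.  `|P| ≤ 4q`.
1. `res_exists` with `K = k`: `q (|P| 2 k) ≤ 8 q^2 k ≤ m ≤ q #{w : g ∈ O w}`, so
   `|P| (2k) ≤ #{w : g ∈ O w}` (cancel `q > 0`).
2. `std_exists`: `|P| k ≤ 4 q k ≤ m/2 ≤ M` (`80 q^2 k ≤ m`, `M + 1 ≥ m ≥ 2`) and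
   `M + 2 |P| k ≤ m + 8 q k ≤ m + m/10 ≤ #slots` (`80 q k ≤ 80 q^2 k ≤ m`).  So there is a
   standard configuration `σ`.
3. Let `g₀ ∈ P`, `z g = yv F σ g - (if g = g₀ then m else 0)`: `∑_P z = 0` (`yv_sum`),
   `∑_P z g • g = tot F σ - m • g₀ = tot F σ` (`yv_tot`, `m • g₀ = 0` in `ZMod m`).
   `Full` gives `z'` with `∑ z' = 0`, `∑ z' g • g = tot F σ`, `|z'| ≤ k`.
4. `modify` with `-z'`: a configuration `σ'` with `cnt σ' g = cnt σ g - z' g`, so
   `yv F σ' g = yv F σ g - z' g` and `tot F σ' = tot F σ - ∑ z' g • g = 0`, contradicting `zf`.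
-/

set_option autoImplicit false

namespace ZS44129

open Finset

theorem full_false {m q k : ℕ} {W : Type} [Fintype W] [DecidableEq W]
    (O : W → Finset (ZMod m)) (F : Option (ZMod m)) (M : ℕ) (P : Finset (ZMod m))
    (hq : 0 < q) (hm : 2 ≤ m) (hk : 80 * q ^ 2 * k ≤ m) (hS : Sys m q O F M P)
    (hfull : Full m P k) : False := by
  have hPk : P.card * k ≤ 4 * q * k := Nat.mul_le_mul_right _ hS.pal
  have hqq : q * k ≤ q ^ 2 * k := by
    apply Nat.mul_le_mul_right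
    nlinarith
  obtain ⟨R, S, hRes⟩ := res_exists O P k (by
    intro g hg
    have h1 := hS.mult g hg
    have h2 : q * (P.card * (2 * k)) ≤ q * (univ.filter (fun w => g ∈ O w)).card := by
      refine le_trans ?_ h1
      calc q * (P.card * (2 * k)) = (2 * q) * (P.card * k) := by ring
        _ ≤ (2 * q) * (4 * q * k) := Nat.mul_le_mul_left _ hPk
        _ = 8 * (q ^ 2 * k) := by ring
        _ ≤ m := by nlinarith
    exact Nat.le_of_mul_le_mul_left h2 hq)
  have hMm := hS.Mm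
  have hM1 : m ≤ M + 1 := by
    split_ifs at hMm <;> omega
  have hM2 : M ≤ m := by omega
  have h20 : 20 * (P.card * k) ≤ m := by nlinarith
  have hslots := hS.slots
  obtain ⟨σ, hσ⟩ := std_exists O P k M R S hRes (by omega) (by omega)
  obtain ⟨g₀, hg₀⟩ := hS.ne
  obtain ⟨h1, h2, _⟩ := conf_vec O F P hS σ hσ.cfg g₀ hg₀
  obtain ⟨z', h4, h5, h6⟩ := hfull _ h1
  exact no_kill O F P hS R S hRes σ hσ z' h4 (h5.trans h2) h6

end ZS44129
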