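import Mathlib
import Pool.Agent.Work.MP_44129c_co.Defs

/-!
# MP_44129c_co, module Conn (all standard configurations lie in the same gap)
-/

set_option autoImplicit false

namespace ZS44129

open Finset

theorem conn_xi_update {m : ℕ} {W : Type} [Fintype W] [DecidableEq W]
    (n : ZMod m → ℤ) (F : Option (ZMod m)) (σ : W → Option (ZMod m)) (w : W)
    (o : Option (ZMod m)) :
    xi n F (Function.update σ w o) = xi n F σ - ov n (σ w) + ov n o := by
  unfold xi
  rw [← Finset.add_sum_erase univ (fun x => ov n (Function.update σ w o x)) (mem_univ w),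
    ← Finset.add_sum_erase univ (fun x => ov n (σ x)) (mem_univ w)]
  have h : ∑ x ∈ univ.erase w, ov n (Function.update σ w o x) =
      ∑ x ∈ univ.erase w, ov n (σ x) := by
    refine Finset.sum_congr rfl (fun x hx => ?_)
    rw [Function.update_of_ne (ne_of_mem_erase hx)]
  rw [h, Function.update_self]
  ring

theorem conn_step {m A M : ℕ} {W : Type} [Fintype W] [DecidableEq W]
    (O : W → Finset (ZMod m)) (F : Option (ZMod m)) (P : Finset (ZMod m)) (n : ZMod m → ℤ)
    (R S : ZMod m → Finset W) (hsub : ∀ w, O w ⊆ P)
    (hb : ∀ g ∈ P, |n g| ≤ A)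
    (σ σ' : W → Option (ZMod m)) (h : Std O M P R S σ) (h' : Std O M P R S σ')
    (hne : σ ≠ σ') :
    ∃ σ'' : W → Option (ZMod m), Std O M P R S σ'' ∧
      (univ.filter (fun w => σ'' w ≠ σ' w)).card < (univ.filter (fun w => σ w ≠ σ' w)).card ∧
      |xi n F σ'' - xi n F σ| ≤ 2 * (A : ℤ) := by
  classical
  by_cases hcase : ∃ w g g', σ w = some g ∧ σ' w = some g' ∧ g ≠ g'
  · obtain ⟨w, g, g', hg, hg', hgg⟩ := hcase
    have hw : σ w ≠ σ' w := by
      rw [hg, hg']; intro hh; exact hgg (Option.some.inj hh)
    have hgO := h.cfg.mem w g hg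
    have hgO' := h'.cfg.mem w g' hg'
    refine ⟨Function.update σ w (some g'), ⟨⟨?_, ?_⟩, ?_, ?_⟩, ?_, ?_⟩
    · intro x y hxy
      by_cases hx : x = w
      · subst hx
        rw [Function.update_self] at hxy
        rw [← Option.some.inj hxy]
        exact hgO'
      · rw [Function.update_of_ne hx] at hxy
        exact h.cfg.mem x y hxy
    · rw [← h.cfg.card]
      congr 1
      ext x
      simp only [mem_filter, mem_univ, true_and]
      by_cases hx : x = w
      · subst hx
        rw [Function.update_self, hg]
        simp
      · rw [Function.update_of_ne hx]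
    · intro y hy x hx
      have hxw : x ≠ w := by
        intro hxw; subst hxw
        exact hw ((h.onR y hy x hx).trans (h'.onR y hy x hx).symm)
      rw [Function.update_of_ne hxw]
      exact h.onR y hy x hx
    · intro y hy x hx
      have hxw : x ≠ w := by
        intro hxw; subst hxw
        exact hw ((h.onS y hy x hx).trans (h'.onS y hy x hx).symm)
      rw [Function.update_of_ne hxw]
      exact h.onS y hy x hx
    · apply Finset.card_lt_card
      rw [Finset.ssubset_iff_of_subset]
      · refine ⟨w, mem_filter.mpr ⟨mem_univ _, hw⟩, ?_⟩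
        intro hmem
        exact (mem_filter.mp hmem).2 (by rw [Function.update_self, hg'])
      · intro x hx
        have hx2 := (mem_filter.mp hx).2
        refine mem_filter.mpr ⟨mem_univ _, ?_⟩
        by_cases hxw : x = w
        · subst hxw; exact hw
        · rwa [Function.update_of_ne hxw] at hx2
    · rw [conn_xi_update, hg]
      have e1 : ov n (some g) = n g := rfl
      have e2 : ov n (some g') = n g' := rfl
      rw [e1, e2]
      have b1 := abs_le.mp (hb g (hsub w hgO))
      have b2 := abs_le.mp (hb g' (hsub w hgO'))
      rw [abs_le]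
      constructor <;> linarith
  · push Not at hcase
    set P1 := univ.filter (fun w => (σ w).isSome = true) with hP1
    set P2 := univ.filter (fun w => (σ' w).isSome = true) with hP2
    have hcard : P1.card = P2.card := by rw [hP1, hP2, h.cfg.card, h'.cfg.card]
    have hsd : (P1 \ P2).card = (P2 \ P1).card := Finset.card_sdiff_comm hcard
    have hne1 : (P1 \ P2).Nonempty := by
      rw [Finset.nonempty_iff_ne_empty]
      intro hemp
      rw [hemp, Finset.card_empty] at hsd
      have hemp2 : P2 \ P1 = ∅ := Finset.card_eq_zero.mp hsd.symm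
      apply hne
      funext x
      cases hx : σ x with
      | none =>
        cases hx' : σ' x with
        | none => rfl
        | some y =>
          exfalso
          have : x ∈ P2 \ P1 := by
            rw [mem_sdiff, hP2, hP1, mem_filter, mem_filter, hx, hx']
            simp
          rw [hemp2] at this
          exact notMem_empty _ this
      | some y =>
        cases hx' : σ' x with
        | none =>
          exfalso
          have : x ∈ P1 \ P2 := by
            rw [mem_sdiff, hP2, hP1, mem_filter, mem_filter, hx, hx']
            simp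
          rw [hemp] at this
          exact notMem_empty _ this
        | some y' =>
          rw [hcase x y y' hx hx']
    have hne2 : (P2 \ P1).Nonempty := by
      rw [← Finset.card_pos, ← hsd, Finset.card_pos]
      exact hne1
    obtain ⟨w, hw⟩ := hne1
    obtain ⟨w', hw'⟩ := hne2
    rw [mem_sdiff, hP1, hP2, mem_filter, mem_filter] at hw hw'
    obtain ⟨g, hg⟩ : ∃ g, σ w = some g := Option.isSome_iff_exists.mp hw.1.2
    obtain ⟨g', hg'⟩ : ∃ g, σ' w' = some g := Option.isSome_iff_exists.mp hw'.1.2
    have hn : σ' w = none := by
      cases hx : σ' w with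
      | none => rfl
      | some y => exact absurd ⟨mem_univ _, by rw [hx]; rfl⟩ hw.2
    have hn' : σ w' = none := by
      cases hx : σ w' with
      | none => rfl
      | some y => exact absurd ⟨mem_univ _, by rw [hx]; rfl⟩ hw'.2
    have hww : w' ≠ w := by
      intro hh; rw [hh, hg] at hn'; exact absurd hn' (by simp)
    have hdw : σ w ≠ σ' w := by rw [hg, hn]; simp
    have hdw' : σ w' ≠ σ' w' := by rw [hg', hn']; simp
    have hgO := h.cfg.mem w g hg
    have hgO' := h'.cfg.mem w' g' hg'
    have hother : ∀ x, x ≠ w → x ≠ w' →
        Function.update (Function.update σ w none) w' (some g') x = σ x := by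
      intro x hx hx'
      rw [Function.update_of_ne hx', Function.update_of_ne hx]
    have hatw : Function.update (Function.update σ w none) w' (some g') w = none := by
      rw [Function.update_of_ne hww.symm, Function.update_self]
    have hatw' : Function.update (Function.update σ w none) w' (some g') w' = some g' := by
      rw [Function.update_self]
    refine ⟨Function.update (Function.update σ w none) w' (some g'), ⟨⟨?_, ?_⟩, ?_, ?_⟩, ?_, ?_⟩
    · intro x y hxy
      by_cases hx' : x = w'
      · subst hx'
        rw [hatw'] at hxy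
        rw [← Option.some.inj hxy]
        exact hgO'
      · by_cases hx : x = w
        · subst hx
          rw [hatw] at hxy
          exact absurd hxy (by simp)
        · rw [hother x hx hx'] at hxy
          exact h.cfg.mem x y hxy
    · have hset : (univ.filter (fun x => (Function.update (Function.update σ w none) w'
          (some g') x).isSome = true)) = insert w' (P1.erase w) := by
        ext x
        rw [mem_filter, mem_insert, mem_erase, hP1, mem_filter]
        by_cases hx' : x = w'
        · subst hx'
          rw [hatw']
          simp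
        · by_cases hx : x = w
          · subst hx
            rw [hatw]
            simp [hx']
          · rw [hother x hx hx']
            simp [hx, hx']
      rw [hset, Finset.card_insert_of_notMem, Finset.card_erase_of_mem, h.cfg.card]
      · have hpos : 0 < P1.card := Finset.card_pos.mpr ⟨w, by rw [hP1, mem_filter]; exact hw.1⟩
        rw [h.cfg.card] at hpos
        omega
      · rw [hP1, mem_filter]; exact hw.1
      · rw [mem_erase, hP1, mem_filter, hn']
        simp
    · intro y hy x hx
      have hxw : x ≠ w := by
        intro hxw; subst hxw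
        exact hdw ((h.onR y hy x hx).trans (h'.onR y hy x hx).symm)
      have hxw' : x ≠ w' := by
        intro hxw; subst hxw
        exact hdw' ((h.onR y hy x hx).trans (h'.onR y hy x hx).symm)
      rw [hother x hxw hxw']
      exact h.onR y hy x hx
    · intro y hy x hx
      have hxw : x ≠ w := by
        intro hxw; subst hxw
        exact hdw ((h.onS y hy x hx).trans (h'.onS y hy x hx).symm)
      have hxw' : x ≠ w' := by
        intro hxw; subst hxw
        exact hdw' ((h.onS y hy x hx).trans (h'.onS y hy x hx).symm)
      rw [hother x hxw hxw']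
      exact h.onS y hy x hx
    · apply Finset.card_lt_card
      rw [Finset.ssubset_iff_of_subset]
      · refine ⟨w, mem_filter.mpr ⟨mem_univ _, hdw⟩, ?_⟩
        intro hmem
        exact (mem_filter.mp hmem).2 (by rw [hatw, hn])
      · intro x hx
        have hx2 := (mem_filter.mp hx).2
        refine mem_filter.mpr ⟨mem_univ _, ?_⟩
        by_cases hxw' : x = w'
        · subst hxw'; exact hdw'
        · by_cases hxw : x = w
          · subst hxw; exact hdw
          · rwa [hother x hxw hxw'] at hx2
    · rw [conn_xi_update, conn_xi_update, Function.update_of_ne hww, hn', hg]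
      have e1 : ov n (some g) = n g := rfl
      have e2 : ov n (some g') = n g' := rfl
      have e3 : ov n (none : Option (ZMod m)) = 0 := rfl
      rw [e1, e2, e3]
      have b1 := abs_le.mp (hb g (hsub w hgO))
      have b2 := abs_le.mp (hb g' (hsub w' hgO'))
      rw [abs_le]
      constructor <;> linarith

theorem conn_claim {m A M : ℕ} {W : Type} [Fintype W] [DecidableEq W]
    (O : W → Finset (ZMod m)) (F : Option (ZMod m)) (P : Finset (ZMod m)) (n : ZMod m → ℤ)
    (f : ℕ) (R S : ZMod m → Finset W) (hsub : ∀ w, O w ⊆ P)
    (hb : ∀ g ∈ P, |n g| ≤ A)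
    (hnear : ∀ σ : W → Option (ZMod m), Std O M P R S σ → ∀ i : ℤ,
      2 * (A : ℤ) < |xi n F σ - i * f|) (i : ℤ)
    (σ' : W → Option (ZMod m)) (h' : Std O M P R S σ') :
    ∀ (d : ℕ) (σ : W → Option (ZMod m)), Std O M P R S σ →
      (univ.filter (fun w => σ w ≠ σ' w)).card = d → xi n F σ < i * f → xi n F σ' < i * f := by
  intro d
  induction d using Nat.strong_induction_on with
  | _ d ih =>
    intro σ h hd hlt
    by_cases hne : σ = σ'
    · rw [← hne]; exact hlt
    · obtain ⟨σ'', h'', hcard, habs⟩ := conn_step O F P n R S hsub hb σ σ' h h' hne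
      refine ih _ (hd ▸ hcard) σ'' h'' rfl ?_
      by_contra hge
      rw [not_lt] at hge
      have h1 := hnear σ'' h'' i
      rw [abs_of_nonneg (by linarith)] at h1
      have h2 := (abs_le.mp habs).2
      linarith

theorem conn {m A M : ℕ} {W : Type} [Fintype W] [DecidableEq W]
    (O : W → Finset (ZMod m)) (F : Option (ZMod m)) (P : Finset (ZMod m)) (n : ZMod m → ℤ)
    (f : ℕ) (hf : 0 < f) (R S : ZMod m → Finset W) (hsub : ∀ w, O w ⊆ P)
    (hb : ∀ g ∈ P, |n g| ≤ A)
    (hnear : ∀ σ : W → Option (ZMod m), Std O M P R S σ → ∀ i : ℤ,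
      2 * (A : ℤ) < |xi n F σ - i * f|)
    (σ₀ : W → Option (ZMod m)) (h₀ : Std O M P R S σ₀) :
    ∃ j : ℤ, ∀ σ : W → Option (ZMod m), Std O M P R S σ →
      j * f < xi n F σ ∧ xi n F σ < (j + 1) * f := by
  have hfz : (0 : ℤ) < f := by exact_mod_cast hf
  refine ⟨xi n F σ₀ / f, fun σ h => ?_⟩
  have hlow : xi n F σ₀ / f * f ≤ xi n F σ₀ := Int.ediv_mul_le _ hfz.ne'
  have hup : xi n F σ₀ < (xi n F σ₀ / f + 1) * f := Int.lt_ediv_add_one_mul_self _ hfz
  constructor
  · have hge : xi n F σ₀ / f * f ≤ xi n F σ := by
      by_contra hlt
      rw [not_le] at hlt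
      have := conn_claim O F P n f R S hsub hb hnear (xi n F σ₀ / f) σ₀ h₀ _ σ h rfl hlt
      linarith
    refine lt_of_le_of_ne hge (fun heq => ?_)
    have := hnear σ h (xi n F σ₀ / f)
    rw [heq, sub_self, abs_zero] at this
    have hA : (0 : ℤ) ≤ A := Int.natCast_nonneg _
    linarith
  · exact conn_claim O F P n f R S hsub hb hnear (xi n F σ₀ / f + 1) σ h _ σ₀ h₀ rfl hup

end ZS44129
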