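import Mathlib
import Pool.Agent.Work.MP_44129c_co.Defs

/-!
# MP_44129c_co, module NearAny (every configuration is close to a standard one)
-/

set_option autoImplicit false

namespace ZS44129

open Finset

/-- the slots where `σ` and `σ'` differ control the difference of `xi`. -/
theorem xi_diff_le {m A : ℕ} {W : Type} [Fintype W] [DecidableEq W]
    (P : Finset (ZMod m)) (n : ZMod m → ℤ) (F : Option (ZMod m))
    (hb : ∀ g ∈ P, |n g| ≤ A) (σ σ' : W → Option (ZMod m))
    (hσ : ∀ w g, σ w = some g → g ∈ P) (hσ' : ∀ w g, σ' w = some g → g ∈ P)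
    (D : Finset W) (hD : ∀ w, w ∉ D → σ' w = σ w) :
    |xi n F σ' - xi n F σ| ≤ 2 * A * D.card := by
  have hov : ∀ (τ : W → Option (ZMod m)), (∀ w g, τ w = some g → g ∈ P) → ∀ w,
      |ov n (τ w)| ≤ A := by
    intro τ hτ w
    cases hw : τ w with
    | none => simp [ov]
    | some g => exact hb g (hτ w g hw)
  unfold xi
  have h1 : ov n F + ∑ w, ov n (σ' w) - (ov n F + ∑ w, ov n (σ w)) =
      ∑ w, (ov n (σ' w) - ov n (σ w)) := by
    rw [Finset.sum_sub_distrib]; ring
  rw [h1]
  have h2 : ∑ w, (ov n (σ' w) - ov n (σ w)) = ∑ w ∈ D, (ov n (σ' w) - ov n (σ w)) := by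
    symm
    apply Finset.sum_subset (subset_univ D)
    intro w _ hw
    rw [hD w hw, sub_self]
  rw [h2]
  calc |∑ w ∈ D, (ov n (σ' w) - ov n (σ w))| ≤ ∑ w ∈ D, |ov n (σ' w) - ov n (σ w)| :=
        Finset.abs_sum_le_sum_abs _ _
    _ ≤ ∑ w ∈ D, (2 * A : ℤ) := by
        refine Finset.sum_le_sum (fun w _ => ?_)
        have a1 := abs_le.mp (hov σ hσ w)
        have a2 := abs_le.mp (hov σ' hσ' w)
        rw [abs_le]
        constructor <;> linarith
    _ = 2 * A * D.card := by rw [Finset.sum_const, nsmul_eq_mul]; ring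

theorem near_any {m A K M : ℕ} {W : Type} [Fintype W] [DecidableEq W]
    (O : W → Finset (ZMod m)) (F : Option (ZMod m)) (P : Finset (ZMod m)) (n : ZMod m → ℤ)
    (R S : ZMod m → Finset W) (hRes : Res O P K R S) (hsub : ∀ w, O w ⊆ P)
    (hb : ∀ g ∈ P, |n g| ≤ A) (hM : P.card * K ≤ M)
    (hslots : M + 4 * (P.card * K) ≤ (univ.filter (fun w => (O w).Nonempty)).card)
    (σ : W → Option (ZMod m)) (hσ : Cfg O M σ) :
    ∃ σ' : W → Option (ZMod m), Std O M P R S σ' ∧
      |xi n F σ' - xi n F σ| ≤ 6 * A * (P.card * K) := by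
  classical
  set ZR : Finset W := P.biUnion R with hZR
  set ZS : Finset W := P.biUnion S with hZS
  have hZRc : ZR.card = P.card * K := by
    rw [hZR, Finset.card_biUnion (fun g hg h hh hgh => hRes.disRR g hg h hh hgh)]
    rw [Finset.sum_congr rfl (fun g hg => hRes.cardR g hg), Finset.sum_const, smul_eq_mul]
  have hZSc : ZS.card = P.card * K := by
    rw [hZS, Finset.card_biUnion (fun g hg h hh hgh => hRes.disSS g hg h hh hgh)]
    rw [Finset.sum_congr rfl (fun g hg => hRes.cardS g hg), Finset.sum_const, smul_eq_mul]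
  have hdis : Disjoint ZR ZS := by
    rw [hZR, hZS, Finset.disjoint_biUnion_left]
    intro g hg
    rw [Finset.disjoint_biUnion_right]
    intro h hh
    exact hRes.disRS g hg h hh
  set Z : Finset W := ZR ∪ ZS with hZ
  have hZc : Z.card = 2 * (P.card * K) := by
    rw [hZ, Finset.card_union_of_disjoint hdis, hZRc, hZSc]; ring
  set Pk : Finset W := univ.filter (fun w => (σ w).isSome = true) with hPk
  have hPkc : Pk.card = M := hσ.card
  set P0 : Finset W := Pk \ Z with hP0
  set Sl : Finset W := univ.filter (fun w => (O w).Nonempty) with hSl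
  set Av : Finset W := Sl \ Z with hAv
  have hP0Av : P0 ⊆ Av := by
    intro w hw
    rw [hP0, mem_sdiff] at hw
    rw [hAv, mem_sdiff]
    refine ⟨?_, hw.2⟩
    obtain ⟨g, hg⟩ := Option.isSome_iff_exists.mp (mem_filter.mp hw.1).2
    rw [hSl, mem_filter]
    exact ⟨mem_univ _, ⟨g, hσ.mem w g hg⟩⟩
  have hAvc : M + 2 * (P.card * K) ≤ Av.card := by
    have := Finset.le_card_sdiff Z Sl
    rw [← hAv, hZc] at this
    omega
  have hP0le : P0.card ≤ M := by
    rw [← hPkc]; exact Finset.card_le_card sdiff_subset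
  have hP0ge : M - 2 * (P.card * K) ≤ P0.card := by
    have := Finset.le_card_sdiff Z Pk
    rw [← hP0, hZc, hPkc] at this
    exact this
  obtain ⟨T, hTAv, hTc, hTP⟩ : ∃ T : Finset W, T ⊆ Av ∧ T.card = M - P.card * K ∧
      (T \ P0 ∪ P0 \ T).card ≤ P.card * K := by
    rcases le_total (M - P.card * K) P0.card with hle | hle
    · obtain ⟨T, hT, hTc⟩ := Finset.exists_subset_card_eq hle
      refine ⟨T, hT.trans hP0Av, hTc, ?_⟩
      rw [Finset.sdiff_eq_empty_iff_subset.mpr hT, Finset.empty_union,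
        Finset.card_sdiff_of_subset hT, hTc]
      omega
    · obtain ⟨T, hT1, hT2, hTc⟩ := Finset.exists_subsuperset_card_eq hP0Av hle (by omega)
      refine ⟨T, hT2, hTc, ?_⟩
      rw [Finset.sdiff_eq_empty_iff_subset.mpr hT1, Finset.union_empty,
        Finset.card_sdiff_of_subset hT1, hTc]
      omega
  have hTZ : ∀ w ∈ T, w ∉ Z := by
    intro w hw
    have := hTAv hw
    rw [hAv, mem_sdiff] at this
    exact this.2
  have hTO : ∀ w ∈ T, (O w).Nonempty := by
    intro w hw
    have := hTAv hw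
    rw [hAv, mem_sdiff, hSl, mem_filter] at this
    exact this.1.2
  -- choice functions
  have hRch : ∀ w, ∃ g, w ∈ ZR → g ∈ P ∧ w ∈ R g := by
    intro w
    by_cases hw : w ∈ ZR
    · rw [hZR, mem_biUnion] at hw
      obtain ⟨g, hg, hwg⟩ := hw
      exact ⟨g, fun _ => ⟨hg, hwg⟩⟩
    · exact ⟨0, fun h => absurd h hw⟩
  choose ρ hρ using hRch
  have hOch : ∀ w, ∃ o : Option (ZMod m), (σ w ≠ none → o = σ w) ∧
      ((O w).Nonempty → ∃ g ∈ O w, o = some g) := by
    intro w
    cases hw : σ w with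
    | none =>
      by_cases hO : (O w).Nonempty
      · obtain ⟨g, hg⟩ := hO
        exact ⟨some g, fun h => absurd rfl h, fun _ => ⟨g, hg, rfl⟩⟩
      · exact ⟨none, fun _ => rfl, fun h => absurd h hO⟩
    | some g =>
      exact ⟨some g, fun _ => rfl, fun _ => ⟨g, hσ.mem w g hw, rfl⟩⟩
  choose ω hω1 hω2 using hOch
  set σ' : W → Option (ZMod m) := fun w => if w ∈ ZR then some (ρ w) else
    if w ∈ T then ω w else none with hσ'
  have hR' : ∀ w ∈ ZR, σ' w = some (ρ w) := fun w hw => by rw [hσ']; simp [hw]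
  have hT' : ∀ w ∈ T, σ' w = ω w := fun w hw => by
    have h1 : w ∉ ZR := fun h => hTZ w hw (by rw [hZ]; exact mem_union_left _ h)
    rw [hσ']; simp [hw, h1]
  have hN' : ∀ w, w ∉ ZR → w ∉ T → σ' w = none := fun w h1 h2 => by
    rw [hσ']; simp [h1, h2]
  have hstd : Std O M P R S σ' := by
    refine ⟨⟨?_, ?_⟩, ?_, ?_⟩
    · intro w g hw
      by_cases h1 : w ∈ ZR
      · rw [hR' w h1] at hw
        rw [← Option.some.inj hw]
        exact hRes.optR _ (hρ w h1).1 w (hρ w h1).2
      · by_cases h2 : w ∈ T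
        · rw [hT' w h2] at hw
          obtain ⟨g', hg', he⟩ := hω2 w (hTO w h2)
          rw [he] at hw
          rw [← Option.some.inj hw]
          exact hg'
        · rw [hN' w h1 h2] at hw
          exact absurd hw (by simp)
    · have hset : univ.filter (fun w => (σ' w).isSome = true) = ZR ∪ T := by
        ext w
        rw [mem_filter, mem_union]
        by_cases h1 : w ∈ ZR
        · rw [hR' w h1]; simp [h1]
        · by_cases h2 : w ∈ T
          · obtain ⟨g', _, he⟩ := hω2 w (hTO w h2)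
            rw [hT' w h2, he]; simp [h2]
          · rw [hN' w h1 h2]; simp [h1, h2]
      rw [hset, Finset.card_union_of_disjoint, hZRc, hTc]
      · omega
      · rw [Finset.disjoint_right]
        intro w hw hwR
        exact hTZ w hw (by rw [hZ]; exact mem_union_left _ hwR)
    · intro g hg w hw
      have h1 : w ∈ ZR := by rw [hZR, mem_biUnion]; exact ⟨g, hg, hw⟩
      rw [hR' w h1]
      congr 1
      by_contra hne
      exact (Finset.disjoint_left.mp (hRes.disRR _ (hρ w h1).1 g hg hne)) (hρ w h1).2 hw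
    · intro g hg w hw
      have h1 : w ∈ ZS := by rw [hZS, mem_biUnion]; exact ⟨g, hg, hw⟩
      refine hN' w (fun h => (Finset.disjoint_left.mp hdis) h h1) (fun h => ?_)
      exact hTZ w h (by rw [hZ]; exact mem_union_right _ h1)
  refine ⟨σ', hstd, ?_⟩
  have hmem : ∀ w g, σ w = some g → g ∈ P := fun w g h => hsub w (hσ.mem w g h)
  have hmem' : ∀ w g, σ' w = some g → g ∈ P := fun w g h => hsub w (hstd.cfg.mem w g h)
  have hdiff := xi_diff_le (A := A) P n F hb σ σ' hmem hmem' (Z ∪ (T \ P0 ∪ P0 \ T)) (by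
    intro w hw
    have hwZ : w ∉ Z := fun h => hw (mem_union_left _ h)
    have hw1 : ¬ (w ∈ T ∧ w ∉ P0) := fun h =>
      hw (mem_union_right _ (mem_union_left _ (mem_sdiff.mpr h)))
    have hw2 : ¬ (w ∈ P0 ∧ w ∉ T) := fun h =>
      hw (mem_union_right _ (mem_union_right _ (mem_sdiff.mpr h)))
    have hwR : w ∉ ZR := fun h => hwZ (by rw [hZ]; exact mem_union_left _ h)
    by_cases hwT : w ∈ T
    · have hwP : w ∈ P0 := by
        by_contra h; exact hw1 ⟨hwT, h⟩
      rw [hT' w hwT]
      apply hω1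
      rw [hP0, mem_sdiff, hPk, mem_filter] at hwP
      intro hnone
      rw [hnone] at hwP
      simp at hwP
    · have hwP : w ∉ P0 := by
        intro h; exact hw2 ⟨h, hwT⟩
      rw [hN' w hwR hwT]
      rw [hP0, mem_sdiff, hPk, mem_filter] at hwP
      cases hs : σ w with
      | none => rfl
      | some g =>
        exfalso
        exact hwP ⟨⟨mem_univ _, by rw [hs]; rfl⟩, hwZ⟩)
  have hDc : (Z ∪ (T \ P0 ∪ P0 \ T)).card ≤ 3 * (P.card * K) := by
    have := Finset.card_union_le Z (T \ P0 ∪ P0 \ T)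
    omega
  have hDc' : (((Z ∪ (T \ P0 ∪ P0 \ T)).card : ℕ) : ℤ) ≤ 3 * (P.card * K) := by
    exact_mod_cast hDc
  calc |xi n F σ' - xi n F σ| ≤ 2 * A * (Z ∪ (T \ P0 ∪ P0 \ T)).card := hdiff
    _ ≤ 2 * A * (3 * (P.card * K)) := by
        apply mul_le_mul_of_nonneg_left hDc'
        positivity
    _ = 6 * A * (P.card * K) := by ring

end ZS44129
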