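import Mathlib
import Pool.Agent.Work.MP_44129c_co.Reserve
import Pool.Agent.Work.MP_44129c_co.StdEx
import Pool.Agent.Work.MP_44129c_co.Near
import Pool.Agent.Work.MP_44129c_co.Conn
import Pool.Agent.Work.MP_44129c_co.NearAny

/-!
# MP_44129c_co, module GapThm (all configurations lie in one gap, up to a constant)

Proof.  `K = C`, `C' = 24 A q C + 160 q^2 C + 2` (or larger).  For `m ≥ C'`:
`res_exists` (`q (|P| 2 C) ≤ 8 q^2 C ≤ m ≤ q #{..}`, cancel `q`), `std_exists` and `near_any`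
(`|P| C ≤ 4 q C ≤ m - 1 ≤ M`, `M + 4 |P| C ≤ m + 16 q C ≤ m + m/10 ≤ #slots`),
`near` (`C ≤ K`), `conn` give `j` with `j f < xi n F σ' < (j+1) f` for all standard `σ'`, and
every configuration `σ` has a standard `σ'` with `|xi σ' - xi σ| ≤ 6 A |P| C ≤ 24 A q C ≤ C'`.
-/

set_option autoImplicit false

namespace ZS44129

open Finset

theorem gap_thm (q A C : ℕ) (hq : 0 < q) : ∃ C' : ℕ, ∀ m : ℕ, C' ≤ m →
    ∀ {W : Type} [Fintype W] [DecidableEq W] (O : W → Finset (ZMod m)) (F : Option (ZMod m))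
      (M : ℕ) (P : Finset (ZMod m)) (n : ZMod m → ℤ) (f : ℕ),
      Sys m q O F M P → Lat m P A C n f →
      ∃ j : ℤ, ∀ σ, Cfg O M σ → j * f - C' ≤ xi n F σ ∧ xi n F σ ≤ (j + 1) * f + C' := by
  refine ⟨24 * A * q * C + 160 * q ^ 2 * C + 2, ?_⟩
  intro m hm W _ _ O F M P n f hS hL
  have hPC : P.card * C ≤ 4 * q * C := Nat.mul_le_mul_right _ hS.pal
  have hqq : q * C ≤ q ^ 2 * C := by
    apply Nat.mul_le_mul_right
    nlinarith
  have h0 : 0 ≤ 24 * A * q * C := Nat.zero_le _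
  have h160 : 160 * (q ^ 2 * C) + 2 ≤ m := by nlinarith
  obtain ⟨R, S, hRes⟩ := res_exists O P C (by
    intro g hg
    have h1 := hS.mult g hg
    have h2 : q * (P.card * (2 * C)) ≤ q * (univ.filter (fun w => g ∈ O w)).card := by
      refine le_trans ?_ h1
      calc q * (P.card * (2 * C)) = (2 * q) * (P.card * C) := by ring
        _ ≤ (2 * q) * (4 * q * C) := Nat.mul_le_mul_left _ hPC
        _ = 8 * (q ^ 2 * C) := by ring
        _ ≤ m := by omega
    exact Nat.le_of_mul_le_mul_left h2 hq)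
  have hMm := hS.Mm
  have hM1 : m ≤ M + 1 := by
    split_ifs at hMm <;> omega
  have hM2 : M ≤ m := by omega
  have h40 : 40 * (P.card * C) + 2 ≤ m := by nlinarith
  have hslots := hS.slots
  obtain ⟨σ₀, hσ₀⟩ := std_exists O P C M R S hRes (by omega) (by omega)
  have hnear : ∀ σ : W → Option (ZMod m), Std O M P R S σ → ∀ i : ℤ,
      2 * (A : ℤ) < |xi n F σ - i * f| := fun σ hσ i =>
    near O F P n f hS hL R S hRes le_rfl σ hσ i
  obtain ⟨j, hj⟩ := conn O F P n f hL.fpos R S hS.sub hL.bound hnear σ₀ hσ₀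
  refine ⟨j, ?_⟩
  intro σ hσ
  obtain ⟨σ', hσ', hd⟩ := near_any O F P n R S hRes hS.sub hL.bound (by omega) (by omega) σ hσ
  obtain ⟨h1, h2⟩ := hj σ' hσ'
  have h3 : (6 * A * (P.card * C) : ℤ) ≤ 24 * A * q * C := by
    have : (6 * A) * (P.card * C) ≤ (6 * A) * (4 * q * C) := Nat.mul_le_mul_left _ hPC
    have h4 : ((6 * A * (P.card * C) : ℕ) : ℤ) ≤ ((6 * A * (4 * q * C) : ℕ) : ℤ) := by
      exact_mod_cast this
    push_cast at h4
    linarith
  have h5 := abs_le.1 (hd.trans h3)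
  push_cast
  have h6 : (0 : ℤ) ≤ 160 * q ^ 2 * C := by positivity
  constructor
  · linarith [h5.2]
  · linarith [h5.1]

end ZS44129
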