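import Mathlib
import Pool.Agent.Work.MP_44129c_co.Reserve
import Pool.Agent.Work.MP_44129c_co.Counts
import Pool.Agent.Work.MP_44129c_co.Modify
import Pool.Agent.Work.MP_44129c_co.StdEx

/-!
# MP_44129c_co, module HighCount (if the forced colour is high, few slots have a high option)

Proof.  `K = 4 q C`, `C'' = 80 q^2 K + 10 q (C' + 2) + 10` or larger (`q ≥ 1`).  Let
`P* = {g ∈ P : (j+1) f ≤ m n g}` (contains `g₁`), `O* w = O w ∩ P*`,
`𝒜 = {w : ∃ x ∈ O w, (j+1) f ≤ m n x} = {w : (O* w).Nonempty}`; suppose `|𝒜| > m + C''`.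
Let `h` be the minimum of `n` over `P*`; `m h ≥ (j+1) f`.
Case 1: some `g₂ ∈ P*` has `n g₂ ≥ h + 1`.  At least `m/q ≥ C' + 1` slots have option `g₂`;
choose `T` among them, `|T| = C' + 1`, pick them with `g₂`, and pick `M - (C'+1)` slots of
`𝒜 \ T` with an option in `P*` (`M = m - 1 ≥ C' + 1`, `|𝒜 \ T| ≥ m`).  This is a configuration
with `xi ≥ n g₁ + (C'+1)(h+1) + (M - C' - 1) h ≥ (M+1) h + C' + 1 ≥ (j+1) f + C' + 1`
(`(M+1) h = m h ≥ (j+1) f`), contradicting the gap.
Case 2: `n g = h` for all `g ∈ P*`.  Let `t` be as in `Lat.tor`, `0 < t ≤ C`.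
Apply `res_exists` and `std_exists` to `O*`, `P*`, `K`: for `g ∈ P*`,
`{w : g ∈ O* w} = {w : g ∈ O w}` has at least `m/q ≥ |P| 2 K` elements (`q (4q) (2K) ≤ m`);
`|P*| K ≤ 4 q K ≤ m - 1 = M`; `M + 2 |P*| K ≤ m + 8 q K ≤ |𝒜|`.
Let `σ` be the standard configuration (for `O*`, `P*`), `y g = yv (some g₁) σ g` (`g ∈ P*`),
`∑_{P*} y = m`, `tot = ∑_{P*} y g • g` (module Counts applied to `O*`, `P*`).
For `g ∈ P*`: `t • (g - g₁) = 0`, by `Lat.tor` for `z = δ_g - δ_{g₁}` (`∑ z n = h - h = 0`).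
Let `x g = (- y g) % t ∈ [0, t)` for `g ∈ P*`, `g ≠ g₁`, `x g₁ = -∑_{g ≠ g₁} x g`.
`∑ x = 0`, `|x g| ≤ 4 q t ≤ K`.  `modify` (for `O*`, `P*`) gives a configuration `σ'` of `O*`
(so of `O`) with counts `cnt σ g + x g`; its total is `∑_{P*} (y g + x g) • g =
∑_{g ≠ g₁} (y g + x g) • (g - g₁) + m • g₁ = 0`, because `t ∣ y g + x g` and `m • g₁ = 0`.
This contradicts `Sys.zf`.
-/

set_option autoImplicit false

namespace ZS44129

open Finset

private theorem hc_build {m M : ℕ} {W : Type} [Fintype W] [DecidableEq W]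
    (O : W → Finset (ZMod m)) (F : Option (ZMod m)) (n : ZMod m → ℤ) (D : Finset W)
    (hD : D.card = M) (τ : W → ZMod m) (hτ : ∀ w ∈ D, τ w ∈ O w) :
    ∃ σ : W → Option (ZMod m), Cfg O M σ ∧ xi n F σ = ov n F + ∑ w ∈ D, n (τ w) := by
  refine ⟨fun w => if w ∈ D then some (τ w) else none, ⟨?_, ?_⟩, ?_⟩
  · intro w g h
    by_cases hw : w ∈ D
    · simp only [hw, if_true, Option.some.injEq] at h
      rw [← h]; exact hτ w hw
    · simp [hw] at h
  · rw [← hD]
    congr 1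
    ext w
    by_cases hw : w ∈ D <;> simp [hw]
  · unfold xi
    congr 1
    rw [← Finset.sum_subset (Finset.subset_univ D)]
    · refine Finset.sum_congr rfl fun w hw => ?_
      simp [hw, ov]
    · intro w _ hw
      simp [hw, ov]

theorem high_count (q A C C' : ℕ) (hq : 0 < q) : ∃ C'' : ℕ, ∀ m : ℕ, C'' ≤ m →
    ∀ {W : Type} [Fintype W] [DecidableEq W] (O : W → Finset (ZMod m)) (g₁ : ZMod m)
      (M : ℕ) (P : Finset (ZMod m)) (n : ZMod m → ℤ) (f : ℕ) (j : ℤ),
      Sys m q O (some g₁) M P → Lat m P A C n f →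
      (∀ σ, Cfg O M σ → xi n (some g₁) σ ≤ (j + 1) * f + C') →
      (j + 1) * f ≤ m * n g₁ →
      (univ.filter (fun w => ∃ x ∈ O w, (j + 1) * f ≤ m * n x)).card ≤ m + C'' := by
  classical
  obtain ⟨K, hK⟩ : ∃ K : ℕ, K = 4 * q * C := ⟨_, rfl⟩
  refine ⟨80 * q ^ 2 * K + 10 * q * (C' + 2) + 10, ?_⟩
  intro m hm W _ _ O g₁ M P n f j hS hL hgap hg₁
  by_contra hbig
  push Not at hbig
  set 𝒜 := univ.filter (fun w => ∃ x ∈ O w, (j + 1) * f ≤ m * n x) with h𝒜
  have hqK : 4 * q * K ≤ q ^ 2 * K * 4 := by nlinarith [Nat.zero_le K, Nat.zero_le (q * K)]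
  have hM : M + 1 = m := by simpa using hS.Mm
  have hg₁P : g₁ ∈ P := hS.forced g₁ rfl
  set Ps := P.filter (fun g => (j + 1) * f ≤ m * n g) with hPs
  have hg₁s : g₁ ∈ Ps := Finset.mem_filter.2 ⟨hg₁P, hg₁⟩
  have hPsP : Ps ⊆ P := Finset.filter_subset _ _
  have hPsc : Ps.card ≤ 4 * q := (Finset.card_le_card hPsP).trans hS.pal
  have hm0 : (0 : ℤ) < m := by
    have : 0 < m := by omega
    exact_mod_cast this
  -- minimum
  obtain ⟨g₀, hg₀, hmin⟩ := Finset.exists_min_image Ps n ⟨g₁, hg₁s⟩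
  have h0 := (Finset.mem_filter.1 hg₀).2
  by_cases hcase : ∃ g₂ ∈ Ps, n g₀ < n g₂
  · -- Case 1
    obtain ⟨g₂, hg₂, hlt⟩ := hcase
    have hc2 : C' + 1 ≤ (univ.filter (fun w => g₂ ∈ O w)).card := by
      have h1 := hS.mult g₂ (hPsP hg₂)
      by_contra h2
      push Not at h2
      have h3 : q * (univ.filter (fun w => g₂ ∈ O w)).card ≤ q * C' :=
        Nat.mul_le_mul_left _ (by omega)
      have h4 : q * C' ≤ 10 * q * (C' + 2) := by nlinarith [Nat.zero_le (q * C')]
      omega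
    obtain ⟨T, hT, hTc⟩ := Finset.exists_subset_card_eq hc2
    have hTA : T ⊆ 𝒜 := by
      intro w hw
      exact Finset.mem_filter.2 ⟨Finset.mem_univ _, g₂, (Finset.mem_filter.1 (hT hw)).2,
        (Finset.mem_filter.1 hg₂).2⟩
    have hsd : (𝒜 \ T).card + T.card = 𝒜.card := Finset.card_sdiff_add_card_eq_card hTA
    have hqC : C' + 2 ≤ 10 * q * (C' + 2) := by nlinarith [Nat.zero_le C']
    obtain ⟨T2, hT2, hT2c⟩ := Finset.exists_subset_card_eq (s := 𝒜 \ T)
      (n := M - (C' + 1)) (by omega)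
    have hd : Disjoint T T2 := by
      rw [Finset.disjoint_left]
      intro w h1 h2
      exact (Finset.mem_sdiff.1 (hT2 h2)).2 h1
    have hDc : (T ∪ T2).card = M := by
      rw [Finset.card_union_of_disjoint hd, hTc, hT2c]
      omega
    let τ : W → ZMod m := fun w => if w ∈ T then g₂ else
      if h : ∃ x ∈ O w, (j + 1) * (f : ℤ) ≤ m * n x then h.choose else 0
    have hτT : ∀ w ∈ T, τ w = g₂ := fun w hw => by simp [τ, hw]
    have hτ2 : ∀ w ∈ T2, τ w ∈ O w ∧ (j + 1) * (f : ℤ) ≤ m * n (τ w) := by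
      intro w hw
      have h1 := Finset.mem_sdiff.1 (hT2 hw)
      have h2 := (Finset.mem_filter.1 h1.1).2
      have : τ w = h2.choose := by
        simp only [τ, h1.2, if_false]
        rw [dif_pos h2]
      rw [this]; exact h2.choose_spec
    obtain ⟨σ, hσ, hxi⟩ := hc_build O (some g₁) n (T ∪ T2) hDc τ (by
      intro w hw
      rcases Finset.mem_union.1 hw with h | h
      · rw [hτT w h]; exact (Finset.mem_filter.1 (hT h)).2
      · exact (hτ2 w h).1)
    have hg := hgap σ hσ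
    rw [hxi, Finset.sum_union hd, Finset.sum_congr rfl (fun w hw => by rw [hτT w hw]),
      Finset.sum_const, hTc] at hg
    have hov : ov n (some g₁) = n g₁ := rfl
    rw [hov] at hg
    have s2 : (T2.card : ℤ) * n g₀ ≤ ∑ w ∈ T2, n (τ w) := by
      rw [← nsmul_eq_mul, ← Finset.sum_const]
      refine Finset.sum_le_sum fun w hw => ?_
      have h1 := hτ2 w hw
      exact hmin _ (Finset.mem_filter.2 ⟨hS.sub w h1.1, h1.2⟩)
    have s1 := hmin g₁ hg₁s
    simp only [nsmul_eq_mul] at hg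
    push_cast at hg
    have hcz : (T2.card : ℤ) + (C' + 1) + 1 = m := by
      have : T2.card + (C' + 1) + 1 = m := by omega
      exact_mod_cast this
    have hlt' : n g₀ + 1 ≤ n g₂ := hlt
    have h5 : ((C' : ℤ) + 1) * (n g₀ + 1) ≤ ((C' : ℤ) + 1) * n g₂ :=
      mul_le_mul_of_nonneg_left hlt' (by positivity)
    have e1 : (m : ℤ) * n g₀ = ((T2.card : ℤ) + (C' + 1) + 1) * n g₀ := by rw [hcz]
    nlinarith
  · -- Case 2
    push Not at hcase
    have hconst : ∀ g ∈ Ps, n g = n g₀ := fun g hg => le_antisymm (hcase g hg) (hmin g hg)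
    obtain ⟨t, ht0, htC, htor⟩ := hL.tor
    have htz : (0 : ℤ) < t := by exact_mod_cast ht0
    have hkill : ∀ g ∈ Ps, (t : ℤ) • (g - g₁) = 0 := by
      intro g hg
      have hgP := hPsP hg
      have := htor (fun x => (if x = g then 1 else 0) - (if x = g₁ then 1 else 0))
        (by rw [Finset.sum_sub_distrib]; simp [hgP, hg₁P])
        (by
          simp only [sub_mul, ite_mul, one_mul, zero_mul]
          rw [Finset.sum_sub_distrib]
          simp only [Finset.sum_ite_eq', hgP, hg₁P, if_true]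
          rw [hconst g hg, hconst g₁ hg₁s]; ring)
      simp only [sub_smul, ite_smul, one_smul, zero_smul] at this
      rw [Finset.sum_sub_distrib] at this
      simp only [Finset.sum_ite_eq', hgP, hg₁P, if_true] at this
      rw [natCast_zsmul]
      exact this
    obtain ⟨Os, hOs⟩ : ∃ Os : W → Finset (ZMod m), Os = fun w => O w ∩ Ps := ⟨_, rfl⟩
    have hOsub : ∀ w, Os w ⊆ Ps := by
      intro w; rw [hOs]; exact Finset.inter_subset_right
    have hOsO : ∀ w, Os w ⊆ O w := by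
      intro w; rw [hOs]; exact Finset.inter_subset_left
    have hfil : ∀ g ∈ Ps, (univ.filter (fun w => g ∈ Os w)) =
        (univ.filter (fun w => g ∈ O w)) := by
      intro g hg
      ext w
      simp [hOs, hg]
    obtain ⟨R, S, hRes⟩ := res_exists Os Ps K (by
      intro g hg
      rw [hfil g hg]
      have h1 := hS.mult g (hPsP hg)
      by_contra h2
      push Not at h2
      have h3 : Ps.card * (2 * K) ≤ 4 * q * (2 * K) := Nat.mul_le_mul_right _ hPsc
      have h4 : q * (univ.filter (fun w => g ∈ O w)).card ≤ q * (4 * q * (2 * K)) :=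
        Nat.mul_le_mul_left _ (by omega)
      have h5 : q * (4 * q * (2 * K)) = 8 * (q ^ 2 * K) := by ring
      have h6 : 80 * q ^ 2 * K = 80 * (q ^ 2 * K) := by ring
      rw [h5] at h4
      rw [h6] at hm
      omega)
    have hPK : Ps.card * K ≤ 4 * q * K := Nat.mul_le_mul_right _ hPsc
    have h6 : 80 * q ^ 2 * K = 80 * (q ^ 2 * K) := by ring
    have hqK' : 4 * q * K ≤ 4 * (q ^ 2 * K) := by
      have : q ^ 2 * K * 4 = 4 * (q ^ 2 * K) := by ring
      omega
    rw [h6] at hm hbig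
    have hne𝒜 : (univ.filter (fun w => (Os w).Nonempty)) = 𝒜 := by
      ext w
      simp only [Finset.mem_filter, Finset.mem_univ, true_and, h𝒜, hOs, hPs]
      constructor
      · rintro ⟨x, hx⟩
        have := Finset.mem_inter.1 hx
        exact ⟨x, this.1, (Finset.mem_filter.1 this.2).2⟩
      · rintro ⟨x, hx, h⟩
        exact ⟨x, Finset.mem_inter.2 ⟨hx, Finset.mem_filter.2 ⟨hS.sub w hx, h⟩⟩⟩
    obtain ⟨σ, hσ⟩ := std_exists Os Ps K M R S hRes (by omega) (by rw [hne𝒜]; omega)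
    have hF : ∀ g, some g₁ = some g → g ∈ Ps := by
      intro g hg
      rw [← Option.some.inj hg]; exact hg₁s
    obtain ⟨y, hy⟩ : ∃ y : ZMod m → ℤ, y = yv (some g₁) σ := ⟨_, rfl⟩
    have hysum : ∑ g ∈ Ps, y g = m := by
      rw [hy]
      exact yv_sum Os (some g₁) M Ps σ hOsub hF (by simpa using hS.Mm) hσ.cfg
    obtain ⟨z, hz⟩ : ∃ z : ZMod m → ℤ, z = fun g => if g = g₁ then
        -∑ h ∈ Ps.erase g₁, (-y h) % (t : ℤ) else (-y g) % (t : ℤ) := ⟨_, rfl⟩
    have hz1 : z g₁ = -∑ h ∈ Ps.erase g₁, (-y h) % (t : ℤ) := by rw [hz]; simp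
    have hz2 : ∀ g, g ≠ g₁ → z g = (-y g) % (t : ℤ) := by
      intro g hg; rw [hz]; simp [hg]
    have hzsum : ∑ g ∈ Ps, z g = 0 := by
      rw [← Finset.add_sum_erase Ps z hg₁s, hz1, Finset.sum_congr rfl (fun g hg =>
        hz2 g (Finset.ne_of_mem_erase hg))]
      ring
    have hmodb : ∀ g, 0 ≤ (-y g) % (t : ℤ) ∧ (-y g) % (t : ℤ) ≤ C := by
      intro g
      refine ⟨Int.emod_nonneg _ htz.ne', ?_⟩
      have h1 := Int.emod_lt_of_pos (-y g) htz
      have h2 : (t : ℤ) ≤ C := by exact_mod_cast htC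
      linarith
    have hKz : (K : ℤ) = 4 * q * C := by rw [hK]; push_cast; ring
    have hzb : ∀ g ∈ Ps, |z g| ≤ K := by
      intro g hg
      by_cases hgg : g = g₁
      · rw [hgg, hz1, abs_neg, abs_of_nonneg (Finset.sum_nonneg fun h _ => (hmodb h).1)]
        have h1 : ∑ h ∈ Ps.erase g₁, (-y h) % (t : ℤ) ≤ ∑ h ∈ Ps.erase g₁, (C : ℤ) :=
          Finset.sum_le_sum fun h _ => (hmodb h).2
        rw [Finset.sum_const, nsmul_eq_mul] at h1
        have h2 : ((Ps.erase g₁).card : ℤ) ≤ 4 * q := by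
          have : (Ps.erase g₁).card ≤ 4 * q := (Finset.card_le_card (Finset.erase_subset _ _)).trans hPsc
          exact_mod_cast this
        have h3 : ((Ps.erase g₁).card : ℤ) * C ≤ 4 * q * C :=
          mul_le_mul_of_nonneg_right h2 (by positivity)
        linarith
      · rw [hz2 g hgg, abs_of_nonneg (hmodb g).1]
        have h1 := (hmodb g).2
        have h2 : (C : ℤ) ≤ 4 * q * C := by
          have hq1 : (1 : ℤ) ≤ q := by exact_mod_cast hq
          nlinarith [mul_nonneg (by linarith : (0 : ℤ) ≤ (q : ℤ) - 1) (by positivity : (0 : ℤ) ≤ C)]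
        linarith
    obtain ⟨σ', hσ', hcnt⟩ := modify Os Ps K M R S hRes σ hσ z hzsum hzb
    have hσO : Cfg O M σ' := ⟨fun w g h => hOsO w (hσ'.mem w g h), hσ'.card⟩
    apply hS.zf σ' hσO
    rw [yv_tot Os (some g₁) M Ps σ' hOsub hF hσ']
    have hyv' : ∀ g ∈ Ps, yv (some g₁) σ' g = y g + z g := by
      intro g hg
      rw [hy]
      unfold yv
      rw [hcnt g hg]; ring
    rw [Finset.sum_congr rfl (fun g hg => by rw [hyv' g hg])]
    have e1 : ∑ g ∈ Ps, (y g + z g) • g = ∑ g ∈ Ps, (y g + z g) • (g - g₁) +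
        (∑ g ∈ Ps, (y g + z g)) • g₁ := by
      rw [Finset.sum_smul, ← Finset.sum_add_distrib]
      refine Finset.sum_congr rfl fun g _ => ?_
      rw [smul_sub]; abel
    rw [e1, Finset.sum_add_distrib, hysum, hzsum]
    have e2 : ∀ g ∈ Ps, (y g + z g) • (g - g₁) = 0 := by
      intro g hg
      by_cases hgg : g = g₁
      · rw [hgg, sub_self, smul_zero]
      · rw [hz2 g hgg]
        have : ∃ k : ℤ, y g + (-y g) % (t : ℤ) = k * t := by
          refine ⟨-((-y g) / (t : ℤ)), ?_⟩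
          have := Int.emod_add_mul_ediv (-y g) t
          linarith
        obtain ⟨k, hk⟩ := this
        rw [hk, mul_smul, hkill g hg, smul_zero]
    rw [Finset.sum_eq_zero e2]
    simp

end ZS44129
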