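import Mathlib

/-!
# MP_44129c_co, module LatCov (full boxes)

`KA m d A` = subgroup of all `∑_{g ∈ A} z g • d g`; `FullOn m d A k`: every element of it has such
a representation with `|z g| ≤ k`.

`cov_one`: if `t • d g ∈ KA A`, `1 ≤ t ≤ k`, then `insert g A` is full.  Proof: given `z`, write
`z g = t q + s` with `0 ≤ s < t` (`Int.ediv_add_emod`); then
`∑_{insert g A} z • d = (∑_A z • d + q • (t • d g)) + s • d g`, and the bracket is in `KA A`, so
it is `∑_A z' • d` with `|z'| ≤ k`; put `z' g = s`.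

`cov_two`: two independent relations `(i, j)`, `(i', j')` with entries `≤ k/2`.  Proof: let
`Δ = i j' - i' j ≠ 0`; replacing `(i', j')` by its negative we may assume `Δ > 0`.  Given `z`, let
`s = z g`, `r = z h`; `α = (s j' - r i') / Δ`, `β = (i r - j s) / Δ` (`Int.ediv`, remainders
`ρ₁, ρ₂ ∈ [0, Δ)`), `s' = s - α i - β i'`, `r' = r - α j - β j'`.  Then
`Δ s' = ρ₁ i + ρ₂ i'` and `Δ r' = ρ₁ j + ρ₂ j'`, hence `|s'|, |r'| ≤ k`
(`|ρ₁ i + ρ₂ i'| ≤ Δ (|i| + |i'|) ≤ Δ k`).  And
`s • d g + r • d h - (s' • d g + r' • d h) = α • (i • d g + j • d h) + β • (i' • d g + j' • d h)`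
is in `KA A`, so `∑_A z • d +` this is `∑_A z' • d` with `|z'| ≤ k`; put `z' g = s'`, `z' h = r'`.
-/

set_option autoImplicit false

namespace ZS44129

open Finset

/-- the subgroup of all integer combinations of `d g`, `g ∈ A`. -/
def KA (m : ℕ) (d : ZMod m → ZMod m) (A : Finset (ZMod m)) : AddSubgroup (ZMod m) where
  carrier := {x | ∃ z : ZMod m → ℤ, x = ∑ g ∈ A, z g • d g}
  zero_mem' := ⟨fun _ => 0, by simp⟩
  add_mem' := by
    rintro x y ⟨z, hz⟩ ⟨z', hz'⟩
    exact ⟨fun g => z g + z' g, by rw [hz, hz', ← Finset.sum_add_distrib]; simp [add_smul]⟩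
  neg_mem' := by
    rintro x ⟨z, hz⟩
    exact ⟨fun g => - z g, by rw [hz, ← Finset.sum_neg_distrib]; simp⟩

/-- every combination has one with coefficients at most `k`. -/
def FullOn (m : ℕ) (d : ZMod m → ZMod m) (A : Finset (ZMod m)) (k : ℕ) : Prop :=
  ∀ z : ZMod m → ℤ, ∃ z' : ZMod m → ℤ,
    ∑ g ∈ A, z' g • d g = ∑ g ∈ A, z g • d g ∧ ∀ g ∈ A, |z' g| ≤ k

theorem sum_mem_KA {m : ℕ} (d : ZMod m → ZMod m) (A : Finset (ZMod m)) (z : ZMod m → ℤ) :
    ∑ g ∈ A, z g • d g ∈ KA m d A := ⟨z, rfl⟩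

/-- the elements of `KA` have short representations. -/
theorem fullOn_mem {m : ℕ} {d : ZMod m → ZMod m} {A : Finset (ZMod m)} {k : ℕ}
    (hA : FullOn m d A k) {x : ZMod m} (hx : x ∈ KA m d A) :
    ∃ z' : ZMod m → ℤ, ∑ g ∈ A, z' g • d g = x ∧ ∀ g ∈ A, |z' g| ≤ k := by
  obtain ⟨z, rfl⟩ := hx
  exact hA z

theorem cov_one (m : ℕ) (d : ZMod m → ZMod m) (A : Finset (ZMod m)) (k : ℕ)
    (hA : FullOn m d A k) (g : ZMod m) (hg : g ∉ A) (t : ℕ) (h1 : 1 ≤ t) (h2 : t ≤ k)
    (ht : t • d g ∈ KA m d A) : FullOn m d (insert g A) k := by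
  intro z
  have htpos : (0 : ℤ) < t := by exact_mod_cast h1
  have hs0 := Int.emod_nonneg (z g) htpos.ne'
  have hs1 := Int.emod_lt_of_pos (z g) htpos
  have hs2 := Int.emod_add_mul_ediv (z g) t
  generalize z g % (t : ℤ) = s at hs0 hs1 hs2
  generalize z g / (t : ℤ) = q at hs2
  obtain ⟨z', hz', hb⟩ := fullOn_mem hA ((KA m d A).add_mem (sum_mem_KA d A z)
    ((KA m d A).zsmul_mem ht q))
  refine ⟨fun y => if y = g then s else z' y, ?_, ?_⟩
  · rw [Finset.sum_insert hg, Finset.sum_insert hg]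
    have h3 : ∑ x ∈ A, (if x = g then s else z' x) • d x = ∑ x ∈ A, z' x • d x := by
      apply Finset.sum_congr rfl
      intro x hx
      have hxg : x ≠ g := by rintro rfl; exact hg hx
      rw [if_neg hxg]
    rw [h3]
    simp only [if_true]
    rw [hz', ← hs2]
    simp only [zsmul_eq_mul, nsmul_eq_mul]
    push_cast
    ring
  · intro y hy
    by_cases hyg : y = g
    · simp only [hyg, if_true]
      rw [abs_of_nonneg hs0]
      have : (t : ℤ) ≤ k := by exact_mod_cast h2
      omega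
    · simp only [hyg, if_false]
      exact hb y (Finset.mem_of_mem_insert_of_ne hy hyg)

theorem cov_two_pos (m : ℕ) (d : ZMod m → ZMod m) (A : Finset (ZMod m)) (k : ℕ)
    (hA : FullOn m d A k) (g h : ZMod m) (hg : g ∉ A) (hh : h ∉ A) (hgh : g ≠ h)
    (i j i' j' : ℤ) (hi : 2 * |i| ≤ k) (hj : 2 * |j| ≤ k) (hi' : 2 * |i'| ≤ k)
    (hj' : 2 * |j'| ≤ k) (h1 : i • d g + j • d h ∈ KA m d A)
    (h2 : i' • d g + j' • d h ∈ KA m d A) (hne : 0 < i * j' - i' * j) :
    FullOn m d (insert g (insert h A)) k := by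
  intro z
  obtain ⟨D, hD⟩ : ∃ D, D = i * j' - i' * j := ⟨_, rfl⟩
  rw [← hD] at hne
  have ha0 := Int.emod_nonneg (z g * j' - z h * i') hne.ne'
  have ha1 := Int.emod_lt_of_pos (z g * j' - z h * i') hne
  have ha2 := Int.emod_add_mul_ediv (z g * j' - z h * i') D
  have hb0 := Int.emod_nonneg (i * z h - j * z g) hne.ne'
  have hb1 := Int.emod_lt_of_pos (i * z h - j * z g) hne
  have hb2 := Int.emod_add_mul_ediv (i * z h - j * z g) D
  generalize (z g * j' - z h * i') % D = a at ha0 ha1 ha2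
  generalize (z g * j' - z h * i') / D = α at ha2
  generalize (i * z h - j * z g) % D = b at hb0 hb1 hb2
  generalize (i * z h - j * z g) / D = β at hb2
  obtain ⟨s', hs'⟩ : ∃ s', s' = z g - α * i - β * i' := ⟨_, rfl⟩
  obtain ⟨r', hr'⟩ : ∃ r', r' = z h - α * j - β * j' := ⟨_, rfl⟩
  have es : D * s' = a * i + b * i' := by
    have e1 : D * α = z g * j' - z h * i' - a := by linarith
    have e2 : D * β = i * z h - j * z g - b := by linarith
    calc D * s' = D * z g - (D * α) * i - (D * β) * i' := by rw [hs']; ring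
      _ = a * i + b * i' := by rw [e1, e2, hD]; ring
  have er : D * r' = a * j + b * j' := by
    have e1 : D * α = z g * j' - z h * i' - a := by linarith
    have e2 : D * β = i * z h - j * z g - b := by linarith
    calc D * r' = D * z h - (D * α) * j - (D * β) * j' := by rw [hr']; ring
      _ = a * j + b * j' := by rw [e1, e2, hD]; ring
  have bound : ∀ u v x : ℤ, 2 * |u| ≤ k → 2 * |v| ≤ k → D * x = a * u + b * v → |x| ≤ k := by
    intro u v x hu hv hx
    have h3 : D * |x| ≤ D * k := by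
      calc D * |x| = |D * x| := by rw [abs_mul, abs_of_pos hne]
        _ = |a * u + b * v| := by rw [hx]
        _ ≤ |a * u| + |b * v| := abs_add_le _ _
        _ = a * |u| + b * |v| := by rw [abs_mul, abs_mul, abs_of_nonneg ha0, abs_of_nonneg hb0]
        _ ≤ D * |u| + D * |v| := by
          apply add_le_add
          · exact mul_le_mul_of_nonneg_right ha1.le (abs_nonneg _)
          · exact mul_le_mul_of_nonneg_right hb1.le (abs_nonneg _)
        _ = D * (|u| + |v|) := by ring
        _ ≤ D * k := mul_le_mul_of_nonneg_left (by linarith) hne.le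
    exact le_of_mul_le_mul_left h3 hne
  obtain ⟨z', hz', hzb⟩ := fullOn_mem hA ((KA m d A).add_mem (sum_mem_KA d A z)
    ((KA m d A).add_mem ((KA m d A).zsmul_mem h1 α) ((KA m d A).zsmul_mem h2 β)))
  have hg' : g ∉ insert h A := by
    rw [Finset.mem_insert]
    rintro (h' | h')
    · exact hgh h'
    · exact hg h'
  refine ⟨fun y => if y = g then s' else if y = h then r' else z' y, ?_, ?_⟩
  · rw [Finset.sum_insert hg', Finset.sum_insert hg', Finset.sum_insert hh, Finset.sum_insert hh]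
    have h3 : ∑ x ∈ A, (if x = g then s' else if x = h then r' else z' x) • d x
        = ∑ x ∈ A, z' x • d x := by
      apply Finset.sum_congr rfl
      intro x hx
      have hxg : x ≠ g := by rintro rfl; exact hg hx
      have hxh : x ≠ h := by rintro rfl; exact hh hx
      rw [if_neg hxg, if_neg hxh]
    rw [h3]
    simp only [if_true, if_neg hgh.symm]
    rw [hz', hs', hr']
    simp only [zsmul_eq_mul]
    push_cast
    ring
  · intro y hy
    by_cases hyg : y = g
    · simp only [hyg, if_true]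
      exact bound i i' s' hi hi' es
    · by_cases hyh : y = h
      · subst hyh
        simp only [hyg, if_false, if_true]
        exact bound j j' r' hj hj' er
      · simp only [hyg, hyh, if_false]
        exact hzb y (Finset.mem_of_mem_insert_of_ne (Finset.mem_of_mem_insert_of_ne hy hyg) hyh)

theorem cov_two (m : ℕ) (d : ZMod m → ZMod m) (A : Finset (ZMod m)) (k : ℕ)
    (hA : FullOn m d A k) (g h : ZMod m) (hg : g ∉ A) (hh : h ∉ A) (hgh : g ≠ h)
    (i j i' j' : ℤ) (hi : 2 * |i| ≤ k) (hj : 2 * |j| ≤ k) (hi' : 2 * |i'| ≤ k)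
    (hj' : 2 * |j'| ≤ k) (h1 : i • d g + j • d h ∈ KA m d A)
    (h2 : i' • d g + j' • d h ∈ KA m d A) (hne : i * j' ≠ i' * j) :
    FullOn m d (insert g (insert h A)) k := by
  rcases lt_or_gt_of_ne (sub_ne_zero.2 hne) with hlt | hgt
  · refine cov_two_pos m d A k hA g h hg hh hgh i j (-i') (-j') hi hj (by rwa [abs_neg])
      (by rwa [abs_neg]) h1 ?_ (by linarith)
    have : (-i') • d g + (-j') • d h = -(i' • d g + j' • d h) := by
      rw [neg_smul, neg_smul]; abel
    rw [this]
    exact (KA m d A).neg_mem h2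
  · exact cov_two_pos m d A k hA g h hg hh hgh i j i' j' hi hj hi' hj' h1 h2 hgt

end ZS44129
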