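import Mathlib

/-!
# MP_44129c_co, module LatRel (a short relation between two elements modulo a subgroup)

Proof.
1. Call `(i, j) : ℤ × ℤ` a short relation if `|i|, |j| ≤ k`, `(i,j) ≠ 0`, `i•d + j•e ∈ K`.  By
   `hd`, `he` both entries of a short relation are nonzero (if `i = 0` then `±|j|•e ∈ K`,
   `1 ≤ |j| ≤ k ≤ 2k`).
2. A short relation exists: the `(k+1)^2 > m` pairs `(x, y)`, `0 ≤ x, y ≤ k`, have two different
   pairs with the same value `x•d + y•e ∈ ZMod m` (pigeonhole), take the difference (its value is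
   `0 ∈ K`).
3. Let `(i₀, j₀)` be a short relation with `|i₀|` minimal.  The elements `x•d + y•e`,
   `0 ≤ x < |i₀|`, `0 ≤ y ≤ k`, are pairwise different modulo `K`: a coincidence gives
   `(x - x', y - y')` with value in `K`, entries `≤ k` in absolute value; if it is nonzero it is a
   short relation, so `x ≠ x'`, and `|x - x'| < |i₀|` contradicts minimality.  So
   `|i₀| (k+1) ≤ #(ZMod m ⧸ K) ≤ m`.
   (Alternatively: they are pairwise different elements of `ZMod m`, since `0 ∈ K`; that is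
   enough.)
4. Symmetrically let `(i₁, j₁)` be a short relation with `|j₁|` minimal: `|j₁| (k+1) ≤ m`.
5. By `hdep` `i₀ j₁ = i₁ j₀`; with `|i₀| ≤ |i₁|`, `|j₁| ≤ |j₀|` and all entries nonzero:
   `|i₀||j₁| = |i₁||j₀| ≥ |i₀||j₀|`, so `|j₀| ≤ |j₁|` and `|j₀| (k+1) ≤ m`.
   Take `±(i₀, j₀)` with positive first entry.
-/

set_option autoImplicit false

namespace ZS44129

theorem lat_pigeon (m : ℕ) [NeZero m] (d e : ZMod m) (a b : ℕ) (h : m < a * b) :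
    ∃ i j : ℤ, |i| < a ∧ |j| < b ∧ (i ≠ 0 ∨ j ≠ 0) ∧ i • d + j • e = 0 := by
  obtain ⟨p, q, hpq, hf⟩ := Fintype.exists_ne_map_eq_of_card_lt
    (fun p : Fin a × Fin b => (p.1 : ℕ) • d + (p.2 : ℕ) • e)
    (by rw [ZMod.card, Fintype.card_prod, Fintype.card_fin, Fintype.card_fin]; exact h)
  have hp1 := p.1.2
  have hp2 := p.2.2
  have hq1 := q.1.2
  have hq2 := q.2.2
  refine ⟨(p.1 : ℕ) - (q.1 : ℕ), (p.2 : ℕ) - (q.2 : ℕ), ?_, ?_, ?_, ?_⟩
  · rw [abs_lt]; constructor <;> omega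
  · rw [abs_lt]; constructor <;> omega
  · by_contra hcon
    push Not at hcon
    apply hpq
    apply Prod.ext
    · apply Fin.ext; omega
    · apply Fin.ext; omega
  · have hf' : ((p.1 : ℕ) : ZMod m) * d + ((p.2 : ℕ) : ZMod m) * e
        = ((q.1 : ℕ) : ZMod m) * d + ((q.2 : ℕ) : ZMod m) * e := by
      simpa only [nsmul_eq_mul] using hf
    simp only [zsmul_eq_mul]
    push_cast
    linear_combination hf'

theorem natAbs_mem {m : ℕ} {K : AddSubgroup (ZMod m)} {e : ZMod m} {j : ℤ} (h : j • e ∈ K) :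
    j.natAbs • e ∈ K := by
  rcases Int.natAbs_eq j with h1 | h1
  · rw [h1, natCast_zsmul] at h
    exact h
  · rw [h1, neg_smul, natCast_zsmul] at h
    simpa using K.neg_mem h

theorem lat_min (m k : ℕ) [NeZero m] (K : AddSubgroup (ZMod m)) (d e : ZMod m)
    (hk : m < (k + 1) ^ 2) :
    ∃ i j : ℤ, |i| ≤ k ∧ |j| ≤ k ∧ (i ≠ 0 ∨ j ≠ 0) ∧ i • d + j • e ∈ K ∧ |i| * (k + 1) ≤ m ∧
      ∀ i' j' : ℤ, |i'| ≤ k → |j'| ≤ k → (i' ≠ 0 ∨ j' ≠ 0) → i' • d + j' • e ∈ K → |i| ≤ |i'| := by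
  classical
  have hex : ∃ n : ℕ, ∃ i j : ℤ, |i| ≤ k ∧ |j| ≤ k ∧ (i ≠ 0 ∨ j ≠ 0) ∧ i • d + j • e ∈ K ∧
      i.natAbs = n := by
    obtain ⟨i, j, hi, hj, hne, h0⟩ := lat_pigeon m d e (k + 1) (k + 1) (by rw [← pow_two]; exact hk)
    refine ⟨_, i, j, ?_, ?_, hne, by rw [h0]; exact K.zero_mem, rfl⟩
    · push_cast at hi; omega
    · push_cast at hj; omega
  obtain ⟨i, j, hi, hj, hne, hK, hn⟩ := Nat.find_spec hex
  have hmin : ∀ i' j' : ℤ, |i'| ≤ k → |j'| ≤ k → (i' ≠ 0 ∨ j' ≠ 0) → i' • d + j' • e ∈ K →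
      |i| ≤ |i'| := by
    intro i' j' h1 h2 h3 h4
    by_contra hcon
    push Not at hcon
    have h5 : i'.natAbs < Nat.find hex := by
      rw [← hn]
      have a1 := Int.natCast_natAbs i'
      have a2 := Int.natCast_natAbs i
      omega
    exact Nat.find_min hex h5 ⟨i', j', h1, h2, h3, h4, rfl⟩
  refine ⟨i, j, hi, hj, hne, hK, ?_, hmin⟩
  by_contra hcon
  push Not at hcon
  have h1 : m < i.natAbs * (k + 1) := by
    have : (m : ℤ) < ((i.natAbs * (k + 1) : ℕ) : ℤ) := by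
      push_cast
      exact hcon
    exact_mod_cast this
  obtain ⟨i', j', hi', hj', hne', h0⟩ := lat_pigeon m d e i.natAbs (k + 1) h1
  rw [Int.natCast_natAbs] at hi'
  push_cast at hj'
  have := hmin i' j' (by omega) (by omega) hne' (by rw [h0]; exact K.zero_mem)
  omega

theorem lat_rel (m k : ℕ) [NeZero m] (K : AddSubgroup (ZMod m)) (d e : ZMod m)
    (hk : m < (k + 1) ^ 2)
    (hd : ∀ t : ℕ, 1 ≤ t → t ≤ 2 * k → t • d ∉ K)
    (he : ∀ t : ℕ, 1 ≤ t → t ≤ 2 * k → t • e ∉ K)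
    (hdep : ∀ i j i' j' : ℤ, |i| ≤ k → |j| ≤ k → |i'| ≤ k → |j'| ≤ k →
      i • d + j • e ∈ K → i' • d + j' • e ∈ K → i * j' = i' * j) :
    ∃ i j : ℤ, 0 < i ∧ i * (k + 1) ≤ m ∧ |j| * (k + 1) ≤ m ∧ i • d + j • e ∈ K := by
  have hnz : ∀ i j : ℤ, |i| ≤ k → |j| ≤ k → (i ≠ 0 ∨ j ≠ 0) → i • d + j • e ∈ K →
      i ≠ 0 ∧ j ≠ 0 := by
    intro i j hi hj hne hK
    constructor
    · rintro rfl
      rw [zero_smul, zero_add] at hK
      have hj0 : j ≠ 0 := by simpa using hne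
      have a1 := Int.natCast_natAbs j
      exact he j.natAbs (by omega) (by omega) (natAbs_mem hK)
    · rintro rfl
      rw [zero_smul, add_zero] at hK
      have hi0 : i ≠ 0 := by simpa using hne
      have a1 := Int.natCast_natAbs i
      exact hd i.natAbs (by omega) (by omega) (natAbs_mem hK)
  obtain ⟨i₀, j₀, hi₀, hj₀, hne₀, hK₀, hm₀, hmin₀⟩ := lat_min m k K d e hk
  obtain ⟨j₁, i₁, hj₁, hi₁, hne₁, hK₁, hm₁, hmin₁⟩ := lat_min m k K e d hk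
  rw [add_comm] at hK₁
  have hne₁' : i₁ ≠ 0 ∨ j₁ ≠ 0 := hne₁.symm
  obtain ⟨hi0, hj0⟩ := hnz i₀ j₀ hi₀ hj₀ hne₀ hK₀
  obtain ⟨hi1, hj1⟩ := hnz i₁ j₁ hi₁ hj₁ hne₁' hK₁
  have hle1 : |i₀| ≤ |i₁| := hmin₀ i₁ j₁ hi₁ hj₁ hne₁' hK₁
  have hle2 : |j₁| ≤ |j₀| := hmin₁ j₀ i₀ hj₀ hi₀ hne₀.symm (by rw [add_comm]; exact hK₀)
  have hdet := hdep i₀ j₀ i₁ j₁ hi₀ hj₀ hi₁ hj₁ hK₀ hK₁
  have hdet' : |i₀| * |j₁| = |i₁| * |j₀| := by rw [← abs_mul, ← abs_mul, hdet]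
  have hj01 : |j₀| ≤ |j₁| := by
    by_contra hcon
    push Not at hcon
    have h1 : |i₀| * |j₁| < |i₀| * |j₀| := mul_lt_mul_of_pos_left hcon (abs_pos.2 hi0)
    have h2 : |i₀| * |j₀| ≤ |i₁| * |j₀| := mul_le_mul_of_nonneg_right hle1 (abs_nonneg _)
    linarith
  have hmj : |j₀| * (k + 1) ≤ m := by
    refine le_trans ?_ hm₁
    exact mul_le_mul_of_nonneg_right hj01 (by positivity)
  rcases lt_or_gt_of_ne hi0 with hlt | hgt
  · refine ⟨-i₀, -j₀, by omega, ?_, ?_, ?_⟩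
    · rw [abs_of_neg hlt] at hm₀; exact hm₀
    · rw [abs_neg]; exact hmj
    · have : (-i₀) • d + (-j₀) • e = -(i₀ • d + j₀ • e) := by rw [neg_smul, neg_smul]; abel
      rw [this]
      exact K.neg_mem hK₀
  · refine ⟨i₀, j₀, hgt, ?_, hmj, hK₀⟩
    rw [abs_of_pos hgt] at hm₀; exact hm₀

end ZS44129
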