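import Mathlib
import Pool.Agent.Work.MP_44129c_co.Defs
import Pool.Agent.Work.MP_44129c_co.LatRel
import Pool.Agent.Work.MP_44129c_co.LatCov

/-!
# MP_44129c_co, module LatPres (presentation of a palette that is not full)

Proof.  Fix `g₀ ∈ P`, `d g = g - g₀`, `P' = P.erase g₀`, `k₂ = k / (p+1)`, `k₁ = k₂ / 2`
(natural divisions), `B₂ = 2 (p+1) B`, `B' = B₂^(p+1) + B₂ + 1`, `m₀ = B₂^2 + 1` (larger values
are fine).  Then `k < (p+1)(k₂+1)`, `k₂ + 1 ≤ 2 (k₁+1)`, so `m ≤ B k ≤ B₂ (k₁+1)`, and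
`m < (k₁+1)^2` since `m > B₂^2`.  (`m ≥ 1`; `B = 0` forces `m = 0`, so it cannot occur.)
1. Let `A ⊆ P'` be of maximal cardinality with `FullOn m d A k₂` (`∅` works; finite powerset).
2. If `A = P'` then `Full m P k`: given `z` with `∑_P z = 0`,
   `∑_P z g • g = ∑_P z g • (g - g₀) = ∑_{P'} z g • d g`; take `z'` from `FullOn` on `P'` and
   `z' g₀ = -∑_{P'} z'` (at most `p k₂ ≤ k`).
3. Otherwise let `h ∈ P' \ A`, `K = KA m d A`.
   (i) For `g ∈ P' \ A` and `1 ≤ t ≤ k₂`: `t • d g ∉ K` (`cov_one` and maximality).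
   (ii) For `g ∈ P' \ A`, `g ≠ h`, two relations with entries `≤ k₁` are dependent (`cov_two`,
   `2 k₁ ≤ k₂`, maximality), so `lat_rel` (with `k := k₁`, `d := d g`, `e := d h`) gives
   `i_g > 0`, `j_g` with `i_g (k₁+1) ≤ m ≤ B₂ (k₁+1)`, so `i_g ≤ B₂`, `|j_g| ≤ B₂`,
   `i_g • d g + j_g • d h ∈ K`.
   For `g = h` put `i = 1, j = -1`; for `g ∈ A` put `i = 1, j = 0`.
   (So: for every `g ∈ P'` there are `i_g, j_g` with `0 < i_g ≤ B₂`, `|j_g| ≤ B₂` and
   `i_g • d g + j_g • d h ∈ K`, and `(i_h, j_h) = (1, -1)`.)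
4. `D = ∏_{g ∈ P'} i_g ≤ B₂^p`, `n g = - j_g (D / i_g)` for `g ∈ P'`, `n g₀ = 0`.  Then
   `n h = D`, `|n g| ≤ B₂ B₂^p`, and
   `D • d g - n g • d h = (D / i_g) • (i_g • d g + j_g • d h) ∈ K`.
5. `order`: if `t > 0`, `t • (h - g₀) ∈ K` then `t > k₂` by (i), so
   `m ≤ B k ≤ B (p+1) (k₂+1) ≤ B (p+1) t`.
6. `cardK`: the elements `x • d h`, `0 ≤ x ≤ k₂`, are pairwise different modulo `K`, so
   `(k₂+1) |K| ≤ m ≤ B (p+1) (k₂+1)`, hence `|K| ≤ B (p+1) ≤ B'`.
-/

set_option autoImplicit false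

namespace ZS44129

open Finset

/-- presentation: modulo the small subgroup `K`, `D (g - g₀) = n g (h - g₀)` for all `g ∈ P`. -/
structure Pres (m : ℕ) (P : Finset (ZMod m)) (B : ℕ) (g₀ h : ZMod m)
    (K : AddSubgroup (ZMod m)) (D : ℕ) (n : ZMod m → ℤ) : Prop where
  mem₀ : g₀ ∈ P
  memh : h ∈ P
  ne : h ≠ g₀
  Dpos : 0 < D
  Dle : D ≤ B
  n₀ : n g₀ = 0
  nh : n h = D
  bound : ∀ g ∈ P, |n g| ≤ B
  rel : ∀ g ∈ P, (D : ℤ) • (g - g₀) - n g • (h - g₀) ∈ K
  order : ∀ t : ℕ, 0 < t → t • (h - g₀) ∈ K → m ≤ B * t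
  cardK : Nat.card K ≤ B

theorem lat_pres (p B : ℕ) : ∃ B' m₀ : ℕ, ∀ m k : ℕ, m ≤ B * k → m₀ ≤ m → 0 < m →
    ∀ P : Finset (ZMod m), P.Nonempty → P.card ≤ p →
      Full m P k ∨ ∃ (g₀ h : ZMod m) (K : AddSubgroup (ZMod m)) (D : ℕ) (n : ZMod m → ℤ),
        Pres m P B' g₀ h K D n := by
  classical
  obtain ⟨B2, hB2⟩ : ∃ B2 : ℕ, B2 = 2 * (p + 1) * B := ⟨_, rfl⟩
  refine ⟨B2 ^ (p + 1) + B2 + 1, B2 ^ 2 + 1, ?_⟩
  intro m k hmk hm0 hm P hPne hPc
  haveI : NeZero m := ⟨hm.ne'⟩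
  obtain ⟨g₀, hg₀⟩ := hPne
  obtain ⟨k2, hk2⟩ : ∃ k2 : ℕ, k2 = k / (p + 1) := ⟨_, rfl⟩
  obtain ⟨k1, hk1⟩ : ∃ k1 : ℕ, k1 = k2 / 2 := ⟨_, rfl⟩
  have hka : k < (p + 1) * (k2 + 1) := by
    rw [hk2]; exact Nat.lt_mul_div_succ k (by omega)
  have hkb : (p + 1) * k2 ≤ k := by rw [hk2]; exact Nat.mul_div_le k (p + 1)
  have hkc : k2 + 1 ≤ 2 * (k1 + 1) := by omega
  have hm1 : m ≤ B * (p + 1) * (k2 + 1) := by
    calc m ≤ B * k := hmk
      _ ≤ B * ((p + 1) * (k2 + 1)) := Nat.mul_le_mul_left _ hka.le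
      _ = B * (p + 1) * (k2 + 1) := by ring
  have hm2 : m ≤ B2 * (k1 + 1) := by
    calc m ≤ B * (p + 1) * (k2 + 1) := hm1
      _ ≤ B * (p + 1) * (2 * (k1 + 1)) := Nat.mul_le_mul_left _ hkc
      _ = B2 * (k1 + 1) := by rw [hB2]; ring
  have hBp : B * (p + 1) ≤ B2 := by rw [hB2]; nlinarith [Nat.zero_le (B * (p + 1))]
  have hB2pos : 0 < B2 := by
    rcases Nat.eq_zero_or_pos B2 with h | h
    · rw [h] at hm2; omega
    · exact h
  have hsq : m < (k1 + 1) ^ 2 := by
    by_contra hcon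
    push Not at hcon
    have h1 : (k1 + 1) * (k1 + 1) ≤ B2 * (k1 + 1) := by
      rw [← pow_two]; exact hcon.trans hm2
    have h2 : k1 + 1 ≤ B2 := Nat.le_of_mul_le_mul_right h1 (by omega)
    have h3 : B2 * (k1 + 1) ≤ B2 * B2 := Nat.mul_le_mul_left _ h2
    rw [pow_two] at hm0
    omega
  obtain ⟨d, hd⟩ : ∃ d : ZMod m → ZMod m, d = fun g => g - g₀ := ⟨_, rfl⟩
  have hdg : ∀ g, d g = g - g₀ := fun g => by rw [hd]
  -- a maximal full subset
  have hne : ((P.erase g₀).powerset.filter (fun A => FullOn m d A k2)).Nonempty := by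
    refine ⟨∅, Finset.mem_filter.2 ⟨Finset.empty_mem_powerset _, ?_⟩⟩
    intro z
    exact ⟨fun _ => 0, by simp, by simp⟩
  obtain ⟨A, hA, hAmax⟩ := Finset.exists_max_image _ (fun A => A.card) hne
  obtain ⟨hAP, hAF⟩ := Finset.mem_filter.1 hA
  rw [Finset.mem_powerset] at hAP
  have hmax : ∀ A' : Finset (ZMod m), A' ⊆ P.erase g₀ → FullOn m d A' k2 → A'.card ≤ A.card :=
    fun A' h1 h2 => hAmax A' (Finset.mem_filter.2 ⟨Finset.mem_powerset.2 h1, h2⟩)
  have hshift : ∀ z : ZMod m → ℤ, ∑ g ∈ P, z g = 0 →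
      ∑ g ∈ P, z g • g = ∑ g ∈ P.erase g₀, z g • d g := by
    intro z hz
    have e1 : ∑ g ∈ P, z g • d g = ∑ g ∈ P, z g • g - (∑ g ∈ P, z g) • g₀ := by
      rw [Finset.sum_smul, ← Finset.sum_sub_distrib]
      exact Finset.sum_congr rfl fun g _ => by rw [hdg, smul_sub]
    rw [hz, zero_smul, sub_zero] at e1
    rw [← e1, ← Finset.add_sum_erase P _ hg₀, hdg, sub_self, smul_zero, zero_add]
  by_cases hAeq : A = P.erase g₀
  · -- full
    left
    intro z hz
    rw [hAeq] at hAF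
    obtain ⟨z', hz'1, hz'2⟩ := hAF z
    have hs1 : ∑ g ∈ P.erase g₀, (if g = g₀ then -∑ x ∈ P.erase g₀, z' x else z' g) =
        ∑ g ∈ P.erase g₀, z' g :=
      Finset.sum_congr rfl fun g hg => by rw [if_neg (Finset.ne_of_mem_erase hg)]
    have hs0 : ∑ g ∈ P, (if g = g₀ then -∑ x ∈ P.erase g₀, z' x else z' g) = 0 := by
      rw [← Finset.add_sum_erase P _ hg₀, hs1]; simp
    refine ⟨fun g => if g = g₀ then -∑ x ∈ P.erase g₀, z' x else z' g, hs0, ?_, ?_⟩
    · rw [hshift _ hs0, hshift z hz, ← hz'1]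
      exact Finset.sum_congr rfl fun g hg => by
        simp only [if_neg (Finset.ne_of_mem_erase hg)]
    · intro g hg
      have hkp : ((P.erase g₀).card : ℤ) * k2 ≤ k := by
        have h1 : (P.erase g₀).card * k2 ≤ (p + 1) * k2 := by
          refine Nat.mul_le_mul_right _ ?_
          have := Finset.card_le_card (Finset.erase_subset g₀ P)
          omega
        exact_mod_cast h1.trans hkb
      by_cases hgg : g = g₀
      · simp only [hgg, if_true, abs_neg]
        refine (Finset.abs_sum_le_sum_abs _ _).trans ?_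
        refine (Finset.sum_le_sum hz'2).trans ?_
        rw [Finset.sum_const, nsmul_eq_mul]
        exact hkp
      · simp only [hgg, if_false]
        refine (hz'2 g (Finset.mem_erase.2 ⟨hgg, hg⟩)).trans ?_
        have : k2 ≤ k := by nlinarith [Nat.zero_le (p * k2)]
        exact_mod_cast this
  · right
    have hex : ∃ h ∈ P.erase g₀, h ∉ A := by
      by_contra hcon
      push Not at hcon
      exact hAeq (Finset.Subset.antisymm hAP hcon)
    obtain ⟨h, hhP, hhA⟩ := hex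
    obtain ⟨hhg, hhP'⟩ := Finset.mem_erase.1 hhP
    obtain ⟨K, hK⟩ : ∃ K : AddSubgroup (ZMod m), K = KA m d A := ⟨_, rfl⟩
    have hone : ∀ g ∈ P.erase g₀, g ∉ A → ∀ t : ℕ, 1 ≤ t → t ≤ k2 → t • d g ∉ K := by
      intro g hg hgA t h1 h2 h3
      rw [hK] at h3
      have h4 := hmax _ (Finset.insert_subset hg hAP) (cov_one m d A k2 hAF g hgA t h1 h2 h3)
      rw [Finset.card_insert_of_notMem hgA] at h4
      omega
    have htwo : ∀ g ∈ P.erase g₀, g ∉ A → g ≠ h → ∀ i j i' j' : ℤ, |i| ≤ k1 → |j| ≤ k1 →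
        |i'| ≤ k1 → |j'| ≤ k1 → i • d g + j • d h ∈ K → i' • d g + j' • d h ∈ K →
        i * j' = i' * j := by
      intro g hg hgA hgh i j i' j' h1 h2 h3 h4 h5 h6
      by_contra hcon
      rw [hK] at h5 h6
      have h12 : (2 * k1 : ℤ) ≤ k2 := by
        have : 2 * k1 ≤ k2 := by omega
        exact_mod_cast this
      have h7 := hmax _ (Finset.insert_subset hg (Finset.insert_subset hhP hAP))
        (cov_two m d A k2 hAF g h hgA hhA hgh i j i' j' (by linarith) (by linarith)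
          (by linarith) (by linarith) h5 h6 hcon)
      rw [Finset.card_insert_of_notMem (by
        rw [Finset.mem_insert]; push Not; exact ⟨hgh, hgA⟩),
        Finset.card_insert_of_notMem hhA] at h7
      omega
    -- relations for all colours
    have hrel : ∀ g : ZMod m, ∃ ij : ℕ × ℤ, g ∈ P → (0 < ij.1 ∧ ij.1 ≤ B2 ∧ |ij.2| ≤ B2 ∧
        ij.1 • d g + ij.2 • d h ∈ K ∧ (g = h → ij = (1, -1)) ∧ (g = g₀ → ij = (1, 0))) := by
      intro g
      by_cases hg0 : g = g₀
      · refine ⟨(1, 0), fun _ => ⟨by norm_num, hB2pos, by simp, ?_, ?_, fun _ => rfl⟩⟩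
        · rw [hg0, hdg]; simp [AddSubgroup.zero_mem]
        · intro hgh; exact absurd (hgh.symm.trans hg0) hhg
      by_cases hgh : g = h
      · refine ⟨(1, -1), fun _ => ⟨by norm_num, hB2pos, ?_, ?_, fun _ => rfl,
          fun h0 => absurd h0 hg0⟩⟩
        · simp only [abs_neg, abs_one]; exact_mod_cast hB2pos
        · rw [hgh]; simp [AddSubgroup.zero_mem]
      by_cases hgA : g ∈ A
      · refine ⟨(1, 0), fun _ => ⟨by norm_num, hB2pos, by simp, ?_, fun h0 => absurd h0 hgh,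
          fun _ => rfl⟩⟩
        rw [hK]
        simp only [one_smul, zero_smul, add_zero]
        refine ⟨fun x => if x = g then 1 else 0, ?_⟩
        simp only [ite_smul, one_smul, zero_smul]
        rw [Finset.sum_ite_eq' A g]
        simp [hgA]
      by_cases hgP : g ∈ P
      · have hge : g ∈ P.erase g₀ := Finset.mem_erase.2 ⟨hg0, hgP⟩
        obtain ⟨i, j, hi0, hi1, hj1, hij⟩ := lat_rel m k1 K (d g) (d h) hsq
          (fun t h1 h2 => hone g hge hgA t h1 (by omega))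
          (fun t h1 h2 => hone h hhP hhA t h1 (by omega)) (htwo g hge hgA hgh)
        have hk1p : (0 : ℤ) < (k1 : ℤ) + 1 := by positivity
        have hm2z : (m : ℤ) ≤ B2 * ((k1 : ℤ) + 1) := by exact_mod_cast hm2
        have hi2 : i ≤ B2 := le_of_mul_le_mul_right (hi1.trans hm2z) hk1p
        have hj2 : |j| ≤ B2 := le_of_mul_le_mul_right (hj1.trans hm2z) hk1p
        refine ⟨(i.toNat, j), fun _ => ⟨?_, ?_, hj2, ?_, fun h0 => absurd h0 hgh,
          fun h0 => absurd h0 hg0⟩⟩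
        · simp only; omega
        · simp only; omega
        · simp only
          rw [← natCast_zsmul, Int.toNat_of_nonneg hi0.le]
          exact hij
      · exact ⟨(1, 0), fun h0 => absurd h0 hgP⟩
    choose ij hij using hrel
    obtain ⟨D, hD⟩ : ∃ D : ℕ, D = ∏ g ∈ P, (ij g).1 := ⟨_, rfl⟩
    obtain ⟨E, hE⟩ : ∃ E : ZMod m → ℕ, E = fun g => ∏ x ∈ P.erase g, (ij x).1 := ⟨_, rfl⟩
    have hED : ∀ g ∈ P, (ij g).1 * E g = D := by
      intro g hg
      rw [hE, hD]
      exact Finset.mul_prod_erase P (fun g => (ij g).1) hg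
    have hDpos : 0 < D := by
      rw [hD]; exact Finset.prod_pos fun g hg => (hij g hg).1
    have hDle : D ≤ B2 ^ p := by
      rw [hD]
      calc ∏ g ∈ P, (ij g).1 ≤ ∏ g ∈ P, B2 := Finset.prod_le_prod' fun g hg => (hij g hg).2.1
        _ = B2 ^ P.card := by rw [Finset.prod_const]
        _ ≤ B2 ^ p := Nat.pow_le_pow_right hB2pos hPc
    have hEle : ∀ g ∈ P, E g ≤ D := by
      intro g hg
      have h1 := hED g hg
      have h2 := (hij g hg).1
      nlinarith
    refine ⟨g₀, h, K, D, fun g => - (ij g).2 * E g, ⟨hg₀, hhP', hhg, hDpos, ?_, ?_, ?_, ?_, ?_,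
      ?_, ?_⟩⟩
    · have : B2 ^ p ≤ B2 ^ (p + 1) := Nat.pow_le_pow_right hB2pos (by omega)
      omega
    · have := (hij g₀ hg₀).2.2.2.2.2 rfl
      simp [this]
    · have h1 := (hij h hhP').2.2.2.2.1 rfl
      have h2 := hED h hhP'
      rw [h1] at h2
      simp only [one_mul] at h2
      simp [h1, h2]
    · intro g hg
      rw [abs_mul, abs_neg]
      have h1 := (hij g hg).2.2.1
      have h2 : ((E g : ℕ) : ℤ) ≤ B2 ^ p := by exact_mod_cast (hEle g hg).trans hDle
      have h3 : |((E g : ℕ) : ℤ)| = E g := abs_of_nonneg (by positivity)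
      rw [h3]
      calc |(ij g).2| * (E g : ℤ) ≤ B2 * B2 ^ p :=
            mul_le_mul h1 h2 (by positivity) (by positivity)
        _ = B2 ^ (p + 1) := by ring
        _ ≤ ((B2 ^ (p + 1) + B2 + 1 : ℕ) : ℤ) := by push_cast; linarith
    · intro g hg
      have h1 := (hij g hg).2.2.2.1
      have h2 : (D : ℤ) • (g - g₀) - (-(ij g).2 * (E g : ℤ)) • (h - g₀) =
          (E g : ℤ) • ((ij g).1 • d g + (ij g).2 • d h) := by
        rw [hdg, hdg, smul_add, ← natCast_zsmul (g - g₀) (ij g).1, smul_smul, smul_smul,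
          ← hED g hg]
        push_cast
        rw [mul_comm (E g : ℤ) ((ij g).1 : ℤ), mul_comm (E g : ℤ) (ij g).2, neg_mul, neg_smul,
          sub_neg_eq_add]
      rw [h2]
      exact AddSubgroup.zsmul_mem _ h1 _
    · intro t ht htK
      have h1 : k2 < t := by
        by_contra hcon
        push Not at hcon
        refine hone h hhP hhA t ht hcon ?_
        rw [hdg]; exact htK
      calc m ≤ B * (p + 1) * (k2 + 1) := hm1
        _ ≤ B2 * t := Nat.mul_le_mul hBp h1
        _ ≤ (B2 ^ (p + 1) + B2 + 1) * t := Nat.mul_le_mul_right _ (by omega)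
    · -- card K
      have hinj : Function.Injective (fun xy : Fin (k2 + 1) × K =>
          (xy.1 : ℕ) • d h + (xy.2 : ZMod m)) := by
        have key : ∀ x x' : Fin (k2 + 1), ∀ y y' : K, (x : ℕ) ≤ x' →
            (x : ℕ) • d h + (y : ZMod m) = (x' : ℕ) • d h + (y' : ZMod m) →
            (x : ℕ) = x' := by
          intro x x' y y' hle heq
          by_contra hne
          have hlt : (x : ℕ) < x' := lt_of_le_of_ne hle hne
          refine hone h hhP hhA ((x' : ℕ) - x) (by omega) (by omega) ?_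
          have : ((x' : ℕ) - (x : ℕ)) • d h = (y : ZMod m) - y' := by
            have e : (x' : ℕ) • d h = ((x' : ℕ) - (x : ℕ)) • d h + (x : ℕ) • d h := by
              rw [← add_smul]; congr 1; omega
            rw [e] at heq
            linear_combination (-1 : ZMod m) * heq
          rw [this]
          exact K.sub_mem y.2 y'.2
        rintro ⟨x, y⟩ ⟨x', y'⟩ heq
        simp only at heq
        have hx : (x : ℕ) = x' := by
          rcases le_total (x : ℕ) x' with hle | hle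
          · exact key x x' y y' hle heq
          · exact (key x' x y' y hle heq.symm).symm
        rw [hx] at heq
        have hy : (y : ZMod m) = y' := by
          exact add_left_cancel heq
        exact Prod.ext (Fin.ext hx) (Subtype.ext hy)
      have hcard := Nat.card_le_card_of_injective _ hinj
      rw [Nat.card_prod, Nat.card_zmod, Nat.card_eq_fintype_card, Fintype.card_fin] at hcard
      have h1 : (k2 + 1) * Nat.card K ≤ (k2 + 1) * (B * (p + 1)) := by
        calc (k2 + 1) * Nat.card K ≤ m := hcard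
          _ ≤ B * (p + 1) * (k2 + 1) := hm1
          _ = (k2 + 1) * (B * (p + 1)) := by ring
      have h2 : Nat.card K ≤ B * (p + 1) := Nat.le_of_mul_le_mul_left h1 (by omega)
      omega

end ZS44129
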