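import Mathlib
import Pool.Agent.Work.MP_44129c_co.Defs
import Pool.Agent.Work.MP_44129c_co.LatPres

/-!
# MP_44129c_co, module LatFill (a presentation gives the lattice structure)

Proof.  Write `ξ(z) = ∑_P z g n g`, `φ(z) = ∑_P z g • g`; for `∑_P z = 0` one has
`φ(z) = ∑_P z g • (g - g₀)`.
1. `A = B`, `t = |K| D ≤ B^2`.  For `∑ z = 0`:
   `D • φ(z) - ξ(z) • (h - g₀) = ∑ z g • (D • (g-g₀) - n g • (h-g₀)) ∈ K`.  (**)
2. `tor`: `ξ(z) = 0` gives `D • φ(z) ∈ K`, so `|K| • D • φ(z) = 0`.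
3. The set `I = {ξ(z) : ∑ z = 0, φ(z) = 0}` is an additive subgroup of `ℤ` containing
   `m D > 0` (`z = m (δ_h - δ_{g₀})`, `m • h = 0` in `ZMod m`).  Let `f > 0` be its generator
   (e.g. the least positive element; `Int.subgroup_cyclic` or direct division with remainder).
   `ker` holds.  `f = ξ(z₁)` with `φ(z₁) = 0`, `∑ z₁ = 0`; (**) gives `f • (h - g₀) ∈ K`, so
   `m ≤ B f` by `order`.
4. `fill`: given `z`, `i` with `|ξ(z) - i f| ≤ 2 A`.  Let `z₂ = z - i z₁`: same `φ`, `∑ = 0`,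
   `s := ξ(z₂)`, `|s| ≤ 2A`.  For `g ∈ P`, `g ≠ g₀, h` let `q g = z₂ g / (t D)` (`Int.ediv`) and
   `z₃ = z₂ - ∑_{g ≠ g₀,h} q g • t • (D δ_g - n g δ_h - (D - n g) δ_{g₀})`; each vector in
   brackets has sum `0` and `ξ = 0` so `t •` it is killed by `φ` (2.); hence `φ(z₃) = φ(z₂)`,
   `ξ(z₃) = s`, `∑ z₃ = 0`, and `0 ≤ z₃ g < t D` for `g ≠ g₀, h`.  Then
   `D z₃ h = s - ∑_{g≠g₀,h} z₃ g n g` gives `|z₃ h| ≤ 2A + p t D A`, and
   `z₃ g₀ = -∑_{g ≠ g₀} z₃ g`.  All entries are at most `C := (p + 1)(2 B + (p+1) B^5 + B^3) + B^2`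
   (any explicit larger `C`, also `≥ B` and `≥ t`, is fine).
   It may be easier to define `z₃` directly: `z₃ g = z₂ g % (t D)` for `g ≠ g₀, h`,
   `z₃ h = z₂ h + ∑ q g t n g`, `z₃ g₀ = z₂ g₀ + ∑ q g t (D - n g)`.
5. `bound`, `zero` (`g₀`), `nonc` (`h`), `fpos`, `flow` are clear.
-/

set_option autoImplicit false

namespace ZS44129

open Finset

theorem lat_of_pres (p B : ℕ) : ∃ C : ℕ, ∀ m : ℕ, 0 < m → ∀ P : Finset (ZMod m), P.card ≤ p →
    ∀ (g₀ h : ZMod m) (K : AddSubgroup (ZMod m)) (D : ℕ) (n : ZMod m → ℤ),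
      Pres m P B g₀ h K D n → ∃ f : ℕ, Lat m P B C n f := by
  classical
  refine ⟨4 * B + B ^ 2 + p * B ^ 4 + p * B ^ 3, ?_⟩
  intro m hm P hPc g₀ h K D n hp
  haveI : NeZero m := ⟨hm.ne'⟩
  haveI : Finite K := inferInstance
  obtain ⟨C, hC⟩ : ∃ C : ℕ, C = 4 * B + B ^ 2 + p * B ^ 4 + p * B ^ 3 := ⟨_, rfl⟩
  rw [← hC]
  have hDz : (0 : ℤ) < D := by exact_mod_cast hp.Dpos
  have hDB : (D : ℤ) ≤ B := by exact_mod_cast hp.Dle
  have hB0 : (0 : ℤ) ≤ B := by positivity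
  -- (**)
  have hstar : ∀ z : ZMod m → ℤ, ∑ g ∈ P, z g = 0 →
      (D : ℤ) • (∑ g ∈ P, z g • g) - (∑ g ∈ P, z g * n g) • (h - g₀) ∈ K := by
    intro z hz
    have e1 : ∑ g ∈ P, z g • g = ∑ g ∈ P, z g • (g - g₀) := by
      have : ∑ g ∈ P, z g • (g - g₀) = ∑ g ∈ P, z g • g - (∑ g ∈ P, z g) • g₀ := by
        rw [Finset.sum_smul, ← Finset.sum_sub_distrib]
        exact Finset.sum_congr rfl fun g _ => smul_sub _ _ _
      rw [this, hz]; simp
    have e2 : (D : ℤ) • (∑ g ∈ P, z g • g) - (∑ g ∈ P, z g * n g) • (h - g₀) =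
        ∑ g ∈ P, z g • ((D : ℤ) • (g - g₀) - n g • (h - g₀)) := by
      rw [e1, Finset.smul_sum, Finset.sum_smul, ← Finset.sum_sub_distrib]
      refine Finset.sum_congr rfl fun g _ => ?_
      rw [smul_sub (z g) ((D : ℤ) • (g - g₀)) (n g • (h - g₀)), smul_smul, smul_smul, smul_smul,
        mul_comm (D : ℤ) (z g)]
    rw [e2]
    exact AddSubgroup.sum_mem _ fun g hg => AddSubgroup.zsmul_mem _ (hp.rel g hg) _
  -- torsion
  obtain ⟨t, ht⟩ : ∃ t : ℕ, t = Nat.card K * D := ⟨_, rfl⟩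
  have htpos : 0 < t := by
    rw [ht]; exact Nat.mul_pos Nat.card_pos hp.Dpos
  have htB : t ≤ B ^ 2 := by
    rw [ht, pow_two]; exact Nat.mul_le_mul hp.cardK hp.Dle
  have htor : ∀ z : ZMod m → ℤ, ∑ g ∈ P, z g = 0 → ∑ g ∈ P, z g * n g = 0 →
      t • ∑ g ∈ P, z g • g = 0 := by
    intro z hz hzn
    have h1 := hstar z hz
    rw [hzn, zero_smul, sub_zero] at h1
    have h2 : Nat.card K • (⟨_, h1⟩ : K) = 0 := card_nsmul_eq_zero'
    have h3 := congrArg (Subtype.val) h2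
    simp only [AddSubgroup.coe_nsmul, ZeroMemClass.coe_zero] at h3
    rw [ht, mul_smul, ← natCast_zsmul (a := ∑ g ∈ P, z g • g) (n := D)]
    exact h3
  -- the generator
  have hex : ∃ k : ℕ, 0 < k ∧ ∃ z : ZMod m → ℤ, ∑ g ∈ P, z g = 0 ∧ ∑ g ∈ P, z g • g = 0 ∧
      ∑ g ∈ P, z g * n g = k := by
    refine ⟨m * D, Nat.mul_pos hm hp.Dpos,
      fun g => (if g = h then (m : ℤ) else 0) - (if g = g₀ then (m : ℤ) else 0), ?_, ?_, ?_⟩
    · rw [Finset.sum_sub_distrib]; simp [hp.mem₀, hp.memh]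
    · simp only [sub_smul, ite_smul, zero_smul]
      rw [Finset.sum_sub_distrib]
      simp [hp.mem₀, hp.memh]
    · simp only [sub_mul, ite_mul, zero_mul]
      rw [Finset.sum_sub_distrib]
      simp [hp.mem₀, hp.memh, hp.n₀, hp.nh]
  obtain ⟨f, ⟨hf, z1, hz1s, hz1p, hz1x⟩, hfmin⟩ : ∃ f : ℕ, (0 < f ∧ ∃ z : ZMod m → ℤ,
      ∑ g ∈ P, z g = 0 ∧ ∑ g ∈ P, z g • g = 0 ∧ ∑ g ∈ P, z g * n g = f) ∧
      ∀ k < f, ¬ (0 < k ∧ ∃ z : ZMod m → ℤ, ∑ g ∈ P, z g = 0 ∧ ∑ g ∈ P, z g • g = 0 ∧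
      ∑ g ∈ P, z g * n g = k) :=
    ⟨Nat.find hex, Nat.find_spec hex, fun k hk => Nat.find_min hex hk⟩
  have hfz : (0 : ℤ) < f := by exact_mod_cast hf
  refine ⟨f, ?_⟩
  -- linear functionals of z - c z1
  have hlin : ∀ (z : ZMod m → ℤ) (c : ℤ), ∑ g ∈ P, z g = 0 →
      ∑ g ∈ P, (z g - c * z1 g) = 0 ∧ ∑ g ∈ P, (z g - c * z1 g) • g = ∑ g ∈ P, z g • g ∧
      ∑ g ∈ P, (z g - c * z1 g) * n g = ∑ g ∈ P, z g * n g - c * f := by
    intro z c hz
    refine ⟨?_, ?_, ?_⟩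
    · rw [Finset.sum_sub_distrib, ← Finset.mul_sum, hz, hz1s]; simp
    · simp only [sub_smul, mul_smul]
      rw [Finset.sum_sub_distrib, ← Finset.smul_sum, hz1p]; simp
    · simp only [sub_mul, mul_assoc]
      rw [Finset.sum_sub_distrib, ← Finset.mul_sum, hz1x]
  have hker : ∀ z : ZMod m → ℤ, ∑ g ∈ P, z g = 0 → ∑ g ∈ P, z g • g = 0 →
      (f : ℤ) ∣ ∑ g ∈ P, z g * n g := by
    intro z hz hzp
    obtain ⟨a1, a2, a3⟩ := hlin z ((∑ g ∈ P, z g * n g) / f) hz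
    have e1 : ∑ g ∈ P, z g * n g - (∑ g ∈ P, z g * n g) / f * f = (∑ g ∈ P, z g * n g) % f := by
      have := Int.emod_add_mul_ediv (∑ g ∈ P, z g * n g) f
      linarith
    rw [e1] at a3
    have hr0 := Int.emod_nonneg (∑ g ∈ P, z g * n g) hfz.ne'
    have hr1 := Int.emod_lt_of_pos (∑ g ∈ P, z g * n g) hfz
    by_contra hnd
    have hrne : (∑ g ∈ P, z g * n g) % f ≠ 0 := fun h0 => hnd (Int.dvd_of_emod_eq_zero h0)
    have hrpos : 0 < (∑ g ∈ P, z g * n g) % f := lt_of_le_of_ne hr0 (Ne.symm hrne)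
    refine hfmin ((∑ g ∈ P, z g * n g) % f).toNat ?_ ⟨?_, _, a1, ?_, ?_⟩
    · have := Int.toNat_of_nonneg hr0
      zify
      rw [this]
      exact hr1
    · rw [Int.lt_toNat]; exact_mod_cast hrpos
    · rw [a2, hzp]
    · rw [a3, Int.toNat_of_nonneg hr0]
  refine ⟨hp.bound, ⟨g₀, hp.mem₀, hp.n₀⟩, ⟨h, hp.memh, by rw [hp.nh]; exact hDz.ne'⟩, hf, ?_,
    hker, ⟨t, htpos, ?_, htor⟩, ?_⟩
  · -- flow
    have h1 := hstar z1 hz1s
    rw [hz1p, hz1x, smul_zero, zero_sub] at h1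
    have h2 := AddSubgroup.neg_mem _ h1
    rw [neg_neg, natCast_zsmul] at h2
    refine (hp.order f hf h2).trans (Nat.mul_le_mul_right _ ?_)
    rw [hC]; nlinarith [Nat.zero_le (B ^ 2), Nat.zero_le (p * B ^ 4), Nat.zero_le (p * B ^ 3)]
  · refine htB.trans ?_
    rw [hC]; nlinarith [Nat.zero_le B, Nat.zero_le (p * B ^ 4), Nat.zero_le (p * B ^ 3)]
  · -- fill
    intro z hz i hi
    obtain ⟨b1, b2, b3⟩ := hlin z i hz
    obtain ⟨z2, hz2⟩ : ∃ z2 : ZMod m → ℤ, z2 = fun g => z g - i * z1 g := ⟨_, rfl⟩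
    have c1 : ∑ g ∈ P, z2 g = 0 := by rw [hz2]; exact b1
    have c2 : ∑ g ∈ P, z2 g • g = ∑ g ∈ P, z g • g := by rw [hz2]; exact b2
    have c3 : |∑ g ∈ P, z2 g * n g| ≤ 2 * B := by
      rw [hz2]
      simp only
      rw [b3]; exact hi
    obtain ⟨Q, hQ⟩ : ∃ Q : Finset (ZMod m), Q = (P.erase g₀).erase h := ⟨_, rfl⟩
    have hsplit : ∀ F : ZMod m → ℤ, ∑ g ∈ P, F g = F g₀ + (F h + ∑ g ∈ Q, F g) := by
      intro F
      rw [← Finset.add_sum_erase P F hp.mem₀, ← Finset.add_sum_erase (P.erase g₀) F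
        (Finset.mem_erase.2 ⟨hp.ne, hp.memh⟩), hQ]
    have hQP : ∀ x ∈ Q, x ∈ P ∧ x ≠ g₀ ∧ x ≠ h := by
      intro x hx
      rw [hQ] at hx
      have h1 := Finset.mem_erase.1 hx
      have h2 := Finset.mem_erase.1 h1.2
      exact ⟨h2.2, h2.1, h1.1⟩
    have hQc : (Q.card : ℤ) ≤ p := by
      have : Q.card ≤ p := by
        refine (Finset.card_le_card ?_).trans hPc
        intro x hx; exact (hQP x hx).1
      exact_mod_cast this
    let v : ZMod m → ZMod m → ℤ := fun x g => D * (if g = x then 1 else 0) -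
      n x * (if g = h then 1 else 0) - (D - n x) * (if g = g₀ then 1 else 0)
    have hv1 : ∀ x ∈ P, ∑ g ∈ P, v x g = 0 := by
      intro x hx
      simp only [v, Finset.sum_sub_distrib, ← Finset.mul_sum, Finset.sum_ite_eq', hx, hp.memh,
        hp.mem₀, if_true]
      ring
    have hv2 : ∀ x ∈ P, ∑ g ∈ P, v x g * n g = 0 := by
      intro x hx
      simp only [v, sub_mul, mul_assoc, ite_mul, one_mul, zero_mul, Finset.sum_sub_distrib,
        ← Finset.mul_sum, Finset.sum_ite_eq', hx, hp.memh, hp.mem₀, if_true, hp.nh, hp.n₀]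
      ring
    have hv3 : ∀ x ∈ P, (t : ℤ) • ∑ g ∈ P, v x g • g = 0 := by
      intro x hx
      rw [natCast_zsmul]
      exact htor (v x) (hv1 x hx) (hv2 x hx)
    obtain ⟨w, hw⟩ : ∃ w : ZMod m → ℤ, w = fun x => z2 x / ((t : ℤ) * D) := ⟨_, rfl⟩
    obtain ⟨z3, hz3⟩ : ∃ z3 : ZMod m → ℤ,
      z3 = fun g => z2 g - ∑ x ∈ Q, w x * t * v x g := ⟨_, rfl⟩
    have d1 : ∑ g ∈ P, z3 g = 0 := by
      rw [hz3]
      simp only
      rw [Finset.sum_sub_distrib, c1, Finset.sum_comm]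
      have : ∑ x ∈ Q, ∑ g ∈ P, w x * t * v x g = 0 := by
        refine Finset.sum_eq_zero fun x hx => ?_
        rw [← Finset.mul_sum, hv1 x (hQP x hx).1, mul_zero]
      rw [this]; simp
    have d2 : ∑ g ∈ P, z3 g • g = ∑ g ∈ P, z2 g • g := by
      rw [hz3]
      simp only [sub_smul, Finset.sum_smul]
      rw [Finset.sum_sub_distrib, Finset.sum_comm]
      have : ∑ x ∈ Q, ∑ g ∈ P, (w x * t * v x g) • g = 0 := by
        refine Finset.sum_eq_zero fun x hx => ?_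
        have e : ∑ g ∈ P, (w x * t * v x g) • g = w x • ((t : ℤ) • ∑ g ∈ P, v x g • g) := by
          rw [Finset.smul_sum, Finset.smul_sum]
          refine Finset.sum_congr rfl fun g _ => ?_
          rw [smul_smul, smul_smul, mul_assoc]
        rw [e, hv3 x (hQP x hx).1, smul_zero]
      rw [this]; simp
    have d3 : ∑ g ∈ P, z3 g * n g = ∑ g ∈ P, z2 g * n g := by
      rw [hz3]
      simp only [sub_mul, Finset.sum_mul]
      rw [Finset.sum_sub_distrib, Finset.sum_comm]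
      have : ∑ x ∈ Q, ∑ g ∈ P, w x * t * v x g * n g = 0 := by
        refine Finset.sum_eq_zero fun x hx => ?_
        have e : ∑ g ∈ P, w x * t * v x g * n g = w x * t * ∑ g ∈ P, v x g * n g := by
          rw [Finset.mul_sum]
          exact Finset.sum_congr rfl fun g _ => by ring
        rw [e, hv2 x (hQP x hx).1, mul_zero]
      rw [this]; simp
    have htD : (0 : ℤ) < (t : ℤ) * D := by
      have : (0 : ℤ) < t := by exact_mod_cast htpos
      positivity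
    have htDB : (t : ℤ) * D ≤ B ^ 3 := by
      have h1 : (t : ℤ) ≤ B ^ 2 := by exact_mod_cast htB
      calc (t : ℤ) * D ≤ B ^ 2 * B := mul_le_mul h1 hDB hDz.le (by positivity)
        _ = B ^ 3 := by ring
    have d4 : ∀ g ∈ Q, 0 ≤ z3 g ∧ z3 g ≤ B ^ 3 := by
      intro g hg
      have hgP := hQP g hg
      have e : z3 g = z2 g % ((t : ℤ) * D) := by
        have e1 : ∑ x ∈ Q, w x * t * v x g = w g * (t * D) := by
          rw [Finset.sum_eq_single_of_mem g hg]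
          · simp only [v, hgP.2.1, hgP.2.2, if_true, if_false]; ring
          · intro x hx hxg
            simp only [v, hgP.2.1, hgP.2.2, if_false, if_neg (Ne.symm hxg)]; ring
        rw [hz3]
        simp only
        rw [e1, hw]
        have := Int.emod_add_mul_ediv (z2 g) ((t : ℤ) * D)
        linarith
      rw [e]
      refine ⟨Int.emod_nonneg _ htD.ne', ?_⟩
      have := Int.emod_lt_of_pos (z2 g) htD
      linarith
    have habsQ : ∑ g ∈ Q, |z3 g| ≤ p * B ^ 3 := by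
      calc ∑ g ∈ Q, |z3 g| ≤ ∑ g ∈ Q, (B : ℤ) ^ 3 :=
            Finset.sum_le_sum fun g hg => by
              rw [abs_of_nonneg (d4 g hg).1]; exact (d4 g hg).2
        _ = Q.card * B ^ 3 := by rw [Finset.sum_const, nsmul_eq_mul]
        _ ≤ p * B ^ 3 := mul_le_mul_of_nonneg_right hQc (by positivity)
    have d5 : |z3 h| ≤ 2 * B + p * B ^ 4 := by
      have e1 := hsplit (fun g => z3 g * n g)
      rw [d3, hp.n₀, hp.nh] at e1
      have e2 : (D : ℤ) * z3 h = ∑ g ∈ P, z2 g * n g - ∑ g ∈ Q, z3 g * n g := by linarith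
      have e3 : |∑ g ∈ Q, z3 g * n g| ≤ p * B ^ 3 * B := by
        refine (Finset.abs_sum_le_sum_abs _ _).trans ?_
        calc ∑ g ∈ Q, |z3 g * n g| ≤ ∑ g ∈ Q, |z3 g| * B :=
              Finset.sum_le_sum fun g hg => by
                rw [abs_mul]
                exact mul_le_mul_of_nonneg_left (hp.bound g (hQP g hg).1) (abs_nonneg _)
          _ = (∑ g ∈ Q, |z3 g|) * B := by rw [Finset.sum_mul]
          _ ≤ p * B ^ 3 * B := mul_le_mul_of_nonneg_right habsQ hB0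
      have e4 : |(D : ℤ) * z3 h| ≤ 2 * B + p * B ^ 4 := by
        rw [e2]
        refine (abs_sub _ _).trans ?_
        have : (p : ℤ) * B ^ 3 * B = p * B ^ 4 := by ring
        linarith
      rw [abs_mul, abs_of_pos hDz] at e4
      have e5 : |z3 h| ≤ (D : ℤ) * |z3 h| := by
        have : (1 : ℤ) ≤ D := hDz
        nlinarith [abs_nonneg (z3 h)]
      linarith
    have d6 : |z3 g₀| ≤ 2 * B + p * B ^ 4 + p * B ^ 3 := by
      have e1 := hsplit z3
      rw [d1] at e1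
      have e2 : z3 g₀ = -(z3 h) + -(∑ g ∈ Q, z3 g) := by linarith
      rw [e2]
      refine (abs_add_le _ _).trans ?_
      rw [abs_neg, abs_neg]
      have := (Finset.abs_sum_le_sum_abs (fun g => z3 g) Q).trans habsQ
      linarith
    have hCz : (C : ℤ) = 4 * B + B ^ 2 + p * B ^ 4 + p * B ^ 3 := by rw [hC]; push_cast; ring
    refine ⟨z3, d1, d2.trans c2, fun g hg => ?_⟩
    have hp4 : (0 : ℤ) ≤ p * B ^ 4 := by positivity
    have hp3 : (0 : ℤ) ≤ p * B ^ 3 := by positivity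
    have hB2 : (0 : ℤ) ≤ (B : ℤ) ^ 2 := by positivity
    rw [hCz]
    by_cases hg0 : g = g₀
    · rw [hg0]; linarith
    by_cases hgh : g = h
    · rw [hgh]; linarith
    have hgQ : g ∈ Q := by
      rw [hQ]
      exact Finset.mem_erase.2 ⟨hgh, Finset.mem_erase.2 ⟨hg0, hg⟩⟩
    have h1 : |z3 g| ≤ ∑ g ∈ Q, |z3 g| :=
      Finset.single_le_sum (f := fun g => |z3 g|) (fun _ _ => abs_nonneg _) hgQ
    linarith

end ZS44129
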