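import Mathlib
import Pool.Agent.Work.MP_44129c_co.Defs
import Pool.Agent.Work.MP_44129c_co.LatPres
import Pool.Agent.Work.MP_44129c_co.LatFill

/-!
# MP_44129c_co, module LatMain (dichotomy, assembly) -- written by helper68
-/

set_option autoImplicit false

namespace ZS44129

open Finset

theorem lattice (p B : ℕ) : ∃ A C : ℕ, ∀ m k : ℕ, m ≤ B * k → C ≤ m → 0 < m →
    ∀ P : Finset (ZMod m), P.Nonempty → P.card ≤ p →
      Full m P k ∨ ∃ (n : ZMod m → ℤ) (f : ℕ), Lat m P A C n f := by
  obtain ⟨B', m₀, h1⟩ := lat_pres p B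
  obtain ⟨C, h2⟩ := lat_of_pres p B'
  refine ⟨B', C + m₀, fun m k hk hC hm P hP hp => ?_⟩
  rcases h1 m k hk (by omega) hm P hP hp with h | ⟨g₀, h, K, D, n, hpres⟩
  · exact Or.inl h
  · obtain ⟨f, hf⟩ := h2 m hm P hp g₀ h K D n hpres
    refine Or.inr ⟨n, f, ?_⟩
    obtain ⟨t, ht0, htC, ht⟩ := hf.tor
    exact
      { bound := hf.bound
        zero := hf.zero
        nonc := hf.nonc
        fpos := hf.fpos
        flow := hf.flow.trans (Nat.mul_le_mul_right _ (by omega))
        ker := hf.ker
        tor := ⟨t, ht0, by omega, ht⟩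
        fill := by
          intro z hz i hi
          obtain ⟨z', a, b, c⟩ := hf.fill z hz i hi
          refine ⟨z', a, b, fun g hg => (c g hg).trans ?_⟩
          push_cast
          omega }

end ZS44129
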