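import Mathlib
import Pool.Agent.Work.MP_44129c_co.LatMain
import Pool.Agent.Work.MP_44129c_co.FullFalse
import Pool.Agent.Work.MP_44129c_co.GapThm
import Pool.Agent.Work.MP_44129c_co.HighCount
import Pool.Agent.Work.MP_44129c_co.Deep
import Pool.Agent.Work.MP_44129c_co.CoreNeg

/-!
# MP_44129c_co, module SysCore (structure theorem for systems, assembly)

Proof.  `lattice (4q) (160 q^2)` gives `A, C₁`; `gap_thm q A C₁` gives `C₂`;
`high_count q A C₁ C₂` gives `C₃`; `deep_cfg q A C₁ C₂` gives `C₄`.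
`C = C₁ + C₂ + C₃ + C₄ + 160 q^2 + 2`.  Let `m ≥ C`, `k = m / (80 q^2)`: `80 q^2 k ≤ m` and
`m ≤ 160 q^2 k` (since `m ≥ 160 q^2`).  `lattice` gives `Full m P k`, excluded by `full_false`, or
`n, f` with `Lat m P A C₁ n f`.  `gap_thm` gives `j`.  The field `hi` is `high_count`; the field
`lo` is `high_count` for `-n` (`lat_neg`), `j' = -j - 1` (with `xi (-n) = - xi n`); `deep` is
`deep_cfg`.  Enlarge the constants to `C` (`lat_mono`; in `deep` the factors
`xi - j f`, `(j+1) f - xi` are positive because `m > 0`).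
-/

set_option autoImplicit false

namespace ZS44129

open Finset

theorem sys_core (q : ℕ) (hq : 0 < q) : ∃ A C : ℕ, ∀ m : ℕ, C ≤ m →
    ∀ {W : Type} [Fintype W] [DecidableEq W] (O : W → Finset (ZMod m)) (F : Option (ZMod m))
      (M : ℕ) (P : Finset (ZMod m)), Sys m q O F M P →
      ∃ (n : ZMod m → ℤ) (f : ℕ) (j : ℤ), Core m A C O F M P n f j := by
  obtain ⟨A, C₁, h1⟩ := lattice (4 * q) (160 * q ^ 2)
  obtain ⟨C₂, h2⟩ := gap_thm q A C₁ hq
  obtain ⟨C₃, h3⟩ := high_count q A C₁ C₂ hq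
  obtain ⟨C₄, h4⟩ := deep_cfg q A C₁ C₂ hq
  refine ⟨A, C₁ + C₂ + C₃ + C₄ + 160 * q ^ 2 + 2, ?_⟩
  intro m hm W _ _ O F M P hS
  have hmpos : 0 < m := by omega
  have hq2 : 0 < 80 * q ^ 2 := by positivity
  obtain ⟨k, hk⟩ : ∃ k, k = m / (80 * q ^ 2) := ⟨_, rfl⟩
  have hk1 : 80 * q ^ 2 * k ≤ m := by rw [hk]; exact Nat.mul_div_le _ _
  have hk2 : m ≤ 160 * q ^ 2 * k := by
    have h5 : m < 80 * q ^ 2 * (k + 1) := by
      rw [hk, mul_comm]; exact Nat.lt_mul_of_div_lt (Nat.lt_succ_self _) hq2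
    have h6 : 1 ≤ k := by
      by_contra hcon
      have : k = 0 := by omega
      rw [this] at h5
      omega
    have h7 : 80 * q ^ 2 * (k + 1) ≤ 80 * q ^ 2 * (2 * k) := Nat.mul_le_mul_left _ (by omega)
    have h8 : 80 * q ^ 2 * (2 * k) = 160 * q ^ 2 * k := by ring
    omega
  rcases h1 m k hk2 (by omega) hmpos P hS.ne hS.pal with hfull | ⟨n, f, hL⟩
  · exact (full_false O F M P hq (by omega) hk1 hS hfull).elim
  · obtain ⟨j, hj⟩ := h2 m (by omega) O F M P n f hS hL
    refine ⟨n, f, j, ⟨lat_mono hL (by omega), ?_, ?_, ?_, ?_⟩⟩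
    · intro σ hσ
      obtain ⟨h5, h6⟩ := hj σ hσ
      push_cast
      constructor
      · have : (0 : ℤ) ≤ C₁ + C₃ + C₄ + 160 * (q : ℤ) ^ 2 + 2 := by positivity
        linarith
      · have : (0 : ℤ) ≤ C₁ + C₃ + C₄ + 160 * (q : ℤ) ^ 2 + 2 := by positivity
        linarith
    · intro g hg hhi
      subst hg
      have h5 := h3 m (by omega) O g M P n f j hS hL (fun σ hσ => (hj σ hσ).2) hhi
      omega
    · intro g hg hlo
      subst hg
      have e1 : ∀ x : ZMod m, ((-j - 1 + 1) * (f : ℤ) ≤ m * (-n x) ↔ m * n x ≤ j * f) := by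
        intro x
        have h1 : (-j - 1 + 1) * (f : ℤ) = -(j * f) := by ring
        have h2 : (m : ℤ) * (-n x) = -(m * n x) := by ring
        rw [h1, h2]
        exact neg_le_neg_iff
      have h5 := h3 m (by omega) O g M P (fun x => -n x) f (-j - 1) hS (lat_neg hL)
        (fun σ hσ => by
          rw [xi_neg]
          have := (hj σ hσ).1
          linarith) ((e1 g).2 hlo)
      simp only [e1] at h5
      omega
    · obtain ⟨σ, hσ, h5, h6⟩ := h4 m (by omega) O F M P n f j hS hL hj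
      have hm' : (0 : ℤ) < m := by exact_mod_cast hmpos
      have hC4 : (0 : ℤ) ≤ C₄ := by positivity
      have hrest : (0 : ℤ) ≤ C₁ + C₂ + C₃ + 160 * (q : ℤ) ^ 2 + 2 := by positivity
      refine ⟨σ, hσ, ?_, ?_⟩
      · have h7 : 0 < xi n F σ - j * f := by
          by_contra hcon
          push Not at hcon
          nlinarith
        push_cast
        nlinarith
      · have h7 : 0 < (j + 1) * f - xi n F σ := by
          by_contra hcon
          push Not at hcon
          nlinarith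
        push_cast
        nlinarith

end ZS44129
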