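import Mathlib
import Pool.Agent.Work.MP_44129c_co.SysCore
import Pool.Agent.Work.MP_44129c_co.StarSys
import Pool.Agent.Work.MP_44129c_co.PairSys
import Pool.Agent.Work.MP_44129c_co.StarPair
import Pool.Agent.Work.MP_44129c_co.Orient
import Pool.Agent.Work.MP_44129c_co.LatRel2
import Pool.Agent.Work.MP_44129c_co.LatBasic

/-!
# MP_44129c_co, module ThmA (global high and low sides)

Proof.  Constants: `sys_core q` gives `A₁, C₁`, `sys_core (2q)` gives `A₂, C₂`; `star_sys q`,
`pair_sys q`, `star_pair q A₁ C₁ A₂ C₂` give thresholds; `B = 2 A₂ C₂`, `T = 2 B^5`; `A = A₂`,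
`C` = sum of everything `+ 2 A₁ T C₁ + 1000`.
1. For every `u` choose `n_u, f_u, j_u` with `Core m A₁ C₁ (starO q c u) none m (pal q c u) ..`
   (`star_sys`, `sys_core q`) and, by `core_sides`, `x_u, y_u ∈ pal q c u` with
   `(j_u+1) f_u ≤ m n_u(x_u)`, `m n_u(y_u) ≤ j_u f_u` (so `n_u x_u ≠ n_u y_u`, `f_u > 0`).
   `D u = x_u - y_u`.
2. `orient` with `good = Good q c`:
   `hcommon`: at most `1 + N/100` vertices `w` are not good for `u` (`w = u` or
   `c u w ∉ pal q c u`), same for `v`, and `Good` is symmetric (`c` symmetric);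
   `2 + 2N/100 < N`.
   `hrel`: for a good pair take `Core m A₂ C₂ (pairO q c u v) (some (c u v)) (m-1) (pal ∪ pal)
   n' f' j'` (`pair_sys`, `sys_core (2q)`), and `lat_rel2` for `x_u, y_u, x_v, y_v`:
   `a = t (n' x_v - n' y_v)`, `b = t (n' x_u - n' y_u)`; they are nonzero by `star_pair` (in both
   alternatives one of `x_u, y_u` is high and the other low for `(n',f',j')`, and
   `j' f' < (j'+1) f'`).
   `hkill`: `lat_kill` for the star at `u` with `T = 2 B^5` (`2 A₁ T C₁ < m`).
   Get `o : V → {1,-1}`.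
3. `H u = {g ∈ pal q c u : (j_u+1) f_u ≤ m n_u g}`, `L u = {g ∈ pal q c u : m n_u g ≤ j_u f_u}` if
   `o u = 1`, and interchanged if `o u = -1`.  `H u ∪ L u = pal q c u` by `lat_dich`.
4. Let `(u,v)` be good, `n', f', j'` as in 2.  `star_pair` for `x = u`: first alternative, then
   `n' x_u > n' y_u` (sign `ε_u = 1`), or second, then `n' x_u < n' y_u` (`ε_u = -1`); same for
   `v`.  `orient` for `a, b` of 2.: `0 < a b o(u) o(v)`, i.e. `ε_u ε_v = o(u) o(v)`.
   If `ε_u = o(u)` (so `ε_v = o(v)`): `(n', f', j')` works: e.g. `o(u) = 1 = ε_u`, `g ∈ H u`: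
   first alternative gives `(j'+1) f' ≤ m n' g`; `o(u) = -1 = ε_u`, `g ∈ H u` means
   `m n_u g ≤ j_u f_u`, second alternative gives `(j'+1) f' ≤ m n' g`; etc.
   If `ε_u = -o(u)` (so `ε_v = -o(v)`): use `core_neg`: `(-n', f', -j'-1)` works
   (`(-j'-1+1) f' ≤ m (-n' g)` iff `m n' g ≤ j' f'`).
-/

set_option autoImplicit false

namespace ZS44129

open Finset

private theorem thmA_core_mono {m A C C' f M : ℕ} {W : Type} [Fintype W]
    {O : W → Finset (ZMod m)} {F : Option (ZMod m)} {P : Finset (ZMod m)} {n : ZMod m → ℤ}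
    {j : ℤ} (hm : 0 < m) (hC : Core m A C O F M P n f j) (h : C ≤ C') :
    Core m A C' O F M P n f j := by
  have hcc : (C : ℤ) ≤ C' := by exact_mod_cast h
  refine ⟨lat_mono hC.lat h, ?_, ?_, ?_, ?_⟩
  · intro σ hσ
    obtain ⟨h1, h2⟩ := hC.gap σ hσ
    constructor <;> linarith
  · intro g hg hh
    exact (hC.hi g hg hh).trans (by omega)
  · intro g hg hh
    exact (hC.lo g hg hh).trans (by omega)
  · obtain ⟨σ, hσ, h1, h2⟩ := hC.deep
    have hm' : (0 : ℤ) < m := by exact_mod_cast hm
    have hC0 : (0 : ℤ) ≤ C := by positivity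
    have p1 : 0 < xi n F σ - j * f := by
      by_contra hneg
      push Not at hneg
      have := mul_nonneg hC0 (neg_nonneg.mpr hneg)
      linarith
    have p2 : 0 < (j + 1) * f - xi n F σ := by
      by_contra hneg
      push Not at hneg
      have := mul_nonneg hC0 (neg_nonneg.mpr hneg)
      linarith
    refine ⟨σ, hσ, h1.trans ?_, h2.trans ?_⟩
    · exact mul_le_mul_of_nonneg_right hcc p1.le
    · exact mul_le_mul_of_nonneg_right hcc p2.le

private theorem thmA_good_symm {V : Type} [Fintype V] [DecidableEq V] {m q : ℕ}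
    {c : V → V → ZMod m} (hsym : ∀ x y, c x y = c y x) {u v : V} (h : Good q c u v) :
    Good q c v u := by
  refine ⟨h.1.symm, ?_⟩
  rw [hsym v u, Finset.union_comm]
  exact h.2

theorem thmA (q : ℕ) (hq : 0 < q) : ∃ A C : ℕ, ∀ m : ℕ, C ≤ m →
    ∀ {V : Type} [Fintype V] [DecidableEq V] (c : V → V → ZMod m), (∀ x y, c x y = c y x) →
      ZSF m c → 13 * m ≤ 10 * Fintype.card V → Fintype.card V ≤ 2 * m →
      (∀ u : V, 100 * ((univ.erase u).filter (fun w => c u w ∉ pal q c u)).card ≤
        Fintype.card V) →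
      ∃ H L : V → Finset (ZMod m), (∀ u, H u ∪ L u = pal q c u) ∧
        ∀ u v, Good q c u v → ∃ (n : ZMod m → ℤ) (f : ℕ) (j : ℤ),
          Core m A C (pairO q c u v) (some (c u v)) (m - 1) (pal q c u ∪ pal q c v) n f j ∧
          (∀ g ∈ H u ∪ H v, (j + 1) * f ≤ m * n g) ∧
          (∀ g ∈ L u ∪ L v, m * n g ≤ j * f) := by
  classical
  obtain ⟨A1, C1, hs⟩ := sys_core q hq
  obtain ⟨A2, C2, hp⟩ := sys_core (2 * q) (by omega)
  obtain ⟨m1, hst⟩ := star_sys q hq
  obtain ⟨m2, hpr⟩ := pair_sys q hq
  obtain ⟨m3, hsp⟩ := star_pair q A1 C1 A2 C2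
  obtain ⟨B, hB⟩ : ∃ B : ℕ, B = 2 * A2 * C2 := ⟨_, rfl⟩
  obtain ⟨T, hT⟩ : ∃ T : ℕ, T = 2 * B ^ 5 := ⟨_, rfl⟩
  refine ⟨A2, C1 + C2 + m1 + m2 + m3 + 2 * A1 * T * C1 + 1000, ?_⟩
  intro m hm V _ _ c hsym hz h13 h2m hrare
  have hmpos : 0 < m := by omega
  -- star structures
  have hstar : ∀ u : V, ∃ (n : ZMod m → ℤ) (f : ℕ) (j : ℤ),
      Core m A1 C1 (starO q c u) none m (pal q c u) n f j := fun u =>
    hs m (by omega) _ _ _ _ (hst m (by omega) c hz h13 h2m u (hrare u))
  choose nS fS jS hS using hstar
  have hstarsub : ∀ u w : V, starO q c u w ⊆ pal q c u := by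
    intro u w
    unfold starO
    split_ifs
    · exact Finset.empty_subset _
    · exact Finset.inter_subset_right
  have hsides : ∀ u : V, (∃ g ∈ pal q c u, (jS u + 1) * fS u ≤ m * nS u g) ∧
      (∃ g ∈ pal q c u, m * nS u g ≤ jS u * fS u) := fun u =>
    core_sides hmpos (hstarsub u) (by simp) (by simp) (hS u)
  choose xS hxS using fun u => (hsides u).1
  choose yS hyS using fun u => (hsides u).2
  have hfS : ∀ u, (0 : ℤ) < fS u := fun u => by exact_mod_cast (hS u).lat.fpos
  -- pair structures
  have hpair : ∀ u v : V, Good q c u v → ∃ (n : ZMod m → ℤ) (f : ℕ) (j : ℤ),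
      Core m A2 C2 (pairO q c u v) (some (c u v)) (m - 1) (pal q c u ∪ pal q c v) n f j :=
    fun u v huv => hp m (by omega) _ _ _ _ (hpr m (by omega) c hsym hz h13 h2m u v huv (hrare u))
  -- signs in pairs
  have hsign : ∀ u v x : V, Good q c u v → x = u ∨ x = v → ∀ (n : ZMod m → ℤ) (f : ℕ) (j : ℤ),
      Core m A2 C2 (pairO q c u v) (some (c u v)) (m - 1) (pal q c u ∪ pal q c v) n f j →
      ((∀ g ∈ pal q c x, ((jS x + 1) * fS x ≤ m * nS x g ↔ (j + 1) * f ≤ m * n g) ∧
        (m * nS x g ≤ jS x * fS x ↔ m * n g ≤ j * f)) ∧ 0 < n (xS x) - n (yS x)) ∨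
      ((∀ g ∈ pal q c x, ((jS x + 1) * fS x ≤ m * nS x g ↔ m * n g ≤ j * f) ∧
        (m * nS x g ≤ jS x * fS x ↔ (j + 1) * f ≤ m * n g)) ∧ n (xS x) - n (yS x) < 0) := by
    intro u v x huv hx n f j hC
    have hf : (0 : ℤ) < f := by exact_mod_cast hC.lat.fpos
    have hm0 : (0 : ℤ) < m := by exact_mod_cast hmpos
    rcases hsp m (by omega) c hsym u v x (nS x) n (fS x) f (jS x) j huv hx (hS x) hC with h | h
    · refine Or.inl ⟨h, ?_⟩
      have h1 := ((h (xS x) (hxS x).1).1).1 (hxS x).2
      have h2 := ((h (yS x) (hyS x).1).2).1 (hyS x).2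
      have h3 : (0 : ℤ) < m * (n (xS x) - n (yS x)) := by nlinarith
      exact (mul_pos_iff_of_pos_left hm0).1 h3
    · refine Or.inr ⟨h, ?_⟩
      have h1 := ((h (xS x) (hxS x).1).1).1 (hxS x).2
      have h2 := ((h (yS x) (hyS x).1).2).1 (hyS x).2
      have h3 : (0 : ℤ) < m * (n (yS x) - n (xS x)) := by nlinarith
      have := (mul_pos_iff_of_pos_left hm0).1 h3
      linarith
  -- common neighbours
  have hbad : ∀ u : V, (univ.filter (fun w => ¬ Good q c u w)).card ≤
      1 + ((univ.erase u).filter (fun w => c u w ∉ pal q c u)).card := by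
    intro u
    have : univ.filter (fun w => ¬ Good q c u w) ⊆
        insert u ((univ.erase u).filter (fun w => c u w ∉ pal q c u)) := by
      intro w hw
      simp only [Finset.mem_filter, Finset.mem_univ, true_and, Finset.mem_insert,
        Finset.mem_erase] at hw ⊢
      by_cases hwu : w = u
      · exact Or.inl hwu
      · refine Or.inr ⟨⟨hwu, trivial⟩, fun hc => hw ⟨Ne.symm hwu, ?_⟩⟩
        exact Finset.mem_union_left _ hc
    refine (Finset.card_le_card this).trans ?_
    refine (Finset.card_insert_le _ _).trans ?_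
    omega
  have hcommon : ∀ u v : V, ∃ w, Good q c u w ∧ Good q c w v := by
    intro u v
    by_contra hno
    push Not at hno
    have hcov : (univ : Finset V) ⊆ univ.filter (fun w => ¬ Good q c u w) ∪
        univ.filter (fun w => ¬ Good q c v w) := by
      intro w _
      simp only [Finset.mem_union, Finset.mem_filter, Finset.mem_univ, true_and]
      by_cases h1 : Good q c u w
      · right
        intro h2
        exact hno w h1 (thmA_good_symm hsym h2)
      · exact Or.inl h1
    have h1 := Finset.card_le_card hcov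
    have h2 := Finset.card_union_le (univ.filter (fun w => ¬ Good q c u w))
      (univ.filter (fun w => ¬ Good q c v w))
    have h3 := hbad u
    have h4 := hbad v
    have h5 := hrare u
    have h6 := hrare v
    rw [Finset.card_univ] at h1
    omega
  -- orientation
  obtain ⟨o, ho1, ho2⟩ := orient B (fun u => xS u - yS u) (Good q c) hcommon
    (by
      intro u v huv
      obtain ⟨n, f, j, hC⟩ := hpair u v huv
      obtain ⟨t, ht0, htC, hrel, hb1, hb2⟩ := lat_rel2 hC.lat (xS u) (yS u) (xS v) (yS v)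
        (Finset.mem_union_left _ (hxS u).1) (Finset.mem_union_left _ (hyS u).1)
        (Finset.mem_union_right _ (hxS v).1) (Finset.mem_union_right _ (hyS v).1)
      have hnu : n (xS u) - n (yS u) ≠ 0 := by
        rcases hsign u v u huv (Or.inl rfl) n f j hC with h | h
        · exact h.2.ne'
        · exact h.2.ne
      have hnv : n (xS v) - n (yS v) ≠ 0 := by
        rcases hsign u v v huv (Or.inr rfl) n f j hC with h | h
        · exact h.2.ne'
        · exact h.2.ne
      refine ⟨t * (n (xS v) - n (yS v)), t * (n (xS u) - n (yS u)),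
        mul_ne_zero ht0.ne' hnv, mul_ne_zero ht0.ne' hnu, ?_, ?_, hrel⟩
      · rw [hB]; push_cast; exact hb1
      · rw [hB]; push_cast; exact hb2)
    (by
      intro u s hs0 hsB
      have hne : nS u (xS u) ≠ nS u (yS u) := by
        intro h
        have h1 := (hxS u).2
        have h2 := (hyS u).2
        have h3 := hfS u
        rw [h] at h1
        nlinarith
      refine lat_kill (T := T) (hS u).lat ?_ (xS u) (yS u) (hxS u).1 (hyS u).1 hne s hs0 ?_
      · omega
      · rw [hT]; push_cast; exact hsB)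
  -- sides
  refine ⟨fun u => if o u = 1 then (pal q c u).filter (fun g => (jS u + 1) * fS u ≤ m * nS u g)
      else (pal q c u).filter (fun g => m * nS u g ≤ jS u * fS u),
    fun u => if o u = 1 then (pal q c u).filter (fun g => m * nS u g ≤ jS u * fS u)
      else (pal q c u).filter (fun g => (jS u + 1) * fS u ≤ m * nS u g), ?_, ?_⟩
  · intro u
    have hd : ∀ g ∈ pal q c u, m * nS u g ≤ jS u * fS u ∨ (jS u + 1) * fS u ≤ m * nS u g :=
      fun g hg => lat_dich (hS u).lat (jS u) g hg
    ext g
    by_cases h1 : o u = 1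
    · simp only [h1, if_true, Finset.mem_union, Finset.mem_filter]
      constructor
      · rintro (h | h) <;> exact h.1
      · intro h
        rcases hd g h with h' | h'
        · exact Or.inr ⟨h, h'⟩
        · exact Or.inl ⟨h, h'⟩
    · simp only [h1, if_false, Finset.mem_union, Finset.mem_filter]
      constructor
      · rintro (h | h) <;> exact h.1
      · intro h
        rcases hd g h with h' | h'
        · exact Or.inl ⟨h, h'⟩
        · exact Or.inr ⟨h, h'⟩
  · intro u v huv
    obtain ⟨n, f, j, hC⟩ := hpair u v huv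
    obtain ⟨t, ht0, htC, hrel, hb1, hb2⟩ := lat_rel2 hC.lat (xS u) (yS u) (xS v) (yS v)
      (Finset.mem_union_left _ (hxS u).1) (Finset.mem_union_left _ (hyS u).1)
      (Finset.mem_union_right _ (hxS v).1) (Finset.mem_union_right _ (hyS v).1)
    have hsu := hsign u v u huv (Or.inl rfl) n f j hC
    have hsv := hsign u v v huv (Or.inr rfl) n f j hC
    have hnu : n (xS u) - n (yS u) ≠ 0 := by
      rcases hsu with h | h
      · exact h.2.ne'
      · exact h.2.ne
    have hnv : n (xS v) - n (yS v) ≠ 0 := by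
      rcases hsv with h | h
      · exact h.2.ne'
      · exact h.2.ne
    have hpos := ho2 u v huv (t * (n (xS v) - n (yS v))) (t * (n (xS u) - n (yS u)))
      (mul_ne_zero ht0.ne' hnv) (mul_ne_zero ht0.ne' hnu)
      (by rw [hB]; push_cast; exact hb1) (by rw [hB]; push_cast; exact hb2) hrel
    have hpos' : 0 < (n (xS v) - n (yS v)) * (n (xS u) - n (yS u)) * (o u * o v) := by
      have e : t * (n (xS v) - n (yS v)) * (t * (n (xS u) - n (yS u))) * (o u * o v) =
          (t * t) * ((n (xS v) - n (yS v)) * (n (xS u) - n (yS u)) * (o u * o v)) := by ring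
      rw [e] at hpos
      exact (mul_pos_iff_of_pos_left (mul_pos ht0 ht0)).1 hpos
    have hCm : Core m A2 (C1 + C2 + m1 + m2 + m3 + 2 * A1 * T * C1 + 1000) (pairO q c u v)
        (some (c u v)) (m - 1) (pal q c u ∪ pal q c v) n f j :=
      thmA_core_mono hmpos hC (by omega)
    -- for each endpoint: either (n,f,j) matches the sides, or the negative does
    have hend : ∀ x : V, x = u ∨ x = v →
        ((0 < (n (xS x) - n (yS x)) * o x) →
          (∀ g ∈ (if o x = 1 then (pal q c x).filter (fun g => (jS x + 1) * fS x ≤ m * nS x g)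
            else (pal q c x).filter (fun g => m * nS x g ≤ jS x * fS x)),
            (j + 1) * f ≤ m * n g) ∧
          (∀ g ∈ (if o x = 1 then (pal q c x).filter (fun g => m * nS x g ≤ jS x * fS x)
            else (pal q c x).filter (fun g => (jS x + 1) * fS x ≤ m * nS x g)),
            m * n g ≤ j * f)) ∧
        (((n (xS x) - n (yS x)) * o x < 0) →
          (∀ g ∈ (if o x = 1 then (pal q c x).filter (fun g => (jS x + 1) * fS x ≤ m * nS x g)
            else (pal q c x).filter (fun g => m * nS x g ≤ jS x * fS x)),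
            m * n g ≤ j * f) ∧
          (∀ g ∈ (if o x = 1 then (pal q c x).filter (fun g => m * nS x g ≤ jS x * fS x)
            else (pal q c x).filter (fun g => (jS x + 1) * fS x ≤ m * nS x g)),
            (j + 1) * f ≤ m * n g)) := by
      intro x hx
      rcases ho1 x with ho | ho
      · rcases hsign u v x huv hx n f j hC with ⟨h, hs⟩ | ⟨h, hs⟩
        · refine ⟨fun _ => ?_, fun hneg => ?_⟩
          · simp only [ho, if_true, Finset.mem_filter]
            exact ⟨fun g hg => ((h g hg.1).1).1 hg.2, fun g hg => ((h g hg.1).2).1 hg.2⟩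
          · exfalso
            rw [ho] at hneg
            linarith
        · refine ⟨fun hneg => ?_, fun _ => ?_⟩
          · exfalso
            rw [ho] at hneg
            linarith
          · simp only [ho, if_true, Finset.mem_filter]
            exact ⟨fun g hg => ((h g hg.1).1).1 hg.2, fun g hg => ((h g hg.1).2).1 hg.2⟩
      · have ho' : ¬ o x = 1 := by rw [ho]; norm_num
        rcases hsign u v x huv hx n f j hC with ⟨h, hs⟩ | ⟨h, hs⟩
        · refine ⟨fun hneg => ?_, fun _ => ?_⟩
          · exfalso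
            rw [ho] at hneg
            linarith
          · simp only [ho', if_false, Finset.mem_filter]
            exact ⟨fun g hg => ((h g hg.1).2).1 hg.2, fun g hg => ((h g hg.1).1).1 hg.2⟩
        · refine ⟨fun _ => ?_, fun hneg => ?_⟩
          · simp only [ho', if_false, Finset.mem_filter]
            exact ⟨fun g hg => ((h g hg.1).2).1 hg.2, fun g hg => ((h g hg.1).1).1 hg.2⟩
          · exfalso
            rw [ho] at hneg
            linarith
    have hprod : 0 < ((n (xS u) - n (yS u)) * o u) * ((n (xS v) - n (yS v)) * o v) := by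
      have e : ((n (xS u) - n (yS u)) * o u) * ((n (xS v) - n (yS v)) * o v) =
        (n (xS v) - n (yS v)) * (n (xS u) - n (yS u)) * (o u * o v) := by ring
      rw [e]; exact hpos'
    rcases pos_and_pos_or_neg_and_neg_of_mul_pos hprod with ⟨pu, pv⟩ | ⟨pu, pv⟩
    · refine ⟨n, f, j, hCm, ?_, ?_⟩
      · intro g hg
        rcases Finset.mem_union.1 hg with hg | hg
        · exact ((hend u (Or.inl rfl)).1 pu).1 g hg
        · exact ((hend v (Or.inr rfl)).1 pv).1 g hg
      · intro g hg
        rcases Finset.mem_union.1 hg with hg | hg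
        · exact ((hend u (Or.inl rfl)).1 pu).2 g hg
        · exact ((hend v (Or.inr rfl)).1 pv).2 g hg
    · refine ⟨fun g => - n g, f, -j - 1, core_neg hCm, ?_, ?_⟩
      · intro g hg
        have : m * n g ≤ j * f := by
          rcases Finset.mem_union.1 hg with hg | hg
          · exact ((hend u (Or.inl rfl)).2 pu).1 g hg
          · exact ((hend v (Or.inr rfl)).2 pv).1 g hg
        have e : (-j - 1 + 1) * (f : ℤ) = -(j * f) := by ring
        rw [e]
        linarith
      · intro g hg
        have : (j + 1) * f ≤ m * n g := by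
          rcases Finset.mem_union.1 hg with hg | hg
          · exact ((hend u (Or.inl rfl)).2 pu).2 g hg
          · exact ((hend v (Or.inr rfl)).2 pv).2 g hg
        have e : (-j - 1) * (f : ℤ) = -((j + 1) * f) := by ring
        rw [e]
        linarith

end ZS44129
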