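import Mathlib

/-!
# MP_44129c_co, module Thresh (no double star of sum m implies no double star with all values ≥ 1)

Strong induction on `k = s - m`, where `s` is the value of a double star with centre `u v` and few
bad elements (elements whose value is not `1`): if `k` is large, replace an element of value `≥ 2`
by an outside vertex of value `0` or `1`; if `k` is small, exchange exactly `k` elements.
-/

set_option autoImplicit false

namespace ZS44129

open Finset

/-- one step of the exchange when the excess is large. -/
private theorem thresh_key {m : ℕ} {V : Type} [Fintype V] [DecidableEq V] (d : V → V → ℤ)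
    (hN : 10 ^ 4 ≤ Fintype.card V) (hm1 : Fintype.card V ≤ 2 * m)
    (hm2 : 4 * 10 ^ 4 * m ≤ (3 * 10 ^ 4 + 1) * Fintype.card V)
    (hb : ∀ u v, u ≠ v → 19 * |d u v| ≤ Fintype.card V)
    (hrare : ∀ u, 400 * ((univ.erase u).filter (fun w => ¬ (d u w = 0 ∨ d u w = 1))).card ≤
      Fintype.card V)
    (hzero : ∀ u, 195 * Fintype.card V ≤
      400 * ((univ.erase u).filter (fun w => d u w = 0)).card)
    (u v : V) (huv : u ≠ v)
    (hfree : ∀ X Y : Finset V, Disjoint X Y → u ∉ X → v ∉ X → u ∉ Y →
      v ∉ Y → X.card + Y.card + 1 = m → d u v + ∑ x ∈ X, d u x + ∑ y ∈ Y, d v y ≠ m) :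
    ∀ (k : ℕ) (X Y : Finset V), Disjoint X Y → u ∉ X → v ∉ X → u ∉ Y →
      v ∉ Y → X.card + Y.card + 1 = m →
      d u v + ∑ x ∈ X, d u x + ∑ y ∈ Y, d v y = m + k →
      200 * ((X.filter (fun x => d u x ≠ 1)).card + (Y.filter (fun y => d v y ≠ 1)).card) ≤
        Fintype.card V → False := by
  intro k
  induction k using Nat.strong_induction_on with
  | _ k ih =>
  intro X Y hXY huX hvX huY hvY hcard hval hbad
  set N := Fintype.card V with hNdef
  have hXYcard : (X ∪ Y).card = X.card + Y.card := card_union_of_disjoint hXY
  by_cases hk : N < 19 * k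
  · -- large excess
    -- an outside vertex with value 0 or 1
    obtain ⟨w', hw'u, hw'v, hw'X, hw'Y, hw'd⟩ : ∃ w', w' ≠ u ∧ w' ≠ v ∧ w' ∉ X ∧ w' ∉ Y ∧
        (d u w' = 0 ∨ d u w' = 1) := by
      by_contra hcon
      push Not at hcon
      have hsub : (univ : Finset V) ⊆ (insert u (insert v (X ∪ Y))) ∪
          ((univ.erase u).filter (fun w => ¬ (d u w = 0 ∨ d u w = 1))) := by
        intro w _
        rw [mem_union, mem_insert, mem_insert, mem_union, mem_filter, mem_erase]
        by_cases h1 : w = u
        · exact Or.inl (Or.inl h1)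
        by_cases h2 : w = v
        · exact Or.inl (Or.inr (Or.inl h2))
        by_cases h3 : w ∈ X
        · exact Or.inl (Or.inr (Or.inr (Or.inl h3)))
        by_cases h4 : w ∈ Y
        · exact Or.inl (Or.inr (Or.inr (Or.inr h4)))
        right
        refine ⟨⟨h1, mem_univ _⟩, ?_⟩
        have := hcon w h1 h2 h3 h4
        rintro (h | h)
        · exact this.1 h
        · exact this.2 h
      have hc := card_le_card hsub
      have hc2 := card_union_le (insert u (insert v (X ∪ Y)))
        ((univ.erase u).filter (fun w => ¬ (d u w = 0 ∨ d u w = 1)))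
      have hc3 := card_insert_le u (insert v (X ∪ Y))
      have hc4 := card_insert_le v (X ∪ Y)
      have hr := hrare u
      rw [card_univ] at hc
      omega
    have hw'0 : 0 ≤ d u w' := by rcases hw'd with h | h <;> rw [h] <;> norm_num
    have hw'1 : d u w' ≤ 1 := by rcases hw'd with h | h <;> rw [h] <;> norm_num
    by_cases hX2 : ∃ x ∈ X, 2 ≤ d u x
    · obtain ⟨x, hxX, hx2⟩ := hX2
      have hxu : x ≠ u := fun h => huX (h ▸ hxX)
      have hw'x : w' ≠ x := fun h => hw'X (h ▸ hxX)
      have hbx := hb u x (Ne.symm hxu)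
      have hbx' : 19 * d u x ≤ N := le_trans (by nlinarith [le_abs_self (d u x)]) hbx
      have hw'e : w' ∉ X.erase x := fun h => hw'X (mem_of_mem_erase h)
      have hsum : ∑ z ∈ insert w' (X.erase x), d u z = ∑ z ∈ X, d u z - d u x + d u w' := by
        rw [sum_insert hw'e, ← add_sum_erase X (fun z => d u z) hxX]
        ring
      have hkz : (0 : ℤ) ≤ (k : ℤ) - d u x + d u w' := by
        have : (N : ℤ) < 19 * k := by exact_mod_cast hk
        linarith
      obtain ⟨k', hk'⟩ := Int.eq_ofNat_of_zero_le hkz
      refine ih k' ?_ (insert w' (X.erase x)) Y ?_ ?_ ?_ huY hvY ?_ ?_ ?_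
      · have : (k' : ℤ) < k := by rw [← hk']; linarith
        exact_mod_cast this
      · rw [disjoint_insert_left]
        exact ⟨hw'Y, hXY.mono_left (erase_subset _ _)⟩
      · rw [mem_insert]
        rintro (h | h)
        · exact hw'u h.symm
        · exact huX (mem_of_mem_erase h)
      · rw [mem_insert]
        rintro (h | h)
        · exact hw'v h.symm
        · exact hvX (mem_of_mem_erase h)
      · rw [card_insert_of_notMem hw'e, card_erase_of_mem hxX]
        have := card_pos.mpr ⟨x, hxX⟩
        omega
      · rw [hsum]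
        have : (k' : ℤ) = (k : ℤ) - d u x + d u w' := hk'.symm
        rw [this]
        linarith
      · have hle : ((insert w' (X.erase x)).filter (fun x => d u x ≠ 1)).card ≤
            (X.filter (fun x => d u x ≠ 1)).card := by
          have hxb : x ∈ X.filter (fun x => d u x ≠ 1) := by
            rw [mem_filter]
            exact ⟨hxX, by omega⟩
          have hs : (insert w' (X.erase x)).filter (fun x => d u x ≠ 1) ⊆
              insert w' ((X.filter (fun x => d u x ≠ 1)).erase x) := by
            intro z hz
            rw [mem_filter, mem_insert, mem_erase] at hz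
            rw [mem_insert, mem_erase, mem_filter]
            rcases hz.1 with h | h
            · exact Or.inl h
            · exact Or.inr ⟨h.1, h.2, hz.2⟩
          have h1 := card_le_card hs
          have h2 := card_insert_le w' ((X.filter (fun x => d u x ≠ 1)).erase x)
          rw [card_erase_of_mem hxb] at h2
          have h3 := card_pos.mpr ⟨x, hxb⟩
          omega
        omega
    · by_cases hY2 : ∃ y ∈ Y, 2 ≤ d v y
      · obtain ⟨y, hyY, hy2⟩ := hY2
        have hyv : y ≠ v := fun h => hvY (h ▸ hyY)
        have hbx := hb v y (Ne.symm hyv)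
        have hbx' : 19 * d v y ≤ N := le_trans (by nlinarith [le_abs_self (d v y)]) hbx
        have hsum : ∑ z ∈ Y.erase y, d v z = ∑ z ∈ Y, d v z - d v y := by
          rw [← add_sum_erase Y (fun z => d v z) hyY]
          ring
        have hkz : (0 : ℤ) ≤ (k : ℤ) - d v y + d u w' := by
          have : (N : ℤ) < 19 * k := by exact_mod_cast hk
          linarith
        obtain ⟨k', hk'⟩ := Int.eq_ofNat_of_zero_le hkz
        refine ih k' ?_ (insert w' X) (Y.erase y) ?_ ?_ ?_ ?_ ?_ ?_ ?_ ?_
        · have : (k' : ℤ) < k := by rw [← hk']; linarith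
          exact_mod_cast this
        · rw [disjoint_insert_left]
          exact ⟨fun h => hw'Y (mem_of_mem_erase h), hXY.mono_right (erase_subset _ _)⟩
        · rw [mem_insert]
          rintro (h | h)
          · exact hw'u h.symm
          · exact huX h
        · rw [mem_insert]
          rintro (h | h)
          · exact hw'v h.symm
          · exact hvX h
        · exact fun h => huY (mem_of_mem_erase h)
        · exact fun h => hvY (mem_of_mem_erase h)
        · rw [card_insert_of_notMem hw'X, card_erase_of_mem hyY]
          have := card_pos.mpr ⟨y, hyY⟩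
          omega
        · rw [sum_insert hw'X, hsum]
          have : (k' : ℤ) = (k : ℤ) - d v y + d u w' := hk'.symm
          rw [this]
          linarith
        · have hyb : y ∈ Y.filter (fun x => d v x ≠ 1) := by
            rw [mem_filter]
            exact ⟨hyY, by omega⟩
          have hle : ((Y.erase y).filter (fun x => d v x ≠ 1)).card =
              (Y.filter (fun x => d v x ≠ 1)).card - 1 := by
            rw [← card_erase_of_mem hyb]
            congr 1
            ext z
            simp only [mem_filter, mem_erase]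
            tauto
          have h3 := card_pos.mpr ⟨y, hyb⟩
          have hle2 : ((insert w' X).filter (fun x => d u x ≠ 1)).card ≤
              (X.filter (fun x => d u x ≠ 1)).card + 1 := by
            have hs : (insert w' X).filter (fun x => d u x ≠ 1) ⊆
                insert w' (X.filter (fun x => d u x ≠ 1)) := by
              intro z hz
              rw [mem_filter, mem_insert] at hz
              rw [mem_insert, mem_filter]
              rcases hz.1 with h | h
              · exact Or.inl h
              · exact Or.inr ⟨h, hz.2⟩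
            exact (card_le_card hs).trans (card_insert_le _ _)
          omega
      · -- all values at most 1
        push Not at hX2 hY2
        have h1 : ∑ x ∈ X, d u x ≤ X.card := by
          calc ∑ x ∈ X, d u x ≤ ∑ x ∈ X, (1 : ℤ) :=
                sum_le_sum fun x hx => by have := hX2 x hx; omega
            _ = X.card := by simp
        have h2 : ∑ y ∈ Y, d v y ≤ Y.card := by
          calc ∑ x ∈ Y, d v x ≤ ∑ x ∈ Y, (1 : ℤ) :=
                sum_le_sum fun x hx => by have := hY2 x hx; omega
            _ = Y.card := by simp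
        have h3 := hb u v huv
        have h4 := le_abs_self (d u v)
        have h5 : (X.card : ℤ) + Y.card + 1 = m := by exact_mod_cast hcard
        have h6 : (N : ℤ) < 19 * k := by exact_mod_cast hk
        linarith
  · -- small excess
    push Not at hk
    set ZA := univ.filter (fun w => w ≠ u ∧ w ≠ v ∧ w ∉ X ∧ w ∉ Y ∧ d u w = 0) with hZA
    set ZB := Y.filter (fun w => d v w = 1 ∧ d u w = 0) with hZB
    have hcount : ((univ.erase u).filter (fun w => d u w = 0)).card ≤
        1 + (X.filter (fun x => d u x ≠ 1)).card + (Y.filter (fun y => d v y ≠ 1)).card +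
          ZA.card + ZB.card := by
      have hsub : (univ.erase u).filter (fun w => d u w = 0) ⊆
          ((({v} ∪ X.filter (fun x => d u x ≠ 1)) ∪ Y.filter (fun y => d v y ≠ 1)) ∪ ZA) ∪ ZB := by
        intro w hw
        rw [mem_filter, mem_erase] at hw
        simp only [mem_union, mem_singleton, hZA, hZB, mem_filter]
        by_cases h2 : w = v
        · exact Or.inl (Or.inl (Or.inl (Or.inl h2)))
        by_cases h3 : w ∈ X
        · exact Or.inl (Or.inl (Or.inl (Or.inr ⟨h3, by rw [hw.2]; norm_num⟩)))
        by_cases h4 : w ∈ Y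
        · by_cases h5 : d v w = 1
          · exact Or.inr ⟨h4, h5, hw.2⟩
          · exact Or.inl (Or.inl (Or.inr ⟨h4, h5⟩))
        · exact Or.inl (Or.inr ⟨mem_univ _, hw.1.1, h2, h3, h4, hw.2⟩)
      have h1 := card_le_card hsub
      have h2 := card_union_le ((({v} ∪ X.filter (fun x => d u x ≠ 1)) ∪
        Y.filter (fun y => d v y ≠ 1)) ∪ ZA) ZB
      have h3 := card_union_le (({v} ∪ X.filter (fun x => d u x ≠ 1)) ∪
        Y.filter (fun y => d v y ≠ 1)) ZA
      have h4 := card_union_le ({v} ∪ X.filter (fun x => d u x ≠ 1))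
        (Y.filter (fun y => d v y ≠ 1))
      have h5 := card_union_le ({v} : Finset V) (X.filter (fun x => d u x ≠ 1))
      have h6 : ({v} : Finset V).card = 1 := card_singleton v
      omega
    have hz := hzero u
    have hAB : k ≤ ZA.card ∨ k ≤ ZB.card := by omega
    rcases hAB with hA | hB
    · obtain ⟨T, hTsub, hTcard⟩ := exists_subset_card_eq hA
      have hTX : ∀ w ∈ T, w ≠ u ∧ w ≠ v ∧ w ∉ X ∧ w ∉ Y ∧ d u w = 0 := by
        intro w hw
        have := hTsub hw
        rw [hZA, mem_filter] at this
        exact this.2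
      -- elements of value one
      have hX1 : (X.filter (fun x => d u x = 1)).card + (X.filter (fun x => d u x ≠ 1)).card =
          X.card := card_filter_add_card_filter_not _
      have hY1 : (Y.filter (fun x => d v x = 1)).card + (Y.filter (fun x => d v x ≠ 1)).card =
          Y.card := card_filter_add_card_filter_not _
      have hones : k ≤ (X.filter (fun x => d u x = 1)).card +
          (Y.filter (fun x => d v x = 1)).card := by omega
      obtain ⟨a, b, hab, ha, hb'⟩ : ∃ a b, a + b = k ∧
          a ≤ (X.filter (fun x => d u x = 1)).card ∧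
          b ≤ (Y.filter (fun x => d v x = 1)).card := by
        by_cases h : k ≤ (X.filter (fun x => d u x = 1)).card
        · exact ⟨k, 0, by omega, h, Nat.zero_le _⟩
        · exact ⟨(X.filter (fun x => d u x = 1)).card,
            k - (X.filter (fun x => d u x = 1)).card, by omega, le_rfl, by omega⟩
      obtain ⟨G, hGsub, hGcard⟩ := exists_subset_card_eq ha
      obtain ⟨H, hHsub, hHcard⟩ := exists_subset_card_eq hb'
      have hGX : G ⊆ X := hGsub.trans (filter_subset _ _)
      have hHY : H ⊆ Y := hHsub.trans (filter_subset _ _)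
      have hdT : Disjoint (X \ G) T := by
        rw [disjoint_left]
        intro w hw hwT
        exact (hTX w hwT).2.2.1 (mem_sdiff.mp hw).1
      have hGs : ∑ x ∈ G, d u x = a := by
        rw [← hGcard]
        rw [card_eq_sum_ones]
        push_cast
        refine sum_congr rfl fun x hx => ?_
        exact (mem_filter.mp (hGsub hx)).2
      have hHs : ∑ x ∈ H, d v x = b := by
        rw [← hHcard]
        rw [card_eq_sum_ones]
        push_cast
        refine sum_congr rfl fun x hx => ?_
        exact (mem_filter.mp (hHsub hx)).2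
      have hTs : ∑ x ∈ T, d u x = 0 := sum_eq_zero fun x hx => (hTX x hx).2.2.2.2
      refine hfree ((X \ G) ∪ T) (Y \ H) ?_ ?_ ?_ ?_ ?_ ?_ ?_
      · rw [disjoint_union_left]
        refine ⟨(hXY.mono_left sdiff_subset).mono_right sdiff_subset, ?_⟩
        rw [disjoint_left]
        intro w hw hw2
        exact (hTX w hw).2.2.2.1 (mem_sdiff.mp hw2).1
      · rw [mem_union, mem_sdiff]
        rintro (h | h)
        · exact huX h.1
        · exact (hTX u h).1 rfl
      · rw [mem_union, mem_sdiff]
        rintro (h | h)
        · exact hvX h.1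
        · exact (hTX v h).2.1 rfl
      · exact fun h => huY (mem_sdiff.mp h).1
      · exact fun h => hvY (mem_sdiff.mp h).1
      · rw [card_union_of_disjoint hdT, card_sdiff_of_subset hGX, card_sdiff_of_subset hHY]
        have h1 := card_le_card hGX
        have h2 := card_le_card hHY
        omega
      · rw [sum_union hdT, hTs]
        have h1 : ∑ x ∈ X \ G, d u x = ∑ x ∈ X, d u x - a := by
          rw [← hGs, ← sum_sdiff hGX]
          ring
        have h2 : ∑ x ∈ Y \ H, d v x = ∑ x ∈ Y, d v x - b := by
          rw [← hHs, ← sum_sdiff hHY]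
          ring
        rw [h1, h2]
        have : (a : ℤ) + b = k := by exact_mod_cast hab
        linarith
    · obtain ⟨T, hTsub, hTcard⟩ := exists_subset_card_eq hB
      have hTX : ∀ w ∈ T, w ∈ Y ∧ d v w = 1 ∧ d u w = 0 := by
        intro w hw
        have := hTsub hw
        rw [hZB, mem_filter] at this
        exact this
      have hTY : T ⊆ Y := fun w hw => (hTX w hw).1
      have hdT : Disjoint X T := hXY.mono_right hTY
      have hTs : ∑ x ∈ T, d u x = 0 := sum_eq_zero fun x hx => (hTX x hx).2.2
      have hTs' : ∑ x ∈ T, d v x = k := by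
        rw [← hTcard]
        rw [card_eq_sum_ones]
        push_cast
        exact sum_congr rfl fun x hx => (hTX x hx).2.1
      refine hfree (X ∪ T) (Y \ T) ?_ ?_ ?_ ?_ ?_ ?_ ?_
      · rw [disjoint_union_left]
        exact ⟨hXY.mono_right sdiff_subset, disjoint_sdiff⟩
      · rw [mem_union]
        rintro (h | h)
        · exact huX h
        · exact huY (hTY h)
      · rw [mem_union]
        rintro (h | h)
        · exact hvX h
        · exact hvY (hTY h)
      · exact fun h => huY (mem_sdiff.mp h).1
      · exact fun h => hvY (mem_sdiff.mp h).1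
      · rw [card_union_of_disjoint hdT, card_sdiff_of_subset hTY]
        have h2 := card_le_card hTY
        omega
      · rw [sum_union hdT, hTs]
        have h2 : ∑ x ∈ Y \ T, d v x = ∑ x ∈ Y, d v x - k := by
          rw [← hTs', ← sum_sdiff hTY]
          ring
        rw [h2]
        linarith

theorem thresh {m : ℕ} {V : Type} [Fintype V] [DecidableEq V] (d : V → V → ℤ)
    (hsym : ∀ x y, d x y = d y x)
    (hN : 10 ^ 4 ≤ Fintype.card V) (hm1 : Fintype.card V ≤ 2 * m)
    (hm2 : 4 * 10 ^ 4 * m ≤ (3 * 10 ^ 4 + 1) * Fintype.card V)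
    (hb : ∀ u v, u ≠ v → 19 * |d u v| ≤ Fintype.card V)
    (hrare : ∀ u, 400 * ((univ.erase u).filter (fun w => ¬ (d u w = 0 ∨ d u w = 1))).card ≤
      Fintype.card V)
    (hzero : ∀ u, 195 * Fintype.card V ≤
      400 * ((univ.erase u).filter (fun w => d u w = 0)).card)
    (hfree : ∀ u v : V, u ≠ v → ∀ X Y : Finset V, Disjoint X Y → u ∉ X → v ∉ X → u ∉ Y →
      v ∉ Y → X.card + Y.card + 1 = m → d u v + ∑ x ∈ X, d u x + ∑ y ∈ Y, d v y ≠ m) :
    ∀ u v : V, u ≠ v → ∀ X Y : Finset V, Disjoint X Y → u ∉ X → v ∉ X → u ∉ Y → v ∉ Y →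
      X.card + Y.card + 1 = m → ¬ (1 ≤ d u v ∧ (∀ x ∈ X, 1 ≤ d u x) ∧ ∀ y ∈ Y, 1 ≤ d v y) := by
  intro u v huv X Y hXY huX hvX huY hvY hcard ⟨h1, hX, hY⟩
  have hsX : (X.card : ℤ) ≤ ∑ x ∈ X, d u x := by
    calc (X.card : ℤ) = ∑ x ∈ X, (1 : ℤ) := by simp
      _ ≤ ∑ x ∈ X, d u x := sum_le_sum hX
  have hsY : (Y.card : ℤ) ≤ ∑ y ∈ Y, d v y := by
    calc (Y.card : ℤ) = ∑ x ∈ Y, (1 : ℤ) := by simp
      _ ≤ ∑ y ∈ Y, d v y := sum_le_sum hY
  have hk : (0 : ℤ) ≤ d u v + ∑ x ∈ X, d u x + ∑ y ∈ Y, d v y - m := by
    have : (X.card : ℤ) + Y.card + 1 = m := by exact_mod_cast hcard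
    linarith
  obtain ⟨k, hk'⟩ := Int.eq_ofNat_of_zero_le hk
  refine thresh_key d hN hm1 hm2 hb hrare hzero u v huv (hfree u v huv) k X Y hXY huX hvX huY hvY
    hcard ?_ ?_
  · have : d u v + ∑ x ∈ X, d u x + ∑ y ∈ Y, d v y - m = k := hk'
    linarith
  · have hbX : (X.filter (fun x => d u x ≠ 1)).card ≤
        ((univ.erase u).filter (fun w => ¬ (d u w = 0 ∨ d u w = 1))).card := by
      refine card_le_card fun x hx => ?_
      rw [mem_filter] at hx
      rw [mem_filter, mem_erase]
      refine ⟨⟨fun h => huX (h ▸ hx.1), mem_univ _⟩, ?_⟩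
      have := hX x hx.1
      rintro (h | h)
      · omega
      · exact hx.2 h
    have hbY : (Y.filter (fun x => d v x ≠ 1)).card ≤
        ((univ.erase v).filter (fun w => ¬ (d v w = 0 ∨ d v w = 1))).card := by
      refine card_le_card fun x hx => ?_
      rw [mem_filter] at hx
      rw [mem_filter, mem_erase]
      refine ⟨⟨fun h => hvY (h ▸ hx.1), mem_univ _⟩, ?_⟩
      have := hY x hx.1
      rintro (h | h)
      · omega
      · exact hx.2 h
    have hr1 := hrare u
    have hr2 := hrare v
    omega

end ZS44129
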