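import Mathlib
import Pool.Agent.Work.MP_44129c_co.Defs
import Pool.Agent.Work.MP_44129c_co.LatBasic

/-!
# MP_44129c_co, module Excess (extremal configurations: almost all options have no excess)

A system with forced colour `g₁ ∈ P`, `m - 1` picks; a colour `x` is high if
`(j+1) f ≤ m n x`, low if `m n x ≤ j f` (every `x ∈ P` is one of the two, `lat_dich`, and not
both).  `f ∣ m n x` (`lat_dvd`); excess of a high colour: `e x = (m n x - (j+1) f)/f ∈ ℕ`,
excess of a low colour: `e x = (j f - m n x)/f ∈ ℕ`.  `Hs` = slots with a high option, `Ls` =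
slots with a low option, `OH = Hs \ Ls`: all options high, `OL = Ls \ Hs`: all options low.
`C₃ = (C + 2 A) C`; `m₀ = 10^5 (C₃ + 10)` (or larger); `N ≥ m`.
`ℓ = N / 2000 + 1` (natural division), `s = N / 5`, `M = m - 1`.

0. Bounds: there are a high and a low colour (if `N > 0` then `Hs, Ls ≠ ∅`), and `|n| ≤ A` on `P`,
   so `(j+1) f ≤ m A`, `j f ≥ - m A`; the forced colour has
   `m n g₁ ≥ - m A ≥ (j+1) f - 2 m A` and `m n g₁ ≤ m A ≤ j f + 2 m A`.
   `M - |Hs| ≤ 0.750025 N - 0.7497 N ≤ N/2000 ≤ ℓ`, also `M - |Ls| ≤ ℓ`; `M ≥ N/2 - 1 ≥ s`.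
1. Key inequality (K).  Let `T ⊆ Hs`, `|T| = s' ≤ M`, with chosen high options of excess `≥ X` on
   `T`, and let `U ⊆ OL`, `|U| ≥ ℓ`, with chosen options of excess `≤ Y` on `U`.  Then
   `s' X ≤ ℓ (1 + Y) + C₃`.
   Proof: pick `T` with the chosen options, then slots of `Hs \ T` with a high option (as many as
   possible, at most `M - s'`), then, if still needed, at most `M - |Hs| ≤ ℓ` slots of `U` with
   the chosen options (`U` is disjoint from `Hs`).  For the resulting configuration `σ`: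
   `m xi ≥ ((j+1) f - 2 m A) + (m - 1)(j+1) f + f s' X - ℓ (f + f Y)`
   (high picks have `m n x = (j+1) f + f e x`, low picks `m n x = j f - f e x ≥
   (j+1) f - f (1 + Y)`), and the gap gives `m xi ≤ m (j+1) f + m C`.  So
   `f s' X ≤ f ℓ (1 + Y) + m (C + 2A)`; divide by `f`, `m ≤ C f`.
   The symmetric statement (K') (high and low exchanged, `U ⊆ OH`).  It follows from (K) for
   `-n, -j-1` (module CoreNeg) or by the same proof.
2. Let `Y₀` be the least natural number such that at least `ℓ` slots `w ∈ OL` have an option of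
   excess `≤ Y₀` (exists since `|OL| ≥ 0.2499 N ≥ ℓ`), and `X₀` similarly for `OH`.  All but
   `< ℓ` slots of `OH` have all options of excess `≥ X₀` (if `X₀ > 0` by minimality; trivial if
   `X₀ = 0`), so there are `T ⊆ OH`, `|T| = s` (`0.2499 N - ℓ ≥ N/5`) with excess `≥ X₀`, and
   `U ⊆ OL`, `|U| = ℓ`, with an option of excess `≤ Y₀`.  (K): `s X₀ ≤ ℓ (1 + Y₀) + C₃`.
   (K'): `s Y₀ ≤ ℓ (1 + X₀) + C₃`.  Sum: `(s - ℓ)(X₀ + Y₀) ≤ 2 ℓ + 2 C₃ < s - ℓ`
   (`s - ℓ ≥ 0.1995 N - 2`, `2ℓ + 2 C₃ ≤ 0.001 N + 2 + 2 C₃`), so `X₀ = Y₀ = 0`.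
3. Let `E` = slots with an option `x`, `(j+1) f < m n x`, i.e. a high option with excess `≥ 1`.
   If `1000 |E| > N`, choose `T ⊆ E` with `|T| = N/1000 + 1 ≤ M` and (K) with `X = 1`, `Y = 0`
   (`U` from 2.): `N/1000 + 1 ≤ ℓ + C₃ = N/2000 + 1 + C₃`, false for `N ≥ 10^4 (C₃ + 1)`.
   Same for the low side.
-/

set_option autoImplicit false

namespace ZS44129

open Finset

private theorem exc_build {m M : ℕ} {W : Type} [Fintype W] [DecidableEq W]
    (O : W → Finset (ZMod m)) (F : Option (ZMod m)) (n : ZMod m → ℤ) (D : Finset W)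
    (hD : D.card = M) (τ : W → ZMod m) (hτ : ∀ w ∈ D, τ w ∈ O w) :
    ∃ σ : W → Option (ZMod m), Cfg O M σ ∧ xi n F σ = ov n F + ∑ w ∈ D, n (τ w) := by
  refine ⟨fun w => if w ∈ D then some (τ w) else none, ⟨?_, ?_⟩, ?_⟩
  · intro w g h
    by_cases hw : w ∈ D
    · simp only [hw, if_true, Option.some.injEq] at h
      rw [← h]; exact hτ w hw
    · simp [hw] at h
  · rw [← hD]
    congr 1
    ext w
    by_cases hw : w ∈ D <;> simp [hw]
  · unfold xi
    congr 1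
    rw [← Finset.sum_subset (Finset.subset_univ D)]
    · refine Finset.sum_congr rfl fun w hw => ?_
      simp [hw, ov]
    · intro w _ hw
      simp [hw, ov]

private theorem exc_key {m A C : ℕ} (hm : 1 ≤ m) {W : Type} [Fintype W] [DecidableEq W]
    (O : W → Finset (ZMod m)) (g₁ : ZMod m) (n : ZMod m → ℤ) (a f : ℤ) (hf : 0 ≤ f)
    (hgap : ∀ σ, Cfg O (m - 1) σ → xi n (some g₁) σ ≤ a + C)
    (hg₁ : -((m : ℤ) * A) ≤ m * n g₁) (ha : a ≤ m * A)
    (Hs : Finset W) (hHs : ∀ w ∈ Hs, ∃ x ∈ O w, a ≤ m * n x)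
    (T : Finset W) (hTH : T ⊆ Hs) (hTm : T.card ≤ m - 1) (X : ℤ)
    (hT : ∀ w ∈ T, ∃ x ∈ O w, a + X * f ≤ m * n x)
    (U : Finset W) (hUH : Disjoint U Hs) (Y : ℤ) (hY : 0 ≤ Y)
    (hU : ∀ w ∈ U, ∃ x ∈ O w, a - (1 + Y) * f ≤ m * n x)
    (l : ℕ) (hl : m - 1 ≤ Hs.card + l) (hUl : l ≤ U.card) :
    (T.card : ℤ) * X * f ≤ l * (1 + Y) * f + m * (C + 2 * A) := by
  classical
  obtain ⟨T2, hT2s, hT2c⟩ := Finset.exists_subset_card_eq
    (s := Hs \ T) (n := min (m - 1 - T.card) (Hs \ T).card) (min_le_right _ _)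
  have hsd : (Hs \ T).card + T.card = Hs.card := Finset.card_sdiff_add_card_eq_card hTH
  have hU2 : m - 1 - T.card - T2.card ≤ l := by
    rw [hT2c]
    rcases le_total (m - 1 - T.card) (Hs \ T).card with h | h
    · rw [min_eq_left h]; omega
    · rw [min_eq_right h]; omega
  obtain ⟨U2, hU2s, hU2c⟩ := Finset.exists_subset_card_eq
    (s := U) (n := m - 1 - T.card - T2.card) (hU2.trans hUl)
  have hT2le : T2.card ≤ m - 1 - T.card := by rw [hT2c]; exact min_le_left _ _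
  have d1 : Disjoint T T2 := by
    rw [Finset.disjoint_left]
    intro w h1 h2
    exact (Finset.mem_sdiff.1 (hT2s h2)).2 h1
  have d2 : Disjoint (T ∪ T2) U2 := by
    rw [Finset.disjoint_left]
    intro w h1 h2
    refine (Finset.disjoint_left.1 hUH) (hU2s h2) ?_
    rcases Finset.mem_union.1 h1 with h | h
    · exact hTH h
    · exact (Finset.mem_sdiff.1 (hT2s h)).1
  have hDc : ((T ∪ T2) ∪ U2).card = m - 1 := by
    rw [Finset.card_union_of_disjoint d2, Finset.card_union_of_disjoint d1, hU2c]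
    omega
  -- choice of the options
  let τ : W → ZMod m := fun w =>
    if h : w ∈ T then (hT w h).choose else
      if h : w ∈ Hs then (hHs w h).choose else
        if h : w ∈ U then (hU w h).choose else 0
  have hτT : ∀ w ∈ T, τ w ∈ O w ∧ a + X * f ≤ m * n (τ w) := by
    intro w hw
    have : τ w = (hT w hw).choose := by simp [τ, hw]
    rw [this]; exact (hT w hw).choose_spec
  have hτ2 : ∀ w ∈ T2, τ w ∈ O w ∧ a ≤ m * n (τ w) := by
    intro w hw
    have h1 := Finset.mem_sdiff.1 (hT2s hw)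
    have : τ w = (hHs w h1.1).choose := by simp [τ, h1.1, h1.2]
    rw [this]; exact (hHs w h1.1).choose_spec
  have hτU : ∀ w ∈ U2, τ w ∈ O w ∧ a - (1 + Y) * f ≤ m * n (τ w) := by
    intro w hw
    have h1 : w ∈ U := hU2s hw
    have h2 : w ∉ Hs := Finset.disjoint_left.1 hUH h1
    have h3 : w ∉ T := fun h => h2 (hTH h)
    have : τ w = (hU w h1).choose := by simp [τ, h1, h2, h3]
    rw [this]; exact (hU w h1).choose_spec
  obtain ⟨σ, hσ, hxi⟩ := exc_build O (some g₁) n ((T ∪ T2) ∪ U2) hDc τ (by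
    intro w hw
    rcases Finset.mem_union.1 hw with h | h
    · rcases Finset.mem_union.1 h with h | h
      · exact (hτT w h).1
      · exact (hτ2 w h).1
    · exact (hτU w h).1)
  have hg := hgap σ hσ
  rw [hxi, Finset.sum_union d2, Finset.sum_union d1] at hg
  have hov : ov n (some g₁) = n g₁ := rfl
  rw [hov] at hg
  have s1 : (T.card : ℤ) * (a + X * f) ≤ m * ∑ w ∈ T, n (τ w) := by
    rw [Finset.mul_sum, ← nsmul_eq_mul, ← Finset.sum_const]
    exact Finset.sum_le_sum fun w hw => (hτT w hw).2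
  have s2 : (T2.card : ℤ) * a ≤ m * ∑ w ∈ T2, n (τ w) := by
    rw [Finset.mul_sum, ← nsmul_eq_mul, ← Finset.sum_const]
    exact Finset.sum_le_sum fun w hw => (hτ2 w hw).2
  have s3 : (U2.card : ℤ) * (a - (1 + Y) * f) ≤ m * ∑ w ∈ U2, n (τ w) := by
    rw [Finset.mul_sum, ← nsmul_eq_mul, ← Finset.sum_const]
    exact Finset.sum_le_sum fun w hw => (hτU w hw).2
  have hm0 : (0 : ℤ) ≤ m := by positivity
  have hg' : (m : ℤ) * (n g₁ + (∑ w ∈ T, n (τ w) + ∑ w ∈ T2, n (τ w) + ∑ w ∈ U2, n (τ w))) ≤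
      m * (a + C) := mul_le_mul_of_nonneg_left hg hm0
  have hc : (T.card : ℤ) + T2.card + U2.card + 1 = m := by
    have := hDc
    rw [Finset.card_union_of_disjoint d2, Finset.card_union_of_disjoint d1] at this
    have h2 : T.card + T2.card + U2.card + 1 = m := by omega
    exact_mod_cast h2
  have hUl2 : (U2.card : ℤ) ≤ l := by
    have : U2.card ≤ l := by rw [hU2c]; exact hU2
    exact_mod_cast this
  have hYf : 0 ≤ (1 + Y) * f := mul_nonneg (by linarith) hf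
  have h5 : (U2.card : ℤ) * ((1 + Y) * f) ≤ l * ((1 + Y) * f) :=
    mul_le_mul_of_nonneg_right hUl2 hYf
  have e1 : (m : ℤ) * a = (T.card + T2.card + U2.card + 1) * a := by rw [hc]
  nlinarith [s1, s2, s3, hg', h5, e1, hg₁, ha]

theorem excess_small (A C : ℕ) : ∃ m₀ : ℕ, ∀ m : ℕ, m₀ ≤ m →
    ∀ {W : Type} [Fintype W] [DecidableEq W] (O : W → Finset (ZMod m)) (g₁ : ZMod m)
      (P : Finset (ZMod m)) (n : ZMod m → ℤ) (f : ℕ) (j : ℤ) (N : ℕ),
      (∀ w, O w ⊆ P) → g₁ ∈ P → Core m A C O (some g₁) (m - 1) P n f j →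
      4 * 10 ^ 4 * m ≤ (3 * 10 ^ 4 + 1) * N → N ≤ 2 * m →
      7497 * N ≤ 10 ^ 4 * (univ.filter (fun w => ∃ x ∈ O w, (j + 1) * f ≤ m * n x)).card →
      7497 * N ≤ 10 ^ 4 * (univ.filter (fun w => ∃ x ∈ O w, m * n x ≤ j * f)).card →
      2499 * N ≤ 10 ^ 4 * (univ.filter (fun w => (∃ x ∈ O w, (j + 1) * f ≤ m * n x) ∧
        ¬ ∃ x ∈ O w, m * n x ≤ j * f)).card →
      2499 * N ≤ 10 ^ 4 * (univ.filter (fun w => (∃ x ∈ O w, m * n x ≤ j * f) ∧
        ¬ ∃ x ∈ O w, (j + 1) * f ≤ m * n x)).card →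
      1000 * (univ.filter (fun w => ∃ x ∈ O w, (j + 1) * f < m * n x)).card ≤ N ∧
        1000 * (univ.filter (fun w => ∃ x ∈ O w, m * n x < j * f)).card ≤ N := by
  classical
  refine ⟨10 ^ 5 * ((C + 2 * A) * C + 10), ?_⟩
  intro m hm W _ _ O g₁ P n f j N hsub hg₁P hC hN1 hN2 hH hL hOH hOL
  obtain ⟨C3, hC3⟩ : ∃ C3 : ℕ, C3 = (C + 2 * A) * C := ⟨_, rfl⟩
  rw [← hC3] at hm
  have hmpos : 1 ≤ m := by omega
  have hNm : m ≤ N := by omega
  have hm0 : (0 : ℤ) < m := by exact_mod_cast hmpos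
  have hf : (0 : ℤ) < f := by exact_mod_cast hC.lat.fpos
  have hflow : (m : ℤ) ≤ C * f := by exact_mod_cast hC.lat.flow
  -- abbreviations
  set Hs := univ.filter (fun w => ∃ x ∈ O w, (j + 1) * f ≤ m * n x) with hHs
  set Ls := univ.filter (fun w => ∃ x ∈ O w, m * n x ≤ j * f) with hLs
  set OH := univ.filter (fun w => (∃ x ∈ O w, (j + 1) * f ≤ m * n x) ∧
        ¬ ∃ x ∈ O w, m * n x ≤ j * f) with hOHd
  set OL := univ.filter (fun w => (∃ x ∈ O w, m * n x ≤ j * f) ∧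
        ¬ ∃ x ∈ O w, (j + 1) * f ≤ m * n x) with hOLd
  obtain ⟨l, hl⟩ : ∃ l : ℕ, l = N / 2000 + 1 := ⟨_, rfl⟩
  obtain ⟨s, hs⟩ : ∃ s : ℕ, s = N / 5 := ⟨_, rfl⟩
  have hbd : ∀ x ∈ P, -((m : ℤ) * A) ≤ m * n x ∧ (m : ℤ) * n x ≤ m * A := by
    intro x hx
    have := abs_le.1 (hC.lat.bound x hx)
    constructor
    · nlinarith
    · nlinarith
  have hdvd : ∀ x ∈ P, ∃ k : ℤ, (m : ℤ) * n x = k * f := by
    intro x hx
    obtain ⟨k, hk⟩ := lat_dvd hC.lat x hx
    exact ⟨k, by rw [hk]; ring⟩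
  -- there are high and low colours
  have hHne : Hs.Nonempty := by
    rw [← Finset.card_pos]; omega
  have hLne : Ls.Nonempty := by
    rw [← Finset.card_pos]; omega
  have ha1 : (j + 1) * (f : ℤ) ≤ m * A := by
    obtain ⟨w, hw⟩ := hHne
    obtain ⟨x, hx, h1⟩ := (Finset.mem_filter.1 hw).2
    exact h1.trans (hbd x (hsub w hx)).2
  have ha2 : -(j * (f : ℤ)) ≤ m * A := by
    obtain ⟨w, hw⟩ := hLne
    obtain ⟨x, hx, h1⟩ := (Finset.mem_filter.1 hw).2
    have := (hbd x (hsub w hx)).1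
    linarith
  have hgap1 : ∀ σ, Cfg O (m - 1) σ → xi n (some g₁) σ ≤ (j + 1) * f + C :=
    fun σ hσ => (hC.gap σ hσ).2
  have hxineg : ∀ σ : W → Option (ZMod m), xi (fun g => - n g) (some g₁) σ =
      - xi n (some g₁) σ := by
    intro σ
    unfold xi
    have h1 : ∀ o : Option (ZMod m), ov (fun g => - n g) o = - ov n o := by
      intro o
      cases o <;> simp [ov]
    rw [h1, Finset.sum_congr rfl (fun w _ => h1 (σ w)), Finset.sum_neg_distrib]
    ring
  have hgap2 : ∀ σ, Cfg O (m - 1) σ → xi (fun g => - n g) (some g₁) σ ≤ -(j * f) + C := by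
    intro σ hσ
    rw [hxineg]
    have := (hC.gap σ hσ).1
    linarith
  -- key inequalities
  have K1 : ∀ T : Finset W, T ⊆ Hs → T.card ≤ m - 1 → ∀ X : ℤ,
      (∀ w ∈ T, ∃ x ∈ O w, (j + 1) * f + X * f ≤ m * n x) →
      ∀ U : Finset W, Disjoint U Hs → ∀ Y : ℤ, 0 ≤ Y →
      (∀ w ∈ U, ∃ x ∈ O w, (j + 1) * f - (1 + Y) * f ≤ m * n x) → l ≤ U.card →
      (T.card : ℤ) * X * f ≤ l * (1 + Y) * f + m * (C + 2 * A) := by
    intro T h1 h2 X h3 U h4 Y h5 h6 h7
    refine exc_key hmpos O g₁ n ((j + 1) * f) f hf.le hgap1 (hbd g₁ hg₁P).1 ha1 Hs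
      (fun w hw => (Finset.mem_filter.1 hw).2) T h1 h2 X h3 U h4 Y h5 h6 l ?_ h7
    omega
  have K2 : ∀ T : Finset W, T ⊆ Ls → T.card ≤ m - 1 → ∀ X : ℤ,
      (∀ w ∈ T, ∃ x ∈ O w, m * n x ≤ j * f - X * f) →
      ∀ U : Finset W, Disjoint U Ls → ∀ Y : ℤ, 0 ≤ Y →
      (∀ w ∈ U, ∃ x ∈ O w, m * n x ≤ j * f + (1 + Y) * f) → l ≤ U.card →
      (T.card : ℤ) * X * f ≤ l * (1 + Y) * f + m * (C + 2 * A) := by
    intro T h1 h2 X h3 U h4 Y h5 h6 h7
    refine exc_key hmpos O g₁ (fun g => - n g) (-(j * f)) f hf.le hgap2 ?_ ha2 Ls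
      (fun w hw => ?_) T h1 h2 X (fun w hw => ?_) U h4 Y h5 (fun w hw => ?_) l ?_ h7
    · have := (hbd g₁ hg₁P).2
      linarith
    · obtain ⟨x, hx, h⟩ := (Finset.mem_filter.1 hw).2
      exact ⟨x, hx, by linarith⟩
    · obtain ⟨x, hx, h⟩ := h3 w hw
      exact ⟨x, hx, by linarith⟩
    · obtain ⟨x, hx, h⟩ := h6 w hw
      exact ⟨x, hx, by linarith⟩
    · omega
  -- minimal excesses
  have hOLsub : Disjoint OL Hs := by
    rw [Finset.disjoint_left]
    intro w h1 h2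
    exact (Finset.mem_filter.1 h1).2.2 (Finset.mem_filter.1 h2).2
  have hOHsub : Disjoint OH Ls := by
    rw [Finset.disjoint_left]
    intro w h1 h2
    exact (Finset.mem_filter.1 h1).2.2 (Finset.mem_filter.1 h2).2
  have hOHHs : OH ⊆ Hs := by
    intro w hw
    exact Finset.mem_filter.2 ⟨Finset.mem_univ _, (Finset.mem_filter.1 hw).2.1⟩
  have hOLLs : OL ⊆ Ls := by
    intro w hw
    exact Finset.mem_filter.2 ⟨Finset.mem_univ _, (Finset.mem_filter.1 hw).2.1⟩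
  have exY : ∃ Y : ℕ, l ≤ (OL.filter (fun w => ∃ x ∈ O w,
      (j + 1) * f - (1 + (Y : ℤ)) * f ≤ m * n x)).card := by
    refine ⟨(|j| + m * A).toNat, ?_⟩
    rw [Finset.filter_true_of_mem]
    · omega
    · intro w hw
      obtain ⟨x, hx, _⟩ := (Finset.mem_filter.1 hw).2.1
      refine ⟨x, hx, ?_⟩
      have h1 := (hbd x (hsub w hx)).1
      have h2 : (0 : ℤ) ≤ |j| + m * A := by positivity
      rw [Int.toNat_of_nonneg h2]
      have h3 : j ≤ |j| := le_abs_self j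
      have h4 : (1 : ℤ) ≤ f := hf
      have h5 : (0 : ℤ) ≤ m * A := by positivity
      nlinarith [mul_nonneg h5 (by linarith : (0 : ℤ) ≤ (f : ℤ) - 1),
        mul_nonneg (by linarith : (0 : ℤ) ≤ |j| - j) hf.le]
  have exX : ∃ X : ℕ, l ≤ (OH.filter (fun w => ∃ x ∈ O w,
      m * n x ≤ j * f + (1 + (X : ℤ)) * f)).card := by
    refine ⟨(|j| + m * A).toNat, ?_⟩
    rw [Finset.filter_true_of_mem]
    · omega
    · intro w hw
      obtain ⟨x, hx, _⟩ := (Finset.mem_filter.1 hw).2.1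
      refine ⟨x, hx, ?_⟩
      have h1 := (hbd x (hsub w hx)).2
      have h2 : (0 : ℤ) ≤ |j| + m * A := by positivity
      rw [Int.toNat_of_nonneg h2]
      have h3 : -j ≤ |j| := neg_le_abs j
      have h4 : (1 : ℤ) ≤ f := hf
      have h5 : (0 : ℤ) ≤ m * A := by positivity
      nlinarith [mul_nonneg h5 (by linarith : (0 : ℤ) ≤ (f : ℤ) - 1),
        mul_nonneg (by linarith : (0 : ℤ) ≤ |j| + j) hf.le]
  obtain ⟨Y0, hY0, hYmin⟩ : ∃ Y0 : ℕ, l ≤ (OL.filter (fun w => ∃ x ∈ O w,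
      (j + 1) * f - (1 + (Y0 : ℤ)) * f ≤ m * n x)).card ∧ ∀ Y < Y0,
      (OL.filter (fun w => ∃ x ∈ O w,
      (j + 1) * f - (1 + (Y : ℤ)) * f ≤ m * n x)).card < l :=
    ⟨Nat.find exY, Nat.find_spec exY, fun Y hY => not_le.1 (Nat.find_min exY hY)⟩
  obtain ⟨X0, hX0, hXmin⟩ : ∃ X0 : ℕ, l ≤ (OH.filter (fun w => ∃ x ∈ O w,
      m * n x ≤ j * f + (1 + (X0 : ℤ)) * f)).card ∧ ∀ X < X0,
      (OH.filter (fun w => ∃ x ∈ O w,
      m * n x ≤ j * f + (1 + (X : ℤ)) * f)).card < l :=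
    ⟨Nat.find exX, Nat.find_spec exX, fun X hX => not_le.1 (Nat.find_min exX hX)⟩
  -- T with excess ≥ X0
  have exT : ∃ T ⊆ OH, T.card = s ∧ ∀ w ∈ T, ∃ x ∈ O w, (j + 1) * f + (X0 : ℤ) * f ≤ m * n x := by
    rcases Nat.eq_zero_or_pos X0 with h0 | h0
    · obtain ⟨T, hT, hTc⟩ := Finset.exists_subset_card_eq (s := OH) (n := s) (by omega)
      refine ⟨T, hT, hTc, fun w hw => ?_⟩
      obtain ⟨x, hx, h⟩ := (Finset.mem_filter.1 (hT hw)).2.1
      exact ⟨x, hx, by rw [h0]; simpa using h⟩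
    · have hlt := hXmin (X0 - 1) (by omega)
      set E := OH.filter (fun w => ∃ x ∈ O w,
        m * n x ≤ j * f + (1 + ((X0 - 1 : ℕ) : ℤ)) * f) with hE
      have hEs : (OH \ E).card + E.card = OH.card :=
        Finset.card_sdiff_add_card_eq_card (Finset.filter_subset _ _)
      obtain ⟨T, hT, hTc⟩ := Finset.exists_subset_card_eq (s := OH \ E) (n := s) (by omega)
      refine ⟨T, hT.trans Finset.sdiff_subset, hTc, fun w hw => ?_⟩
      have h1 := Finset.mem_sdiff.1 (hT hw)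
      obtain ⟨x, hx, h⟩ := (Finset.mem_filter.1 h1.1).2.1
      refine ⟨x, hx, ?_⟩
      have h2 : ¬ ((m : ℤ) * n x ≤ j * f + (1 + ((X0 - 1 : ℕ) : ℤ)) * f) := by
        intro h3
        exact h1.2 (Finset.mem_filter.2 ⟨h1.1, x, hx, h3⟩)
      push Not at h2
      obtain ⟨k, hk⟩ := hdvd x (hsub w hx)
      rw [hk] at h2 ⊢
      have h4 : ((X0 - 1 : ℕ) : ℤ) = X0 - 1 := by push_cast [h0]; ring
      rw [h4] at h2
      have h5 : (j + X0) * (f : ℤ) < k * f := by linarith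
      have h6 : j + X0 < k := lt_of_mul_lt_mul_right h5 hf.le
      have h7 : (j + 1 + X0) * (f : ℤ) ≤ k * f := mul_le_mul_of_nonneg_right (by linarith) hf.le
      linarith
  have exT' : ∃ T ⊆ OL, T.card = s ∧ ∀ w ∈ T, ∃ x ∈ O w, m * n x ≤ j * f - (Y0 : ℤ) * f := by
    rcases Nat.eq_zero_or_pos Y0 with h0 | h0
    · obtain ⟨T, hT, hTc⟩ := Finset.exists_subset_card_eq (s := OL) (n := s) (by omega)
      refine ⟨T, hT, hTc, fun w hw => ?_⟩
      obtain ⟨x, hx, h⟩ := (Finset.mem_filter.1 (hT hw)).2.1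
      exact ⟨x, hx, by rw [h0]; simpa using h⟩
    · have hlt := hYmin (Y0 - 1) (by omega)
      set E := OL.filter (fun w => ∃ x ∈ O w,
        (j + 1) * f - (1 + ((Y0 - 1 : ℕ) : ℤ)) * f ≤ m * n x) with hE
      have hEs : (OL \ E).card + E.card = OL.card :=
        Finset.card_sdiff_add_card_eq_card (Finset.filter_subset _ _)
      obtain ⟨T, hT, hTc⟩ := Finset.exists_subset_card_eq (s := OL \ E) (n := s) (by omega)
      refine ⟨T, hT.trans Finset.sdiff_subset, hTc, fun w hw => ?_⟩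
      have h1 := Finset.mem_sdiff.1 (hT hw)
      obtain ⟨x, hx, h⟩ := (Finset.mem_filter.1 h1.1).2.1
      refine ⟨x, hx, ?_⟩
      have h2 : ¬ ((j + 1) * f - (1 + ((Y0 - 1 : ℕ) : ℤ)) * f ≤ (m : ℤ) * n x) := by
        intro h3
        exact h1.2 (Finset.mem_filter.2 ⟨h1.1, x, hx, h3⟩)
      push Not at h2
      obtain ⟨k, hk⟩ := hdvd x (hsub w hx)
      rw [hk] at h2 ⊢
      have h4 : ((Y0 - 1 : ℕ) : ℤ) = Y0 - 1 := by push_cast [h0]; ring
      rw [h4] at h2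
      have h5 : k * (f : ℤ) < (j + 1 - Y0) * f := by linarith
      have h6 : k < j + 1 - Y0 := lt_of_mul_lt_mul_right h5 hf.le
      have h7 : k * (f : ℤ) ≤ (j - Y0) * f := mul_le_mul_of_nonneg_right (by linarith) hf.le
      linarith
  -- both minimal excesses vanish
  obtain ⟨T1, hT1s, hT1c, hT1⟩ := exT
  obtain ⟨T2, hT2s, hT2c, hT2⟩ := exT'
  have hUfilt : ∀ w ∈ OL.filter (fun w => ∃ x ∈ O w,
      (j + 1) * f - (1 + (Y0 : ℤ)) * f ≤ m * n x), ∃ x ∈ O w,
      (j + 1) * f - (1 + (Y0 : ℤ)) * f ≤ m * n x := fun w hw => (Finset.mem_filter.1 hw).2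
  have hUfilt' : ∀ w ∈ OH.filter (fun w => ∃ x ∈ O w,
      m * n x ≤ j * f + (1 + (X0 : ℤ)) * f), ∃ x ∈ O w,
      m * n x ≤ j * f + (1 + (X0 : ℤ)) * f := fun w hw => (Finset.mem_filter.1 hw).2
  have hdU : Disjoint (OL.filter (fun w => ∃ x ∈ O w,
      (j + 1) * f - (1 + (Y0 : ℤ)) * f ≤ m * n x)) Hs :=
    Finset.disjoint_of_subset_left (Finset.filter_subset _ _) hOLsub
  have hdU' : Disjoint (OH.filter (fun w => ∃ x ∈ O w,
      m * n x ≤ j * f + (1 + (X0 : ℤ)) * f)) Ls :=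
    Finset.disjoint_of_subset_left (Finset.filter_subset _ _) hOHsub
  have k1 := K1 T1 (hT1s.trans hOHHs) (by omega) X0 hT1 _ hdU Y0 (by positivity) hUfilt hY0
  have k2 := K2 T2 (hT2s.trans hOLLs) (by omega) Y0 hT2 _ hdU' X0 (by positivity) hUfilt' hX0
  rw [hT1c] at k1
  rw [hT2c] at k2
  have hC3z : (m : ℤ) * (C + 2 * A) ≤ C3 * f := by
    rw [hC3]
    push_cast
    nlinarith [mul_le_mul_of_nonneg_right hflow (by positivity : (0 : ℤ) ≤ (C : ℤ) + 2 * A)]
  have k1' : (s : ℤ) * X0 ≤ l * (1 + Y0) + C3 := by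
    have : (s : ℤ) * X0 * f ≤ (l * (1 + Y0) + C3) * f := by linarith
    exact le_of_mul_le_mul_right this hf
  have k2' : (s : ℤ) * Y0 ≤ l * (1 + X0) + C3 := by
    have : (s : ℤ) * Y0 * f ≤ (l * (1 + X0) + C3) * f := by linarith
    exact le_of_mul_le_mul_right this hf
  have hsl : (2 * l + 2 * C3 : ℤ) < s - l := by
    have : 3 * l + 2 * C3 < s := by omega
    have h2 : (3 * l + 2 * C3 : ℤ) < s := by exact_mod_cast this
    linarith
  have hXY : X0 = 0 ∧ Y0 = 0 := by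
    have hsum : ((s : ℤ) - l) * (X0 + Y0) ≤ 2 * l + 2 * C3 := by linarith
    by_contra hne
    have h1 : (1 : ℤ) ≤ (X0 : ℤ) + Y0 := by
      have : 1 ≤ X0 + Y0 := by omega
      exact_mod_cast this
    have h2 : (0 : ℤ) < s - l := by
      have : (0 : ℤ) ≤ 2 * l + 2 * C3 := by positivity
      linarith
    nlinarith
  obtain ⟨hX00, hY00⟩ := hXY
  subst hX00
  subst hY00
  constructor
  · by_contra hbig
    push Not at hbig
    set E := univ.filter (fun w => ∃ x ∈ O w, (j + 1) * f < m * n x) with hE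
    obtain ⟨T, hT, hTc⟩ := Finset.exists_subset_card_eq (s := E) (n := N / 1000 + 1) (by omega)
    have hTex : ∀ w ∈ T, ∃ x ∈ O w, (j + 1) * f + (1 : ℤ) * f ≤ m * n x := by
      intro w hw
      obtain ⟨x, hx, h⟩ := (Finset.mem_filter.1 (hT hw)).2
      refine ⟨x, hx, ?_⟩
      obtain ⟨k, hk⟩ := hdvd x (hsub w hx)
      rw [hk] at h ⊢
      have h6 : j + 1 < k := lt_of_mul_lt_mul_right h hf.le
      have h7 : (j + 1 + 1) * (f : ℤ) ≤ k * f := mul_le_mul_of_nonneg_right (by linarith) hf.le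
      linarith
    have hTHs : T ⊆ Hs := by
      intro w hw
      obtain ⟨x, hx, h⟩ := (Finset.mem_filter.1 (hT hw)).2
      exact Finset.mem_filter.2 ⟨Finset.mem_univ _, x, hx, h.le⟩
    have k3 := K1 T hTHs (by omega) 1 hTex _ hdU 0 le_rfl
      (fun w hw => by simpa using hUfilt w hw) hY0
    rw [hTc] at k3
    have k3' : ((N / 1000 + 1 : ℕ) : ℤ) ≤ l + C3 := by
      have : ((N / 1000 + 1 : ℕ) : ℤ) * f ≤ (l + C3) * f := by linarith
      exact le_of_mul_le_mul_right this hf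
    have : N / 1000 + 1 ≤ l + C3 := by exact_mod_cast k3'
    omega
  · by_contra hbig
    push Not at hbig
    set E := univ.filter (fun w => ∃ x ∈ O w, m * n x < j * f) with hE
    obtain ⟨T, hT, hTc⟩ := Finset.exists_subset_card_eq (s := E) (n := N / 1000 + 1) (by omega)
    have hTex : ∀ w ∈ T, ∃ x ∈ O w, m * n x ≤ j * f - (1 : ℤ) * f := by
      intro w hw
      obtain ⟨x, hx, h⟩ := (Finset.mem_filter.1 (hT hw)).2
      refine ⟨x, hx, ?_⟩
      obtain ⟨k, hk⟩ := hdvd x (hsub w hx)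
      rw [hk] at h ⊢
      have h6 : k < j := lt_of_mul_lt_mul_right h hf.le
      have h7 : k * (f : ℤ) ≤ (j - 1) * f := mul_le_mul_of_nonneg_right (by linarith) hf.le
      linarith
    have hTLs : T ⊆ Ls := by
      intro w hw
      obtain ⟨x, hx, h⟩ := (Finset.mem_filter.1 (hT hw)).2
      exact Finset.mem_filter.2 ⟨Finset.mem_univ _, x, hx, h.le⟩
    have k3 := K2 T hTLs (by omega) 1 hTex _ hdU' 0 le_rfl
      (fun w hw => by simpa using hUfilt' w hw) hX0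
    rw [hTc] at k3
    have k3' : ((N / 1000 + 1 : ℕ) : ℤ) ≤ l + C3 := by
      have : ((N / 1000 + 1 : ℕ) : ℤ) * f ≤ (l + C3) * f := by linarith
      exact le_of_mul_le_mul_right this hf
    have : N / 1000 + 1 ≤ l + C3 := by exact_mod_cast k3'
    omega

end ZS44129
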