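import Mathlib
import Pool.Agent.Work.MP_44129c_co.Defs

/-!
# MP_44129c_co, module TwoVal (colours without excess are unique)

`x, y ∈ P` with `m n x = (j+1) f`, `m n y = j f`; so `m (n x - n y) = f`, `n x ≠ n y`.
1. `ord`: if `t • (x - y) = 0`, then `z = t (δ_x - δ_y)` has sum `0` and image `0`, so
   `f ∣ t (n x - n y)` (`Lat.ker`), i.e. `m (n x - n y) ∣ t (n x - n y)`, so `m ∣ t`.
2. `x - y` generates `ZMod m`: the map `t ↦ t * (x - y)` of `ZMod m` is injective by 1., hence
   surjective (`Finite.injective_iff_surjective`), so for every `g` there is `t : ℤ` with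
   `g = t • (x - y)`.
3. If `x' ∈ P`, `m n x' = (j+1) f`: `n x' = n x` (`m > 0`).  Let `x' - x = t • (x - y)`.
   `z = δ_{x'} - δ_x - t (δ_x - δ_y)` has sum `0` and image `0`, so
   `f ∣ n x' - n x - t (n x - n y) = -t (n x - n y)`, so `m ∣ t` and `x' - x = t • (x - y) = 0`.
   Same for `y'`.
(Functions `z` built from `if g = x then .. else 0`; `Finset.sum_ite_eq`.)
-/

set_option autoImplicit false

namespace ZS44129

open Finset

theorem two_values {m A C f : ℕ} {P : Finset (ZMod m)} {n : ZMod m → ℤ} (hm : 0 < m)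
    (hL : Lat m P A C n f) (j : ℤ) (x y : ZMod m) (hx : x ∈ P) (hy : y ∈ P)
    (hxn : m * n x = (j + 1) * f) (hyn : m * n y = j * f) :
    (∀ t : ℤ, t • (x - y) = 0 → (m : ℤ) ∣ t) ∧
      (∀ x' ∈ P, m * n x' = (j + 1) * f → x' = x) ∧
      (∀ y' ∈ P, m * n y' = j * f → y' = y) := by
  classical
  haveI : NeZero m := ⟨hm.ne'⟩
  have hm0 : (m : ℤ) ≠ 0 := by exact_mod_cast hm.ne'
  have hf : (0 : ℤ) < f := by exact_mod_cast hL.fpos
  have hdiff : (m : ℤ) * (n x - n y) = f := by linarith
  have hne : n x - n y ≠ 0 := by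
    intro h; rw [h, mul_zero] at hdiff; exact hf.ne hdiff
  have hdvd : ∀ t : ℤ, (f : ℤ) ∣ t * (n x - n y) → (m : ℤ) ∣ t := by
    rintro t ⟨k, hk⟩
    refine ⟨k, ?_⟩
    rw [← hdiff] at hk
    have : (n x - n y) * (t - m * k) = 0 := by linear_combination hk
    rcases mul_eq_zero.1 this with h | h
    · exact absurd h hne
    · linarith
  have hord : ∀ t : ℤ, t • (x - y) = 0 → (m : ℤ) ∣ t := by
    intro t ht
    apply hdvd
    have := hL.ker (fun g => (if g = x then t else 0) - (if g = y then t else 0))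
      (by rw [Finset.sum_sub_distrib]; simp [hx, hy])
      (by
        simp only [sub_smul, ite_smul, zero_smul]
        rw [Finset.sum_sub_distrib]
        simp only [Finset.sum_ite_eq', hx, hy, if_true]
        rw [← smul_sub]; exact ht)
    simp only [sub_mul, ite_mul, zero_mul] at this
    rw [Finset.sum_sub_distrib] at this
    simp only [Finset.sum_ite_eq', hx, hy, if_true] at this
    rw [mul_sub]; exact this
  have hsurj : ∀ g : ZMod m, ∃ t : ℤ, g = t • (x - y) := by
    have hinj : Function.Injective (fun s : ZMod m => s * (x - y)) := by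
      intro s1 s2 h
      simp only at h
      have h1 : (((s1 - s2).val : ℤ)) • (x - y) = 0 := by
        rw [zsmul_eq_mul]
        have e : (((s1 - s2).val : ℤ) : ZMod m) = s1 - s2 := by
          rw [Int.cast_natCast, ZMod.natCast_zmod_val]
        rw [e, sub_mul, h, sub_self]
      have h2 := hord _ h1
      have h3 : (((s1 - s2).val : ℤ) : ZMod m) = 0 :=
        (ZMod.intCast_zmod_eq_zero_iff_dvd _ m).2 h2
      rw [Int.cast_natCast, ZMod.natCast_zmod_val] at h3
      exact sub_eq_zero.1 h3
    have hs := Finite.injective_iff_surjective.1 hinj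
    intro g
    obtain ⟨s, hs⟩ := hs g
    refine ⟨(s.val : ℤ), ?_⟩
    rw [zsmul_eq_mul, Int.cast_natCast, ZMod.natCast_zmod_val]
    exact hs.symm
  have key : ∀ x' x0 : ZMod m, x' ∈ P → x0 ∈ P → n x' = n x0 → x' = x0 := by
    intro x' x0 hx' hx0 hnn
    obtain ⟨t, ht⟩ := hsurj (x' - x0)
    have := hL.ker (fun g => ((if g = x' then 1 else 0) - (if g = x0 then 1 else 0)) -
        ((if g = x then t else 0) - (if g = y then t else 0)))
      (by
        rw [Finset.sum_sub_distrib, Finset.sum_sub_distrib, Finset.sum_sub_distrib]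
        simp [hx, hy, hx', hx0])
      (by
        simp only [sub_smul, ite_smul, zero_smul, one_smul]
        rw [Finset.sum_sub_distrib, Finset.sum_sub_distrib, Finset.sum_sub_distrib]
        simp only [Finset.sum_ite_eq', hx, hy, hx', hx0, if_true]
        rw [← smul_sub, ht, sub_self])
    simp only [sub_mul, ite_mul, zero_mul, one_mul] at this
    rw [Finset.sum_sub_distrib, Finset.sum_sub_distrib, Finset.sum_sub_distrib] at this
    simp only [Finset.sum_ite_eq', hx, hy, hx', hx0, if_true] at this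
    have h2 : (f : ℤ) ∣ t * (n x - n y) := by
      have e : n x' - n x0 - (t * n x - t * n y) = -(t * (n x - n y)) := by rw [hnn]; ring
      rw [e] at this
      exact (dvd_neg.1 this)
    have h3 := hdvd t h2
    have h4 : t • (x - y) = 0 := by
      rw [zsmul_eq_mul, (ZMod.intCast_zmod_eq_zero_iff_dvd t m).2 h3, zero_mul]
    rw [h4] at ht
    exact sub_eq_zero.1 ht
  refine ⟨hord, fun x' hx' h => key x' x hx' hx ?_, fun y' hy' h => key y' y hy' hy ?_⟩
  · exact mul_left_cancel₀ hm0 (h.trans hxn.symm)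
  · exact mul_left_cancel₀ hm0 (h.trans hyn.symm)

end ZS44129
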