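import Mathlib
import Pool.Agent.Work.MP_44129c_co.Balanced
import Pool.Agent.Work.MP_44129c_co.Excess
import Pool.Agent.Work.MP_44129c_co.TwoVal

/-!
# MP_44129c_co, module TwoCol (a balanced pair has two colours)

`N = card V`, `P = pal q c u ∪ pal q c v`, `Core` structure `(n, f, j)` of the good pair from
`SideData`; `m₀` = that of `excess_small A C` plus `10^5`.
1. Hypotheses of `excess_small` (`O = pairO q c u v`, `g₁ = c u v`): `O w ⊆ P`; `c u v ∈ P`
   (`Good`).  The four pattern sets (`w ≠ u, v`, `c u w ∈ H u` or `L u`, `c v w ∈ H v` or `L v`)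
   are pairwise disjoint (`H u ∩ L u = ∅` since `(j+1) f ≤ m n g ≤ j f` is impossible).
   For such `w`, `c u w, c v w ∈ pairO q c u v w` (`H u ∪ L u = pal q c u`), so the slots with a
   high option contain the patterns HH, HL, LH: `≥ 3 * 0.2499 N = 0.7497 N`; same for low; HH
   slots have a high and no low option: `≥ 0.2499 N`; same for LL.
   So `E₁ = {w : ∃ x ∈ O w, (j+1) f < m n x}`, `E₂ = {w : ∃ x ∈ O w, m n x < j f}` have
   `1000 |E_i| ≤ N`.
2. HH pattern slots outside `E₁`: there is one (`0.2499 N > N/1000`); `b := c u w` has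
   `m n b = (j+1) f`, `b ∈ P`.  LL slots outside `E₂`: `a := c u w`, `m n a = j f`.
   `two_values` (`x = b`, `y = a`): `ord`, and every `x' ∈ P` with `m n x' = (j+1) f` is `b`,
   every `y' ∈ P` with `m n y' = j f` is `a`.
3. If `w` is in one of the four patterns and not in `E₁ ∪ E₂`: `c u w ∈ H u` gives
   `m n (c u w) = (j+1) f`, so `c u w = b`; `c u w ∈ L u` gives `c u w = a`; same for `v`.
   `rareu`: `w ≠ u` with `c u w ∉ {a,b}` is `v`, or in no pattern
   (at most `N - 2 - 4 * 0.2499 N ≤ 0.0004 N`), or in `E₁ ∪ E₂`: at most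
   `1 + 0.0024 N ≤ N/400` for `N ≥ 10^4`.  Same for `v`.
   `patt`: e.g. `pat c u v {b} {b} ≥ pat c u v (H u) (H v) - |E₁| - |E₂| ≥ 0.2479 N ≥ 99 N/400`.
-/

set_option autoImplicit false

namespace ZS44129

open Finset

theorem two_col (q A C : ℕ) : ∃ m₀ : ℕ, ∀ m : ℕ, m₀ ≤ m →
    ∀ {V : Type} [Fintype V] [DecidableEq V] (c : V → V → ZMod m) (H L : V → Finset (ZMod m)),
      SideData m q A C c H L →
      4 * 10 ^ 4 * m ≤ (3 * 10 ^ 4 + 1) * Fintype.card V → Fintype.card V ≤ 2 * m →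
      ∀ u v : V, Bal q c H L u v → ∃ a b : ZMod m, TC c u v a b := by
  classical
  obtain ⟨m1, hex⟩ := excess_small A C
  refine ⟨m1 + 10 ^ 5, ?_⟩
  intro m hm V _ _ c H L ⟨hHL, hCore⟩ hN1 hN2 u v ⟨hg, hp1, hp2, hp3, hp4⟩
  obtain ⟨N, hNd⟩ : ∃ N : ℕ, N = Fintype.card V := ⟨_, rfl⟩
  rw [← hNd] at hN1 hN2 hp1 hp2 hp3 hp4
  have hmN : m ≤ N := by omega
  have hmpos : 0 < m := by omega
  obtain ⟨n, f, j, hC, hh, hl⟩ := hCore u v hg
  have hf : (0 : ℤ) < f := by exact_mod_cast hC.lat.fpos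
  have hdisj : ∀ g, g ∈ H u ∪ H v → g ∈ L u ∪ L v → False := by
    intro g h1 h2
    have := (hh g h1).trans (hl g h2)
    nlinarith
  have hsub : ∀ w, pairO q c u v w ⊆ pal q c u ∪ pal q c v := by
    intro w
    unfold pairO
    split_ifs
    · exact Finset.empty_subset _
    · exact Finset.inter_subset_right
  have hHu : ∀ g ∈ H u, g ∈ pal q c u := fun g hg => by
    rw [← hHL u]; exact Finset.mem_union_left _ hg
  have hLu : ∀ g ∈ L u, g ∈ pal q c u := fun g hg => by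
    rw [← hHL u]; exact Finset.mem_union_right _ hg
  have hHv : ∀ g ∈ H v, g ∈ pal q c v := fun g hg => by
    rw [← hHL v]; exact Finset.mem_union_left _ hg
  have hLv : ∀ g ∈ L v, g ∈ pal q c v := fun g hg => by
    rw [← hHL v]; exact Finset.mem_union_right _ hg
  have hOu : ∀ w, w ≠ u → w ≠ v → c u w ∈ pal q c u → c u w ∈ pairO q c u v w := by
    intro w h1 h2 h3
    unfold pairO
    rw [if_neg (by push Not; exact ⟨h1, h2⟩)]
    exact Finset.mem_inter.2 ⟨by simp, Finset.mem_union_left _ h3⟩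
  have hOv : ∀ w, w ≠ u → w ≠ v → c v w ∈ pal q c v → c v w ∈ pairO q c u v w := by
    intro w h1 h2 h3
    unfold pairO
    rw [if_neg (by push Not; exact ⟨h1, h2⟩)]
    exact Finset.mem_inter.2 ⟨by simp, Finset.mem_union_right _ h3⟩
  have hOopt : ∀ w, ∀ x ∈ pairO q c u v w, x = c u w ∨ x = c v w := by
    intro w x hx
    unfold pairO at hx
    split_ifs at hx
    · exact absurd hx (Finset.notMem_empty _)
    · have := (Finset.mem_inter.1 hx).1
      simpa using this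
  -- pattern sets
  obtain ⟨pt, hpt⟩ : ∃ pt : Finset (ZMod m) → Finset (ZMod m) → Finset V,
      pt = fun X Y => univ.filter (fun w => w ≠ u ∧ w ≠ v ∧ c u w ∈ X ∧ c v w ∈ Y) := ⟨_, rfl⟩
  have hptm : ∀ X Y w, w ∈ pt X Y ↔ w ≠ u ∧ w ≠ v ∧ c u w ∈ X ∧ c v w ∈ Y := by
    intro X Y w
    rw [hpt]; simp
  have hptc : ∀ X Y, (pt X Y).card = pat c u v X Y := by
    intro X Y
    rw [hpt]; rfl
  -- disjoint patterns
  have dis1 : ∀ Y Y', Disjoint (pt (H u) Y) (pt (L u) Y') := by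
    intro Y Y'
    rw [Finset.disjoint_left]
    intro w h1 h2
    rw [hptm] at h1 h2
    exact hdisj _ (Finset.mem_union_left _ h1.2.2.1) (Finset.mem_union_left _ h2.2.2.1)
  have dis2 : ∀ X X', Disjoint (pt X (H v)) (pt X' (L v)) := by
    intro X X'
    rw [Finset.disjoint_left]
    intro w h1 h2
    rw [hptm] at h1 h2
    exact hdisj _ (Finset.mem_union_right _ h1.2.2.2) (Finset.mem_union_right _ h2.2.2.2)
  have hHigh : ∀ w, w ∈ pt (H u) (H v) ∪ pt (H u) (L v) ∪ pt (L u) (H v) →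
      ∃ x ∈ pairO q c u v w, (j + 1) * f ≤ m * n x := by
    intro w hw
    rcases Finset.mem_union.1 hw with hw | hw
    · have hw' : w ≠ u ∧ w ≠ v ∧ c u w ∈ H u := by
        rcases Finset.mem_union.1 hw with hw | hw
        · rw [hptm] at hw; exact ⟨hw.1, hw.2.1, hw.2.2.1⟩
        · rw [hptm] at hw; exact ⟨hw.1, hw.2.1, hw.2.2.1⟩
      exact ⟨c u w, hOu w hw'.1 hw'.2.1 (hHu _ hw'.2.2), hh _ (Finset.mem_union_left _ hw'.2.2)⟩
    · rw [hptm] at hw
      exact ⟨c v w, hOv w hw.1 hw.2.1 (hHv _ hw.2.2.2), hh _ (Finset.mem_union_right _ hw.2.2.2)⟩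
  have hLow : ∀ w, w ∈ pt (L u) (L v) ∪ pt (L u) (H v) ∪ pt (H u) (L v) →
      ∃ x ∈ pairO q c u v w, m * n x ≤ j * f := by
    intro w hw
    rcases Finset.mem_union.1 hw with hw | hw
    · have hw' : w ≠ u ∧ w ≠ v ∧ c u w ∈ L u := by
        rcases Finset.mem_union.1 hw with hw | hw
        · rw [hptm] at hw; exact ⟨hw.1, hw.2.1, hw.2.2.1⟩
        · rw [hptm] at hw; exact ⟨hw.1, hw.2.1, hw.2.2.1⟩
      exact ⟨c u w, hOu w hw'.1 hw'.2.1 (hLu _ hw'.2.2), hl _ (Finset.mem_union_left _ hw'.2.2)⟩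
    · rw [hptm] at hw
      exact ⟨c v w, hOv w hw.1 hw.2.1 (hLv _ hw.2.2.2), hl _ (Finset.mem_union_right _ hw.2.2.2)⟩
  have cH : (pt (H u) (H v) ∪ pt (H u) (L v) ∪ pt (L u) (H v)).card =
      pat c u v (H u) (H v) + pat c u v (H u) (L v) + pat c u v (L u) (H v) := by
    rw [Finset.card_union_of_disjoint, Finset.card_union_of_disjoint (dis2 _ _), hptc, hptc,
      hptc]
    exact Finset.disjoint_union_left.2 ⟨dis1 _ _, dis1 _ _⟩
  have cL : (pt (L u) (L v) ∪ pt (L u) (H v) ∪ pt (H u) (L v)).card =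
      pat c u v (L u) (L v) + pat c u v (L u) (H v) + pat c u v (H u) (L v) := by
    rw [Finset.card_union_of_disjoint, Finset.card_union_of_disjoint (dis2 _ _).symm, hptc, hptc,
      hptc]
    exact Finset.disjoint_union_left.2 ⟨(dis1 _ _).symm, (dis1 _ _).symm⟩
  have hHs : pat c u v (H u) (H v) + pat c u v (H u) (L v) + pat c u v (L u) (H v) ≤
      (univ.filter (fun w => ∃ x ∈ pairO q c u v w, (j + 1) * f ≤ m * n x)).card := by
    rw [← cH]
    exact Finset.card_le_card fun w hw => Finset.mem_filter.2 ⟨Finset.mem_univ _, hHigh w hw⟩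
  have hLs : pat c u v (L u) (L v) + pat c u v (L u) (H v) + pat c u v (H u) (L v) ≤
      (univ.filter (fun w => ∃ x ∈ pairO q c u v w, m * n x ≤ j * f)).card := by
    rw [← cL]
    exact Finset.card_le_card fun w hw => Finset.mem_filter.2 ⟨Finset.mem_univ _, hLow w hw⟩
  have hOH : pat c u v (H u) (H v) ≤ (univ.filter (fun w =>
      (∃ x ∈ pairO q c u v w, (j + 1) * f ≤ m * n x) ∧
        ¬ ∃ x ∈ pairO q c u v w, m * n x ≤ j * f)).card := by
    rw [← hptc]
    refine Finset.card_le_card fun w hw => Finset.mem_filter.2 ⟨Finset.mem_univ _,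
      hHigh w (Finset.mem_union_left _ (Finset.mem_union_left _ hw)), ?_⟩
    rintro ⟨x, hx, hxl⟩
    rw [hptm] at hw
    have hxH : x ∈ H u ∪ H v := by
      rcases hOopt w x hx with h | h
      · rw [h]; exact Finset.mem_union_left _ hw.2.2.1
      · rw [h]; exact Finset.mem_union_right _ hw.2.2.2
    have := (hh x hxH).trans hxl
    nlinarith
  have hOL : pat c u v (L u) (L v) ≤ (univ.filter (fun w =>
      (∃ x ∈ pairO q c u v w, m * n x ≤ j * f) ∧
        ¬ ∃ x ∈ pairO q c u v w, (j + 1) * f ≤ m * n x)).card := by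
    rw [← hptc]
    refine Finset.card_le_card fun w hw => Finset.mem_filter.2 ⟨Finset.mem_univ _,
      hLow w (Finset.mem_union_left _ (Finset.mem_union_left _ hw)), ?_⟩
    rintro ⟨x, hx, hxl⟩
    rw [hptm] at hw
    have hxL : x ∈ L u ∪ L v := by
      rcases hOopt w x hx with h | h
      · rw [h]; exact Finset.mem_union_left _ hw.2.2.1
      · rw [h]; exact Finset.mem_union_right _ hw.2.2.2
    have := hxl.trans (hl x hxL)
    nlinarith
  obtain ⟨hE1, hE2⟩ := hex m (by omega) (pairO q c u v) (c u v) (pal q c u ∪ pal q c v) n f j N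
    hsub hg.2 hC hN1 hN2 (by omega) (by omega) (by omega) (by omega)
  obtain ⟨E1, hE1d⟩ : ∃ E1 : Finset V, E1 = univ.filter (fun w =>
      ∃ x ∈ pairO q c u v w, (j + 1) * f < m * n x) := ⟨_, rfl⟩
  obtain ⟨E2, hE2d⟩ : ∃ E2 : Finset V, E2 = univ.filter (fun w =>
      ∃ x ∈ pairO q c u v w, m * n x < j * f) := ⟨_, rfl⟩
  rw [← hE1d] at hE1
  rw [← hE2d] at hE2
  have eqH : ∀ w, w ∉ E1 → ∀ x ∈ pairO q c u v w, x ∈ H u ∪ H v → m * n x = (j + 1) * f := by
    intro w hw x hx hxH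
    refine le_antisymm ?_ (hh x hxH)
    by_contra hcon
    push Not at hcon
    exact hw (by rw [hE1d]; exact Finset.mem_filter.2 ⟨Finset.mem_univ _, x, hx, hcon⟩)
  have eqL : ∀ w, w ∉ E2 → ∀ x ∈ pairO q c u v w, x ∈ L u ∪ L v → m * n x = j * f := by
    intro w hw x hx hxL
    refine le_antisymm (hl x hxL) ?_
    by_contra hcon
    push Not at hcon
    exact hw (by rw [hE2d]; exact Finset.mem_filter.2 ⟨Finset.mem_univ _, x, hx, hcon⟩)
  -- the colours
  obtain ⟨wb, hwb, hwbE⟩ : ∃ w ∈ pt (H u) (H v), w ∉ E1 := by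
    by_contra hcon
    push Not at hcon
    have := Finset.card_le_card hcon
    rw [hptc] at this
    omega
  obtain ⟨wa, hwa, hwaE⟩ : ∃ w ∈ pt (L u) (L v), w ∉ E2 := by
    by_contra hcon
    push Not at hcon
    have := Finset.card_le_card hcon
    rw [hptc] at this
    omega
  rw [hptm] at hwb hwa
  obtain ⟨b, hb⟩ : ∃ b, b = c u wb := ⟨_, rfl⟩
  obtain ⟨a, ha⟩ : ∃ a, a = c u wa := ⟨_, rfl⟩
  have hbn : m * n b = (j + 1) * f := by
    rw [hb]
    exact eqH wb hwbE _ (hOu wb hwb.1 hwb.2.1 (hHu _ hwb.2.2.1))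
      (Finset.mem_union_left _ hwb.2.2.1)
  have han : m * n a = j * f := by
    rw [ha]
    exact eqL wa hwaE _ (hOu wa hwa.1 hwa.2.1 (hLu _ hwa.2.2.1))
      (Finset.mem_union_left _ hwa.2.2.1)
  have hbP : b ∈ pal q c u ∪ pal q c v := by
    rw [hb]; exact Finset.mem_union_left _ (hHu _ hwb.2.2.1)
  have haP : a ∈ pal q c u ∪ pal q c v := by
    rw [ha]; exact Finset.mem_union_left _ (hLu _ hwa.2.2.1)
  obtain ⟨hord, hub, hua⟩ := two_values hmpos hC.lat j b a hbP haP hbn han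
  -- colours outside the exceptional sets
  have colH : ∀ w, w ∉ E1 → ∀ x ∈ pairO q c u v w, x ∈ H u ∪ H v → x = b :=
    fun w hw x hx hxH => hub x (hsub w hx) (eqH w hw x hx hxH)
  have colL : ∀ w, w ∉ E2 → ∀ x ∈ pairO q c u v w, x ∈ L u ∪ L v → x = a :=
    fun w hw x hx hxL => hua x (hsub w hx) (eqL w hw x hx hxL)
  have cu1 : ∀ w, w ≠ u → w ≠ v → w ∉ E1 → c u w ∈ H u → c u w = b := fun w h1 h2 h3 h4 =>
    colH w h3 _ (hOu w h1 h2 (hHu _ h4)) (Finset.mem_union_left _ h4)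
  have cu2 : ∀ w, w ≠ u → w ≠ v → w ∉ E2 → c u w ∈ L u → c u w = a := fun w h1 h2 h3 h4 =>
    colL w h3 _ (hOu w h1 h2 (hLu _ h4)) (Finset.mem_union_left _ h4)
  have cv1 : ∀ w, w ≠ u → w ≠ v → w ∉ E1 → c v w ∈ H v → c v w = b := fun w h1 h2 h3 h4 =>
    colH w h3 _ (hOv w h1 h2 (hHv _ h4)) (Finset.mem_union_right _ h4)
  have cv2 : ∀ w, w ≠ u → w ≠ v → w ∉ E2 → c v w ∈ L v → c v w = a := fun w h1 h2 h3 h4 =>
    colL w h3 _ (hOv w h1 h2 (hLv _ h4)) (Finset.mem_union_right _ h4)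
  -- all patterns
  obtain ⟨Pt, hPt⟩ : ∃ Pt : Finset V, Pt = pt (H u) (H v) ∪ pt (H u) (L v) ∪ pt (L u) (H v) ∪
      pt (L u) (L v) := ⟨_, rfl⟩
  have hPtc : Pt.card = pat c u v (H u) (H v) + pat c u v (H u) (L v) + pat c u v (L u) (H v) +
      pat c u v (L u) (L v) := by
    rw [hPt, Finset.card_union_of_disjoint, cH, hptc]
    refine Finset.disjoint_union_left.2 ⟨Finset.disjoint_union_left.2 ⟨dis1 _ _, dis1 _ _⟩,
      dis2 _ _⟩
  have hPtN : (univ \ Pt).card + Pt.card = N := by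
    rw [Finset.card_sdiff_add_card_eq_card (Finset.subset_univ _), hNd, Finset.card_univ]
  have hPtm : ∀ w ∈ Pt, w ≠ u ∧ w ≠ v ∧ (c u w ∈ H u ∨ c u w ∈ L u) ∧
      (c v w ∈ H v ∨ c v w ∈ L v) := by
    intro w hw
    rw [hPt] at hw
    rcases Finset.mem_union.1 hw with hw | hw
    · rcases Finset.mem_union.1 hw with hw | hw
      · rcases Finset.mem_union.1 hw with hw | hw
        · rw [hptm] at hw; exact ⟨hw.1, hw.2.1, Or.inl hw.2.2.1, Or.inl hw.2.2.2⟩
        · rw [hptm] at hw; exact ⟨hw.1, hw.2.1, Or.inl hw.2.2.1, Or.inr hw.2.2.2⟩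
      · rw [hptm] at hw; exact ⟨hw.1, hw.2.1, Or.inr hw.2.2.1, Or.inl hw.2.2.2⟩
    · rw [hptm] at hw; exact ⟨hw.1, hw.2.1, Or.inr hw.2.2.1, Or.inr hw.2.2.2⟩
  have hrare : ∀ R : Finset V, (∀ w ∈ R, w ∈ Pt → w ∈ E1 ∨ w ∈ E2) → 400 * R.card ≤ N := by
    intro R hR
    have h1 : R ⊆ (univ \ Pt) ∪ (E1 ∪ E2) := by
      intro w hw
      by_cases hwP : w ∈ Pt
      · exact Finset.mem_union_right _ (Finset.mem_union.2 (hR w hw hwP))
      · exact Finset.mem_union_left _ (Finset.mem_sdiff.2 ⟨Finset.mem_univ _, hwP⟩)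
    have h2 := (Finset.card_le_card h1).trans ((Finset.card_union_le _ _).trans
      (Nat.add_le_add_left (Finset.card_union_le _ _) _))
    omega
  have hpatt : ∀ (X Y : Finset (ZMod m)) (x y : ZMod m), 2499 * N ≤ 10 ^ 4 * pat c u v X Y →
      (∀ w, w ≠ u → w ≠ v → w ∉ E1 → w ∉ E2 → c u w ∈ X → c u w = x) →
      (∀ w, w ≠ u → w ≠ v → w ∉ E1 → w ∉ E2 → c v w ∈ Y → c v w = y) →
      99 * N ≤ 400 * pat c u v {x} {y} := by
    intro X Y x y h1 hx hy
    have h2 : pt X Y ⊆ pt {x} {y} ∪ (E1 ∪ E2) := by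
      intro w hw
      rw [hptm] at hw
      by_cases h3 : w ∈ E1
      · exact Finset.mem_union_right _ (Finset.mem_union_left _ h3)
      by_cases h4 : w ∈ E2
      · exact Finset.mem_union_right _ (Finset.mem_union_right _ h4)
      refine Finset.mem_union_left _ ?_
      rw [hptm]
      exact ⟨hw.1, hw.2.1, Finset.mem_singleton.2 (hx w hw.1 hw.2.1 h3 h4 hw.2.2.1),
        Finset.mem_singleton.2 (hy w hw.1 hw.2.1 h3 h4 hw.2.2.2)⟩
    have h3 := (Finset.card_le_card h2).trans ((Finset.card_union_le _ _).trans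
      (Nat.add_le_add_left (Finset.card_union_le _ _) _))
    rw [hptc, hptc] at h3
    omega
  refine ⟨a, b, hg.1, hord, ?_, ?_, ?_⟩
  · rw [← hNd]
    refine hrare _ fun w hw hwP => ?_
    obtain ⟨h1, h2, h3, h4⟩ := hPtm w hwP
    have h5 := (Finset.mem_filter.1 hw).2
    simp only [Finset.mem_insert, Finset.mem_singleton, not_or] at h5
    by_contra hcon
    push Not at hcon
    rcases h3 with h3 | h3
    · exact h5.2 (cu1 w h1 h2 hcon.1 h3)
    · exact h5.1 (cu2 w h1 h2 hcon.2 h3)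
  · rw [← hNd]
    refine hrare _ fun w hw hwP => ?_
    obtain ⟨h1, h2, h3, h4⟩ := hPtm w hwP
    have h5 := (Finset.mem_filter.1 hw).2
    simp only [Finset.mem_insert, Finset.mem_singleton, not_or] at h5
    by_contra hcon
    push Not at hcon
    rcases h4 with h4 | h4
    · exact h5.2 (cv1 w h1 h2 hcon.1 h4)
    · exact h5.1 (cv2 w h1 h2 hcon.2 h4)
  · rw [← hNd]
    intro x hx y hy
    simp only [Finset.mem_insert, Finset.mem_singleton] at hx hy
    rcases hx with hx | hx <;> rcases hy with hy | hy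
    · rw [hx, hy]
      exact hpatt (L u) (L v) a a hp4 (fun w h1 h2 _ h4 h5 => cu2 w h1 h2 h4 h5)
        (fun w h1 h2 _ h4 h5 => cv2 w h1 h2 h4 h5)
    · rw [hx, hy]
      exact hpatt (L u) (H v) a b hp3 (fun w h1 h2 _ h4 h5 => cu2 w h1 h2 h4 h5)
        (fun w h1 h2 h3 _ h5 => cv1 w h1 h2 h3 h5)
    · rw [hx, hy]
      exact hpatt (H u) (L v) b a hp2 (fun w h1 h2 h3 _ h5 => cu1 w h1 h2 h3 h5)
        (fun w h1 h2 _ h4 h5 => cv2 w h1 h2 h4 h5)
    · rw [hx, hy]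
      exact hpatt (H u) (H v) b b hp1 (fun w h1 h2 h3 _ h5 => cu1 w h1 h2 h3 h5)
        (fun w h1 h2 h3 _ h5 => cv1 w h1 h2 h3 h5)

end ZS44129
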