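import Mathlib
import Pool.Agent.Work.MP_44129c_co.S1Main
import Pool.Agent.Work.MP_44129c_co.ThmA
import Pool.Agent.Work.MP_44129c_co.Balanced
import Pool.Agent.Work.MP_44129c_co.TwoCol
import Pool.Agent.Work.MP_44129c_co.Glob
import Pool.Agent.Work.MP_44129c_co.LiftB
import Pool.Agent.Work.MP_44129c_co.Thresh
import Pool.Agent.Work.MP_44129c_co.RandMF
import Pool.Agent.Work.MP_44129c_co.CardLe

/-!
# MP_44129c_co, module MainLarge (assembly, helper68)
-/

set_option autoImplicit false

namespace ZS44129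

open Finset

/-- threshold colouring of an integer lift. -/
theorem mf_of_lift {m : ℕ} {V : Type} [Fintype V] [DecidableEq V] (c : V → V → ZMod m)
    (a b : ZMod m) (hz : ZSF m c) (hm : 0 < m)
    (hN : 10 ^ 4 ≤ Fintype.card V) (hm1 : Fintype.card V ≤ 2 * m)
    (hm2 : 4 * 10 ^ 4 * m ≤ (3 * 10 ^ 4 + 1) * Fintype.card V)
    (d : V → V → ℤ) (hd1 : ∀ u v, d u v = d v u)
    (hd2 : ∀ u v, u ≠ v → d u v • (b - a) = c u v - a)
    (hd3 : ∀ u v, u ≠ v → 20 * |d u v| ≤ Fintype.card V)
    (hd4 : ∀ u, 400 * ((univ.erase u).filter (fun w => ¬ (d u w = 0 ∨ d u w = 1))).card ≤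
        Fintype.card V)
    (hd5 : ∀ u, 195 * Fintype.card V ≤ 400 * ((univ.erase u).filter (fun w => d u w = 0)).card)
    (hd6 : ∀ u, 195 * Fintype.card V ≤ 400 * ((univ.erase u).filter (fun w => d u w = 1)).card) :
    ∃ b' : V → V → Bool, (∀ x y, b' x y = b' y x) ∧ MF m b' := by
  have key : ∀ u v : V, u ≠ v → ∀ X Y : Finset V, Disjoint X Y → u ∉ X → v ∉ X → u ∉ Y →
      v ∉ Y → X.card + Y.card + 1 = m →
      ((d u v + ∑ x ∈ X, d u x + ∑ y ∈ Y, d v y) • (b - a) ≠ 0) := by
    intro u v huv X Y hXY huX hvX huY hvY hc h0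
    apply hz u v huv X Y hXY huX hvX huY hvY hc
    have e1 : ∑ x ∈ X, c u x = ∑ x ∈ X, (d u x • (b - a) + a) := by
      refine Finset.sum_congr rfl fun x hx => ?_
      rw [hd2 u x (fun h => huX (h ▸ hx))]; ring
    have e2 : ∑ y ∈ Y, c v y = ∑ y ∈ Y, (d v y • (b - a) + a) := by
      refine Finset.sum_congr rfl fun y hy => ?_
      rw [hd2 v y (fun h => hvY (h ▸ hy))]; ring
    have e3 : c u v = d u v • (b - a) + a := by rw [hd2 u v huv]; ring
    rw [e1, e2, e3, Finset.sum_add_distrib, Finset.sum_add_distrib, Finset.sum_const,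
      Finset.sum_const, ← Finset.sum_smul, ← Finset.sum_smul]
    have e4 : ((X.card + Y.card + 1 : ℕ) : ZMod m) * a = 0 := by
      rw [hc]; simp
    have e5 : (d u v + ∑ x ∈ X, d u x + ∑ y ∈ Y, d v y) • (b - a) =
        d u v • (b - a) + (∑ x ∈ X, d u x) • (b - a) + (∑ y ∈ Y, d v y) • (b - a) := by
      rw [add_smul, add_smul]
    rw [e5] at h0
    simp only [nsmul_eq_mul]
    push_cast at e4
    linear_combination h0 + e4
  have hne_m : ∀ u v : V, u ≠ v → ∀ X Y : Finset V, Disjoint X Y → u ∉ X → v ∉ X → u ∉ Y →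
      v ∉ Y → X.card + Y.card + 1 = m →
      d u v + ∑ x ∈ X, d u x + ∑ y ∈ Y, d v y ≠ m := by
    intro u v huv X Y hXY huX hvX huY hvY hc h0
    apply key u v huv X Y hXY huX hvX huY hvY hc
    rw [h0]; simp
  have hne_0 : ∀ u v : V, u ≠ v → ∀ X Y : Finset V, Disjoint X Y → u ∉ X → v ∉ X → u ∉ Y →
      v ∉ Y → X.card + Y.card + 1 = m →
      (1 - d u v) + ∑ x ∈ X, (1 - d u x) + ∑ y ∈ Y, (1 - d v y) ≠ m := by
    intro u v huv X Y hXY huX hvX huY hvY hc h0
    apply key u v huv X Y hXY huX hvX huY hvY hc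
    have : d u v + ∑ x ∈ X, d u x + ∑ y ∈ Y, d v y = 0 := by
      rw [Finset.sum_sub_distrib, Finset.sum_sub_distrib] at h0
      simp only [Finset.sum_const, nsmul_eq_mul, mul_one] at h0
      have : ((X.card : ℤ) + Y.card + 1) = m := by exact_mod_cast hc
      linarith
    rw [this]; simp
  have hd3a : ∀ u v, u ≠ v → 19 * |d u v| ≤ Fintype.card V := by
    intro u v huv
    have := hd3 u v huv
    have h0 := abs_nonneg (d u v)
    omega
  have hd3b : ∀ u v, u ≠ v → 19 * |1 - d u v| ≤ Fintype.card V := by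
    intro u v huv
    have := hd3 u v huv
    have h0 : |1 - d u v| ≤ 1 + |d u v| := by
      have := abs_sub (1 : ℤ) (d u v)
      simpa using this
    have h1 : (10 ^ 4 : ℤ) ≤ Fintype.card V := by exact_mod_cast hN
    norm_num at h1
    omega
  have t1 := thresh d hd1 hN hm1 hm2 hd3a hd4 hd5 hne_m
  have t2 := thresh (m := m) (fun x y => 1 - d x y) (fun x y => by simp [hd1 x y]) hN hm1 hm2 hd3b
    (by
      intro u
      refine le_trans (Nat.mul_le_mul_left _ (Finset.card_le_card ?_)) (hd4 u)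
      intro w h
      simp only [Finset.mem_filter] at h ⊢
      exact ⟨h.1, by omega⟩)
    (by
      intro u
      refine le_trans (hd6 u) (Nat.mul_le_mul_left _ (Finset.card_le_card ?_))
      intro w h
      simp only [Finset.mem_filter] at h ⊢
      exact ⟨h.1, by omega⟩)
    hne_0
  refine ⟨fun x y => decide (1 ≤ d x y), fun x y => by simp [hd1 x y], ?_⟩
  intro u v huv X Y hXY huX hvX huY hvY hc ⟨hX, hY⟩
  by_cases h : 1 ≤ d u v
  · apply t1 u v huv X Y hXY huX hvX huY hvY hc
    refine ⟨h, fun x hx => ?_, fun y hy => ?_⟩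
    · have := hX x hx
      simpa [h] using this
    · have := hY y hy
      simpa [h] using this
  · apply t2 u v huv X Y hXY huX hvX huY hvY hc
    refine ⟨by omega, fun x hx => ?_, fun y hy => ?_⟩
    · have := hX x hx
      simp only [h, decide_false, decide_eq_false_iff_not] at this
      omega
    · have := hY y hy
      simp only [h, decide_false, decide_eq_false_iff_not] at this
      omega

theorem main_large : ∃ m₀ : ℕ, ∀ m : ℕ, m₀ ≤ m → ∀ N : ℕ, ∀ c : Fin N → Fin N → ZMod m,
    (∀ x y, c x y = c y x) → ZSF m c →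
      ∃ b : Fin N → Fin N → Bool, (∀ x y, b x y = b y x) ∧ MF m b := by
  classical
  obtain ⟨q, m1, hq, h1⟩ := few_unpopular (10 ^ 40) (by positivity)
  obtain ⟨A, C, h2⟩ := thmA q hq
  obtain ⟨m3, h3⟩ := balanced q A C
  obtain ⟨m4, h4⟩ := two_col q A C
  obtain ⟨m5, h5⟩ := rand_mf
  refine ⟨m1 + C + m3 + m4 + m5 + 10 ^ 5, fun m hm N c hsym hz => ?_⟩
  by_cases hN : (3 * 10 ^ 40 + 1) * N < 4 * 10 ^ 40 * m
  · exact h5 m (by omega) N hN
  push_neg at hN
  have hcard : Fintype.card (Fin N) = N := Fintype.card_fin N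
  have hmpos : 0 < m := by omega
  have hN2 : N ≤ 2 * m := by simpa using card_le_of_zsf hmpos c hz
  have hNm : 13 * m ≤ 10 * N := by omega
  have hN3 : 4 * 10 ^ 4 * m ≤ (3 * 10 ^ 4 + 1) * N := by omega
  -- few unpopular colours
  have hrare : ∀ u : Fin N, 10 ^ 40 *
      ((univ.erase u).filter (fun w => c u w ∉ pal q c u)).card ≤ N := by
    intro u
    have hs : (univ.erase u : Finset (Fin N)).card = N - 1 := by
      rw [Finset.card_erase_of_mem (Finset.mem_univ u)]; simp
    have := h1 m (by omega) (univ.erase u) (c u) (by rw [hs]; omega) (by rw [hs]; omega)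
      (fun D hD hDc => zsf_star hmpos c hz u D (fun h => by
        have := hD h
        simp at this) hDc)
    refine le_trans (Nat.mul_le_mul_left _ (Finset.card_le_card ?_))
      (this.trans (by rw [hs]; omega))
    intro w hw
    simp only [pal, Finset.mem_filter, Finset.mem_image, not_and, not_le] at hw ⊢
    exact ⟨hw.1, hw.2 ⟨w, hw.1, rfl⟩⟩
  obtain ⟨H, L, hHL⟩ := h2 m (by omega) c hsym hz (by simpa using hNm) (by simpa using hN2)
    (fun u => by
      have := hrare u
      rw [hcard]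
      refine le_trans (Nat.mul_le_mul_right _ ?_) this
      norm_num)
  have hbal := h3 m (by omega) c H L hsym hHL (by rw [hcard]; exact hN)
    (fun u => by rw [hcard]; exact hrare u)
  have htc : ∀ u : Fin N, 1000 * (univ.filter (fun v => ¬ ∃ a b : ZMod m, TC c u v a b)).card ≤
      Fintype.card (Fin N) := by
    intro u
    refine le_trans (le_trans (Nat.mul_le_mul_left _ (Finset.card_le_card ?_))
      (Nat.mul_le_mul_right _ (show 1000 ≤ 10 ^ 4 by norm_num))) (hbal u)
    intro v hv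
    simp only [Finset.mem_filter, Finset.mem_univ, true_and] at hv ⊢
    intro hb
    exact hv (h4 m (by omega) c H L hHL (by rw [hcard]; exact hN3) (by rw [hcard]; exact hN2)
      u v hb)
  obtain ⟨a, b, hord, hT⟩ := glob (by omega) c (by rw [hcard]; omega) htc
  obtain ⟨d, hd1, hd2, hd3, hd4, hd5, hd6⟩ := lift_exists c a b hsym hz (by rw [hcard]; omega)
    (by rw [hcard]; exact hN2) (by rw [hcard]; exact hN3) hord hT
  exact mf_of_lift c a b hz hmpos (by rw [hcard]; omega) (by rw [hcard]; exact hN2)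
    (by rw [hcard]; exact hN3) d hd1 hd2 hd3 hd4 hd5 hd6

end ZS44129
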