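import Mathlib
import Pool.Agent.Work.MP_44129c_co.MainLarge
import Pool.Agent.Work.MP_44129c_co.HardDir

/-!
# MP_44129c_co, module Final (assembly, helper68)
-/

set_option autoImplicit false

namespace ZS44129

theorem final : ∃ m₀ : ℕ, ∀ m : ℕ, m₀ ≤ m → ∀ N : ℕ,
    ((∀ c : Fin N → Fin N → Fin 2, (∀ x y, c x y = c y x) →
        ∃ T : SimpleGraph (Fin (m + 1)), T.IsTree ∧ T.diam ≤ 3 ∧
          ∃ f : Fin (m + 1) → Fin N, Function.Injective f ∧ ∃ i : Fin 2,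
            ∀ u v : Fin (m + 1), T.Adj u v → c (f u) (f v) = i) ↔
     (∀ c : Fin N → Fin N → ZMod m, (∀ x y, c x y = c y x) →
        ∃ T : SimpleGraph (Fin (m + 1)), T.IsTree ∧ T.diam ≤ 3 ∧
          ∃ f : Fin (m + 1) → Fin N, Function.Injective f ∧
            (∑ᶠ (p : Fin (m + 1) × Fin (m + 1)) (_ : T.Adj p.1 p.2 ∧ p.1 < p.2),
                c (f p.1) (f p.2)) = 0)) := by
  obtain ⟨m₀, h⟩ := main_large
  refine ⟨m₀ + 2, fun m hm N => ⟨fun h2 => ?_, fun hz => ?_⟩⟩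
  · exact hard_dir (by omega) (h m (by omega) N) h2
  · exact easy_dir (by omega) hz

end ZS44129
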